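import Pool.Agent.Y749.Rig.Tst2

/-! # The test functions `(1 - t x²) (cos (π x) / (1 - 4 x²))²` -/

set_option autoImplicit false

open MeasureTheory Set Filter Topology
open Complex (I)

namespace Pool.Agent.P8H16.GL

open Pool.Agent.Y749.Rig

/-- the functions `a (1 - |α|) cos (π α) + b sin (π |α|)` on `[-1, 1]` -/
noncomputable def ps (a b α : ℝ) : ℝ :=
  a * (max (1 - |α|) 0 * Real.cos (Real.pi * α)) + b * Real.sin (Real.pi * min |α| 1)

lemma ps_even (a b α : ℝ) : ps a b (-α) = ps a b α := by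
  unfold ps
  rw [abs_neg, mul_neg, Real.cos_neg]

lemma ps_supp (a b α : ℝ) (h : 1 ≤ |α|) : ps a b α = 0 := by
  unfold ps
  rw [max_eq_right (by linarith), min_eq_right h, mul_one, Real.sin_pi]
  ring

lemma ps_eq (a b : ℝ) {α : ℝ} (h0 : 0 ≤ α) (h1 : α ≤ 1) :
    ps a b α = a * ((1 - α) * Real.cos (Real.pi * α)) + b * Real.sin (Real.pi * α) := by
  unfold ps
  rw [abs_of_nonneg h0, max_eq_left (by linarith), min_eq_left h1]

lemma abs_sin_sub_le (x y : ℝ) : |Real.sin x - Real.sin y| ≤ |x - y| := by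
  have h := Real.lipschitzWith_sin.dist_le_mul x y
  rwa [Real.dist_eq, Real.dist_eq, NNReal.coe_one, one_mul] at h

lemma abs_cos_sub_le (x y : ℝ) : |Real.cos x - Real.cos y| ≤ |x - y| := by
  have h := Real.lipschitzWith_cos.dist_le_mul x y
  rwa [Real.dist_eq, Real.dist_eq, NNReal.coe_one, one_mul] at h

lemma ps_lip (a b : ℝ) : ∃ K : ℝ, ∀ x y, |ps a b x - ps a b y| ≤ K * |x - y| := by
  have hpi := Real.pi_pos
  refine ⟨|a| * (1 + Real.pi) + |b| * Real.pi, fun x y => ?_⟩
  have h1 : |max (1 - |x|) 0 - max (1 - |y|) 0| ≤ |x - y| := by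
    refine (abs_max_sub_max_le_abs _ _ _).trans ?_
    have : 1 - |x| - (1 - |y|) = |y| - |x| := by ring
    rw [this, abs_sub_comm x y]
    exact abs_abs_sub_abs_le _ _
  have h2 : |min |x| 1 - min |y| 1| ≤ |x - y| := by
    have h := abs_min_sub_min_le_max |x| 1 |y| 1
    rw [sub_self, abs_zero, max_eq_left (abs_nonneg _)] at h
    exact h.trans (abs_abs_sub_abs_le _ _)
  have h3 : |Real.cos (Real.pi * x) - Real.cos (Real.pi * y)| ≤ Real.pi * |x - y| := by
    refine (abs_cos_sub_le _ _).trans ?_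
    rw [← mul_sub, abs_mul, abs_of_pos hpi]
  have h4 : |Real.sin (Real.pi * min |x| 1) - Real.sin (Real.pi * min |y| 1)| ≤
      Real.pi * |x - y| := by
    refine (abs_sin_sub_le _ _).trans ?_
    rw [← mul_sub, abs_mul, abs_of_pos hpi]
    gcongr
  have h5 : |max (1 - |x|) 0| ≤ 1 := by
    rw [abs_of_nonneg (le_max_right _ _)]
    exact max_le (by linarith [abs_nonneg x]) zero_le_one
  have h6 := Real.abs_cos_le_one (Real.pi * y)
  unfold ps
  have e : a * (max (1 - |x|) 0 * Real.cos (Real.pi * x)) + b * Real.sin (Real.pi * min |x| 1) -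
      (a * (max (1 - |y|) 0 * Real.cos (Real.pi * y)) + b * Real.sin (Real.pi * min |y| 1)) =
      a * (max (1 - |x|) 0 * (Real.cos (Real.pi * x) - Real.cos (Real.pi * y)) +
        (max (1 - |x|) 0 - max (1 - |y|) 0) * Real.cos (Real.pi * y)) +
      b * (Real.sin (Real.pi * min |x| 1) - Real.sin (Real.pi * min |y| 1)) := by ring
  rw [e]
  refine (abs_add_le _ _).trans ?_
  rw [abs_mul, abs_mul]
  have h7 : |max (1 - |x|) 0 * (Real.cos (Real.pi * x) - Real.cos (Real.pi * y)) +
        (max (1 - |x|) 0 - max (1 - |y|) 0) * Real.cos (Real.pi * y)| ≤ (1 + Real.pi) * |x - y| := by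
    refine (abs_add_le _ _).trans ?_
    rw [abs_mul, abs_mul]
    have g1 : |max (1 - |x|) 0| * |Real.cos (Real.pi * x) - Real.cos (Real.pi * y)| ≤
        1 * (Real.pi * |x - y|) := by gcongr
    have g2 : |max (1 - |x|) 0 - max (1 - |y|) 0| * |Real.cos (Real.pi * y)| ≤ |x - y| * 1 := by
      gcongr
    linarith
  have h8 : |a| * |max (1 - |x|) 0 * (Real.cos (Real.pi * x) - Real.cos (Real.pi * y)) +
        (max (1 - |x|) 0 - max (1 - |y|) 0) * Real.cos (Real.pi * y)| ≤
        |a| * ((1 + Real.pi) * |x - y|) := by gcongr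
  have h9 : |b| * |Real.sin (Real.pi * min |x| 1) - Real.sin (Real.pi * min |y| 1)| ≤
      |b| * (Real.pi * |x - y|) := by gcongr
  linarith

lemma ps_cont (a b : ℝ) : Continuous (ps a b) := by
  unfold ps
  fun_prop

lemma ps_int (a b : ℝ) : Integrable (ps a b) := by
  refine (ps_cont a b).integrable_of_hasCompactSupport ?_
  refine HasCompactSupport.of_support_subset_isCompact (isCompact_Icc (a := -1) (b := 1)) ?_
  intro x hx
  by_contra hcon
  apply hx
  apply ps_supp
  by_contra h2
  push Not at h2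
  exact hcon ⟨(abs_lt.1 h2).1.le, (abs_lt.1 h2).2.le⟩

lemma cos_pi_add (w : ℂ) : Complex.cos (Real.pi + w) = -Complex.cos w := by
  rw [add_comm]
  exact Complex.cos_add_pi w

lemma cos_pi_sub (w : ℂ) : Complex.cos (Real.pi - w) = -Complex.cos w := by
  exact Complex.cos_pi_sub w

lemma FL_ps (a b : ℝ) {z : ℂ} (hp : (Real.pi : ℂ) + 2 * Real.pi * z ≠ 0)
    (hm : (Real.pi : ℂ) - 2 * Real.pi * z ≠ 0) :
    FL (ps a b) z = (1 + Complex.cos (2 * Real.pi * z)) *
      (a * (1 / (Real.pi + 2 * Real.pi * z) ^ 2 + 1 / (Real.pi - 2 * Real.pi * z) ^ 2) +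
        b * (1 / (Real.pi + 2 * Real.pi * z) + 1 / (Real.pi - 2 * Real.pi * z))) := by
  obtain ⟨w, hw⟩ : ∃ w : ℂ, w = 2 * Real.pi * z := ⟨_, rfl⟩
  rw [← hw] at hp hm ⊢
  unfold FL
  rw [int_supp one_pos (fun x hx => by rw [ps_supp a b x hx]; simp)]
  have hc : Continuous fun α : ℝ => (ps a b α : ℂ) * Complex.exp (2 * Real.pi * I * α * z) := by
    have := ps_cont a b
    fun_prop
  rw [← intervalIntegral.integral_add_adjacent_intervals (b := 0) (hc.intervalIntegrable _ _)
    (hc.intervalIntegrable _ _)]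
  have h5 : ∫ α in (-1 : ℝ)..0, (ps a b α : ℂ) * Complex.exp (2 * Real.pi * I * α * z) =
      ∫ α in (0 : ℝ)..1, (ps a b α : ℂ) * Complex.exp (-(2 * Real.pi * I * α * z)) := by
    have := intervalIntegral.integral_comp_neg (a := (0 : ℝ)) (b := 1)
      fun α : ℝ => (ps a b α : ℂ) * Complex.exp (2 * Real.pi * I * α * z)
    rw [neg_zero] at this
    rw [← this]
    refine intervalIntegral.integral_congr fun α _ => ?_
    show (ps a b (-α) : ℂ) * Complex.exp (2 * Real.pi * I * ((-α : ℝ) : ℂ) * z) = _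
    rw [ps_even]
    congr 2
    push_cast; ring
  have hc2 : Continuous fun α : ℝ => (ps a b α : ℂ) * Complex.exp (-(2 * Real.pi * I * α * z)) := by
    have := ps_cont a b
    fun_prop
  rw [h5, ← intervalIntegral.integral_add (hc2.intervalIntegrable _ _) (hc.intervalIntegrable _ _)]
  have h6 : ∫ α in (0 : ℝ)..1, ((ps a b α : ℂ) * Complex.exp (-(2 * Real.pi * I * α * z)) +
      (ps a b α : ℂ) * Complex.exp (2 * Real.pi * I * α * z)) =
      ∫ α in (0 : ℝ)..1, ((a : ℂ) * ((1 - α) * (Complex.cos ((Real.pi + w) * α) +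
        Complex.cos ((Real.pi - w) * α))) + b * (Complex.sin ((Real.pi + w) * α) +
        Complex.sin ((Real.pi - w) * α))) := by
    refine intervalIntegral.integral_congr fun α hα => ?_
    rw [uIcc_of_le zero_le_one] at hα
    have e1 : (ps a b α : ℂ) = a * ((1 - α) * Complex.cos (Real.pi * α)) +
        b * Complex.sin (Real.pi * α) := by
      rw [ps_eq a b hα.1 hα.2]; push_cast; ring
    have e2 : Complex.exp (-(2 * Real.pi * I * α * z)) + Complex.exp (2 * Real.pi * I * α * z) =
        2 * Complex.cos (w * α) := by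
      rw [Complex.cos, hw]
      have e1 : 2 * (Real.pi : ℂ) * z * α * I = 2 * Real.pi * I * α * z := by ring
      have e2 : -(2 * (Real.pi : ℂ) * z * α) * I = -(2 * Real.pi * I * α * z) := by ring
      rw [e1, e2]
      ring
    have e3 : Complex.cos ((Real.pi + w) * α) + Complex.cos ((Real.pi - w) * α) =
        2 * Complex.cos (Real.pi * α) * Complex.cos (w * α) := by
      rw [add_mul, sub_mul, Complex.cos_add, Complex.cos_sub]; ring
    have e4 : Complex.sin ((Real.pi + w) * α) + Complex.sin ((Real.pi - w) * α) =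
        2 * Complex.sin (Real.pi * α) * Complex.cos (w * α) := by
      rw [add_mul, sub_mul, Complex.sin_add, Complex.sin_sub]; ring
    rw [e3, e4, ← mul_add, e2, e1]
    ring
  rw [h6]
  have key : ∀ q : ℂ, q ≠ 0 → ∀ α : ℝ, HasDerivAt (fun α : ℝ => (a : ℂ) *
      ((1 - α) * (Complex.sin (q * α) / q) - Complex.cos (q * α) / q ^ 2) -
      b * (Complex.cos (q * α) / q))
      ((a : ℂ) * ((1 - α) * Complex.cos (q * α)) + b * Complex.sin (q * α)) α := by
    intro q hq α
    have d0 : HasDerivAt (fun α : ℝ => (α : ℂ)) 1 α := Complex.ofRealCLM.hasDerivAt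
    have d1 : HasDerivAt (fun α : ℝ => q * (α : ℂ)) (q * 1) α := d0.const_mul _
    have d2 : HasDerivAt (fun α : ℝ => (1 - α : ℂ)) (-1) α := d0.const_sub _
    have d3 := (Complex.hasDerivAt_sin (q * (α : ℂ))).comp α d1
    have d4 := (Complex.hasDerivAt_cos (q * (α : ℂ))).comp α d1
    refine ((((d2.mul (d3.div_const q)).sub (d4.div_const (q ^ 2))).const_mul (a : ℂ)).sub
      ((d4.div_const q).const_mul (b : ℂ))).congr_deriv ?_
    simp only [Function.comp_apply]
    field_simp
    ring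
  have hd : ∀ α : ℝ, HasDerivAt (fun α : ℝ => ((a : ℂ) *
      ((1 - α) * (Complex.sin ((Real.pi + w) * α) / (Real.pi + w)) -
        Complex.cos ((Real.pi + w) * α) / (Real.pi + w) ^ 2) -
      b * (Complex.cos ((Real.pi + w) * α) / (Real.pi + w))) + ((a : ℂ) *
      ((1 - α) * (Complex.sin ((Real.pi - w) * α) / (Real.pi - w)) -
        Complex.cos ((Real.pi - w) * α) / (Real.pi - w) ^ 2) -
      b * (Complex.cos ((Real.pi - w) * α) / (Real.pi - w))))
      ((a : ℂ) * ((1 - α) * (Complex.cos ((Real.pi + w) * α) +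
        Complex.cos ((Real.pi - w) * α))) + b * (Complex.sin ((Real.pi + w) * α) +
        Complex.sin ((Real.pi - w) * α))) α := by
    intro α
    refine ((key _ hp α).add (key _ hm α)).congr_deriv ?_
    ring
  rw [intervalIntegral.integral_eq_sub_of_hasDerivAt (fun α _ => hd α)]
  · simp only [Complex.ofReal_zero, mul_zero, Complex.sin_zero, Complex.cos_zero, zero_div,
      Complex.ofReal_one, mul_one, sub_self, zero_mul, sub_zero, zero_sub]
    rw [cos_pi_add, cos_pi_sub]
    field_simp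
    ring
  · apply Continuous.intervalIntegrable
    fun_prop

end Pool.Agent.P8H16.GL
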