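import Pool.Agent.P8H16.GL9

/-! # Twice differentiable windows -/

set_option autoImplicit false

open MeasureTheory Set Filter Topology

namespace Pool.Agent.P8H16.GL

open Pool.Agent.Y749.Rig
open Pool.Agent.Y749.AH
open SG (ord NZ zmult ZS)
open Complex (I)

lemma norm_ker (α x y : ℝ) : ‖Complex.exp (2 * Real.pi * I * α * (x + y * I))‖ =
    Real.exp (-(2 * Real.pi * α * y)) := by
  rw [Complex.norm_exp]
  congr 1
  simp only [Complex.mul_re, Complex.mul_im, Complex.add_re, Complex.add_im, Complex.I_re,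
    Complex.I_im, Complex.ofReal_re, Complex.ofReal_im, Complex.re_ofNat, Complex.im_ofNat]
  ring

lemma FL_le {φ : ℝ → ℝ} {κ : ℝ} (hφ : Continuous φ) (hc : HasCompactSupport φ)
    (hs : ∀ x, κ < |x| → φ x = 0) (x y : ℝ) :
    ‖FL φ (x + y * I)‖ ≤ (∫ α, |φ α|) * Real.exp (2 * Real.pi * κ * |y|) := by
  have hpi := Real.pi_pos
  unfold FL
  rw [← integral_mul_const]
  refine norm_integral_le_of_norm_le ?_ (ae_of_all _ fun α => ?_)
  · exact ((hφ.integrable_of_hasCompactSupport hc).abs).mul_const _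
  · rw [norm_mul, norm_ker, Complex.norm_real, Real.norm_eq_abs]
    by_cases h : κ < |α|
    · rw [hs α h]; simp
    · refine mul_le_mul_of_nonneg_left ?_ (abs_nonneg _)
      apply Real.exp_le_exp.2
      have h1 : -(α * y) ≤ |α| * |y| := by rw [← abs_mul]; exact neg_le_abs _
      have h2 : |α| * |y| ≤ κ * |y| := mul_le_mul_of_nonneg_right (not_lt.1 h) (abs_nonneg _)
      have h3 : -(2 * Real.pi * α * y) = 2 * Real.pi * (-(α * y)) := by ring
      have h4 : 2 * Real.pi * κ * |y| = 2 * Real.pi * (κ * |y|) := by ring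
      rw [h3, h4]
      exact mul_le_mul_of_nonneg_left (h1.trans h2) (by positivity)

lemma FL_parts {φ : ℝ → ℝ} (hφ : ContDiff ℝ 1 φ) (hc : HasCompactSupport φ) {z : ℂ} (hz : z ≠ 0) :
    FL φ z = -(2 * Real.pi * I * z)⁻¹ * FL (deriv φ) z := by
  have hpi : (Real.pi : ℂ) ≠ 0 := by exact_mod_cast Real.pi_ne_zero
  have hw : 2 * Real.pi * I * z ≠ 0 := by
    refine mul_ne_zero (mul_ne_zero (mul_ne_zero two_ne_zero hpi) Complex.I_ne_zero) hz
  have hd : ∀ α : ℝ, HasDerivAt (fun α : ℝ => ((φ α : ℝ) : ℂ)) ((deriv φ α : ℝ) : ℂ) α := by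
    intro α
    exact ((hφ.differentiable (by norm_num)) α).hasDerivAt.ofReal_comp
  have hv : ∀ α : ℝ, HasDerivAt (fun α : ℝ => (2 * Real.pi * I * z)⁻¹ *
      Complex.exp (2 * Real.pi * I * α * z)) (Complex.exp (2 * Real.pi * I * α * z)) α := by
    intro α
    have h1 : HasDerivAt (fun α : ℝ => 2 * Real.pi * I * (α : ℂ) * z)
        (2 * Real.pi * I * z) α := by
      have h2 : HasDerivAt (fun α : ℝ => (α : ℂ)) 1 α := Complex.ofRealCLM.hasDerivAt
      have h3 := (h2.const_mul (2 * Real.pi * I : ℂ)).mul_const z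
      rw [mul_one] at h3
      exact h3
    have h4 := (h1.cexp).const_mul (2 * Real.pi * I * z)⁻¹
    refine h4.congr_deriv ?_
    field_simp
  have hcd : Continuous (deriv φ) := hφ.continuous_deriv le_rfl
  have hcs : HasCompactSupport (deriv φ) := hc.deriv
  have hi1 : Integrable fun α : ℝ => ((φ α : ℝ) : ℂ) * Complex.exp (2 * Real.pi * I * α * z) := by
    refine Continuous.integrable_of_hasCompactSupport ?_ ?_
    · have := hφ.continuous
      fun_prop
    · exact (hc.comp_left (g := fun x : ℝ => (x : ℂ)) (by simp)).mul_right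
  have hi2 : Integrable fun α : ℝ => ((deriv φ α : ℝ) : ℂ) * ((2 * Real.pi * I * z)⁻¹ *
      Complex.exp (2 * Real.pi * I * α * z)) := by
    refine Continuous.integrable_of_hasCompactSupport ?_ ?_
    · fun_prop
    · exact (hcs.comp_left (g := fun x : ℝ => (x : ℂ)) (by simp)).mul_right
  have hi3 : Integrable fun α : ℝ => ((φ α : ℝ) : ℂ) * ((2 * Real.pi * I * z)⁻¹ *
      Complex.exp (2 * Real.pi * I * α * z)) := by
    refine Continuous.integrable_of_hasCompactSupport ?_ ?_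
    · have := hφ.continuous
      fun_prop
    · exact (hc.comp_left (g := fun x : ℝ => (x : ℂ)) (by simp)).mul_right
  have h := integral_mul_deriv_eq_deriv_mul_of_integrable (fun α _ => hd α) (fun α _ => hv α)
    hi1 hi2 hi3
  unfold FL
  rw [h, ← integral_const_mul, ← integral_neg]
  refine integral_congr_ae (ae_of_all _ fun α => ?_)
  simp only
  ring

/-- **twice differentiable windows are admissible** -/
theorem adm_C2 {ψ : ℝ → ℝ} {κ : ℝ} (h2 : ContDiff ℝ 2 ψ) (he : ∀ x, ψ (-x) = ψ x)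
    (hs : ∀ x, κ ≤ |x| → ψ x = 0) : Adm κ ψ := by
  have hpi := Real.pi_pos
  have hcs : HasCompactSupport ψ := by
    refine HasCompactSupport.intro (K := Icc (-κ) κ) isCompact_Icc fun x hx => hs x ?_
    by_contra hcon
    apply hx
    rw [mem_Icc]
    exact ⟨by linarith [neg_abs_le x, not_le.1 hcon], by linarith [le_abs_self x, not_le.1 hcon]⟩
  have h1 : ContDiff ℝ 1 ψ := h2.of_le (by norm_num)
  have hd1 : ContDiff ℝ 1 (deriv ψ) := by
    have : ContDiff ℝ (1 + 1) ψ := h2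
    exact (contDiff_succ_iff_deriv.1 this).2.2
  have hcd : Continuous (deriv (deriv ψ)) := hd1.continuous_deriv le_rfl
  have hcs1 : HasCompactSupport (deriv ψ) := hcs.deriv
  have hcs2 : HasCompactSupport (deriv (deriv ψ)) := hcs1.deriv
  have hdz : ∀ φ : ℝ → ℝ, (∀ x, κ < |x| → φ x = 0) → ∀ x, κ < |x| → deriv φ x = 0 := by
    intro φ hφ x hx
    have h3 : φ =ᶠ[𝓝 x] fun _ => 0 := by
      have h4 : ∀ᶠ y in 𝓝 x, κ < |y| := (continuous_abs.tendsto x).eventually (lt_mem_nhds hx)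
      filter_upwards [h4] with y hy
      exact hφ y hy
    rw [h3.deriv_eq]
    simp
  have hs0 : ∀ x, κ < |x| → ψ x = 0 := fun x hx => hs x hx.le
  have hs2 := hdz _ (hdz _ hs0)
  refine ⟨he, ?_, hs, ?_⟩
  · obtain ⟨C, hC⟩ := h1.lipschitzWith_of_hasCompactSupport hcs (by norm_num)
    refine ⟨C, fun x y => ?_⟩
    have := hC.dist_le_mul x y
    rw [Real.dist_eq, Real.dist_eq] at this
    exact this
  · obtain ⟨A, hA⟩ : ∃ A : ℝ, A = ∫ α, |ψ α| := ⟨_, rfl⟩
    obtain ⟨B, hB⟩ : ∃ B : ℝ, B = ∫ α, |deriv (deriv ψ) α| := ⟨_, rfl⟩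
    have hA0 : 0 ≤ A := by rw [hA]; exact integral_nonneg fun _ => abs_nonneg _
    have hB0 : 0 ≤ B := by rw [hB]; exact integral_nonneg fun _ => abs_nonneg _
    refine ⟨2 * A + B, fun x y => ?_⟩
    have hE := Real.exp_pos (2 * Real.pi * κ * |y|)
    rw [le_div_iff₀ (by positivity)]
    rcases le_total |x| 1 with hx | hx
    · have h3 := FL_le h2.continuous hcs hs0 x y
      rw [← hA] at h3
      have h4 : x ^ 2 ≤ 1 := by rw [← sq_abs]; nlinarith [abs_nonneg x]
      have h5 : ‖FL ψ (x + y * I)‖ * (1 + x ^ 2) ≤ A * Real.exp (2 * Real.pi * κ * |y|) * 2 := by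
        refine mul_le_mul h3 (by linarith) (by positivity) (by positivity)
      have h6 : 0 ≤ B * Real.exp (2 * Real.pi * κ * |y|) := by positivity
      linarith
    · have hz : ((x : ℂ) + y * I) ≠ 0 := by
        intro h0
        have := congrArg Complex.re h0
        simp at this
        rw [this] at hx
        simp at hx
        linarith
      have h3 : FL ψ (x + y * I) = (-(2 * Real.pi * I * ((x : ℂ) + y * I))⁻¹) ^ 2 *
          FL (deriv (deriv ψ)) (x + y * I) := by
        rw [FL_parts h1 hcs hz, FL_parts hd1 hcs1 hz]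
        ring
      have h4 := FL_le hcd hcs2 hs2 x y
      rw [← hB] at h4
      have h5 : |x| ≤ ‖(x : ℂ) + y * I‖ := by
        have := Complex.abs_re_le_norm ((x : ℂ) + y * I)
        simpa using this
      have h6 : 0 < |x| := by linarith
      have h7 : ‖(-(2 * Real.pi * I * ((x : ℂ) + y * I))⁻¹) ^ 2‖ ≤ 1 / (2 * x ^ 2) := by
        rw [norm_pow, norm_neg, norm_inv, norm_mul, norm_mul, norm_mul, Complex.norm_I,
          Complex.norm_real, Real.norm_eq_abs, abs_of_pos hpi]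
        have h8 : ‖(2 : ℂ)‖ = 2 := by simp
        rw [h8, mul_one, ← one_div, div_pow, one_pow]
        apply one_div_le_one_div_of_le
        · have : 0 < x ^ 2 := by rw [← sq_abs]; positivity
          positivity
        · rw [mul_pow]
          have h9 : x ^ 2 ≤ ‖(x : ℂ) + y * I‖ ^ 2 := by
            rw [← sq_abs]
            exact pow_le_pow_left₀ h6.le h5 2
          have h10 : 2 ≤ (2 * Real.pi) ^ 2 := by nlinarith [Real.pi_gt_three]
          exact mul_le_mul h10 h9 (sq_nonneg _) (by positivity)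
      rw [h3, norm_mul]
      have hx2 : 1 ≤ x ^ 2 := by rw [← sq_abs]; nlinarith
      have h8 : ‖(-(2 * Real.pi * I * ((x : ℂ) + y * I))⁻¹) ^ 2‖ *
          ‖FL (deriv (deriv ψ)) (x + y * I)‖ ≤
          1 / (2 * x ^ 2) * (B * Real.exp (2 * Real.pi * κ * |y|)) :=
        mul_le_mul h7 h4 (norm_nonneg _) (by positivity)
      have h9 : 1 / (2 * x ^ 2) * (1 + x ^ 2) ≤ 1 := by
        rw [div_mul_eq_mul_div, one_mul, div_le_one (by positivity)]
        linarith
      have h10 : 0 ≤ A * Real.exp (2 * Real.pi * κ * |y|) := by positivity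
      have h11 : 0 ≤ B * Real.exp (2 * Real.pi * κ * |y|) := by positivity
      calc _ ≤ 1 / (2 * x ^ 2) * (B * Real.exp (2 * Real.pi * κ * |y|)) * (1 + x ^ 2) :=
            mul_le_mul_of_nonneg_right h8 (by positivity)
        _ = (1 / (2 * x ^ 2) * (1 + x ^ 2)) * (B * Real.exp (2 * Real.pi * κ * |y|)) := by ring
        _ ≤ 1 * (B * Real.exp (2 * Real.pi * κ * |y|)) := mul_le_mul_of_nonneg_right h9 h11
        _ ≤ _ := by linarith

/-- **the gaps are dominated by the pair correlation** -/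
theorem dominated (hRH : RiemannHypothesis) {ψ : ℝ → ℝ} {κ : ℝ} (h2 : ContDiff ℝ 2 ψ)
    (he : ∀ x, ψ (-x) = ψ x) (hκ : κ < 1) (hs : ∀ x, κ ≤ |x| → ψ x = 0)
    (hg : ∀ x, 0 ≤ fl ψ x) {ε : ℝ} (hε : 0 < ε) : ∀ᶠ N : ℕ in atTop,
    ∑ j ∈ Finset.Ioc 0 N, fl ψ (dj j) ≤ (1 / 2 * (∫ x, fl ψ x * FF x) + ε) * N := by
  obtain ⟨κ', hκ'⟩ : ∃ κ' : ℝ, κ' = max κ (1 / 2) := ⟨_, rfl⟩
  have h0 : 0 < κ' := by rw [hκ']; exact lt_max_of_lt_right (by norm_num)
  have h1 : κ' < 1 := by rw [hκ']; exact max_lt hκ (by norm_num)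
  have hA : Adm κ' ψ := adm_C2 h2 he fun x hx => hs x ((le_max_left _ _).trans (hκ' ▸ hx))
  have hG := gue hA h1.le
  obtain ⟨J, hJ⟩ : ∃ J : ℝ, J = ∫ x, fl ψ x * FF x := ⟨_, rfl⟩
  have hJ0 : 0 ≤ J := by
    rw [hJ]
    refine integral_nonneg fun x => mul_nonneg (hg x) ?_
    unfold FF
    have h3 : |Real.sin (Real.pi * x) / (Real.pi * x)| ≤ 1 := by
      rw [abs_div]
      exact div_le_one_of_le₀ Real.abs_sin_le_abs (abs_nonneg _)
    have h4 : (Real.sin (Real.pi * x) / (Real.pi * x)) ^ 2 ≤ 1 := by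
      rw [← sq_abs]
      have := abs_nonneg (Real.sin (Real.pi * x) / (Real.pi * x))
      nlinarith
    linarith
  rw [← hJ] at hG ⊢
  have e1 : (cc ψ - fl ψ 0) / 2 = 1 / 2 * J := by rw [← hG]; ring
  obtain ⟨η, hη⟩ : ∃ η : ℝ, η = min 1 (ε / (J + ε + 2)) := ⟨_, rfl⟩
  have hη0 : 0 < η := by rw [hη]; exact lt_min one_pos (by positivity)
  have hη1 : η ≤ 1 := by rw [hη]; exact min_le_left _ _
  have hη2 : η * (J + ε + 2) ≤ ε := by
    have : η ≤ ε / (J + ε + 2) := by rw [hη]; exact min_le_right _ _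
    rwa [le_div_iff₀ (by positivity)] at this
  filter_upwards [SG.ord_tendsto.eventually (gaps_up hRH hA h0 h1 hg (show 0 < ε / 4 by positivity)),
    NZ_ord hη0, eventually_ge_atTop 1] with N g1 g2 g3
  have hsub : Finset.Ioc 0 N ⊆ II (ord N) := by
    unfold II
    exact Finset.Ioc_subset_Ioc_right (SG.le_NZ_ord g3)
  refine (Finset.sum_le_sum_of_subset_of_nonneg hsub fun j _ _ => hg _).trans (g1.trans ?_)
  rw [e1]
  have hN0 : (0 : ℝ) ≤ N := Nat.cast_nonneg N
  refine (mul_le_mul_of_nonneg_left g2 (by positivity)).trans ?_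
  rw [← mul_assoc]
  refine mul_le_mul_of_nonneg_right ?_ hN0
  nlinarith

end Pool.Agent.P8H16.GL
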