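import Pool.Agent.P8H16.GL1

/-! # The test functions `(1 - t x²) (cos (π x) / (1 - 4 x²))²`: admissibility, dilations -/

set_option autoImplicit false

open MeasureTheory Set Filter Topology
open Complex (I)

namespace Pool.Agent.P8H16.GL

open Pool.Agent.Y749.Rig

lemma norm_low {x : ℝ} (hx : 1 ≤ |x|) (z : ℂ) (hz : z.re = x) :
    |x| ≤ ‖1 + 2 * z‖ ∧ |x| ≤ ‖1 - 2 * z‖ := by
  have h1 : |(1 + 2 * z).re| ≤ ‖1 + 2 * z‖ := Complex.abs_re_le_norm _
  have h2 : |(1 - 2 * z).re| ≤ ‖1 - 2 * z‖ := Complex.abs_re_le_norm _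
  have e1 : (1 + 2 * z).re = 1 + 2 * x := by simp [hz]
  have e2 : (1 - 2 * z).re = 1 - 2 * x := by simp [hz]
  rw [e1] at h1
  rw [e2] at h2
  constructor
  · refine le_trans ?_ h1
    rcases le_or_gt 0 x with h | h
    · rw [abs_of_nonneg h] at hx ⊢
      rw [abs_of_nonneg (by linarith)]; linarith
    · rw [abs_of_neg h] at hx ⊢
      rw [abs_of_neg (by linarith)]; linarith
  · refine le_trans ?_ h2
    rcases le_or_gt 0 x with h | h
    · rw [abs_of_nonneg h] at hx ⊢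
      rw [abs_of_neg (by linarith)]; linarith
    · rw [abs_of_neg h] at hx ⊢
      rw [abs_of_nonneg (by linarith)]; linarith

lemma adm_ps (a b : ℝ) : Adm 1 (ps a b) := by
  refine ⟨ps_even a b, ps_lip a b, ps_supp a b, ?_⟩
  have hpi := Real.pi_pos
  obtain ⟨C1, hC1⟩ : ∃ C : ℝ, C = 2 * ∫ x, |ps a b x| := ⟨_, rfl⟩
  obtain ⟨C2, hC2⟩ : ∃ C : ℝ, C = 8 * (|a| + |b|) := ⟨_, rfl⟩
  have hint : 0 ≤ ∫ x, |ps a b x| := integral_nonneg fun x => abs_nonneg _
  have hC20 : 0 ≤ C2 := by rw [hC2]; positivity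
  refine ⟨C1 + C2, fun x y => ?_⟩
  have him : (x + y * I : ℂ).im = y := by simp
  have hre : (x + y * I : ℂ).re = x := by simp
  have hE := Real.exp_pos (2 * Real.pi * 1 * |y|)
  have hE1 : 1 ≤ Real.exp (2 * Real.pi * 1 * |y|) := Real.one_le_exp (by positivity)
  rcases le_or_gt (|x|) 1 with hx | hx
  · have h1 : ‖FL (ps a b) (x + y * I)‖ ≤
        (∫ x, |ps a b x|) * Real.exp (2 * Real.pi * 1 * |y|) := by
      unfold FL
      rw [← integral_mul_const]
      refine norm_integral_le_of_norm_le ((ps_int a b).abs.mul_const _) (ae_of_all _ fun α => ?_)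
      rw [norm_mul, Complex.norm_real, Real.norm_eq_abs]
      rcases le_or_gt 1 |α| with hα | hα
      · rw [ps_supp a b α hα]; simp
      · apply mul_le_mul_of_nonneg_left _ (abs_nonneg _)
        have := norm_exp_le hα.le (x + y * I)
        rwa [him] at this
    refine h1.trans ?_
    rw [le_div_iff₀ (by positivity)]
    have h2 : x ^ 2 ≤ 1 := by rw [← sq_abs]; exact pow_le_one₀ (abs_nonneg _) hx
    calc (∫ x, |ps a b x|) * Real.exp (2 * Real.pi * 1 * |y|) * (1 + x ^ 2) ≤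
          (∫ x, |ps a b x|) * Real.exp (2 * Real.pi * 1 * |y|) * 2 := by gcongr; linarith
      _ = C1 * Real.exp (2 * Real.pi * 1 * |y|) := by rw [hC1]; ring
      _ ≤ (C1 + C2) * Real.exp (2 * Real.pi * 1 * |y|) := by gcongr; linarith
  · obtain ⟨z, hz⟩ : ∃ z : ℂ, z = x + y * I := ⟨_, rfl⟩
    rw [← hz] at him hre ⊢
    obtain ⟨n1, n2⟩ := norm_low hx.le z hre
    have hx0 : 0 < |x| := by linarith
    have hpC : (Real.pi : ℂ) ≠ 0 := by exact_mod_cast hpi.ne'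
    have m1 : ‖(Real.pi : ℂ) + 2 * Real.pi * z‖ = Real.pi * ‖1 + 2 * z‖ := by
      have : (Real.pi : ℂ) + 2 * Real.pi * z = Real.pi * (1 + 2 * z) := by ring
      rw [this, norm_mul, Complex.norm_real, Real.norm_eq_abs, abs_of_pos hpi]
    have m2 : ‖(Real.pi : ℂ) - 2 * Real.pi * z‖ = Real.pi * ‖1 - 2 * z‖ := by
      have : (Real.pi : ℂ) - 2 * Real.pi * z = Real.pi * (1 - 2 * z) := by ring
      rw [this, norm_mul, Complex.norm_real, Real.norm_eq_abs, abs_of_pos hpi]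
    have q1 : |x| ≤ ‖(Real.pi : ℂ) + 2 * Real.pi * z‖ := by
      rw [m1]
      have : 1 * |x| ≤ Real.pi * ‖1 + 2 * z‖ :=
        mul_le_mul (by linarith [Real.pi_gt_three]) n1 hx0.le hpi.le
      linarith
    have q2 : |x| ≤ ‖(Real.pi : ℂ) - 2 * Real.pi * z‖ := by
      rw [m2]
      have : 1 * |x| ≤ Real.pi * ‖1 - 2 * z‖ :=
        mul_le_mul (by linarith [Real.pi_gt_three]) n2 hx0.le hpi.le
      linarith
    have hp : (Real.pi : ℂ) + 2 * Real.pi * z ≠ 0 := by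
      intro h; rw [h, norm_zero] at q1; linarith
    have hm : (Real.pi : ℂ) - 2 * Real.pi * z ≠ 0 := by
      intro h; rw [h, norm_zero] at q2; linarith
    rw [FL_ps a b hp hm, norm_mul]
    have h1 : ‖1 + Complex.cos (2 * Real.pi * z)‖ ≤ 2 * Real.exp (2 * Real.pi * 1 * |y|) := by
      have h2 := norm_cos_le (2 * Real.pi * z)
      have h3 : (2 * Real.pi * z : ℂ).im = 2 * Real.pi * y := by
        have : (2 * Real.pi * z : ℂ) = ((2 * Real.pi : ℝ) : ℂ) * z := by push_cast; ring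
        rw [this, Complex.im_ofReal_mul, him]
      rw [h3, abs_mul, abs_of_pos (show 0 < 2 * Real.pi by positivity)] at h2
      have h4 := norm_add_le (1 : ℂ) (Complex.cos (2 * Real.pi * z))
      rw [norm_one] at h4
      have h5 : Real.exp (2 * Real.pi * |y|) = Real.exp (2 * Real.pi * 1 * |y|) := by ring_nf
      rw [h5] at h2
      linarith
    obtain ⟨p, hpd⟩ : ∃ p : ℂ, p = (Real.pi : ℂ) + 2 * Real.pi * z := ⟨_, rfl⟩
    obtain ⟨m, hmd⟩ : ∃ m : ℂ, m = (Real.pi : ℂ) - 2 * Real.pi * z := ⟨_, rfl⟩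
    rw [← hpd] at q1 hp ⊢
    rw [← hmd] at q2 hm ⊢
    have hsum : 1 / p + 1 / m = 2 * Real.pi / (p * m) := by
      have : p + m = 2 * Real.pi := by rw [hpd, hmd]; ring
      rw [← this]; field_simp; ring
    have i1 : ‖1 / p ^ 2‖ ≤ 1 / |x| ^ 2 := by
      rw [norm_div, norm_one, norm_pow]
      gcongr
    have i2 : ‖1 / m ^ 2‖ ≤ 1 / |x| ^ 2 := by
      rw [norm_div, norm_one, norm_pow]
      gcongr
    have i3 : ‖1 / p + 1 / m‖ ≤ 2 / |x| ^ 2 := by
      rw [hsum, norm_div, norm_mul, norm_mul, Complex.norm_ofNat, Complex.norm_real,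
        Real.norm_eq_abs, abs_of_pos hpi]
      have r1 : Real.pi * |x| ≤ ‖p‖ := by rw [hpd, m1]; gcongr
      have r2 : |x| ≤ ‖m‖ := q2
      rw [div_le_div_iff₀ (by positivity) (by positivity)]
      calc 2 * Real.pi * |x| ^ 2 = 2 * ((Real.pi * |x|) * |x|) := by ring
        _ ≤ 2 * (‖p‖ * ‖m‖) := by gcongr
    have h2 : ‖a * (1 / p ^ 2 + 1 / m ^ 2) + b * (1 / p + 1 / m)‖ ≤
        (2 * (|a| + |b|)) / |x| ^ 2 := by
      refine (norm_add_le _ _).trans ?_
      rw [norm_mul, norm_mul, Complex.norm_real, Complex.norm_real, Real.norm_eq_abs,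
        Real.norm_eq_abs]
      have h3 := norm_add_le (1 / p ^ 2) (1 / m ^ 2)
      have h4 : ‖1 / p ^ 2 + 1 / m ^ 2‖ ≤ 2 / |x| ^ 2 := by
        refine h3.trans ((add_le_add i1 i2).trans (le_of_eq ?_))
        ring
      calc |a| * ‖1 / p ^ 2 + 1 / m ^ 2‖ + |b| * ‖1 / p + 1 / m‖ ≤
          |a| * (2 / |x| ^ 2) + |b| * (2 / |x| ^ 2) := by gcongr
        _ = _ := by ring
    have hx2 : 1 ≤ x ^ 2 := by rw [← sq_abs]; exact one_le_pow₀ hx.le
    rw [sq_abs] at h2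
    calc ‖1 + Complex.cos (2 * Real.pi * z)‖ *
          ‖a * (1 / p ^ 2 + 1 / m ^ 2) + b * (1 / p + 1 / m)‖ ≤
          (2 * Real.exp (2 * Real.pi * 1 * |y|)) * ((2 * (|a| + |b|)) / x ^ 2) := by gcongr
      _ = C2 * Real.exp (2 * Real.pi * 1 * |y|) / (2 * x ^ 2) := by
          rw [hC2]; field_simp; ring
      _ ≤ C2 * Real.exp (2 * Real.pi * 1 * |y|) / (1 + x ^ 2) := by
          gcongr
          linarith
      _ ≤ _ := by
          gcongr
          rw [hC1]; linarith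

/-- dilations -/
noncomputable def dl (κ : ℝ) (ψ : ℝ → ℝ) (α : ℝ) : ℝ := κ⁻¹ * ψ (κ⁻¹ * α)

lemma FL_dl {κ : ℝ} (hκ : 0 < κ) (ψ : ℝ → ℝ) (z : ℂ) : FL (dl κ ψ) z = FL ψ (κ * z) := by
  unfold FL dl
  have h := Measure.integral_comp_mul_left
    (fun α : ℝ => (ψ α : ℂ) * Complex.exp (2 * Real.pi * I * α * (κ * z))) κ⁻¹
  rw [inv_inv, abs_of_pos hκ] at h
  have h2 : ∫ α : ℝ, ((κ⁻¹ * ψ (κ⁻¹ * α) : ℝ) : ℂ) * Complex.exp (2 * Real.pi * I * α * z) =
      (κ⁻¹ : ℝ) • ∫ α : ℝ, (ψ (κ⁻¹ * α) : ℂ) *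
        Complex.exp (2 * Real.pi * I * ((κ⁻¹ * α : ℝ) : ℂ) * (κ * z)) := by
    rw [← integral_smul]
    refine integral_congr_ae (ae_of_all _ fun α => ?_)
    have hk : (κ : ℂ) ≠ 0 := by exact_mod_cast hκ.ne'
    simp only [Complex.real_smul]
    have e : 2 * (Real.pi : ℂ) * I * ((κ⁻¹ * α : ℝ) : ℂ) * (κ * z) = 2 * Real.pi * I * α * z := by
      push_cast
      field_simp
    rw [e]
    push_cast
    ring
  rw [h2, h, smul_smul, inv_mul_cancel₀ hκ.ne', one_smul]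

lemma adm_dl {κ : ℝ} (hκ : 0 < κ) {ψ : ℝ → ℝ} (h : Adm 1 ψ) : Adm κ (dl κ ψ) := by
  refine ⟨fun x => ?_, ?_, fun x hx => ?_, ?_⟩
  · unfold dl; rw [mul_neg, h.even]
  · obtain ⟨K, hK⟩ := h.lip
    refine ⟨κ⁻¹ * (K * κ⁻¹), fun x y => ?_⟩
    unfold dl
    rw [← mul_sub, abs_mul, abs_of_pos (inv_pos.2 hκ)]
    have := hK (κ⁻¹ * x) (κ⁻¹ * y)
    rw [← mul_sub, abs_mul, abs_of_pos (inv_pos.2 hκ)] at this
    calc κ⁻¹ * |ψ (κ⁻¹ * x) - ψ (κ⁻¹ * y)| ≤ κ⁻¹ * (K * (κ⁻¹ * |x - y|)) :=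
          mul_le_mul_of_nonneg_left this (inv_pos.2 hκ).le
      _ = _ := by ring
  · unfold dl
    rw [h.supp _ (by
      rw [abs_mul, abs_of_pos (inv_pos.2 hκ), inv_mul_eq_div, le_div_iff₀ hκ]; linarith), mul_zero]
  · obtain ⟨C, hC⟩ := h.dec
    have hC0 : 0 ≤ C := by
      have := (norm_nonneg _).trans (hC 0 0)
      simpa using this
    refine ⟨C * (1 + (κ ^ 2)⁻¹), fun x y => ?_⟩
    rw [FL_dl hκ]
    have h1 := hC (κ * x) (κ * y)
    have e : ((κ * x : ℝ) : ℂ) + ((κ * y : ℝ) : ℂ) * I = κ * (x + y * I) := by push_cast; ring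
    rw [e] at h1
    refine h1.trans ?_
    have e2 : 2 * Real.pi * 1 * |κ * y| = 2 * Real.pi * κ * |y| := by
      rw [abs_mul, abs_of_pos hκ]; ring
    rw [e2]
    have hE := Real.exp_pos (2 * Real.pi * κ * |y|)
    rw [div_le_div_iff₀ (by positivity) (by positivity)]
    have h2 : 1 + x ^ 2 ≤ (1 + (κ ^ 2)⁻¹) * (1 + (κ * x) ^ 2) := by
      have : (κ ^ 2)⁻¹ * (κ * x) ^ 2 = x ^ 2 := by field_simp
      have h3 : 0 < (κ ^ 2)⁻¹ := by positivity
      nlinarith [sq_nonneg (κ * x)]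
    calc C * Real.exp (2 * Real.pi * κ * |y|) * (1 + x ^ 2) ≤
        C * Real.exp (2 * Real.pi * κ * |y|) * ((1 + (κ ^ 2)⁻¹) * (1 + (κ * x) ^ 2)) := by gcongr
      _ = _ := by ring

lemma fl_dl {κ : ℝ} (hκ : 0 < κ) {ψ : ℝ → ℝ} (h : Adm 1 ψ) (x : ℝ) :
    fl (dl κ ψ) x = fl ψ (κ * x) := by
  have h1 := FL_dl hκ ψ (x : ℂ)
  rw [FL_real (adm_dl hκ h).int (adm_dl hκ h).even] at h1
  have h2 := FL_real h.int h.even (κ * x)
  rw [Complex.ofReal_mul] at h2
  rw [h2] at h1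
  exact_mod_cast h1

/-- the window with the parameter `t` -/
noncomputable def pt (t : ℝ) : ℝ → ℝ :=
  ps (Real.pi ^ 2 / 8 * (1 - t / 4)) (Real.pi / 8 * (1 + t / 4))

lemma adm_pt (t : ℝ) : Adm 1 (pt t) := adm_ps _ _

/-- the function `cos (π x) / (1 - 4 x²)` -/
noncomputable def hh (x : ℝ) : ℝ := Real.cos (Real.pi * x) / (1 - 4 * x ^ 2)

lemma fl_pt (t : ℝ) {x : ℝ} (hx : 1 - 4 * x ^ 2 ≠ 0) : fl (pt t) x = (1 - t * x ^ 2) * hh x ^ 2 := by
  have hpi := Real.pi_pos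
  have h12 : (1 - 2 * x) * (1 + 2 * x) ≠ 0 := by
    have : (1 - 2 * x) * (1 + 2 * x) = 1 - 4 * x ^ 2 := by ring
    rw [this]; exact hx
  have h1 : 1 - 2 * x ≠ 0 := left_ne_zero_of_mul h12
  have h2 : 1 + 2 * x ≠ 0 := right_ne_zero_of_mul h12
  have e1 : Real.pi + 2 * Real.pi * x ≠ 0 := by
    have : Real.pi + 2 * Real.pi * x = Real.pi * (1 + 2 * x) := by ring
    rw [this]; exact mul_ne_zero hpi.ne' h2
  have e2 : Real.pi - 2 * Real.pi * x ≠ 0 := by
    have : Real.pi - 2 * Real.pi * x = Real.pi * (1 - 2 * x) := by ring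
    rw [this]; exact mul_ne_zero hpi.ne' h1
  have h3 := FL_ps (Real.pi ^ 2 / 8 * (1 - t / 4)) (Real.pi / 8 * (1 + t / 4)) (z := (x : ℂ))
    (by exact_mod_cast e1) (by exact_mod_cast e2)
  rw [FL_real (ps_int _ _) (ps_even _ _)] at h3
  have h4 : fl (pt t) x = (1 + Real.cos (2 * Real.pi * x)) *
      (Real.pi ^ 2 / 8 * (1 - t / 4) * (1 / (Real.pi + 2 * Real.pi * x) ^ 2 +
        1 / (Real.pi - 2 * Real.pi * x) ^ 2) +
        Real.pi / 8 * (1 + t / 4) * (1 / (Real.pi + 2 * Real.pi * x) +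
          1 / (Real.pi - 2 * Real.pi * x))) := by
    unfold pt
    exact_mod_cast h3
  rw [h4]
  have h5 : Real.cos (2 * Real.pi * x) = 2 * Real.cos (Real.pi * x) ^ 2 - 1 := by
    rw [show 2 * Real.pi * x = 2 * (Real.pi * x) by ring, Real.cos_two_mul]
  rw [h5]
  unfold hh
  obtain ⟨c, hc⟩ : ∃ c : ℝ, c = Real.cos (Real.pi * x) := ⟨_, rfl⟩
  rw [← hc]
  have f1 : Real.pi + 2 * Real.pi * x = Real.pi * (1 + 2 * x) := by ring
  have f2 : Real.pi - 2 * Real.pi * x = Real.pi * (1 - 2 * x) := by ring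
  have f3 : 1 - 4 * x ^ 2 = (1 - 2 * x) * (1 + 2 * x) := by ring
  rw [f1, f2, f3]
  field_simp
  ring

lemma int_sin : ∫ α in (0 : ℝ)..1, α * Real.sin (Real.pi * α) = 1 / Real.pi := by
  have hpi := Real.pi_pos
  have hd : ∀ α : ℝ, HasDerivAt (fun α : ℝ => -(α * Real.cos (Real.pi * α)) / Real.pi +
      Real.sin (Real.pi * α) / Real.pi ^ 2) (α * Real.sin (Real.pi * α)) α := by
    intro α
    have d1 : HasDerivAt (fun α : ℝ => Real.pi * α) (Real.pi * 1) α :=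
      (hasDerivAt_id α).const_mul _
    have d3 := (Real.hasDerivAt_sin (Real.pi * α)).comp α d1
    have d4 := (Real.hasDerivAt_cos (Real.pi * α)).comp α d1
    refine (((((hasDerivAt_id α).mul d4).neg).div_const Real.pi).add
      (d3.div_const (Real.pi ^ 2))).congr_deriv ?_
    simp only [Function.comp_apply, id_eq]
    field_simp
    ring
  rw [intervalIntegral.integral_eq_sub_of_hasDerivAt (fun α _ => hd α)
    (Continuous.intervalIntegrable (by fun_prop) _ _)]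
  simp only [mul_one, Real.cos_pi, Real.sin_pi, mul_zero, Real.sin_zero, zero_mul]
  field_simp
  ring

lemma int_cos : ∫ α in (0 : ℝ)..1, α * ((1 - α) * Real.cos (Real.pi * α)) = 0 := by
  have h := intervalIntegral.integral_comp_sub_left (a := 0) (b := 1)
    (fun α : ℝ => α * ((1 - α) * Real.cos (Real.pi * α))) 1
  have h2 : ∀ α : ℝ, (1 - α) * ((1 - (1 - α)) * Real.cos (Real.pi * (1 - α))) =
      -(α * ((1 - α) * Real.cos (Real.pi * α))) := by
    intro α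
    rw [show Real.pi * (1 - α) = Real.pi - Real.pi * α by ring, Real.cos_pi_sub]
    ring
  simp_rw [h2] at h
  rw [intervalIntegral.integral_neg, sub_self, sub_zero] at h
  linarith

/-- the value of the pair correlation of the zeros at the window -/
lemma cc_dl {κ : ℝ} (hκ : 0 < κ) (t : ℝ) :
    cc (dl κ (pt t)) = Real.pi ^ 2 / 8 * (1 - t / 4) / κ + κ * ((1 + t / 4) / 4) := by
  have hpi := Real.pi_pos
  unfold cc
  have h0 : dl κ (pt t) 0 = Real.pi ^ 2 / 8 * (1 - t / 4) / κ := by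
    unfold dl pt
    rw [mul_zero, ps_eq _ _ le_rfl zero_le_one]
    simp
    ring
  rw [h0]
  congr 1
  have h := Measure.integral_comp_mul_left (fun α : ℝ => |α| * pt t α) κ⁻¹
  rw [inv_inv, abs_of_pos hκ] at h
  have h2 : ∫ α : ℝ, |α| * dl κ (pt t) α = ∫ α : ℝ, |κ⁻¹ * α| * pt t (κ⁻¹ * α) := by
    refine integral_congr_ae (ae_of_all _ fun α => ?_)
    simp only [dl]
    rw [abs_mul, abs_of_pos (inv_pos.2 hκ)]
    ring
  rw [h2, h, smul_eq_mul]
  congr 1
  rw [int_supp one_pos (fun x hx => by unfold pt; rw [ps_supp _ _ x hx]; simp)]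
  have hc : Continuous fun α : ℝ => |α| * pt t α := by
    have := ps_cont (Real.pi ^ 2 / 8 * (1 - t / 4)) (Real.pi / 8 * (1 + t / 4))
    unfold pt
    fun_prop
  rw [← intervalIntegral.integral_add_adjacent_intervals (b := 0) (hc.intervalIntegrable _ _)
    (hc.intervalIntegrable _ _)]
  have h5 : ∫ α in (-1 : ℝ)..0, |α| * pt t α = ∫ α in (0 : ℝ)..1, |α| * pt t α := by
    have := intervalIntegral.integral_comp_neg (a := (0 : ℝ)) (b := 1) fun α : ℝ => |α| * pt t α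
    rw [neg_zero] at this
    rw [← this]
    refine intervalIntegral.integral_congr fun α _ => ?_
    show |(-α)| * pt t (-α) = _
    unfold pt
    rw [ps_even, abs_neg]
  rw [h5]
  have h6 : ∫ α in (0 : ℝ)..1, |α| * pt t α = ∫ α in (0 : ℝ)..1,
      ((Real.pi ^ 2 / 8 * (1 - t / 4)) * (α * ((1 - α) * Real.cos (Real.pi * α))) +
        (Real.pi / 8 * (1 + t / 4)) * (α * Real.sin (Real.pi * α))) := by
    refine intervalIntegral.integral_congr fun α hα => ?_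
    rw [uIcc_of_le zero_le_one] at hα
    show |α| * pt t α = _
    unfold pt
    rw [ps_eq _ _ hα.1 hα.2, abs_of_nonneg hα.1]
    ring
  rw [h6, intervalIntegral.integral_add (Continuous.intervalIntegrable (by fun_prop) _ _)
    (Continuous.intervalIntegrable (by fun_prop) _ _), intervalIntegral.integral_const_mul,
    intervalIntegral.integral_const_mul, int_sin, int_cos]
  field_simp
  ring

end Pool.Agent.P8H16.GL
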