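import Mathlib

/-! # Bounds for `cos (π s) / (1 - 4 s²)` -/

set_option autoImplicit false

open Set Filter Topology

namespace Pool.Agent.P8H16.GL

/-- partial products of the sine -/
noncomputable def An (n : ℕ) (x : ℝ) : ℝ := ∏ j ∈ Finset.range n, (1 - x ^ 2 / ((j : ℝ) + 1) ^ 2)

/-- partial products of the cosine -/
noncomputable def Cn (n : ℕ) (x : ℝ) : ℝ := ∏ j ∈ Finset.range n, (1 - 4 * x ^ 2 / (2 * (j : ℝ) + 1) ^ 2)

lemma An_two (n : ℕ) (x : ℝ) : An (2 * n) (2 * x) = An n x * Cn n x := by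
  induction n with
  | zero => simp [An, Cn]
  | succ n ih =>
    have e : 2 * (n + 1) = 2 * n + 1 + 1 := by ring
    rw [e]
    unfold An Cn at ih ⊢
    rw [Finset.prod_range_succ, Finset.prod_range_succ, ih, Finset.prod_range_succ,
      Finset.prod_range_succ]
    have h1 : (1 : ℝ) - (2 * x) ^ 2 / (((2 * n : ℕ) : ℝ) + 1) ^ 2 =
        1 - 4 * x ^ 2 / (2 * (n : ℝ) + 1) ^ 2 := by
      push_cast; ring
    have h2 : (1 : ℝ) - (2 * x) ^ 2 / (((2 * n + 1 : ℕ) : ℝ) + 1) ^ 2 =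
        1 - x ^ 2 / ((n : ℝ) + 1) ^ 2 := by
      push_cast
      have h3 : (n : ℝ) + 1 ≠ 0 := by positivity
      have h4 : 2 * (n : ℝ) + 1 + 1 ≠ 0 := by positivity
      have h5 : 2 * (n : ℝ) + 1 + 1 = 2 * (n + 1) := by ring
      rw [h5]
      field_simp
    rw [h1, h2]
    ring

lemma Cn_lim {x : ℝ} (hx : Real.sin (Real.pi * x) ≠ 0) :
    Tendsto (fun n => Cn n x) atTop (𝓝 (Real.cos (Real.pi * x))) := by
  have h1 : Tendsto (fun n : ℕ => Real.pi * x * An n x) atTop (𝓝 (Real.sin (Real.pi * x))) :=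
    Real.tendsto_euler_sin_prod x
  have h2 : Tendsto (fun n : ℕ => Real.pi * (2 * x) * An (2 * n) (2 * x)) atTop
      (𝓝 (Real.sin (Real.pi * (2 * x)))) := by
    have h : Tendsto (fun n : ℕ => Real.pi * (2 * x) * An n (2 * x)) atTop
      (𝓝 (Real.sin (Real.pi * (2 * x)))) := Real.tendsto_euler_sin_prod (2 * x)
    exact h.comp (tendsto_id.const_mul_atTop' (by norm_num : 0 < 2))
  have h3 := (h2.div h1 hx)
  have h4 : Real.sin (Real.pi * (2 * x)) / Real.sin (Real.pi * x) = 2 * Real.cos (Real.pi * x) := by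
    rw [show Real.pi * (2 * x) = 2 * (Real.pi * x) by ring, Real.sin_two_mul]
    field_simp
  rw [h4] at h3
  have h5 : ∀ᶠ n : ℕ in atTop, Real.pi * x * An n x ≠ 0 := h1.eventually_ne hx
  have h6 : Tendsto (fun n => 2 * Cn n x) atTop (𝓝 (2 * Real.cos (Real.pi * x))) := by
    refine h3.congr' ?_
    filter_upwards [h5] with n hn
    simp only [Pi.div_apply]
    rw [An_two, div_eq_iff hn]
    ring
  have h7 := h6.const_mul (1 / 2)
  have e : (1 : ℝ) / 2 * (2 * Real.cos (Real.pi * x)) = Real.cos (Real.pi * x) := by ring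
  rw [e] at h7
  refine h7.congr fun n => ?_
  ring

/-- the tail of the product -/
noncomputable def Dn (n : ℕ) (X : ℝ) : ℝ :=
  ∏ i ∈ Finset.range n, (1 - 4 * X / (2 * ((i : ℝ) + 3) + 1) ^ 2)

lemma Cn_Dn (n : ℕ) (x : ℝ) : Cn (n + 3) x =
    (1 - 4 * x ^ 2) * ((1 - 4 * x ^ 2 / 9) * (1 - 4 * x ^ 2 / 25)) * Dn n (x ^ 2) := by
  unfold Cn Dn
  induction n with
  | zero =>
    simp only [Finset.prod_range_succ, Finset.range_zero, Finset.prod_empty]
    norm_num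
    ring
  | succ n ih =>
    have e : n + 1 + 3 = (n + 3) + 1 := by ring
    rw [e, Finset.prod_range_succ, ih, Finset.prod_range_succ]
    push_cast
    ring

lemma term_le {X : ℝ} (h0 : 0 ≤ X) (h1 : X ≤ 9 / 4) (i : ℕ) :
    0 ≤ 4 * X / (2 * ((i : ℝ) + 3) + 1) ^ 2 ∧ 4 * X / (2 * ((i : ℝ) + 3) + 1) ^ 2 ≤ 1 := by
  have hi : (0 : ℝ) ≤ i := Nat.cast_nonneg i
  constructor
  · positivity
  · rw [div_le_one (by positivity)]
    nlinarith

/-- lower bound of the tail -/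
lemma Dn_low {X : ℝ} (h0 : 0 ≤ X) (h1 : X ≤ 9 / 4) (n : ℕ) :
    1 - X * (1 / 3 - 1 / ((n : ℝ) + 3)) ≤ Dn n X ∧ 0 ≤ Dn n X ∧ Dn n X ≤ 1 := by
  induction n with
  | zero => simp [Dn]
  | succ n ih =>
    obtain ⟨i1, i2, i3⟩ := ih
    obtain ⟨t1, t2⟩ := term_le h0 h1 n
    have e : Dn (n + 1) X = Dn n X * (1 - 4 * X / (2 * ((n : ℝ) + 3) + 1) ^ 2) := by
      unfold Dn
      rw [Finset.prod_range_succ]
    have hn : (0 : ℝ) ≤ n := Nat.cast_nonneg n
    rw [e]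
    refine ⟨?_, mul_nonneg i2 (by linarith), ?_⟩
    · have h2 : 4 * X / (2 * ((n : ℝ) + 3) + 1) ^ 2 ≤
          X * (1 / ((n : ℝ) + 3) - 1 / ((n : ℝ) + 1 + 3)) := by
        have e1 : 1 / ((n : ℝ) + 3) - 1 / ((n : ℝ) + 1 + 3) = 1 / (((n : ℝ) + 3) * (n + 4)) := by
          have a1 : (n : ℝ) + 3 ≠ 0 := by positivity
          have a2 : (n : ℝ) + 1 + 3 ≠ 0 := by positivity
          have a3 : (n : ℝ) + 4 ≠ 0 := by positivity
          field_simp
          ring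
        rw [e1, mul_one_div, div_le_div_iff₀ (by positivity) (by positivity)]
        nlinarith [mul_nonneg h0 hn]
      have h3 : Dn n X * (1 - 4 * X / (2 * ((n : ℝ) + 3) + 1) ^ 2) ≥
          Dn n X - 4 * X / (2 * ((n : ℝ) + 3) + 1) ^ 2 := by nlinarith
      push_cast
      linarith
    · nlinarith

/-- upper bound of the tail -/
lemma Dn_up {X : ℝ} (h0 : 0 ≤ X) (h1 : X ≤ 9 / 4) (n : ℕ) :
    Dn n X ≤ Real.exp (-(X * (1 / (3 + 9 / 250) - 1 / ((n : ℝ) + 3 + 9 / 250)))) := by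
  induction n with
  | zero => simp [Dn]
  | succ n ih =>
    obtain ⟨t1, t2⟩ := term_le h0 h1 n
    obtain ⟨i1, i2, i3⟩ := Dn_low h0 h1 n
    have e : Dn (n + 1) X = Dn n X * (1 - 4 * X / (2 * ((n : ℝ) + 3) + 1) ^ 2) := by
      unfold Dn
      rw [Finset.prod_range_succ]
    have hn : (0 : ℝ) ≤ n := Nat.cast_nonneg n
    rw [e]
    have h2 : X * (1 / ((n : ℝ) + 3 + 9 / 250) - 1 / ((n : ℝ) + 1 + 3 + 9 / 250)) ≤
        4 * X / (2 * ((n : ℝ) + 3) + 1) ^ 2 := by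
      have e1 : 1 / ((n : ℝ) + 3 + 9 / 250) - 1 / ((n : ℝ) + 1 + 3 + 9 / 250) =
          1 / (((n : ℝ) + 3 + 9 / 250) * ((n : ℝ) + 1 + 3 + 9 / 250)) := by
        have a1 : (n : ℝ) + 3 + 9 / 250 ≠ 0 := by positivity
        have a2 : (n : ℝ) + 1 + 3 + 9 / 250 ≠ 0 := by positivity
        field_simp
        ring
      rw [e1, mul_one_div, div_le_div_iff₀ (by positivity) (by positivity)]
      nlinarith [mul_nonneg h0 hn]
    have h3 : 1 - 4 * X / (2 * ((n : ℝ) + 3) + 1) ^ 2 ≤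
        Real.exp (-(4 * X / (2 * ((n : ℝ) + 3) + 1) ^ 2)) := by
      have := Real.add_one_le_exp (-(4 * X / (2 * ((n : ℝ) + 3) + 1) ^ 2))
      linarith
    calc Dn n X * (1 - 4 * X / (2 * ((n : ℝ) + 3) + 1) ^ 2) ≤
        Real.exp (-(X * (1 / (3 + 9 / 250) - 1 / ((n : ℝ) + 3 + 9 / 250)))) *
          Real.exp (-(4 * X / (2 * ((n : ℝ) + 3) + 1) ^ 2)) :=
          mul_le_mul ih h3 (by linarith) (Real.exp_pos _).le
      _ = Real.exp (-(X * (1 / (3 + 9 / 250) - 1 / ((n : ℝ) + 3 + 9 / 250)) +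
          4 * X / (2 * ((n : ℝ) + 3) + 1) ^ 2)) := by
          rw [← Real.exp_add]; congr 1; ring
      _ ≤ _ := by
          apply Real.exp_le_exp.2
          push_cast
          linarith

/-- the lower polynomial -/
noncomputable def Lp (X : ℝ) : ℝ := (1 - 4 * X / 9) * (1 - 4 * X / 25) * (1 - X / 3)

/-- the upper polynomial -/
noncomputable def Hp (X : ℝ) : ℝ := (1 - 4 * X / 9) * (1 - 4 * X / 25) *
  (1 - 329 / 1000 * X + (329 / 1000 * X) ^ 2 / 2)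

lemma exp_quad {y : ℝ} (hy : 0 ≤ y) : Real.exp (-y) ≤ 1 - y + y ^ 2 / 2 := by
  have h1 := Real.quadratic_le_exp_of_nonneg hy
  rw [Real.exp_neg]
  have h2 : 0 < Real.exp y := Real.exp_pos y
  rw [inv_le_iff_one_le_mul₀ h2]
  have h3 : 0 < 1 - y + y ^ 2 / 2 := by nlinarith [sq_nonneg (y - 1)]
  calc (1 : ℝ) ≤ (1 - y + y ^ 2 / 2) * (1 + y + y ^ 2 / 2) := by nlinarith [sq_nonneg (y ^ 2)]
    _ ≤ (1 - y + y ^ 2 / 2) * Real.exp y := by gcongr

theorem hh_bounds {s : ℝ} (h0 : 0 < s) (h1 : s < 3 / 2) (h2 : 1 - 4 * s ^ 2 ≠ 0)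
    (h3 : Real.sin (Real.pi * s) ≠ 0) :
    Lp (s ^ 2) ≤ Real.cos (Real.pi * s) / (1 - 4 * s ^ 2) ∧
      Real.cos (Real.pi * s) / (1 - 4 * s ^ 2) ≤ Hp (s ^ 2) := by
  have hX0 : 0 ≤ s ^ 2 := sq_nonneg s
  have hX1 : s ^ 2 ≤ 9 / 4 := by nlinarith
  have hF : 0 ≤ (1 - 4 * s ^ 2 / 9) * (1 - 4 * s ^ 2 / 25) :=
    mul_nonneg (by linarith) (by linarith)
  have hC := Cn_lim h3
  have hC3 : Tendsto (fun n => Cn (n + 3) s / (1 - 4 * s ^ 2)) atTop
      (𝓝 (Real.cos (Real.pi * s) / (1 - 4 * s ^ 2))) :=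
    (hC.comp (tendsto_add_atTop_nat 3)).div_const _
  have hCD : ∀ n, Cn (n + 3) s / (1 - 4 * s ^ 2) =
      ((1 - 4 * s ^ 2 / 9) * (1 - 4 * s ^ 2 / 25)) * Dn n (s ^ 2) := by
    intro n
    rw [Cn_Dn]
    field_simp
  have hl : Tendsto (fun n : ℕ => 1 / ((n : ℝ) + 3 + 9 / 250)) atTop (𝓝 0) := by
    have h := tendsto_one_div_add_atTop_nhds_zero_nat (𝕜 := ℝ)
    refine squeeze_zero (fun n => by positivity) (fun n => ?_) h
    apply one_div_le_one_div_of_le (by positivity)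
    linarith
  constructor
  · refine ge_of_tendsto hC3 (Eventually.of_forall fun n => ?_)
    rw [hCD]
    unfold Lp
    refine mul_le_mul_of_nonneg_left ?_ hF
    refine le_trans ?_ (Dn_low hX0 hX1 n).1
    have : 0 ≤ s ^ 2 * (1 / ((n : ℝ) + 3)) := by positivity
    nlinarith
  · have hlim : Tendsto (fun n : ℕ => ((1 - 4 * s ^ 2 / 9) * (1 - 4 * s ^ 2 / 25)) *
        Real.exp (-(s ^ 2 * (1 / (3 + 9 / 250) - 1 / ((n : ℝ) + 3 + 9 / 250))))) atTop
        (𝓝 (((1 - 4 * s ^ 2 / 9) * (1 - 4 * s ^ 2 / 25)) *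
          Real.exp (-(s ^ 2 * (1 / (3 + 9 / 250) - 0))))) :=
      (((Real.continuous_exp.tendsto _).comp ((hl.const_sub _).const_mul _).neg)).const_mul _
    have h4 := le_of_tendsto_of_tendsto hC3 hlim (Eventually.of_forall fun n => by
      show Cn (n + 3) s / (1 - 4 * s ^ 2) ≤ _
      rw [hCD]
      exact mul_le_mul_of_nonneg_left (Dn_up hX0 hX1 n) hF)
    refine h4.trans ?_
    unfold Hp
    refine mul_le_mul_of_nonneg_left ?_ hF
    have h5 : Real.exp (-(s ^ 2 * (1 / (3 + 9 / 250) - 0))) ≤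
        Real.exp (-(329 / 1000 * s ^ 2)) := by
      apply Real.exp_le_exp.2
      nlinarith
    exact h5.trans (exp_quad (by positivity))

/-- extension by continuity -/
lemma extend {f g : ℝ → ℝ} (hf : Continuous f) (hg : Continuous g) {a b : ℝ} (hab : a < b)
    (F : Set ℝ) (hF : F.Finite) (h : ∀ x ∈ Ioo a b, x ∉ F → f x ≤ g x) :
    ∀ x ∈ Icc a b, f x ≤ g x := by
  intro x hx
  have hcl : IsClosed (F \ {x}) := (hF.subset sdiff_subset).isClosed
  have hop : (F \ {x})ᶜ ∈ 𝓝 x := hcl.isOpen_compl.mem_nhds (fun h => h.2 rfl)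
  rcases lt_or_eq_of_le hx.2 with hb | hb
  · have h1 : ∀ᶠ y in 𝓝[>] x, f y ≤ g y := by
      filter_upwards [Ioo_mem_nhdsGT hb, mem_nhdsWithin_of_mem_nhds hop] with y hy1 hy2
      refine h y ⟨lt_of_le_of_lt hx.1 hy1.1, hy1.2⟩ fun hyF => hy2 ⟨hyF, ?_⟩
      exact hy1.1.ne'
    exact le_of_tendsto_of_tendsto (hf.continuousWithinAt (s := Ioi x))
      (hg.continuousWithinAt (s := Ioi x)) h1
  · have hax : a < x := by rw [hb]; exact hab
    have h1 : ∀ᶠ y in 𝓝[<] x, f y ≤ g y := by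
      filter_upwards [Ioo_mem_nhdsLT hax, mem_nhdsWithin_of_mem_nhds hop] with y hy1 hy2
      refine h y ⟨hy1.1, lt_of_lt_of_le hy1.2 hx.2⟩ fun hyF => hy2 ⟨hyF, ?_⟩
      exact hy1.2.ne
    exact le_of_tendsto_of_tendsto (hf.continuousWithinAt (s := Iio x))
      (hg.continuousWithinAt (s := Iio x)) h1

end Pool.Agent.P8H16.GL
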