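import Pool.Agent.Y749.AH.Gap2
import Pool.Agent.Y749.Rig.RHb

/-! # Pair sums and gaps -/

set_option autoImplicit false

open MeasureTheory Set Filter Topology

namespace Pool.Agent.P8H16.GL

open Pool.Agent.Y749.Rig
open Pool.Agent.Y749.AH
open SG (ord NZ zmult ZS)

/-- the pairs `j < i` -/
noncomputable def PP (T : ℝ) : Finset (ℕ × ℕ) := ((II T) ×ˢ (II T)).filter (fun p : ℕ × ℕ => p.2 < p.1)

/-- Montgomery's theorem for the sum over the pairs `j < i` -/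
theorem pair_lim (hRH : RiemannHypothesis) {ψ : ℝ → ℝ} {κ : ℝ} (h : Adm κ ψ) (h0 : 0 < κ)
    (h1 : κ < 1) {ε : ℝ} (hε : 0 < ε) : ∀ᶠ T in atTop,
    |∑ p ∈ PP T, fl ψ (xx T p.1 p.2) - (cc ψ - fl ψ 0) / 2 * NZ T| ≤ ε * NZ T := by
  have ht := test_limRH hRH h h0 h1
  obtain ⟨e, he⟩ : ∃ e : ℝ, e = min (1 / 2) (ε / (1 + |cc ψ|)) := ⟨_, rfl⟩
  have he0 : 0 < e := by rw [he]; exact lt_min (by norm_num) (by positivity)
  have he1 : e ≤ 1 / 2 := by rw [he]; exact min_le_left _ _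
  have he2 : e * (1 + |cc ψ|) ≤ ε := by
    have : e ≤ ε / (1 + |cc ψ|) := by rw [he]; exact min_le_right _ _
    rwa [le_div_iff₀ (by positivity)] at this
  have ht2 := (Metric.tendsto_nhds.1 ht) e he0
  filter_upwards [ht2, eventually_ge_atTop 10, N_asymp he0] with T hT hT10 hN
  have hn := nT_pos hT10
  rw [Mp_ix hRH hT10, Real.dist_eq] at hT
  have hs := sum_sym T (G := fl ψ) (fun x => fl_even x)
  have hs' : ∑ i ∈ Finset.Ioc 0 (NZ T), ∑ j ∈ Finset.Ioc 0 (NZ T), fl ψ (xx T i j) =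
      NZ T * fl ψ 0 + 2 * ∑ p ∈ PP T, fl ψ (xx T p.1 p.2) := hs
  rw [hs'] at hT
  obtain ⟨S, hS⟩ : ∃ S : ℝ, S = ∑ p ∈ PP T, fl ψ (xx T p.1 p.2) := ⟨_, rfl⟩
  rw [← hS] at hT ⊢
  obtain ⟨n, hnd⟩ : ∃ n : ℝ, n = nT T := ⟨_, rfl⟩
  obtain ⟨N, hNd⟩ : ∃ N : ℝ, N = (NZ T : ℝ) := ⟨_, rfl⟩
  rw [← hnd] at hT hn hN
  rw [← hNd] at hT hN ⊢
  have h2 : |N * fl ψ 0 + 2 * S - cc ψ * n| ≤ e * n := by
    have : (N * fl ψ 0 + 2 * S) / n - cc ψ = (N * fl ψ 0 + 2 * S - cc ψ * n) / n := by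
      field_simp
    rw [this, abs_div, abs_of_pos hn, div_lt_iff₀ hn] at hT
    exact hT.le
  have h3 : |n - N| ≤ e * n := by
    rw [abs_le]
    constructor <;> nlinarith [hN.1, hN.2]
  have hnN : n ≤ 2 * N := by nlinarith [hN.1]
  have h4 : S - (cc ψ - fl ψ 0) / 2 * N =
      ((N * fl ψ 0 + 2 * S - cc ψ * n) + cc ψ * (n - N)) / 2 := by ring
  rw [h4, abs_div, abs_two, div_le_iff₀ (by norm_num)]
  refine (abs_add_le _ _).trans ?_
  rw [abs_mul]
  have h5 : |cc ψ| * |n - N| ≤ |cc ψ| * (e * n) := by gcongr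
  have h6 : e * n + |cc ψ| * (e * n) = e * (1 + |cc ψ|) * n := by ring
  have h7 : e * (1 + |cc ψ|) * n ≤ ε * (2 * N) := by
    have : 0 ≤ n := hn.le
    gcongr
  linarith

/-- the transform is Lipschitz -/
lemma fl_lip {ψ : ℝ → ℝ} {κ : ℝ} (h : Adm κ ψ) : ∃ K : ℝ, 0 < K ∧ ∀ x y, |fl ψ x - fl ψ y| ≤
    K * |x - y| := by
  have hpi := Real.pi_pos
  have hi : Integrable fun α : ℝ => |ψ α| * (2 * Real.pi * |α|) := by
    have hc := h.cont
    refine Continuous.integrable_of_hasCompactSupport (by fun_prop) ?_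
    exact (h.hcs.norm).mul_right
  have hnn : 0 ≤ ∫ α : ℝ, |ψ α| * (2 * Real.pi * |α|) := integral_nonneg fun α => by positivity
  refine ⟨(∫ α : ℝ, |ψ α| * (2 * Real.pi * |α|)) + 1, by linarith, fun x y => ?_⟩
  have hint : ∀ x : ℝ, Integrable fun α : ℝ => ψ α * Real.cos (2 * Real.pi * α * x) := by
    intro x
    have hc := h.cont
    exact Continuous.integrable_of_hasCompactSupport (by fun_prop) (h.hcs.mul_right)
  have h1 : |fl ψ x - fl ψ y| ≤ (∫ α : ℝ, |ψ α| * (2 * Real.pi * |α|)) * |x - y| := by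
    unfold fl
    rw [← integral_sub (hint x) (hint y), ← integral_mul_const, ← Real.norm_eq_abs]
    refine norm_integral_le_of_norm_le (hi.mul_const _) (ae_of_all _ fun α => ?_)
    rw [Real.norm_eq_abs, ← mul_sub, abs_mul, mul_assoc |ψ α|]
    refine mul_le_mul_of_nonneg_left (a := |ψ α|) ?_ (abs_nonneg (ψ α))
    have h2 := Real.lipschitzWith_cos.dist_le_mul (2 * Real.pi * α * x) (2 * Real.pi * α * y)
    rw [Real.dist_eq, Real.dist_eq, NNReal.coe_one, one_mul, ← mul_sub, abs_mul, abs_mul,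
      abs_of_pos (show 0 < 2 * Real.pi by positivity)] at h2
    exact h2
  refine h1.trans ?_
  nlinarith [abs_nonneg (x - y)]

/-- **upper bound for the gaps** -/
theorem gaps_up (hRH : RiemannHypothesis) {ψ : ℝ → ℝ} {κ : ℝ} (h : Adm κ ψ) (h0 : 0 < κ)
    (h1 : κ < 1) (hg : ∀ x, 0 ≤ fl ψ x) {ε : ℝ} (hε : 0 < ε) : ∀ᶠ T in atTop,
    ∑ j ∈ II T, fl ψ (dj j) ≤ ((cc ψ - fl ψ 0) / 2 + ε) * NZ T := by
  classical
  obtain ⟨K, hK0, hK⟩ := fl_lip h
  obtain ⟨B, hB⟩ := fl_bound h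
  have hBb : ∀ x, fl ψ x ≤ |B| := by
    intro x
    refine (le_abs_self _).trans ((hB x).trans ?_)
    refine (div_le_div_of_nonneg_right (le_abs_self B) (by positivity)).trans ?_
    exact div_le_self (abs_nonneg _) (by nlinarith [sq_nonneg x])
  obtain ⟨κ', U, hκ', hU, hex⟩ := except_card hRH (show 0 < ε / (3 * (|B| + 1)) by positivity)
  have hcmp := cmp_close hκ' hU.le (show 0 < ε / (3 * K) by positivity)
  filter_upwards [hex, hcmp, pair_lim hRH h h0 h1 (show 0 < ε / 3 by positivity),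
    eventually_ge_atTop 10] with T g1 g2 g3 hT
  have hNn : (0 : ℝ) ≤ NZ T := Nat.cast_nonneg _
  have h2 := Finset.sum_filter_add_sum_filter_not (II T)
    (fun j => κ' * T ≤ ord j ∧ j + 1 ∈ II T ∧ xx T (j + 1) j ≤ U) (fun j => fl ψ (dj j))
  obtain ⟨G, hG⟩ : ∃ G : Finset ℕ, G = (II T).filter
    (fun j => κ' * T ≤ ord j ∧ j + 1 ∈ II T ∧ xx T (j + 1) j ≤ U) := ⟨_, rfl⟩
  rw [← hG] at h2
  have h3 : ∑ j ∈ (II T).filter (fun j => ¬ (κ' * T ≤ ord j ∧ j + 1 ∈ II T ∧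
      xx T (j + 1) j ≤ U)), fl ψ (dj j) ≤ ε / 3 * NZ T := by
    refine (Finset.sum_le_sum fun j _ => hBb (dj j)).trans ?_
    rw [Finset.sum_const, nsmul_eq_mul]
    have h4 := mul_le_mul_of_nonneg_right g1 (abs_nonneg B)
    refine h4.trans ?_
    have h5 : ε / (3 * (|B| + 1)) * NZ T * |B| ≤ ε / (3 * (|B| + 1)) * NZ T * (|B| + 1) := by
      have : 0 ≤ ε / (3 * (|B| + 1)) * (NZ T : ℝ) := by positivity
      nlinarith
    refine h5.trans (le_of_eq ?_)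
    field_simp
  have h4 : ∑ j ∈ G, fl ψ (dj j) ≤ ∑ j ∈ G, fl ψ (xx T (j + 1) j) + ε / 3 * NZ T := by
    have h5 : ∀ j ∈ G, fl ψ (dj j) ≤ fl ψ (xx T (j + 1) j) + ε / 3 := by
      intro j hj
      rw [hG, Finset.mem_filter] at hj
      obtain ⟨a1, a2, a3, a4⟩ := hj
      have a5 := (mem_II.1 a1).1
      have a6 := g2 (j + 1) j a5 (Nat.le_succ j) a3 a2 a4
      have a7 := hK (dj j) (xx T (j + 1) j)
      rw [abs_sub_comm] at a6
      have a8 : |dj j - xx T (j + 1) j| ≤ ε / (3 * K) := a6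
      have a9 : K * |dj j - xx T (j + 1) j| ≤ K * (ε / (3 * K)) := by gcongr
      have a10 : K * (ε / (3 * K)) = ε / 3 := by field_simp
      have a11 := le_abs_self (fl ψ (dj j) - fl ψ (xx T (j + 1) j))
      linarith
    refine (Finset.sum_le_sum h5).trans ?_
    rw [Finset.sum_add_distrib, Finset.sum_const, nsmul_eq_mul]
    have h6 : (G.card : ℝ) ≤ NZ T := by
      rw [← card_II]
      exact_mod_cast Finset.card_le_card (by rw [hG]; exact Finset.filter_subset _ _)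
    have h7 : (G.card : ℝ) * (ε / 3) ≤ NZ T * (ε / 3) := by gcongr
    linarith
  have h5 : ∑ j ∈ G, fl ψ (xx T (j + 1) j) ≤ ∑ p ∈ PP T, fl ψ (xx T p.1 p.2) := by
    have h6 : ∑ j ∈ G, fl ψ (xx T (j + 1) j) =
        ∑ p ∈ G.image (fun j => (j + 1, j)), fl ψ (xx T p.1 p.2) := by
      rw [Finset.sum_image]
      intro a _ b _ hab
      exact (Prod.mk.inj hab).2
    rw [h6]
    refine Finset.sum_le_sum_of_subset_of_nonneg ?_ fun p _ _ => hg _
    intro p hp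
    rw [Finset.mem_image] at hp
    obtain ⟨j, hj, rfl⟩ := hp
    rw [hG, Finset.mem_filter] at hj
    unfold PP
    rw [Finset.mem_filter, Finset.mem_product]
    exact ⟨⟨hj.2.2.1, hj.1⟩, Nat.lt_succ_self j⟩
  have h6 := (abs_le.1 g3).2
  rw [← h2]
  nlinarith

/-- **lower bound for the number of close gaps**, with clusters: `G ≤ 0` beyond `ρ` and `G ≤ V`
before -/
theorem gaps_low (hRH : RiemannHypothesis) {ψ : ℝ → ℝ} {κ : ℝ} (h : Adm κ ψ) (h0 : 0 < κ)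
    (h1 : κ < 1) {ρ : ℝ} (hρ : 0 < ρ) (hneg : ∀ x, ρ < x → fl ψ x ≤ 0) {ε : ℝ} (hε : 0 < ε) :
    ∃ M : ℕ, 1 ≤ M ∧ ∀ᶠ T in atTop,
    ((cc ψ - fl ψ 0) / 2 - ε) * NZ T ≤ ∑ k ∈ Finset.Ico 1 M, ∑ j ∈ (II T).filter
      (fun j => j + k ∈ II T), max (fl ψ (gt (j + k) - gt j)) 0 := by
  classical
  obtain ⟨K, hK0, hK⟩ := fl_lip h
  obtain ⟨B, hB⟩ := fl_bound h
  have hBb : ∀ x, fl ψ x ≤ |B| := by
    intro x
    refine (le_abs_self _).trans ((hB x).trans ?_)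
    refine (div_le_div_of_nonneg_right (le_abs_self B) (by positivity)).trans ?_
    exact div_le_self (abs_nonneg _) (by nlinarith [sq_nonneg x])
  obtain ⟨M, hM1, κ', hκ', hbad⟩ := pairs_bad hRH hρ (show 0 < ε / (3 * (|B| + 1)) by positivity)
  refine ⟨M, hM1, ?_⟩
  have hM0 : (0 : ℝ) < M := by exact_mod_cast hM1
  filter_upwards [hbad (ε / (3 * K * M)) (by positivity),
    pair_lim hRH h h0 h1 (show 0 < ε / 3 by positivity), eventually_ge_atTop 10] with T g1 g3 hT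
  have hNn : (0 : ℝ) ≤ NZ T := Nat.cast_nonneg _
  have g2 := g1 ∅
  rw [Finset.card_empty, Nat.cast_zero, mul_zero, add_zero] at g2
  have h2 := (abs_le.1 g3).1
  -- the far pairs
  have h3 : ∑ p ∈ PP T, fl ψ (xx T p.1 p.2) ≤
      ∑ p ∈ (PP T).filter (fun p => xx T p.1 p.2 ≤ ρ), fl ψ (xx T p.1 p.2) := by
    rw [← Finset.sum_filter_add_sum_filter_not (PP T) (fun p => xx T p.1 p.2 ≤ ρ)]
    have : ∑ p ∈ (PP T).filter (fun p => ¬ xx T p.1 p.2 ≤ ρ), fl ψ (xx T p.1 p.2) ≤ 0 := by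
      refine Finset.sum_nonpos fun p hp => hneg _ ?_
      rw [Finset.mem_filter] at hp
      exact not_le.1 hp.2
    linarith
  obtain ⟨Q, hQ⟩ : ∃ Q : ℕ × ℕ → Prop, Q = fun p : ℕ × ℕ => κ' * T ≤ ord p.2 ∧ p.1 < p.2 + M ∧
      (∀ b, p.2 ≤ b → b < p.1 → b ∉ (∅ : Finset ℕ)) ∧
        |xx T p.1 p.2 - (gt p.1 - gt p.2)| ≤ ε / (3 * K * M) := ⟨_, rfl⟩
  have h4 := Finset.sum_filter_add_sum_filter_not ((PP T).filter (fun p => xx T p.1 p.2 ≤ ρ)) Q
    (fun p => fl ψ (xx T p.1 p.2))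
  have h5 : ∑ p ∈ ((PP T).filter (fun p => xx T p.1 p.2 ≤ ρ)).filter (fun p => ¬ Q p),
      fl ψ (xx T p.1 p.2) ≤ ε / 3 * NZ T := by
    refine (Finset.sum_le_sum fun p _ => hBb _).trans ?_
    rw [Finset.sum_const, nsmul_eq_mul]
    have h6 : ((((PP T).filter (fun p => xx T p.1 p.2 ≤ ρ)).filter (fun p => ¬ Q p)).card : ℝ) ≤
        ε / (3 * (|B| + 1)) * NZ T := by
      refine le_trans ?_ g2
      refine Nat.cast_le.2 (Finset.card_le_card ?_)
      intro p hp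
      rw [Finset.mem_filter, Finset.mem_filter] at hp
      unfold PP at hp
      rw [Finset.mem_filter] at hp
      obtain ⟨⟨⟨a1, a2⟩, a3⟩, a4⟩ := hp
      rw [Finset.mem_filter]
      refine ⟨a1, a2, a3, ?_⟩
      rw [hQ] at a4
      exact a4
    refine (mul_le_mul_of_nonneg_right h6 (abs_nonneg B)).trans ?_
    have h7 : ε / (3 * (|B| + 1)) * NZ T * |B| ≤ ε / (3 * (|B| + 1)) * NZ T * (|B| + 1) := by
      have : 0 ≤ ε / (3 * (|B| + 1)) * (NZ T : ℝ) := by positivity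
      nlinarith
    refine h7.trans (le_of_eq ?_)
    field_simp
  obtain ⟨PQ, hPQ⟩ : ∃ P : Finset (ℕ × ℕ), P =
    ((PP T).filter (fun p => xx T p.1 p.2 ≤ ρ)).filter Q := ⟨_, rfl⟩
  rw [← hPQ] at h4
  have hmem : ∀ p ∈ PQ, p.1 ∈ II T ∧ p.2 ∈ II T ∧ p.2 < p.1 ∧ p.1 < p.2 + M ∧
      |xx T p.1 p.2 - (gt p.1 - gt p.2)| ≤ ε / (3 * K * M) := by
    intro p hp
    rw [hPQ, Finset.mem_filter, Finset.mem_filter] at hp
    unfold PP at hp
    rw [Finset.mem_filter, Finset.mem_product, hQ] at hp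
    obtain ⟨⟨⟨⟨a1, a2⟩, a3⟩, -⟩, a4, a5, -, a6⟩ := hp
    exact ⟨a1, a2, a3, a5, a6⟩
  have h6 : ∑ p ∈ PQ, fl ψ (xx T p.1 p.2) ≤
      ∑ k ∈ Finset.Ico 1 M, ∑ j ∈ (II T).filter (fun j => j + k ∈ II T),
        (max (fl ψ (gt (j + k) - gt j)) 0 + ε / (3 * M)) := by
    rw [Finset.sum_sigma']
    have h7 : ∀ p ∈ PQ, fl ψ (xx T p.1 p.2) ≤ max (fl ψ (gt p.1 - gt p.2)) 0 + ε / (3 * M) := by
      intro p hp
      obtain ⟨a1, a2, a3, a4, a5⟩ := hmem p hp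
      have a6 := hK (xx T p.1 p.2) (gt p.1 - gt p.2)
      have a7 : K * |xx T p.1 p.2 - (gt p.1 - gt p.2)| ≤ K * (ε / (3 * K * M)) := by gcongr
      have a8 : K * (ε / (3 * K * M)) = ε / (3 * M) := by field_simp
      have a9 := le_abs_self (fl ψ (xx T p.1 p.2) - fl ψ (gt p.1 - gt p.2))
      have a10 := le_max_left (fl ψ (gt p.1 - gt p.2)) 0
      linarith
    refine (Finset.sum_le_sum h7).trans ?_
    have h8 : ∑ p ∈ PQ, (max (fl ψ (gt p.1 - gt p.2)) 0 + ε / (3 * M)) =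
        ∑ q ∈ PQ.image (fun p => (⟨p.1 - p.2, p.2⟩ : (_ : ℕ) × ℕ)),
          (max (fl ψ (gt (q.2 + q.1) - gt q.2)) 0 + ε / (3 * M)) := by
      rw [Finset.sum_image]
      · refine Finset.sum_congr rfl fun p hp => ?_
        obtain ⟨a1, a2, a3, a4, a5⟩ := hmem p hp
        simp only
        rw [Nat.add_sub_cancel' a3.le]
      · intro p hp q hq hpq
        obtain ⟨a1, a2, a3, a4, a5⟩ := hmem p hp
        obtain ⟨b1, b2, b3, b4, b5⟩ := hmem q hq
        simp only [Sigma.mk.injEq, heq_eq_eq] at hpq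
        exact Prod.ext (by omega) hpq.2
    rw [h8]
    refine Finset.sum_le_sum_of_subset_of_nonneg ?_ fun q _ _ => by positivity
    intro q hq
    rw [Finset.mem_image] at hq
    obtain ⟨p, hp, rfl⟩ := hq
    obtain ⟨a1, a2, a3, a4, a5⟩ := hmem p hp
    rw [Finset.mem_sigma, Finset.mem_Ico, Finset.mem_filter]
    simp only
    refine ⟨⟨by omega, by omega⟩, a2, ?_⟩
    rw [Nat.add_sub_cancel' a3.le]
    exact a1
  have h7 : ∑ k ∈ Finset.Ico 1 M, ∑ j ∈ (II T).filter (fun j => j + k ∈ II T),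
        (max (fl ψ (gt (j + k) - gt j)) 0 + ε / (3 * M)) ≤
      ∑ k ∈ Finset.Ico 1 M, ∑ j ∈ (II T).filter (fun j => j + k ∈ II T),
        max (fl ψ (gt (j + k) - gt j)) 0 + ε / 3 * NZ T := by
    have h8 : ∀ k ∈ Finset.Ico 1 M, ∑ j ∈ (II T).filter (fun j => j + k ∈ II T),
        (max (fl ψ (gt (j + k) - gt j)) 0 + ε / (3 * M)) ≤
        ∑ j ∈ (II T).filter (fun j => j + k ∈ II T), max (fl ψ (gt (j + k) - gt j)) 0 +
          ε / (3 * M) * NZ T := by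
      intro k _
      rw [Finset.sum_add_distrib, Finset.sum_const, nsmul_eq_mul]
      have h9 : (((II T).filter (fun j => j + k ∈ II T)).card : ℝ) ≤ NZ T := by
        rw [← card_II]
        exact_mod_cast Finset.card_le_card (Finset.filter_subset _ _)
      have h10 : (((II T).filter (fun j => j + k ∈ II T)).card : ℝ) * (ε / (3 * M)) ≤
          NZ T * (ε / (3 * M)) := by gcongr
      linarith
    refine (Finset.sum_le_sum h8).trans ?_
    rw [Finset.sum_add_distrib, Finset.sum_const, nsmul_eq_mul, Nat.card_Ico]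
    have h9 : ((M - 1 : ℕ) : ℝ) ≤ M := by exact_mod_cast Nat.sub_le M 1
    have h10 : ((M - 1 : ℕ) : ℝ) * (ε / (3 * M) * NZ T) ≤ M * (ε / (3 * M) * NZ T) := by gcongr
    have h11 : (M : ℝ) * (ε / (3 * M) * NZ T) = ε / 3 * NZ T := by field_simp
    linarith
  nlinarith

end Pool.Agent.P8H16.GL
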