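import Mathlib

/-! # Layer cake formulas for finite families -/

set_option autoImplicit false

open MeasureTheory Set Filter Topology

namespace Pool.Agent.P8H16.GL

lemma step_int (x a b : ℝ) : IntervalIntegrable (fun s : ℝ => if x ≤ s then (1 : ℝ) else 0)
    volume a b := by
  apply Monotone.intervalIntegrable
  intro s t hst
  simp only
  split_ifs with h1 h2
  · exact le_rfl
  · exact absurd (h1.trans hst) h2
  · exact zero_le_one
  · exact le_rfl

lemma layer_one {V V' : ℝ → ℝ} {c : ℝ} (hV : ∀ s, HasDerivAt V (V' s) s)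
    (hcont : Continuous V') (hVc : V c = 0) {x : ℝ} (hx : 0 ≤ x) (hc : 0 ≤ c) :
    (if x ≤ c then V x else 0) = ∫ s in (0 : ℝ)..c, (-V' s) * (if x ≤ s then 1 else 0) := by
  have hint : ∀ a b : ℝ, IntervalIntegrable (fun s => (-V' s) * (if x ≤ s then (1 : ℝ) else 0))
      volume a b := fun a b =>
    (step_int x a b).continuousOn_mul hcont.neg.continuousOn
  have hz : ∀ y : ℝ, 0 ≤ y → y ≤ x → ∫ s in (0 : ℝ)..y, (-V' s) * (if x ≤ s then (1 : ℝ) else 0) = 0 := by
    intro y hy0 hy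
    rw [intervalIntegral.integral_of_le hy0]
    have h : ∀ᵐ s ∂(volume.restrict (Ioc 0 y)), (-V' s) * (if x ≤ s then (1 : ℝ) else 0) = 0 := by
      have h1 : ∀ᵐ s : ℝ ∂(volume.restrict (Ioc 0 y)), s ∈ Ioc 0 y := ae_restrict_mem measurableSet_Ioc
      have h2 : ∀ᵐ s : ℝ ∂(volume.restrict (Ioc 0 y)), s ≠ x := by
        refine ae_restrict_of_ae ?_
        exact Measure.ae_ne volume x
      filter_upwards [h1, h2] with s g1 g2
      have : s < x := lt_of_le_of_ne (g1.2.trans hy) g2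
      rw [if_neg (not_le.2 this), mul_zero]
    rw [integral_congr_ae h, integral_zero]
  split_ifs with h
  · rw [← intervalIntegral.integral_add_adjacent_intervals (hint 0 x) (hint x c), hz x hx le_rfl,
      zero_add]
    have h1 : ∫ s in x..c, (-V' s) * (if x ≤ s then (1 : ℝ) else 0) = ∫ s in x..c, -V' s := by
      refine intervalIntegral.integral_congr fun s hs => ?_
      rw [uIcc_of_le h] at hs
      show (-V' s) * (if x ≤ s then (1 : ℝ) else 0) = -V' s
      rw [if_pos hs.1, mul_one]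
    rw [h1, intervalIntegral.integral_eq_sub_of_hasDerivAt (f := fun s => -V s)
      (fun s _ => (hV s).neg) (hcont.neg.intervalIntegrable _ _), hVc]
    ring
  · exact (hz c hc (not_le.1 h).le).symm

/-- the layer cake formula -/
lemma layer {V V' : ℝ → ℝ} {c : ℝ} (hV : ∀ s, HasDerivAt V (V' s) s)
    (hcont : Continuous V') (hVc : V c = 0) (hc : 0 ≤ c) (J : Finset ℕ) (x : ℕ → ℝ)
    (hx : ∀ j ∈ J, 0 ≤ x j) :
    ∑ j ∈ J, (if x j ≤ c then V (x j) else 0) =
      ∫ s in (0 : ℝ)..c, (-V' s) * ((J.filter (fun j => x j ≤ s)).card : ℝ) := by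
  have hi : ∀ j ∈ J, IntervalIntegrable (fun s => (-V' s) * (if x j ≤ s then (1 : ℝ) else 0))
      volume 0 c := fun j _ => (step_int (x j) 0 c).continuousOn_mul hcont.neg.continuousOn
  rw [Finset.sum_congr rfl fun j hj => layer_one hV hcont hVc (hx j hj) hc,
    ← intervalIntegral.integral_finsetSum hi]
  refine intervalIntegral.integral_congr fun s _ => ?_
  show ∑ j ∈ J, (-V' s) * (if x j ≤ s then (1 : ℝ) else 0) = _
  rw [← Finset.mul_sum, Finset.sum_boole]

lemma card_int {V' : ℝ → ℝ} (hcont : Continuous V') (J : Finset ℕ) (x : ℕ → ℝ) (a b : ℝ) :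
    IntervalIntegrable (fun s => (-V' s) * ((J.filter (fun j => x j ≤ s)).card : ℝ)) volume a b := by
  refine IntervalIntegrable.continuousOn_mul ?_ hcont.neg.continuousOn
  apply Monotone.intervalIntegrable
  intro s t hst
  simp only
  exact_mod_cast Finset.card_le_card (Finset.monotone_filter_right J
    fun j _ (hj : x j ≤ s) => hj.trans hst)

/-- lower bound from a lower bound of the counting function -/
lemma layer_ge {V V' : ℝ → ℝ} {c : ℝ} (hV : ∀ s, HasDerivAt V (V' s) s)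
    (hcont : Continuous V') (hVc : V c = 0) (hc : 0 ≤ c) (hneg : ∀ s ∈ Icc 0 c, V' s ≤ 0)
    (J : Finset ℕ) (x : ℕ → ℝ) (hx : ∀ j ∈ J, 0 ≤ x j) {R : ℝ → ℝ} (hR : Continuous R) {N : ℝ}
    (h : ∀ s ∈ Icc 0 c, R s * N ≤ ((J.filter (fun j => x j ≤ s)).card : ℝ)) :
    (∫ s in (0 : ℝ)..c, (-V' s) * R s) * N ≤ ∑ j ∈ J, (if x j ≤ c then V (x j) else 0) := by
  rw [layer hV hcont hVc hc J x hx, ← intervalIntegral.integral_mul_const]
  refine intervalIntegral.integral_mono_on hc ((Continuous.intervalIntegrable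
    (by fun_prop) _ _)) (card_int hcont J x 0 c) fun s hs => ?_
  rw [mul_assoc]
  exact mul_le_mul_of_nonneg_left (h s hs) (by linarith [hneg s hs])

/-- upper bound from an upper bound of the counting function -/
lemma layer_le {V V' : ℝ → ℝ} {c : ℝ} (hV : ∀ s, HasDerivAt V (V' s) s)
    (hcont : Continuous V') (hVc : V c = 0) (hc : 0 ≤ c) (hneg : ∀ s ∈ Icc 0 c, V' s ≤ 0)
    (J : Finset ℕ) (x : ℕ → ℝ) (hx : ∀ j ∈ J, 0 ≤ x j) {R : ℝ → ℝ} (hR : Continuous R) {N : ℝ}
    (h : ∀ s ∈ Icc 0 c, ((J.filter (fun j => x j ≤ s)).card : ℝ) ≤ R s * N) :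
    ∑ j ∈ J, (if x j ≤ c then V (x j) else 0) ≤ (∫ s in (0 : ℝ)..c, (-V' s) * R s) * N := by
  rw [layer hV hcont hVc hc J x hx, ← intervalIntegral.integral_mul_const]
  refine intervalIntegral.integral_mono_on hc (card_int hcont J x 0 c)
    ((Continuous.intervalIntegrable (by fun_prop) _ _)) fun s hs => ?_
  rw [mul_assoc]
  exact mul_le_mul_of_nonneg_left (h s hs) (by linarith [hneg s hs])

end Pool.Agent.P8H16.GL
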