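import Pool.Agent.P8H16.GL5
import Pool.Agent.P8H16.GL3

/-! # Numerical integrals for the lower polynomial -/

set_option autoImplicit false

open MeasureTheory Set Filter Topology

namespace Pool.Agent.P8H16.GL

lemma mono_step {f f' : ℝ → ℝ} (hf : ∀ x, HasDerivAt f (f' x) x) (h0 : f 0 = 0)
    (h : ∀ x, 0 ≤ x → 0 ≤ f' x) {x : ℝ} (hx : 0 ≤ x) : 0 ≤ f x := by
  have hm : MonotoneOn f (Ici 0) := by
    refine monotoneOn_of_deriv_nonneg (convex_Ici 0)
      (fun y _ => (hf y).continuousAt.continuousWithinAt)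
      (fun y _ => (hf y).differentiableAt.differentiableWithinAt) fun y hy => ?_
    rw [interior_Ici] at hy
    rw [(hf y).deriv]
    exact h y hy.le
  have := hm (mem_Ici.2 le_rfl) (mem_Ici.2 hx) hx
  rwa [h0] at this

lemma exp_neg_der (x : ℝ) : HasDerivAt (fun y : ℝ => Real.exp (-y)) (-Real.exp (-x)) x := by
  have := (Real.hasDerivAt_exp (-x)).comp x (hasDerivAt_neg x)
  refine this.congr_deriv ?_
  ring

lemma exp3 {y : ℝ} (hy : 0 ≤ y) : 1 - y + y ^ 2 / 2 - y ^ 3 / 6 ≤ Real.exp (-y) := by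
  have h := mono_step (f := fun y => Real.exp (-y) - (1 - y + y ^ 2 / 2 - y ^ 3 / 6))
    (f' := fun y => (1 - y + y ^ 2 / 2) - Real.exp (-y)) (fun x => by
      have h1 := ((((hasDerivAt_id x).const_sub 1).add ((hasDerivAt_pow 2 x).div_const 2)).sub
        ((hasDerivAt_pow 3 x).div_const 6))
      refine ((exp_neg_der x).sub h1).congr_deriv ?_
      push_cast; ring) (by simp) (fun x hx => by linarith [exp_quad hx]) hy
  linarith

lemma exp4 {y : ℝ} (hy : 0 ≤ y) : Real.exp (-y) ≤ 1 - y + y ^ 2 / 2 - y ^ 3 / 6 + y ^ 4 / 24 := by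
  have h := mono_step (f := fun y => (1 - y + y ^ 2 / 2 - y ^ 3 / 6 + y ^ 4 / 24) - Real.exp (-y))
    (f' := fun y => Real.exp (-y) - (1 - y + y ^ 2 / 2 - y ^ 3 / 6)) (fun x => by
      have h1 := (((((hasDerivAt_id x).const_sub 1).add ((hasDerivAt_pow 2 x).div_const 2)).sub
        ((hasDerivAt_pow 3 x).div_const 6)).add ((hasDerivAt_pow 4 x).div_const 24))
      refine (h1.sub (exp_neg_der x)).congr_deriv ?_
      push_cast; ring) (by simp) (fun x hx => by linarith [exp3 hx]) hy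
  linarith

lemma exp5 {y : ℝ} (hy : 0 ≤ y) :
    1 - y + y ^ 2 / 2 - y ^ 3 / 6 + y ^ 4 / 24 - y ^ 5 / 120 ≤ Real.exp (-y) := by
  have h := mono_step (f := fun y => Real.exp (-y) -
      (1 - y + y ^ 2 / 2 - y ^ 3 / 6 + y ^ 4 / 24 - y ^ 5 / 120))
    (f' := fun y => (1 - y + y ^ 2 / 2 - y ^ 3 / 6 + y ^ 4 / 24) - Real.exp (-y)) (fun x => by
      have h1 := ((((((hasDerivAt_id x).const_sub 1).add ((hasDerivAt_pow 2 x).div_const 2)).sub
        ((hasDerivAt_pow 3 x).div_const 6)).add ((hasDerivAt_pow 4 x).div_const 24)).sub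
        ((hasDerivAt_pow 5 x).div_const 120))
      refine ((exp_neg_der x).sub h1).congr_deriv ?_
      push_cast; ring) (by simp) (fun x hx => by linarith [exp4 hx]) hy
  linarith

lemma exp6 {y : ℝ} (hy : 0 ≤ y) : Real.exp (-y) ≤
    1 - y + y ^ 2 / 2 - y ^ 3 / 6 + y ^ 4 / 24 - y ^ 5 / 120 + y ^ 6 / 720 := by
  have h := mono_step (f := fun y =>
      (1 - y + y ^ 2 / 2 - y ^ 3 / 6 + y ^ 4 / 24 - y ^ 5 / 120 + y ^ 6 / 720) - Real.exp (-y))
    (f' := fun y => Real.exp (-y) - (1 - y + y ^ 2 / 2 - y ^ 3 / 6 + y ^ 4 / 24 - y ^ 5 / 120))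
    (fun x => by
      have h1 := (((((((hasDerivAt_id x).const_sub 1).add ((hasDerivAt_pow 2 x).div_const 2)).sub
        ((hasDerivAt_pow 3 x).div_const 6)).add ((hasDerivAt_pow 4 x).div_const 24)).sub
        ((hasDerivAt_pow 5 x).div_const 120)).add ((hasDerivAt_pow 6 x).div_const 720))
      refine (h1.sub (exp_neg_der x)).congr_deriv ?_
      push_cast; ring) (by simp) (fun x hx => by linarith [exp5 hx]) hy
  linarith

/-- the derivative of the lower polynomial -/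
noncomputable def Lq (X : ℝ) : ℝ := -(4 / 9) * ((1 - 4 * X / 25) * (1 - X / 3)) -
  (4 / 25) * ((1 - 4 * X / 9) * (1 - X / 3)) - (1 / 3) * ((1 - 4 * X / 9) * (1 - 4 * X / 25))

noncomputable def V0 (s : ℝ) : ℝ := Lp (s ^ 2) ^ 2

noncomputable def V0' (s : ℝ) : ℝ := 4 * s * (Lp (s ^ 2) * Lq (s ^ 2))

lemma V0_der (s : ℝ) : HasDerivAt V0 (V0' s) s := by
  have h1 : HasDerivAt (fun X : ℝ => 1 - 4 * X / 9) (-(4 / 9)) (s ^ 2) := by
    refine ((((hasDerivAt_id (s ^ 2)).const_mul 4).div_const 9).const_sub 1).congr_deriv ?_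
    ring
  have h2 : HasDerivAt (fun X : ℝ => 1 - 4 * X / 25) (-(4 / 25)) (s ^ 2) := by
    refine ((((hasDerivAt_id (s ^ 2)).const_mul 4).div_const 25).const_sub 1).congr_deriv ?_
    ring
  have h3 : HasDerivAt (fun X : ℝ => 1 - X / 3) (-(1 / 3)) (s ^ 2) := by
    refine (((hasDerivAt_id (s ^ 2)).div_const 3).const_sub 1).congr_deriv ?_
    ring
  have h4 : HasDerivAt Lp (Lq (s ^ 2)) (s ^ 2) := by
    have h : HasDerivAt Lp _ (s ^ 2) := (h1.mul h2).mul h3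
    refine h.congr_deriv ?_
    simp only [Pi.mul_apply]
    unfold Lq
    ring
  have h5 : HasDerivAt (fun s : ℝ => Lp (s ^ 2)) (Lq (s ^ 2) * (2 * s)) s := by
    have h6 : HasDerivAt (fun s : ℝ => s ^ 2) (2 * s) s := by
      refine (hasDerivAt_pow 2 s).congr_deriv ?_
      push_cast; ring
    exact HasDerivAt.comp s (h₂ := Lp) (h := fun s : ℝ => s ^ 2) h4 h6
  refine (h5.pow 2).congr_deriv ?_
  unfold V0'
  push_cast
  ring

lemma Lp_nonneg {X : ℝ} (h1 : X ≤ 9 / 4) : 0 ≤ Lp X := by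
  unfold Lp
  have a1 : 0 ≤ 1 - 4 * X / 9 := by linarith
  have a2 : 0 ≤ 1 - 4 * X / 25 := by linarith
  have a3 : 0 ≤ 1 - X / 3 := by linarith
  positivity

lemma Lq_nonpos {X : ℝ} (h1 : X ≤ 9 / 4) : Lq X ≤ 0 := by
  unfold Lq
  have a1 : 0 ≤ 1 - 4 * X / 9 := by linarith
  have a2 : 0 ≤ 1 - 4 * X / 25 := by linarith
  have a3 : 0 ≤ 1 - X / 3 := by linarith
  have b1 := mul_nonneg a2 a3
  have b2 := mul_nonneg a1 a3
  have b3 := mul_nonneg a1 a2
  linarith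

lemma V0_neg {s : ℝ} (hs : s ∈ Icc (0 : ℝ) (3 / 2)) : V0' s ≤ 0 := by
  have h : s ^ 2 ≤ 9 / 4 := by nlinarith [hs.1, hs.2]
  unfold V0'
  have h1 := mul_nonneg (Lp_nonneg h) (neg_nonneg.2 (Lq_nonpos h))
  have h2 : 0 ≤ 4 * s := by linarith [hs.1]
  nlinarith

lemma V0_cont : Continuous V0' := by
  unfold V0' Lp Lq
  fun_prop

lemma V0_end : V0 (3 / 2) = 0 := by
  unfold V0 Lp
  norm_num

lemma goe_poly : (246 / 1000 : ℝ) ≤ ∫ s in (0 : ℝ)..(3 / 2), (-V0' s) * (785 / 1000 * s ^ 2 - (785 / 1000 * s ^ 2) ^ 2 / 2 + (785 / 1000 * s ^ 2) ^ 3 / 6 - (785 / 1000 * s ^ 2) ^ 4 / 24 - 1 / 50) := by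
  have hd : ∀ s : ℝ, HasDerivAt (fun s : ℝ => (-211 / 5625 : ℝ) * s ^ 2 + (7742059 / 10125000 : ℝ) * s ^ 4 + (-230691539 / 243000000 : ℝ) * s ^ 6 + (343251564109 / 583200000000 : ℝ) * s ^ 8 + (-26827193807357 / 116640000000000 : ℝ) * s ^ 10 + (1100400886164763 / 17496000000000000 : ℝ) * s ^ 12 + (-13648999566761 / 1093500000000000 : ℝ) * s ^ 14 + (7742571337 / 4500000000000 : ℝ) * s ^ 16 + (-17689280903 / 123018750000000 : ℝ) * s ^ 18 + (607573201 / 113906250000000 : ℝ) * s ^ 20)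
      ((-V0' s) * (785 / 1000 * s ^ 2 - (785 / 1000 * s ^ 2) ^ 2 / 2 + (785 / 1000 * s ^ 2) ^ 3 / 6 - (785 / 1000 * s ^ 2) ^ 4 / 24 - 1 / 50)) s := by
    intro s
    refine (((((((((((hasDerivAt_pow 2 s).const_mul (-211 / 5625 : ℝ)).add ((hasDerivAt_pow 4 s).const_mul (7742059 / 10125000 : ℝ))).add ((hasDerivAt_pow 6 s).const_mul (-230691539 / 243000000 : ℝ))).add ((hasDerivAt_pow 8 s).const_mul (343251564109 / 583200000000 : ℝ))).add ((hasDerivAt_pow 10 s).const_mul (-26827193807357 / 116640000000000 : ℝ))).add ((hasDerivAt_pow 12 s).const_mul (1100400886164763 / 17496000000000000 : ℝ))).add ((hasDerivAt_pow 14 s).const_mul (-13648999566761 / 1093500000000000 : ℝ))).add ((hasDerivAt_pow 16 s).const_mul (7742571337 / 4500000000000 : ℝ))).add ((hasDerivAt_pow 18 s).const_mul (-17689280903 / 123018750000000 : ℝ))).add ((hasDerivAt_pow 20 s).const_mul (607573201 / 113906250000000 : ℝ))).congr_deriv ?_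
    unfold V0' Lp Lq
    push_cast
    ring
  rw [intervalIntegral.integral_eq_sub_of_hasDerivAt (fun s _ => hd s)
    (Continuous.intervalIntegrable (by unfold V0' Lp Lq; fun_prop) _ _)]
  norm_num

lemma poi_poly : (26 / 100 : ℝ) ≤ ∫ s in (0 : ℝ)..(3 / 2), (-V0' s) * (s - s ^ 2 / 2 + s ^ 3 / 6 - s ^ 4 / 24 - 1 / 6) := by
  have hd : ∀ s : ℝ, HasDerivAt (fun s : ℝ => (-211 / 675 : ℝ) * s ^ 2 + (844 / 675 : ℝ) * s ^ 3 + (-35152 / 151875 : ℝ) * s ^ 4 + (-256834 / 253125 : ℝ) * s ^ 5 + (648281 / 1822500 : ℝ) * s ^ 6 + (364846 / 1063125 : ℝ) * s ^ 7 + (-3499807 / 21870000 : ℝ) * s ^ 8 + (-178352 / 4100625 : ℝ) * s ^ 9 + (214498 / 6834375 : ℝ) * s ^ 10 + (-39808 / 15035625 : ℝ) * s ^ 11 + (-8168 / 4100625 : ℝ) * s ^ 12 + (20224 / 17769375 : ℝ) * s ^ 13 + (-1376 / 9568125 : ℝ) * s ^ 14 + (-512 / 6834375 : ℝ) * s ^ 15 + (8 / 455625 : ℝ) * s ^ 16)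
      ((-V0' s) * (s - s ^ 2 / 2 + s ^ 3 / 6 - s ^ 4 / 24 - 1 / 6)) s := by
    intro s
    refine ((((((((((((((((hasDerivAt_pow 2 s).const_mul (-211 / 675 : ℝ)).add ((hasDerivAt_pow 3 s).const_mul (844 / 675 : ℝ))).add ((hasDerivAt_pow 4 s).const_mul (-35152 / 151875 : ℝ))).add ((hasDerivAt_pow 5 s).const_mul (-256834 / 253125 : ℝ))).add ((hasDerivAt_pow 6 s).const_mul (648281 / 1822500 : ℝ))).add ((hasDerivAt_pow 7 s).const_mul (364846 / 1063125 : ℝ))).add ((hasDerivAt_pow 8 s).const_mul (-3499807 / 21870000 : ℝ))).add ((hasDerivAt_pow 9 s).const_mul (-178352 / 4100625 : ℝ))).add ((hasDerivAt_pow 10 s).const_mul (214498 / 6834375 : ℝ))).add ((hasDerivAt_pow 11 s).const_mul (-39808 / 15035625 : ℝ))).add ((hasDerivAt_pow 12 s).const_mul (-8168 / 4100625 : ℝ))).add ((hasDerivAt_pow 13 s).const_mul (20224 / 17769375 : ℝ))).add ((hasDerivAt_pow 14 s).const_mul (-1376 / 9568125 : ℝ))).add ((hasDerivAt_pow 15 s).const_mul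 (-512 / 6834375 : ℝ))).add ((hasDerivAt_pow 16 s).const_mul (8 / 455625 : ℝ))).congr_deriv ?_
    unfold V0' Lp Lq
    push_cast
    ring
  rw [intervalIntegral.integral_eq_sub_of_hasDerivAt (fun s _ => hd s)
    (Continuous.intervalIntegrable (by unfold V0' Lp Lq; fun_prop) _ _)]
  norm_num

lemma goe_num : (246 / 1000 : ℝ) ≤ ∫ s in (0 : ℝ)..(3 / 2), (-V0' s) *
    (1 - Real.exp (-(Real.pi * s ^ 2 / 4)) - 1 / 50) := by
  have hc := V0_cont
  refine goe_poly.trans ?_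
  refine intervalIntegral.integral_mono_on (by norm_num) (Continuous.intervalIntegrable
    (by fun_prop) _ _) (Continuous.intervalIntegrable (by fun_prop) _ _) fun s hs => ?_
  refine mul_le_mul_of_nonneg_left ?_ (by linarith [V0_neg hs])
  have h1 := exp4 (y := 785 / 1000 * s ^ 2) (by positivity)
  have h2 : Real.exp (-(Real.pi * s ^ 2 / 4)) ≤ Real.exp (-(785 / 1000 * s ^ 2)) := by
    apply Real.exp_le_exp.2
    have := Real.pi_gt_d2
    nlinarith [sq_nonneg s]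
  linarith

lemma poi_num : (26 / 100 : ℝ) ≤ ∫ s in (0 : ℝ)..(3 / 2), (-V0' s) *
    (1 - Real.exp (-s) - 1 / 6) := by
  have hc := V0_cont
  refine poi_poly.trans ?_
  refine intervalIntegral.integral_mono_on (by norm_num) (Continuous.intervalIntegrable
    (by fun_prop) _ _) (Continuous.intervalIntegrable (by fun_prop) _ _) fun s hs => ?_
  refine mul_le_mul_of_nonneg_left ?_ (by linarith [V0_neg hs])
  have h1 := exp4 hs.1
  linarith

end Pool.Agent.P8H16.GL
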