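import Pool.Agent.P8H16.GL6

/-! # Numerical integrals for the quartic law -/

set_option autoImplicit false

open MeasureTheory Set Filter Topology

namespace Pool.Agent.P8H16.GL

/-- the derivative of the upper polynomial -/
noncomputable def Hq (X : ℝ) : ℝ :=
  -(4 / 9) * ((1 - 4 * X / 25) * (1 - 329 / 1000 * X + (329 / 1000 * X) ^ 2 / 2)) -
  (4 / 25) * ((1 - 4 * X / 9) * (1 - 329 / 1000 * X + (329 / 1000 * X) ^ 2 / 2)) +
  ((1 - 4 * X / 9) * (1 - 4 * X / 25)) * (-(329 / 1000) + (329 / 1000) ^ 2 * X)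

noncomputable def V1 (s : ℝ) : ℝ := (1 - s ^ 2) * Hp (s ^ 2) ^ 2

noncomputable def V1' (s : ℝ) : ℝ :=
  2 * s * ((1 - s ^ 2) * (2 * (Hp (s ^ 2) * Hq (s ^ 2))) - Hp (s ^ 2) ^ 2)

lemma V1_der (s : ℝ) : HasDerivAt V1 (V1' s) s := by
  have h1 : HasDerivAt (fun X : ℝ => 1 - 4 * X / 9) (-(4 / 9)) (s ^ 2) := by
    refine ((((hasDerivAt_id (s ^ 2)).const_mul 4).div_const 9).const_sub 1).congr_deriv ?_
    ring
  have h2 : HasDerivAt (fun X : ℝ => 1 - 4 * X / 25) (-(4 / 25)) (s ^ 2) := by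
    refine ((((hasDerivAt_id (s ^ 2)).const_mul 4).div_const 25).const_sub 1).congr_deriv ?_
    ring
  have h3 : HasDerivAt (fun X : ℝ => 1 - 329 / 1000 * X + (329 / 1000 * X) ^ 2 / 2)
      (-(329 / 1000) + (329 / 1000) ^ 2 * s ^ 2) (s ^ 2) := by
    have g1 : HasDerivAt (fun X : ℝ => 329 / 1000 * X) (329 / 1000 * 1) (s ^ 2) :=
      (hasDerivAt_id (s ^ 2)).const_mul _
    refine ((g1.const_sub 1).add ((g1.pow 2).div_const 2)).congr_deriv ?_
    push_cast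
    ring
  have h4 : HasDerivAt Hp (Hq (s ^ 2)) (s ^ 2) := by
    have h : HasDerivAt Hp _ (s ^ 2) := (h1.mul h2).mul h3
    refine h.congr_deriv ?_
    simp only [Pi.mul_apply]
    unfold Hq
    ring
  have h6 : HasDerivAt (fun s : ℝ => s ^ 2) (2 * s) s := by
    refine (hasDerivAt_pow 2 s).congr_deriv ?_
    push_cast; ring
  have h5 : HasDerivAt (fun s : ℝ => Hp (s ^ 2)) (Hq (s ^ 2) * (2 * s)) s :=
    HasDerivAt.comp s (h₂ := Hp) (h := fun s : ℝ => s ^ 2) h4 h6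
  have h : HasDerivAt V1 _ s := (h6.const_sub 1).mul (h5.pow 2)
  refine h.congr_deriv ?_
  unfold V1'
  push_cast
  ring

lemma E_pos (X : ℝ) : 0 < 1 - 329 / 1000 * X + (329 / 1000 * X) ^ 2 / 2 := by
  nlinarith [sq_nonneg (329 / 1000 * X - 1)]

lemma V1_neg {s : ℝ} (hs : s ∈ Icc (0 : ℝ) 1) : V1' s ≤ 0 := by
  have hX0 : 0 ≤ s ^ 2 := sq_nonneg s
  have hX1 : s ^ 2 ≤ 1 := by nlinarith [hs.1, hs.2]
  obtain ⟨X, hX⟩ : ∃ X : ℝ, X = s ^ 2 := ⟨_, rfl⟩
  rw [← hX] at hX0 hX1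
  have hE := E_pos X
  have a1 : 0 ≤ 1 - 4 * X / 9 := by linarith
  have a2 : 0 ≤ 1 - 4 * X / 25 := by linarith
  have a3 : (-(329 / 1000) + (329 / 1000) ^ 2 * X : ℝ) ≤ 0 := by linarith
  have hHp : 0 ≤ Hp X := by
    unfold Hp
    positivity
  have hHq : Hq X ≤ 0 := by
    unfold Hq
    have b1 : 0 ≤ (1 - 4 * X / 25) * (1 - 329 / 1000 * X + (329 / 1000 * X) ^ 2 / 2) := by positivity
    have b2 : 0 ≤ (1 - 4 * X / 9) * (1 - 329 / 1000 * X + (329 / 1000 * X) ^ 2 / 2) := by positivity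
    have b3 : ((1 - 4 * X / 9) * (1 - 4 * X / 25)) * (-(329 / 1000) + (329 / 1000) ^ 2 * X) ≤ 0 :=
      mul_nonpos_of_nonneg_of_nonpos (by positivity) a3
    linarith
  unfold V1'
  rw [← hX]
  have h1 : Hp X * Hq X ≤ 0 := mul_nonpos_of_nonneg_of_nonpos hHp hHq
  have h2 : (1 - X) * (2 * (Hp X * Hq X)) ≤ 0 :=
    mul_nonpos_of_nonneg_of_nonpos (by linarith) (by linarith)
  have h3 : 0 ≤ Hp X ^ 2 := sq_nonneg _
  exact mul_nonpos_of_nonneg_of_nonpos (by linarith [hs.1]) (by linarith)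

lemma V1_cont : Continuous V1' := by
  unfold V1' Hp Hq
  fun_prop

lemma V1_end : V1 1 = 0 := by
  unfold V1
  norm_num

lemma V1_int : ∫ s in (0 : ℝ)..1, (-V1' s) = 1 := by
  have hc := V1_cont
  rw [intervalIntegral.integral_eq_sub_of_hasDerivAt (f := fun s => -V1 s)
    (fun s _ => (V1_der s).neg) (Continuous.intervalIntegrable (by fun_prop) _ _), V1_end]
  unfold V1 Hp
  norm_num

/-- the polynomial bounding the quartic law -/
noncomputable def wp (X : ℝ) : ℝ := 116 / 10 * (1 / 5 - 113 / 50 * X / 7 +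
  (113 / 50 * X) ^ 2 / 18 - (113 / 50 * X) ^ 3 / 66 + (113 / 50 * X) ^ 4 / 312 -
  (113 / 50 * X) ^ 5 / 1800 + (113 / 50 * X) ^ 6 / 12240)

lemma J1_num : ∫ s in (0 : ℝ)..1, (-V1' s) * (s ^ 5 * wp (s ^ 2)) ≤ 94153 / 1000000 := by
  have hd : ∀ s : ℝ, HasDerivAt (fun s : ℝ => (53447 / 28125 : ℝ) * s ^ 7 + (-6695100979 / 1139062500 : ℝ) * s ^ 9 + (118998030119347 / 12993750000000 : ℝ) * s ^ 11 + (-43443388703574855557 / 4560806250000000000 : ℝ) * s ^ 13 + (307590531255615758567 / 41461875000000000000 : ℝ) * s ^ 15 + (-149202705152322932209 / 32392089843750000000 : ℝ) * s ^ 17 + (49908901411850366748221443 / 21044863125000000000000000 : ℝ) * s ^ 19 + (-11982786329454008286818474731 / 11630055937500000000000000000 : ℝ) * s ^ 21 + (2373878404762854464775245767259 / 6368840156250000000000000000000 : ℝ) * s ^ 23 + (-3746223437186226151768137278687 / 34613261718750000000000000000000 : ℝ) * s ^ 25 + (27346613637824652515777238051971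 / 1132797656250000000000000000000000 : ℝ) * s ^ 27 + (-852908489689241859562585765351 / 216332885742187500000000000000000 : ℝ) * s ^ 29 + (269695264492182204750980302789 / 609665405273437500000000000000000 : ℝ) * s ^ 31 + (-47455251997032722097717581 / 1560092926025390625000000000000 : ℝ) * s ^ 33 + (101054163299491866890363 / 105056762695312500000000000000 : ℝ) * s ^ 35)
      ((-V1' s) * (s ^ 5 * wp (s ^ 2))) s := by
    intro s
    refine ((((((((((((((((hasDerivAt_pow 7 s).const_mul (53447 / 28125 : ℝ)).add ((hasDerivAt_pow 9 s).const_mul (-6695100979 / 1139062500 : ℝ))).add ((hasDerivAt_pow 11 s).const_mul (118998030119347 / 12993750000000 : ℝ))).add ((hasDerivAt_pow 13 s).const_mul (-43443388703574855557 / 4560806250000000000 : ℝ))).add ((hasDerivAt_pow 15 s).const_mul (307590531255615758567 / 41461875000000000000 : ℝ))).add ((hasDerivAt_pow 17 s).const_mul (-149202705152322932209 / 32392089843750000000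 : ℝ))).add ((hasDerivAt_pow 19 s).const_mul (49908901411850366748221443 / 21044863125000000000000000 : ℝ))).add ((hasDerivAt_pow 21 s).const_mul (-11982786329454008286818474731 / 11630055937500000000000000000 : ℝ))).add ((hasDerivAt_pow 23 s).const_mul (2373878404762854464775245767259 / 6368840156250000000000000000000 : ℝ))).add ((hasDerivAt_pow 25 s).const_mul (-3746223437186226151768137278687 / 34613261718750000000000000000000 : ℝ))).add ((hasDerivAt_pow 27 s).const_mul (27346613637824652515777238051971 / 1132797656250000000000000000000000 : ℝ))).add ((hasDerivAt_pow 29 s).const_mul (-852908489689241859562585765351 / 216332885742187500000000000000000 : ℝ))).add ((hasDerivAt_pow 31 s).const_mul (269695264492182204750980302789 / 609665405273437500000000000000000 : ℝ))).add ((hasDerivAt_pow 33 s).const_mul (-47455251997032722097717581 / 1560092926025390625000000000000 : ℝ))).add ((hasDerivAt_pow 35 s).const_mul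 (101054163299491866890363 / 105056762695312500000000000000 : ℝ))).congr_deriv ?_
    unfold V1' Hp Hq wp
    push_cast
    ring
  rw [intervalIntegral.integral_eq_sub_of_hasDerivAt (fun s _ => hd s)
    (Continuous.intervalIntegrable (by unfold V1' Hp Hq wp; fun_prop) _ _)]
  norm_num

lemma J5_num : ∫ s in (0 : ℝ)..1, (-V1' s) * s ^ 5 ≤ 10232 / 100000 := by
  have hd : ∀ s : ℝ, HasDerivAt (fun s : ℝ => (1843 / 2250 : ℝ) * s ^ 7 + (-137149001 / 91125000 : ℝ) * s ^ 9 + (16470762059 / 13500000000 : ℝ) * s ^ 11 + (-302857717332881 / 526500000000000 : ℝ) * s ^ 13 + (704796390358451 / 4050000000000000 : ℝ) * s ^ 15 + (-622641482541911 / 17929687500000000 : ℝ) * s ^ 17 + (269086703102413 / 60117187500000000 : ℝ) * s ^ 19 + (-25238229247 / 74157714843750 : ℝ) * s ^ 21 + (11716114081 / 1010742187500000 : ℝ) * s ^ 23)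
      ((-V1' s) * s ^ 5) s := by
    intro s
    refine ((((((((((hasDerivAt_pow 7 s).const_mul (1843 / 2250 : ℝ)).add ((hasDerivAt_pow 9 s).const_mul (-137149001 / 91125000 : ℝ))).add ((hasDerivAt_pow 11 s).const_mul (16470762059 / 13500000000 : ℝ))).add ((hasDerivAt_pow 13 s).const_mul (-302857717332881 / 526500000000000 : ℝ))).add ((hasDerivAt_pow 15 s).const_mul (704796390358451 / 4050000000000000 : ℝ))).add ((hasDerivAt_pow 17 s).const_mul (-622641482541911 / 17929687500000000 : ℝ))).add ((hasDerivAt_pow 19 s).const_mul (269086703102413 / 60117187500000000 : ℝ))).add ((hasDerivAt_pow 21 s).const_mul (-25238229247 / 74157714843750 : ℝ))).add ((hasDerivAt_pow 23 s).const_mul (11716114081 / 1010742187500000 : ℝ))).congr_deriv ?_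
    unfold V1' Hp Hq
    push_cast
    ring
  rw [intervalIntegral.integral_eq_sub_of_hasDerivAt (fun s _ => hd s)
    (Continuous.intervalIntegrable (by unfold V1' Hp Hq; fun_prop) _ _)]
  norm_num

/-- the distribution function of the quartic (symplectic) Wigner law -/
noncomputable def gse (s : ℝ) : ℝ := ∫ t in (0 : ℝ)..s,
  2 ^ 18 / (3 ^ 6 * Real.pi ^ 3) * t ^ 4 * Real.exp (-(64 * t ^ 2 / (9 * Real.pi)))

lemma coef_le : 2 ^ 18 / (3 ^ 6 * Real.pi ^ 3) ≤ 116 / 10 := by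
  have h := Real.pi_gt_d4
  have h3 : (3.1415 : ℝ) ^ 3 ≤ Real.pi ^ 3 := by gcongr
  have hp : 0 < Real.pi ^ 3 := by have := Real.pi_pos; positivity
  rw [div_le_iff₀ (by positivity)]
  nlinarith

lemma gse_integrand {t : ℝ} (_ht : 0 ≤ t) : 2 ^ 18 / (3 ^ 6 * Real.pi ^ 3) * t ^ 4 *
    Real.exp (-(64 * t ^ 2 / (9 * Real.pi))) ≤ 116 / 10 * t ^ 4 *
      (1 - 113 / 50 * t ^ 2 + (113 / 50 * t ^ 2) ^ 2 / 2 - (113 / 50 * t ^ 2) ^ 3 / 6 +
        (113 / 50 * t ^ 2) ^ 4 / 24 - (113 / 50 * t ^ 2) ^ 5 / 120 + (113 / 50 * t ^ 2) ^ 6 / 720) := by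
  have hpi := Real.pi_pos
  have h1 : Real.exp (-(64 * t ^ 2 / (9 * Real.pi))) ≤ Real.exp (-(113 / 50 * t ^ 2)) := by
    apply Real.exp_le_exp.2
    have h2 : 113 / 50 * t ^ 2 ≤ 64 * t ^ 2 / (9 * Real.pi) := by
      rw [le_div_iff₀ (by positivity)]
      have := Real.pi_lt_d4
      nlinarith [sq_nonneg t]
    linarith
  have h3 := h1.trans (exp6 (y := 113 / 50 * t ^ 2) (by positivity))
  have h4 := coef_le
  have h5 : 0 ≤ 2 ^ 18 / (3 ^ 6 * Real.pi ^ 3) := by positivity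
  have h6 : 0 ≤ t ^ 4 := by positivity
  have h7 := Real.exp_pos (-(64 * t ^ 2 / (9 * Real.pi)))
  exact mul_le_mul (mul_le_mul_of_nonneg_right h4 h6) h3 h7.le (by positivity)

lemma gse_cont : Continuous fun t : ℝ => 2 ^ 18 / (3 ^ 6 * Real.pi ^ 3) * t ^ 4 *
    Real.exp (-(64 * t ^ 2 / (9 * Real.pi))) := by
  fun_prop

lemma gse_poly {s : ℝ} (hs : 0 ≤ s) : gse s ≤ s ^ 5 * wp (s ^ 2) := by
  have hd : ∀ t : ℝ, HasDerivAt (fun t : ℝ => (116 / 50 : ℝ) * t ^ 5 +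
      (-(116 / 10 * (113 / 50) / 7) : ℝ) * t ^ 7 + (116 / 10 * (113 / 50) ^ 2 / 18 : ℝ) * t ^ 9 +
      (-(116 / 10 * (113 / 50) ^ 3 / 66) : ℝ) * t ^ 11 + (116 / 10 * (113 / 50) ^ 4 / 312 : ℝ) * t ^ 13 +
      (-(116 / 10 * (113 / 50) ^ 5 / 1800) : ℝ) * t ^ 15 + (116 / 10 * (113 / 50) ^ 6 / 12240 : ℝ) * t ^ 17)
      (116 / 10 * t ^ 4 *
      (1 - 113 / 50 * t ^ 2 + (113 / 50 * t ^ 2) ^ 2 / 2 - (113 / 50 * t ^ 2) ^ 3 / 6 +
        (113 / 50 * t ^ 2) ^ 4 / 24 - (113 / 50 * t ^ 2) ^ 5 / 120 + (113 / 50 * t ^ 2) ^ 6 / 720)) t := by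
    intro t
    refine ((((((((hasDerivAt_pow 5 t).const_mul _).add ((hasDerivAt_pow 7 t).const_mul _)).add
      ((hasDerivAt_pow 9 t).const_mul _)).add ((hasDerivAt_pow 11 t).const_mul _)).add
      ((hasDerivAt_pow 13 t).const_mul _)).add ((hasDerivAt_pow 15 t).const_mul _)).add
      ((hasDerivAt_pow 17 t).const_mul _)).congr_deriv ?_
    push_cast
    ring
  have h1 : gse s ≤ ∫ t in (0 : ℝ)..s, 116 / 10 * t ^ 4 *
      (1 - 113 / 50 * t ^ 2 + (113 / 50 * t ^ 2) ^ 2 / 2 - (113 / 50 * t ^ 2) ^ 3 / 6 +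
        (113 / 50 * t ^ 2) ^ 4 / 24 - (113 / 50 * t ^ 2) ^ 5 / 120 + (113 / 50 * t ^ 2) ^ 6 / 720) :=
    intervalIntegral.integral_mono_on hs (gse_cont.intervalIntegrable _ _)
      (Continuous.intervalIntegrable (by fun_prop) _ _) fun t ht => gse_integrand ht.1
  rw [intervalIntegral.integral_eq_sub_of_hasDerivAt (fun t _ => hd t)
    (Continuous.intervalIntegrable (by fun_prop) _ _)] at h1
  refine h1.trans (le_of_eq ?_)
  unfold wp
  ring

lemma gse_five {s : ℝ} (hs : 0 ≤ s) : gse s ≤ 116 / 50 * s ^ 5 := by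
  have hpi := Real.pi_pos
  have hd : ∀ t : ℝ, HasDerivAt (fun t : ℝ => (116 / 50 : ℝ) * t ^ 5) (116 / 10 * t ^ 4) t := by
    intro t
    refine ((hasDerivAt_pow 5 t).const_mul _).congr_deriv ?_
    push_cast
    ring
  have h1 : gse s ≤ ∫ t in (0 : ℝ)..s, 116 / 10 * t ^ 4 := by
    refine intervalIntegral.integral_mono_on hs (gse_cont.intervalIntegrable _ _)
      (Continuous.intervalIntegrable (by fun_prop) _ _) fun t ht => ?_
    have h2 : Real.exp (-(64 * t ^ 2 / (9 * Real.pi))) ≤ 1 := by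
      apply Real.exp_le_one_iff.2
      have : 0 ≤ 64 * t ^ 2 / (9 * Real.pi) := by positivity
      linarith
    have h4 := coef_le
    have h6 : 0 ≤ t ^ 4 := by positivity
    have h7 := Real.exp_pos (-(64 * t ^ 2 / (9 * Real.pi)))
    have h8 := mul_le_mul (mul_le_mul_of_nonneg_right h4 h6) h2 h7.le (by positivity)
    linarith
  rw [intervalIntegral.integral_eq_sub_of_hasDerivAt (fun t _ => hd t)
    (Continuous.intervalIntegrable (by fun_prop) _ _)] at h1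
  refine h1.trans (le_of_eq ?_)
  ring

lemma gse_scale {κ s : ℝ} (hκ : 0 < κ) (hκ1 : κ ≤ 1) (hs : 0 ≤ s) :
    gse (s / κ) ≤ (κ ^ 5)⁻¹ * gse s := by
  have hpi := Real.pi_pos
  have h1 := intervalIntegral.integral_comp_div (a := 0) (b := s) (fun t : ℝ =>
    2 ^ 18 / (3 ^ 6 * Real.pi ^ 3) * t ^ 4 * Real.exp (-(64 * t ^ 2 / (9 * Real.pi)))) hκ.ne'
  rw [zero_div, smul_eq_mul] at h1
  have h2 : gse (s / κ) = κ⁻¹ * ∫ t in (0 : ℝ)..s, 2 ^ 18 / (3 ^ 6 * Real.pi ^ 3) * (t / κ) ^ 4 *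
      Real.exp (-(64 * (t / κ) ^ 2 / (9 * Real.pi))) := by
    rw [h1]
    unfold gse
    rw [← mul_assoc, inv_mul_cancel₀ hκ.ne', one_mul]
  have h3 : ∫ t in (0 : ℝ)..s, 2 ^ 18 / (3 ^ 6 * Real.pi ^ 3) * (t / κ) ^ 4 *
      Real.exp (-(64 * (t / κ) ^ 2 / (9 * Real.pi))) ≤ (κ ^ 4)⁻¹ * gse s := by
    unfold gse
    rw [← intervalIntegral.integral_const_mul]
    refine intervalIntegral.integral_mono_on hs (Continuous.intervalIntegrable (by fun_prop) _ _)
      ((gse_cont.const_mul _).intervalIntegrable _ _) fun t ht => ?_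
    have h4 : Real.exp (-(64 * (t / κ) ^ 2 / (9 * Real.pi))) ≤
        Real.exp (-(64 * t ^ 2 / (9 * Real.pi))) := by
      apply Real.exp_le_exp.2
      have h5 : t ≤ t / κ := by
        rw [le_div_iff₀ hκ]
        nlinarith [ht.1]
      have h6 : 64 * t ^ 2 / (9 * Real.pi) ≤ 64 * (t / κ) ^ 2 / (9 * Real.pi) := by
        have := ht.1
        gcongr
      linarith
    have h7 : 0 ≤ 2 ^ 18 / (3 ^ 6 * Real.pi ^ 3) * (t / κ) ^ 4 := by positivity
    have h8 := mul_le_mul_of_nonneg_left h4 h7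
    refine h8.trans (le_of_eq ?_)
    rw [div_pow]
    ring
  rw [h2]
  have h9 := mul_le_mul_of_nonneg_left h3 (inv_nonneg.2 hκ.le)
  refine h9.trans (le_of_eq ?_)
  rw [← mul_assoc, ← mul_inv]
  congr 2
  ring

lemma tele {x : ℝ} (hx : 1 ≤ x) : 1 / x ^ 4 ≤ 1 / 3 * (1 / (x - 1 / 2) ^ 3 - 1 / (x + 1 / 2) ^ 3) := by
  have h1 : 0 < x - 1 / 2 := by linarith
  have h2 : 0 < x + 1 / 2 := by linarith
  have h3 : 1 / (x - 1 / 2) ^ 3 - 1 / (x + 1 / 2) ^ 3 =
      (3 * x ^ 2 + 1 / 4) / (x ^ 2 - 1 / 4) ^ 3 := by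
    have e : x ^ 2 - 1 / 4 = (x - 1 / 2) * (x + 1 / 2) := by ring
    rw [e, mul_pow, div_sub_div _ _ (by positivity) (by positivity)]
    congr 1
    ring
  have h4 : 0 < x ^ 2 - 1 / 4 := by nlinarith
  have h5 : (x ^ 2 - 1 / 4) ^ 3 ≤ (x ^ 2) ^ 3 := by gcongr; linarith
  rw [h3, div_le_iff₀ (by positivity)]
  have h6 : 1 / 3 * ((3 * x ^ 2 + 1 / 4) / (x ^ 2 - 1 / 4) ^ 3) * x ^ 4 =
      (x ^ 2 + 1 / 12) * x ^ 4 / (x ^ 2 - 1 / 4) ^ 3 := by ring
  rw [h6, le_div_iff₀ (by positivity)]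
  have h7 : 0 ≤ x ^ 4 := by positivity
  have h8 : (x ^ 2) ^ 3 = x ^ 2 * x ^ 4 := by ring
  nlinarith

lemma sum_tele (n : ℕ) : ∑ i ∈ Finset.range n, 1 / ((i : ℝ) + 6) ^ 4 ≤
    1 / 3 * (1 / (11 / 2) ^ 3 - 1 / ((n : ℝ) + 11 / 2) ^ 3) := by
  induction n with
  | zero => simp
  | succ n ih =>
    rw [Finset.sum_range_succ]
    have h := tele (x := (n : ℝ) + 6) (by linarith [(Nat.cast_nonneg n : (0 : ℝ) ≤ n)])
    have e1 : (n : ℝ) + 6 - 1 / 2 = n + 11 / 2 := by ring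
    have e2 : (n : ℝ) + 6 + 1 / 2 = ((n + 1 : ℕ) : ℝ) + 11 / 2 := by push_cast; ring
    rw [e1, e2] at h
    linarith

lemma sum_four (M : ℕ) : ∑ k ∈ Finset.Ico 2 M, 1 / (k : ℝ) ^ 4 ≤ 824 / 10000 := by
  have hs : Finset.Ico 2 M ⊆ Finset.Ico 2 (M + 6) := by
    intro k hk
    rw [Finset.mem_Ico] at hk ⊢
    omega
  have h1 : ∑ k ∈ Finset.Ico 2 M, 1 / (k : ℝ) ^ 4 ≤ ∑ k ∈ Finset.Ico 2 (M + 6), 1 / (k : ℝ) ^ 4 :=
    Finset.sum_le_sum_of_subset_of_nonneg hs fun _ _ _ => by positivity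
  have h2 : ∑ k ∈ Finset.Ico 2 (M + 6), 1 / (k : ℝ) ^ 4 =
      ∑ k ∈ Finset.Ico (2 : ℕ) 6, 1 / (k : ℝ) ^ 4 + ∑ k ∈ Finset.Ico 6 (M + 6), 1 / (k : ℝ) ^ 4 :=
    (Finset.sum_Ico_consecutive (fun k : ℕ => 1 / (k : ℝ) ^ 4) (by norm_num : 2 ≤ 6)
      (by omega : 6 ≤ M + 6)).symm
  have h3 : ∑ k ∈ Finset.Ico 6 (M + 6), 1 / (k : ℝ) ^ 4 =
      ∑ i ∈ Finset.range M, 1 / ((i : ℝ) + 6) ^ 4 := by
    rw [Finset.sum_Ico_eq_sum_range]
    have : M + 6 - 6 = M := by omega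
    rw [this]
    refine Finset.sum_congr rfl fun i _ => ?_
    push_cast
    rw [add_comm]
  have h4 : ∑ k ∈ Finset.Ico (2 : ℕ) 6, 1 / (k : ℝ) ^ 4 = 1 / 16 + 1 / 81 + 1 / 256 + 1 / 625 := by
    rw [Finset.sum_Ico_eq_sum_range]
    norm_num [Finset.sum_range_succ]
  have h5 := sum_tele M
  have h6 : 0 ≤ 1 / ((M : ℝ) + 11 / 2) ^ 3 := by positivity
  rw [h2, h3, h4] at h1
  have h7 : (1 : ℝ) / 16 + 1 / 81 + 1 / 256 + 1 / 625 + 1 / 3 * (1 / (11 / 2) ^ 3) ≤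
      824 / 10000 := by norm_num
  linarith

end Pool.Agent.P8H16.GL
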