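import Pool.Agent.P8H16.GL4
import Pool.Agent.P8H16.GL7
import Pool.Agent.P8H16.GL2

/-! # The distribution function of the gaps, from below -/

set_option autoImplicit false

open MeasureTheory Set Filter Topology

namespace Pool.Agent.P8H16.GL

open Pool.Agent.Y749.Rig
open Pool.Agent.Y749.AH
open SG (ord NZ zmult ZS)

lemma NZ_ord {ε : ℝ} (hε : 0 < ε) : ∀ᶠ N : ℕ in atTop, (NZ (ord N) : ℝ) ≤ (1 + ε) * N := by
  obtain ⟨e, he⟩ : ∃ e : ℝ, e = min (1 / 10) (ε / 10) := ⟨_, rfl⟩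
  have he0 : 0 < e := by rw [he]; exact lt_min (by norm_num) (by positivity)
  have he1 : e ≤ 1 / 10 := by rw [he]; exact min_le_left _ _
  have he2 : 10 * e ≤ ε := by
    have : e ≤ ε / 10 := by rw [he]; exact min_le_right _ _
    linarith
  have h1 : (0 : ℝ) < 1 - e := by linarith
  have hT : Tendsto (fun T : ℝ => (1 - e) * T) atTop atTop := tendsto_id.const_mul_atTop h1
  have hlog : ∀ᶠ T : ℝ in atTop, -Real.log (1 - e) ≤ e * Real.log T := by
    have := (Real.tendsto_log_atTop.const_mul_atTop he0).eventually_ge_atTop (-Real.log (1 - e))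
    exact this
  have hall : ∀ᶠ T : ℝ in atTop, ((NZ T : ℝ) ≤ (1 + e) * nT T) ∧
      ((1 - e) * nT ((1 - e) * T) ≤ (NZ ((1 - e) * T) : ℝ)) ∧ 10 ≤ T ∧
      -Real.log (1 - e) ≤ e * Real.log T := by
    filter_upwards [N_asymp he0, hT.eventually (N_asymp he0), eventually_ge_atTop 10, hlog] with
      T g1 g2 g3 g4
    exact ⟨g1.2, g2.1, g3, g4⟩
  filter_upwards [SG.ord_tendsto.eventually hall, eventually_ge_atTop 1] with N hN hN1
  obtain ⟨g1, g2, g3, g4⟩ := hN
  obtain ⟨T, hTd⟩ : ∃ T : ℝ, T = ord N := ⟨_, rfl⟩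
  rw [← hTd] at g1 g2 g3 g4 ⊢
  have hT0 : 0 < T := by linarith
  have h2 : NZ ((1 - e) * T) ≤ N := by
    by_contra hcon
    have h3 := (SG.ord_le_iff hN1 ((1 - e) * T)).2 (by omega)
    have h4 : T ≤ (1 - e) * T := by rw [hTd] at h3 ⊢; exact h3
    nlinarith
  have h2' : (NZ ((1 - e) * T) : ℝ) ≤ N := by exact_mod_cast h2
  have hpi := Real.pi_pos
  have hn := nT_pos g3
  have h5 : (1 - e) * (1 - e) * nT T ≤ nT ((1 - e) * T) := by
    unfold nT
    rw [Real.log_mul h1.ne' hT0.ne']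
    rw [mul_div_assoc', div_le_div_iff_of_pos_right (by positivity)]
    have h6 : (1 - e) * T * ((1 - e) * Real.log T) ≤ (1 - e) * T * (Real.log (1 - e) + Real.log T) := by
      refine mul_le_mul_of_nonneg_left ?_ (by positivity)
      linarith
    linarith
  have h6 : (1 - e) * ((1 - e) * (1 - e) * nT T) ≤ N :=
    (mul_le_mul_of_nonneg_left h5 h1.le).trans (g2.trans h2')
  have h7 : (1 + e) ≤ (1 + ε) * ((1 - e) * ((1 - e) * (1 - e))) := by
    have h8 : 1 - 3 * e ≤ (1 - e) * ((1 - e) * (1 - e)) := by nlinarith [sq_nonneg e]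
    have h9 : (1 + 10 * e) * (1 - 3 * e) ≤ (1 + ε) * ((1 - e) * ((1 - e) * (1 - e))) := by
      have : 0 ≤ 1 - 3 * e := by linarith
      have h10 : 1 + 10 * e ≤ 1 + ε := by linarith
      exact mul_le_mul h10 h8 this (by linarith)
    nlinarith
  calc (NZ T : ℝ) ≤ (1 + e) * nT T := g1
    _ ≤ (1 + ε) * ((1 - e) * ((1 - e) * (1 - e))) * nT T := by gcongr
    _ = (1 + ε) * ((1 - e) * ((1 - e) * (1 - e) * nT T)) := by ring
    _ ≤ (1 + ε) * N := by gcongr

lemma N_le_NZ {N : ℕ} (hN : 1 ≤ N) : (N : ℝ) ≤ NZ (ord N) := by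
  exact_mod_cast SG.le_NZ_ord hN

lemma dj_ev : ∃ n0 : ℕ, 1 ≤ n0 ∧ ∀ j, n0 ≤ j → 0 ≤ dj j := by
  obtain ⟨n0, h⟩ := eventually_atTop.1 (SG.ord_tendsto.eventually_ge_atTop 10)
  refine ⟨max n0 1, le_max_right _ _, fun j hj => ?_⟩
  have h1 : 1 ≤ j := (le_max_right _ _).trans hj
  have h2 := h j ((le_max_left _ _).trans hj)
  have h3 := gt_low h1 (Nat.le_succ j)
  refine le_trans ?_ h3
  have h4 := SG.ord_mono h1 (Nat.le_succ j)
  have h5 : 0 ≤ Real.log (ord j) := Real.log_nonneg (by linarith)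
  have hpi := Real.pi_pos
  have h6 : 0 ≤ ord (j + 1) - ord j := sub_nonneg.2 h4
  positivity

/-- the window -/
noncomputable def wd (t : ℝ) : ℝ → ℝ := dl (999 / 1000) (pt t)

lemma adm_wd (t : ℝ) : Adm (999 / 1000) (wd t) := adm_dl (by norm_num) (adm_pt t)

lemma fl_wd (t x : ℝ) : fl (wd t) x = fl (pt t) (999 / 1000 * x) :=
  fl_dl (by norm_num) (adm_pt t) x

lemma pt_cont (t : ℝ) : Continuous (fl (pt t)) := fl_cont (adm_pt t).int

lemma fl_pt_zero (t : ℝ) : fl (pt t) 0 = 1 := by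
  rw [fl_pt t (by norm_num)]
  unfold hh
  simp

lemma fl_wd_zero (t : ℝ) : fl (wd t) 0 = 1 := by
  rw [fl_wd, mul_zero, fl_pt_zero]

lemma ne_of_half {x : ℝ} (h0 : 0 ≤ x) (h : x ≠ 1 / 2) : 1 - 4 * x ^ 2 ≠ 0 := by
  intro hx
  apply h
  nlinarith

lemma fl0_nonneg (y : ℝ) : 0 ≤ fl (pt 0) y := by
  have key : ∀ x, 0 ≤ x → 0 ≤ fl (pt 0) x := by
    intro x hx
    by_cases h : x = 1 / 2
    · have := extend (f := fun _ => (0 : ℝ)) continuous_const (pt_cont 0) (a := 0) (b := 1)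
        one_pos {1 / 2} (finite_singleton _) (fun z hz hz2 => by
          rw [fl_pt 0 (ne_of_half hz.1.le (by simpa using hz2))]
          have := sq_nonneg (hh z)
          nlinarith) x (by rw [h]; constructor <;> norm_num)
      exact this
    · rw [fl_pt 0 (ne_of_half hx h)]
      have := sq_nonneg (hh x)
      nlinarith
  rcases le_total 0 y with h | h
  · exact key y h
  · rw [← fl_even]
    exact key (-y) (by linarith)

lemma sin_pi_ne {x : ℝ} (h0 : 0 < x) (h1 : x < 2) (h : x ≠ 1) : Real.sin (Real.pi * x) ≠ 0 := by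
  intro hs
  rw [Real.sin_eq_zero_iff] at hs
  obtain ⟨n, hn⟩ := hs
  have hpi := Real.pi_pos
  have h2 : (n : ℝ) = x := by
    have : Real.pi * (n : ℝ) = Real.pi * x := by linarith
    exact mul_left_cancel₀ hpi.ne' this
  have h3 : (0 : ℝ) < n := by rw [h2]; exact h0
  have h4 : (n : ℝ) < 2 := by rw [h2]; exact h1
  have h5 : 0 < n := by exact_mod_cast h3
  have h6 : n < 2 := by exact_mod_cast h4
  have h7 : n = 1 := by omega
  apply h
  rw [← h2, h7]
  norm_num

lemma fl0_low {y : ℝ} (hy : y ∈ Icc (0 : ℝ) (3 / 2)) : V0 y ≤ fl (pt 0) y := by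
  have hc : Continuous V0 := by unfold V0 Lp; fun_prop
  refine extend hc (pt_cont 0) (by norm_num : (0 : ℝ) < 3 / 2) {1 / 2, 1} (by simp) (fun x hx hF => ?_) y hy
  simp only [mem_insert_iff, mem_singleton_iff, not_or] at hF
  have h1 := ne_of_half hx.1.le hF.1
  have h2 := sin_pi_ne hx.1 (by linarith [hx.2]) hF.2
  obtain ⟨h3, -⟩ := hh_bounds hx.1 hx.2 h1 h2
  rw [fl_pt 0 h1]
  have h4 : 0 ≤ Lp (x ^ 2) := Lp_nonneg (by nlinarith [hx.1, hx.2])
  have h5 : Lp (x ^ 2) ^ 2 ≤ hh x ^ 2 := by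
    unfold hh
    gcongr
  unfold V0
  linarith

lemma fl1_up {y : ℝ} (hy : y ∈ Icc (0 : ℝ) 1) : fl (pt 1) y ≤ V1 y := by
  have hc : Continuous V1 := by unfold V1 Hp; fun_prop
  refine extend (pt_cont 1) hc (one_pos) {1 / 2} (finite_singleton _) (fun x hx hF => ?_) y hy
  simp only [mem_singleton_iff] at hF
  have h1 := ne_of_half hx.1.le hF
  have h2 := sin_pi_ne hx.1 (by linarith [hx.2]) (ne_of_lt hx.2)
  obtain ⟨h3, h3'⟩ := hh_bounds hx.1 (by linarith [hx.2]) h1 h2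
  rw [fl_pt 1 h1]
  have h4 : 0 ≤ Lp (x ^ 2) := Lp_nonneg (by nlinarith [hx.1, hx.2])
  have h5 : hh x ^ 2 ≤ Hp (x ^ 2) ^ 2 := by
    have h6 : 0 ≤ hh x := h4.trans h3
    exact pow_le_pow_left₀ h6 h3' 2
  unfold V1
  rw [one_mul]
  refine mul_le_mul_of_nonneg_left h5 ?_
  nlinarith [hx.1, hx.2]

lemma fl1_neg {y : ℝ} (hy : 1 < y) : fl (pt 1) y ≤ 0 := by
  rw [fl_pt 1 (ne_of_half (by linarith) (by linarith))]
  have := sq_nonneg (hh y)
  exact mul_nonpos_of_nonpos_of_nonneg (by nlinarith) this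

lemma fl_abs (ψ : ℝ → ℝ) (x : ℝ) : fl ψ |x| = fl ψ x := by
  rcases abs_choice x with h | h
  · rw [h]
  · rw [h, fl_even]

lemma V0_int : ∫ s in (0 : ℝ)..(3 / 2), (-V0' s) = 1 := by
  have hc := V0_cont
  rw [intervalIntegral.integral_eq_sub_of_hasDerivAt (f := fun s => -V0 s)
    (fun s _ => (V0_der s).neg) (Continuous.intervalIntegrable (by fun_prop) _ _), V0_end]
  unfold V0 Lp
  norm_num

lemma cc_zero : (cc (wd 0) - fl (wd 0) 0) / 2 ≤ 2425 / 10000 := by
  unfold wd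
  rw [cc_dl (by norm_num)]
  have h0 : fl (dl (999 / 1000) (pt 0)) 0 = 1 := fl_wd_zero 0
  rw [h0]
  have h := Real.pi_lt_d4
  have h1 := Real.pi_pos
  have h2 : Real.pi ^ 2 ≤ 3.1416 ^ 2 := by gcongr
  norm_num at h2 ⊢
  linarith

/-- the number of the gaps at most `s` among the first `N` -/
noncomputable def cnt (N : ℕ) (s : ℝ) : ℝ := (((Finset.Ioc 0 N).filter (fun j => dj j ≤ s)).card : ℝ)

/-- **a law of the gaps cannot stay above `R`** -/
theorem law_low (hRH : RiemannHypothesis) {R : ℝ → ℝ} (hR : Continuous R)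
    (hI : 244 / 1000 ≤ ∫ s in (0 : ℝ)..(3 / 2), (-V0' s) * R s) : ∀ᶠ N : ℕ in atTop,
    ∃ s ∈ Icc (0 : ℝ) (3 / 2), cnt N s ≤ R s * N := by
  classical
  obtain ⟨n0, hn0, hdj⟩ := dj_ev
  have hup := gaps_up hRH (adm_wd 0) (by norm_num) (by norm_num) (fun x => by
    rw [fl_wd]; exact fl0_nonneg _) (show (0 : ℝ) < 1 / 10000 by norm_num)
  filter_upwards [SG.ord_tendsto.eventually hup, NZ_ord (show (0 : ℝ) < 1 / 10000 by norm_num),
    eventually_ge_atTop 1, eventually_ge_atTop (10000 * n0)] with N g1 g2 g3 g4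
  by_contra hcon
  push Not at hcon
  have hNpos : (0 : ℝ) < N := by exact_mod_cast g3
  have hn0N : (n0 : ℝ) ≤ 1 / 10000 * N := by
    have : ((10000 * n0 : ℕ) : ℝ) ≤ N := by exact_mod_cast g4
    push_cast at this
    linarith
  have hsub : Finset.Ioc 0 N ⊆ II (ord N) := by
    unfold II
    exact Finset.Ioc_subset_Ioc_right (SG.le_NZ_ord g3)
  have hcnt : ∀ s ∈ Icc (0 : ℝ) (3 / 2), (R s - 1 / 10000) * N ≤
      (((Finset.Ioc 0 N).filter (fun j => |999 / 1000 * dj j| ≤ s)).card : ℝ) := by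
    intro s hs
    have h1 := hcon s hs
    unfold cnt at h1
    have h2 : ((Finset.Ioc 0 N).filter (fun j => dj j ≤ s)).card ≤
        ((Finset.Ioc 0 N).filter (fun j => |999 / 1000 * dj j| ≤ s)).card + n0 := by
      have h3 : (Finset.Ioc 0 N).filter (fun j => dj j ≤ s) ⊆
          (Finset.Ioc 0 N).filter (fun j => |999 / 1000 * dj j| ≤ s) ∪ Finset.range n0 := by
        intro j hj
        rw [Finset.mem_filter] at hj
        rw [Finset.mem_union, Finset.mem_filter, Finset.mem_range]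
        rcases lt_or_ge j n0 with h | h
        · exact Or.inr h
        · refine Or.inl ⟨hj.1, ?_⟩
          have := hdj j h
          rw [abs_of_nonneg (by positivity)]
          linarith [hj.2]
      have h4 := Finset.card_le_card h3
      refine h4.trans ((Finset.card_union_le _ _).trans ?_)
      rw [Finset.card_range]
    have h5 : (((Finset.Ioc 0 N).filter (fun j => dj j ≤ s)).card : ℝ) ≤
        (((Finset.Ioc 0 N).filter (fun j => |999 / 1000 * dj j| ≤ s)).card : ℝ) + n0 := by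
      exact_mod_cast h2
    nlinarith
  have h1 := layer_ge V0_der V0_cont V0_end (by norm_num) (fun s hs => V0_neg hs)
    (Finset.Ioc 0 N) (fun j => |999 / 1000 * dj j|) (fun j _ => abs_nonneg _)
    (R := fun s => R s - 1 / 10000) (by fun_prop) hcnt
  have h2 : ∫ s in (0 : ℝ)..(3 / 2), (-V0' s) * (R s - 1 / 10000) =
      (∫ s in (0 : ℝ)..(3 / 2), (-V0' s) * R s) - 1 / 10000 := by
    have hc := V0_cont
    have h3 : ∀ s : ℝ, (-V0' s) * (R s - 1 / 10000) = (-V0' s) * R s - (-V0' s) * (1 / 10000) := by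
      intro s; ring
    simp_rw [h3]
    rw [intervalIntegral.integral_sub (Continuous.intervalIntegrable (by fun_prop) _ _)
      (Continuous.intervalIntegrable (by fun_prop) _ _), intervalIntegral.integral_mul_const, V0_int,
      one_mul]
  rw [h2] at h1
  have h3 : ∑ j ∈ Finset.Ioc 0 N, (if |999 / 1000 * dj j| ≤ 3 / 2 then V0 |999 / 1000 * dj j| else 0) ≤
      ∑ j ∈ II (ord N), fl (wd 0) (dj j) := by
    refine le_trans (Finset.sum_le_sum (g := fun j => fl (wd 0) (dj j)) fun j _ => ?_)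
      (Finset.sum_le_sum_of_subset_of_nonneg hsub fun j _ _ => by rw [fl_wd]; exact fl0_nonneg _)
    show _ ≤ fl (wd 0) (dj j)
    rw [fl_wd]
    split_ifs with h
    · refine (fl0_low ⟨abs_nonneg _, h⟩).trans (le_of_eq (fl_abs _ _))
    · exact fl0_nonneg _
  have h4 := (h1.trans h3).trans g1
  have h5 := cc_zero
  have h6 : ((cc (wd 0) - fl (wd 0) 0) / 2 + 1 / 10000) * (NZ (ord N) : ℝ) ≤
      (2425 / 10000 + 1 / 10000) * ((1 + 1 / 10000) * N) := by
    have hNZ : (0 : ℝ) ≤ NZ (ord N) := Nat.cast_nonneg _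
    refine (mul_le_mul_of_nonneg_right (by linarith :
      (cc (wd 0) - fl (wd 0) 0) / 2 + 1 / 10000 ≤ 2425 / 10000 + 1 / 10000) hNZ).trans ?_
    exact mul_le_mul_of_nonneg_left g2 (by norm_num)
  nlinarith

end Pool.Agent.P8H16.GL
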