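import Pool.Agent.P8H16.GL8

/-! # The distribution function of the gaps, from above -/

set_option autoImplicit false

open MeasureTheory Set Filter Topology

namespace Pool.Agent.P8H16.GL

open Pool.Agent.Y749.Rig
open Pool.Agent.Y749.AH
open SG (ord NZ zmult ZS)

lemma count_k {T : ℝ} {k : ℕ} (hk : 1 ≤ k) (s : ℝ) :
    ((((II T).filter (fun j => j + k ∈ II T)).filter
      (fun j => |999 / 1000 * (gt (j + k) - gt j)| ≤ s)).card : ℝ) ≤
     k * (((II T).filter (fun m => dj m ≤ s / (999 / 1000 * k))).card : ℝ) := by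
  classical
  obtain ⟨A, hA⟩ : ∃ A : Finset ℕ, A = (II T).filter (fun m => dj m ≤ s / (999 / 1000 * k)) :=
    ⟨_, rfl⟩
  rw [← hA]
  have hk0 : (0 : ℝ) < k := by exact_mod_cast hk
  have h1 : ((II T).filter (fun j => j + k ∈ II T)).filter
      (fun j => |999 / 1000 * (gt (j + k) - gt j)| ≤ s) ⊆
      (Finset.range k).biUnion (fun i => A.image (fun m => m - i)) := by
    intro j hj
    rw [Finset.mem_filter, Finset.mem_filter] at hj
    obtain ⟨⟨h1, h2⟩, h3⟩ := hj
    have h4 : gt (j + k) - gt j ≤ s / (999 / 1000) := by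
      rw [le_div_iff₀ (by norm_num)]
      have := le_abs_self (999 / 1000 * (gt (j + k) - gt j))
      linarith
    have h5 : ∃ i < k, dj (j + i) ≤ s / (999 / 1000 * k) := by
      by_contra hcon
      push Not at hcon
      have h6 : ∑ i ∈ Finset.range k, s / (999 / 1000 * k) < ∑ i ∈ Finset.range k, dj (j + i) := by
        refine Finset.sum_lt_sum_of_nonempty (Finset.nonempty_range_iff.2 (by omega)) fun i hi => ?_
        exact hcon i (Finset.mem_range.1 hi)
      rw [gt_sum, Finset.sum_const, Finset.card_range, nsmul_eq_mul] at h6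
      have h7 : (k : ℝ) * (s / (999 / 1000 * k)) = s / (999 / 1000) := by field_simp
      linarith
    obtain ⟨i, hi, h6⟩ := h5
    rw [Finset.mem_biUnion]
    refine ⟨i, Finset.mem_range.2 hi, Finset.mem_image.2 ⟨j + i, ?_, by omega⟩⟩
    rw [hA, Finset.mem_filter]
    refine ⟨?_, h6⟩
    unfold II at h1 h2 ⊢
    rw [Finset.mem_Ioc] at h1 h2 ⊢
    omega
  have h2 : (((II T).filter (fun j => j + k ∈ II T)).filter
      (fun j => |999 / 1000 * (gt (j + k) - gt j)| ≤ s)).card ≤ k * A.card := by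
    refine (Finset.card_le_card h1).trans (Finset.card_biUnion_le.trans ?_)
    refine (Finset.sum_le_sum (g := fun _ => A.card) fun i _ => Finset.card_image_le).trans ?_
    rw [Finset.sum_const, Finset.card_range, smul_eq_mul]
  exact_mod_cast h2

lemma cc_one : 11916 / 100000 ≤ (cc (wd 1) - fl (wd 1) 0) / 2 := by
  unfold wd
  rw [cc_dl (by norm_num)]
  have h0 : fl (dl (999 / 1000) (pt 1)) 0 = 1 := fl_wd_zero 1
  rw [h0]
  have h := Real.pi_gt_d4
  have h2 : (3.1415 : ℝ) ^ 2 ≤ Real.pi ^ 2 := by gcongr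
  norm_num at h2 ⊢
  linarith

lemma cnt_II {N : ℕ} (hN : 1 ≤ N) (u : ℝ) :
    (((II (ord N)).filter (fun m => dj m ≤ u)).card : ℝ) ≤ cnt N u + (NZ (ord N) - N) := by
  classical
  have hle := SG.le_NZ_ord hN
  have h1 : (II (ord N)).filter (fun m => dj m ≤ u) ⊆
      (Finset.Ioc 0 N).filter (fun j => dj j ≤ u) ∪ Finset.Ioc N (NZ (ord N)) := by
    intro j hj
    unfold II at hj
    rw [Finset.mem_filter, Finset.mem_Ioc] at hj
    rw [Finset.mem_union, Finset.mem_filter, Finset.mem_Ioc, Finset.mem_Ioc]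
    rcases le_or_gt j N with h | h
    · exact Or.inl ⟨⟨hj.1.1, h⟩, hj.2⟩
    · exact Or.inr ⟨h, hj.1.2⟩
  have h2 := (Finset.card_le_card h1).trans (Finset.card_union_le _ _)
  rw [Nat.card_Ioc] at h2
  have h3 : (((II (ord N)).filter (fun m => dj m ≤ u)).card : ℝ) ≤
      (((Finset.Ioc 0 N).filter (fun j => dj j ≤ u)).card : ℝ) + ((NZ (ord N) - N : ℕ) : ℝ) := by
    exact_mod_cast h2
  rw [Nat.cast_sub hle] at h3
  exact h3

/-- the upper bounds for the rescaled law -/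
noncomputable def Gk (k : ℕ) (s : ℝ) : ℝ :=
  if k = 1 then ((999 / 1000 : ℝ) ^ 5)⁻¹ * (s ^ 5 * wp (s ^ 2)) else
    116 / 50 * (s / (999 / 1000 * k)) ^ 5

lemma Gk_cont (k : ℕ) : Continuous (Gk k) := by
  unfold Gk wp
  split_ifs <;> fun_prop

lemma gse_le_Gk {k : ℕ} {s : ℝ} (hk : 1 ≤ k) (hs : 0 ≤ s) : gse (s / (999 / 1000 * k)) ≤ Gk k s := by
  unfold Gk
  split_ifs with h
  · rw [h, Nat.cast_one, mul_one]
    refine (gse_scale (by norm_num) (by norm_num) hs).trans ?_
    exact mul_le_mul_of_nonneg_left (gse_poly hs) (by positivity)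
  · exact gse_five (by positivity)

/-- the bounds for the integrals -/
noncomputable def ak (k : ℕ) : ℝ :=
  if k = 1 then ((999 / 1000 : ℝ) ^ 5)⁻¹ * (94153 / 1000000) else
    116 / 50 * ((999 / 1000 : ℝ) ^ 5)⁻¹ * (10232 / 100000) * (1 / (k : ℝ) ^ 5)

lemma int_Gk {k : ℕ} (hk : 1 ≤ k) : ∫ s in (0 : ℝ)..1, (-V1' s) * Gk k s ≤ ak k := by
  unfold Gk ak
  have hk0 : (0 : ℝ) < k := by exact_mod_cast hk
  split_ifs with h
  · have e : ∀ s : ℝ, (-V1' s) * (((999 / 1000 : ℝ) ^ 5)⁻¹ * (s ^ 5 * wp (s ^ 2))) =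
        ((999 / 1000 : ℝ) ^ 5)⁻¹ * ((-V1' s) * (s ^ 5 * wp (s ^ 2))) := by intro s; ring
    simp_rw [e]
    rw [intervalIntegral.integral_const_mul]
    exact mul_le_mul_of_nonneg_left J1_num (by positivity)
  · have e : ∀ s : ℝ, (-V1' s) * (116 / 50 * (s / (999 / 1000 * k)) ^ 5) =
        116 / 50 * ((999 / 1000 : ℝ) ^ 5)⁻¹ * (1 / (k : ℝ) ^ 5) * ((-V1' s) * s ^ 5) := by
      intro s
      rw [div_pow, mul_pow]
      field_simp
    simp_rw [e]
    rw [intervalIntegral.integral_const_mul]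
    have h2 := mul_le_mul_of_nonneg_left J5_num (show 0 ≤ 116 / 50 * ((999 / 1000 : ℝ) ^ 5)⁻¹ *
      (1 / (k : ℝ) ^ 5) by positivity)
    linarith

lemma ak_nonneg (k : ℕ) : 0 ≤ ak k := by
  unfold ak
  split_ifs <;> positivity

lemma sum_ak {c : ℝ} (hc : 0 ≤ c) (M : ℕ) :
    ∑ k ∈ Finset.Ico 1 M, (k : ℝ) * (103 / 100 * ak k + c) ≤ 11772 / 100000 + c * M ^ 2 := by
  have h1 : ∑ k ∈ Finset.Ico 1 M, (k : ℝ) * (103 / 100 * ak k + c) =
      ∑ k ∈ Finset.Ico 1 M, 103 / 100 * ((k : ℝ) * ak k) + ∑ k ∈ Finset.Ico 1 M, (k : ℝ) * c := by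
    rw [← Finset.sum_add_distrib]
    refine Finset.sum_congr rfl fun k _ => ?_
    ring
  have h2 : ∑ k ∈ Finset.Ico 1 M, (k : ℝ) * c ≤ c * M ^ 2 := by
    have h3 : ∀ k ∈ Finset.Ico 1 M, (k : ℝ) * c ≤ M * c := by
      intro k hk
      have : (k : ℝ) ≤ M := by exact_mod_cast (Finset.mem_Ico.1 hk).2.le
      gcongr
    refine (Finset.sum_le_sum h3).trans ?_
    rw [Finset.sum_const, Nat.card_Ico, nsmul_eq_mul]
    have h4 : ((M - 1 : ℕ) : ℝ) ≤ M := by exact_mod_cast Nat.sub_le M 1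
    have h5 : ((M - 1 : ℕ) : ℝ) * (M * c) ≤ M * (M * c) := by gcongr
    refine h5.trans (le_of_eq ?_)
    ring
  have h6 : ∑ k ∈ Finset.Ico 1 M, 103 / 100 * ((k : ℝ) * ak k) ≤ 11772 / 100000 := by
    have hs : Finset.Ico 1 M ⊆ Finset.Ico 1 (M + 2) := by
      intro k hk
      rw [Finset.mem_Ico] at hk ⊢
      omega
    have h7 : ∑ k ∈ Finset.Ico 1 M, 103 / 100 * ((k : ℝ) * ak k) ≤
        ∑ k ∈ Finset.Ico 1 (M + 2), 103 / 100 * ((k : ℝ) * ak k) :=
      Finset.sum_le_sum_of_subset_of_nonneg hs fun k _ _ => by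
        have := ak_nonneg k
        positivity
    have h8 : ∑ k ∈ Finset.Ico 1 (M + 2), 103 / 100 * ((k : ℝ) * ak k) =
        103 / 100 * (((1 : ℕ) : ℝ) * ak 1) +
          ∑ k ∈ Finset.Ico (1 + 1) (M + 2), 103 / 100 * ((k : ℝ) * ak k) :=
      Finset.sum_eq_sum_Ico_succ_bot (by omega) _
    have h9 : ∑ k ∈ Finset.Ico (1 + 1) (M + 2), 103 / 100 * ((k : ℝ) * ak k) =
        103 / 100 * (116 / 50 * ((999 / 1000 : ℝ) ^ 5)⁻¹ * (10232 / 100000)) *
          ∑ k ∈ Finset.Ico 2 (M + 2), 1 / (k : ℝ) ^ 4 := by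
      rw [Finset.mul_sum]
      refine Finset.sum_congr rfl fun k hk => ?_
      have hk2 : 2 ≤ k := (Finset.mem_Ico.1 hk).1
      have hk0 : (0 : ℝ) < k := by exact_mod_cast (by omega : 0 < k)
      unfold ak
      rw [if_neg (by omega)]
      field_simp
    have h10 := sum_four (M + 2)
    have h11 : ak 1 = ((999 / 1000 : ℝ) ^ 5)⁻¹ * (94153 / 1000000) := by
      unfold ak
      rw [if_pos rfl]
    have h12 := mul_le_mul_of_nonneg_left h10 (show 0 ≤ 103 / 100 * (116 / 50 *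
      ((999 / 1000 : ℝ) ^ 5)⁻¹ * (10232 / 100000)) by positivity)
    rw [h8, h9, h11] at h7
    refine h7.trans ((add_le_add_right h12 _).trans ?_)
    norm_num
  rw [h1]
  linarith

/-- **the law of the gaps cannot stay below the quartic law** -/
theorem law_high (hRH : RiemannHypothesis) : ∃ c : ℝ, 0 < c ∧ ∀ᶠ N : ℕ in atTop,
    ∃ s ∈ Icc (0 : ℝ) (101 / 100), (103 / 100 * gse s + c) * N ≤ cnt N s := by
  classical
  obtain ⟨M, hM1, hlow⟩ := gaps_low hRH (adm_wd 1) (by norm_num) (by norm_num)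
    (ρ := 1000 / 999) (by norm_num) (fun x hx => by
      rw [fl_wd]
      exact fl1_neg (by linarith)) (show (0 : ℝ) < 1 / 2000 by norm_num)
  have hM0 : (0 : ℝ) < M := by exact_mod_cast hM1
  obtain ⟨c, hcd⟩ : ∃ c : ℝ, c = 1 / (10000 * M ^ 2) := ⟨_, rfl⟩
  have hc0 : 0 < c := by rw [hcd]; positivity
  refine ⟨c, hc0, ?_⟩
  filter_upwards [SG.ord_tendsto.eventually hlow, NZ_ord hc0, eventually_ge_atTop 1] with
    N g1 g2 g3
  by_contra hcon
  push Not at hcon
  have hNpos : (0 : ℝ) < N := by exact_mod_cast g3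
  have hNN := N_le_NZ g3
  have hk : ∀ k ∈ Finset.Ico 1 M, ∑ j ∈ (II (ord N)).filter (fun j => j + k ∈ II (ord N)),
      max (fl (wd 1) (gt (j + k) - gt j)) 0 ≤ (k : ℝ) * (103 / 100 * ak k + 2 * c) * N := by
    intro k hk
    have hk1 : 1 ≤ k := (Finset.mem_Ico.1 hk).1
    have hk0 : (0 : ℝ) < k := by exact_mod_cast hk1
    have hk1' : (1 : ℝ) ≤ k := by exact_mod_cast hk1
    have hcnt : ∀ s ∈ Icc (0 : ℝ) 1,
        ((((II (ord N)).filter (fun j => j + k ∈ II (ord N))).filter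
          (fun j => |999 / 1000 * (gt (j + k) - gt j)| ≤ s)).card : ℝ) ≤
          (k * (103 / 100 * Gk k s + 2 * c)) * N := by
      intro s hs
      refine (count_k hk1 s).trans ?_
      rw [mul_assoc]
      refine mul_le_mul_of_nonneg_left ?_ hk0.le
      have hu : s / (999 / 1000 * k) ∈ Icc (0 : ℝ) (101 / 100) := by
        refine ⟨div_nonneg hs.1 (by positivity), ?_⟩
        rw [div_le_iff₀ (by positivity)]
        have := hs.2
        nlinarith
      have h1 := hcon _ hu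
      have h2 := gse_le_Gk hk1 hs.1
      have h3 := cnt_II g3 (s / (999 / 1000 * k))
      nlinarith
    have h1 := layer_le V1_der V1_cont V1_end (by norm_num) (fun s hs => V1_neg hs)
      ((II (ord N)).filter (fun j => j + k ∈ II (ord N)))
      (fun j => |999 / 1000 * (gt (j + k) - gt j)|) (fun j _ => abs_nonneg _)
      (R := fun s => k * (103 / 100 * Gk k s + 2 * c))
      (by have := Gk_cont k; fun_prop) hcnt
    have h2 : ∫ s in (0 : ℝ)..1, (-V1' s) * ((k : ℝ) * (103 / 100 * Gk k s + 2 * c)) =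
        k * (103 / 100 * (∫ s in (0 : ℝ)..1, (-V1' s) * Gk k s) + 2 * c) := by
      have hc := V1_cont
      have hG := Gk_cont k
      have h3 : ∀ s : ℝ, (-V1' s) * ((k : ℝ) * (103 / 100 * Gk k s + 2 * c)) =
          (k * (103 / 100)) * ((-V1' s) * Gk k s) + (k * (2 * c)) * (-V1' s) := by
        intro s; ring
      simp_rw [h3]
      rw [intervalIntegral.integral_add (Continuous.intervalIntegrable (by fun_prop) _ _)
        (Continuous.intervalIntegrable (by fun_prop) _ _), intervalIntegral.integral_const_mul,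
        intervalIntegral.integral_const_mul, V1_int]
      ring
    rw [h2] at h1
    have h4 := int_Gk hk1
    have h5 : ∑ j ∈ (II (ord N)).filter (fun j => j + k ∈ II (ord N)),
        max (fl (wd 1) (gt (j + k) - gt j)) 0 ≤
        ∑ j ∈ (II (ord N)).filter (fun j => j + k ∈ II (ord N)),
          (if |999 / 1000 * (gt (j + k) - gt j)| ≤ 1 then V1 |999 / 1000 * (gt (j + k) - gt j)|
            else 0) := by
      refine Finset.sum_le_sum fun j _ => ?_
      rw [fl_wd, ← fl_abs]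
      split_ifs with h
      · refine max_le (fl1_up ⟨abs_nonneg _, h⟩) ?_
        unfold V1
        have h6 := abs_nonneg (999 / 1000 * (gt (j + k) - gt j))
        have h7 : 0 ≤ 1 - |999 / 1000 * (gt (j + k) - gt j)| ^ 2 := by nlinarith
        positivity
      · exact max_le (fl1_neg (not_le.1 h)) le_rfl
    refine (h5.trans h1).trans ?_
    have h6 : (k : ℝ) * (103 / 100 * (∫ s in (0 : ℝ)..1, (-V1' s) * Gk k s) + 2 * c) ≤
        k * (103 / 100 * ak k + 2 * c) := by gcongr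
    exact mul_le_mul_of_nonneg_right h6 hNpos.le
  have h1 := g1.trans (Finset.sum_le_sum hk)
  rw [← Finset.sum_mul] at h1
  have h2 := sum_ak (show 0 ≤ 2 * c by positivity) M
  have h3 : 2 * c * (M : ℝ) ^ 2 = 1 / 5000 := by
    rw [hcd]
    field_simp
    norm_num
  have h4 := cc_one
  have h5 : (11916 / 100000 - 1 / 2000) * (N : ℝ) ≤
      ((cc (wd 1) - fl (wd 1) 0) / 2 - 1 / 2000) * NZ (ord N) := by
    have h6 : (11916 / 100000 - 1 / 2000 : ℝ) ≤ (cc (wd 1) - fl (wd 1) 0) / 2 - 1 / 2000 := by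
      linarith
    refine (mul_le_mul_of_nonneg_right h6 hNpos.le).trans ?_
    exact mul_le_mul_of_nonneg_left hNN (by linarith)
  have h7 := mul_le_mul_of_nonneg_right h2 hNpos.le
  rw [h3] at h7
  nlinarith

end Pool.Agent.P8H16.GL
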