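import Pool.Agent.R361.MH.Sign

/-!
# The little Grothendieck inequality for complex matrices and the Pietsch weight

If `∑_k |∑_g e_k(g) b_g|² ≤ M` for all `|b_g| ≤ 1`, there is a probability vector `μ` with
`∑_k |∑_g e_k(g) b_g|² ≤ 96 M ∑_g μ_g |b_g|²` for all `b`.
-/

set_option autoImplicit false

namespace Pool.Agent.P8H16.LG

open Finset

/-- the quadratic form -/
noncomputable def Q {κ G : Type} [Fintype κ] [Fintype G] (e : κ → G → ℂ) (b : G → ℂ) : ℝ :=
  ∑ k, ‖∑ g, e k g * b g‖ ^ 2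

lemma Q_nonneg {κ G : Type} [Fintype κ] [Fintype G] (e : κ → G → ℂ) (b : G → ℂ) : 0 ≤ Q e b :=
  sum_nonneg fun _ _ => by positivity

lemma Q_smul {κ G : Type} [Fintype κ] [Fintype G] (e : κ → G → ℂ) (b : G → ℂ) (c : ℝ) :
    Q e (fun g => (c : ℂ) * b g) = c ^ 2 * Q e b := by
  unfold Q
  rw [mul_sum]
  apply sum_congr rfl
  intro k _
  have : ∑ g, e k g * ((c : ℂ) * b g) = (c : ℂ) * ∑ g, e k g * b g := by
    rw [mul_sum]
    apply sum_congr rfl
    intro g _
    ring
  rw [this, norm_mul, mul_pow, Complex.norm_real, Real.norm_eq_abs, sq_abs]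

/-- the real matrix of a complex matrix -/
noncomputable def rm {κ G : Type} (e : κ → G → ℂ) : κ ⊕ κ → G ⊕ G → ℝ
  | Sum.inl k, Sum.inl g => (e k g).re
  | Sum.inl k, Sum.inr g => -(e k g).im
  | Sum.inr k, Sum.inl g => (e k g).im
  | Sum.inr k, Sum.inr g => (e k g).re

lemma rm_form {κ G : Type} [Fintype κ] [Fintype G] (e : κ → G → ℂ) (θ : G ⊕ G → ℝ) :
    ∑ k, (∑ g, rm e k g * θ g) ^ 2 = Q e (fun g => ⟨θ (Sum.inl g), θ (Sum.inr g)⟩) := by
  unfold Q
  rw [Fintype.sum_sum_type, ← sum_add_distrib]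
  apply sum_congr rfl
  intro k _
  rw [Fintype.sum_sum_type, Fintype.sum_sum_type, ← Complex.normSq_eq_norm_sq, Complex.normSq_apply,
    Complex.re_sum, Complex.im_sum]
  simp only [rm, Complex.mul_re, Complex.mul_im]
  rw [← sum_add_distrib, ← sum_add_distrib, ← sq, ← sq]
  congr 2
  · apply sum_congr rfl
    intro g _
    ring
  · apply sum_congr rfl
    intro g _
    ring

theorem lg {κ G : Type} [Fintype κ] [Fintype G] (e : κ → G → ℂ) (M : ℝ)
    (hM : ∀ b : G → ℂ, (∀ g, ‖b g‖ ≤ 1) → Q e b ≤ M) (ι : Type) [Fintype ι] (b : ι → G → ℂ)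
    (hb : ∀ g, ∑ j, ‖b j g‖ ^ 2 ≤ 1) : ∑ j, Q e (b j) ≤ 96 * M := by
  have hM0 : 0 ≤ M := (Q_nonneg e 0).trans (hM 0 fun g => by simp)
  have h := Pool.Agent.R361.MH.lg_coord (rm e) (Real.sqrt (2 * M)) (by
    intro θ hθ
    rw [rm_form, Real.sq_sqrt (by linarith)]
    have h1 := hM (fun g => ((Real.sqrt 2)⁻¹ : ℝ) * (⟨θ (Sum.inl g), θ (Sum.inr g)⟩ : ℂ)) (by
      intro g
      rw [norm_mul, Complex.norm_real, Real.norm_eq_abs, abs_of_nonneg (by positivity)]
      rw [inv_mul_le_iff₀ (by positivity), mul_one]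
      rw [Complex.norm_def]
      apply Real.sqrt_le_sqrt
      rw [Complex.normSq_apply]
      have h2 := hθ (Sum.inl g)
      have h3 := hθ (Sum.inr g)
      have h4 : θ (Sum.inl g) * θ (Sum.inl g) ≤ 1 := by
        have := (sq_le_one_iff_abs_le_one _).2 h2
        rwa [sq] at this
      have h5 : θ (Sum.inr g) * θ (Sum.inr g) ≤ 1 := by
        have := (sq_le_one_iff_abs_le_one _).2 h3
        rwa [sq] at this
      show θ (Sum.inl g) * θ (Sum.inl g) + θ (Sum.inr g) * θ (Sum.inr g) ≤ 2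
      linarith)
    rw [Q_smul, inv_pow, Real.sq_sqrt (by norm_num)] at h1
    linarith) ι (fun g j => match g with
      | Sum.inl g => (b j g).re
      | Sum.inr g => (b j g).im) (by
    intro g
    rcases g with g | g
    · refine le_trans (sum_le_sum fun j _ => ?_) (hb g)
      show (b j g).re ^ 2 ≤ _
      rw [← sq_abs]
      exact pow_le_pow_left₀ (abs_nonneg _) (Complex.abs_re_le_norm _) 2
    · refine le_trans (sum_le_sum fun j _ => ?_) (hb g)
      show (b j g).im ^ 2 ≤ _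
      rw [← sq_abs]
      exact pow_le_pow_left₀ (abs_nonneg _) (Complex.abs_im_le_norm _) 2)
  rw [Real.sq_sqrt (by linarith), sum_comm] at h
  have h2 : ∀ j : ι, ∑ k, (∑ g, rm e k g * (match g with
      | Sum.inl g => (b j g).re
      | Sum.inr g => (b j g).im)) ^ 2 = Q e (b j) := by
    intro j
    rw [rm_form e (fun g => match g with
      | Sum.inl g => (b j g).re
      | Sum.inr g => (b j g).im)]
  simp only [h2] at h
  linarith

theorem lgS {κ G : Type} [Fintype κ] [Fintype G] (e : κ → G → ℂ) (M : ℝ)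
    (hM : ∀ b : G → ℂ, (∀ g, ‖b g‖ ≤ 1) → Q e b ≤ M) (ι : Type) [Fintype ι] (b : ι → G → ℂ) (S : ℝ)
    (hS : 0 ≤ S) (hb : ∀ g, ∑ j, ‖b j g‖ ^ 2 ≤ S) : ∑ j, Q e (b j) ≤ 96 * M * S := by
  rcases hS.eq_or_lt with h0 | h0
  · have hz : ∀ j g, b j g = 0 := by
      intro j g
      have h1 := hb g
      rw [← h0] at h1
      have h2 : ‖b j g‖ ^ 2 ≤ 0 :=
        (single_le_sum (f := fun j => ‖b j g‖ ^ 2) (fun i _ => by positivity) (mem_univ j)).trans h1
      have h3 : ‖b j g‖ ^ 2 = 0 := le_antisymm h2 (by positivity)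
      exact norm_eq_zero.1 (pow_eq_zero_iff (two_ne_zero) |>.1 h3)
    rw [← h0, mul_zero]
    apply le_of_eq
    apply sum_eq_zero
    intro j _
    unfold Q
    apply sum_eq_zero
    intro k _
    simp [hz]
  · have h1 := lg e M hM ι (fun j g => (((Real.sqrt S)⁻¹ : ℝ) : ℂ) * b j g) (by
      intro g
      have : ∀ j, ‖(((Real.sqrt S)⁻¹ : ℝ) : ℂ) * b j g‖ ^ 2 = S⁻¹ * ‖b j g‖ ^ 2 := by
        intro j
        rw [norm_mul, mul_pow, Complex.norm_real, Real.norm_eq_abs, sq_abs, inv_pow, Real.sq_sqrt hS]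
      simp only [this]
      rw [← mul_sum, inv_mul_le_iff₀ h0, mul_one]
      exact hb g)
    simp only [Q_smul] at h1
    rw [← mul_sum, inv_pow, Real.sq_sqrt hS, inv_mul_le_iff₀ h0] at h1
    linarith

/-- The Pietsch weight. -/
theorem pietsch {κ G : Type} [Fintype κ] [Fintype G] [Nonempty G] (e : κ → G → ℂ) (M : ℝ)
    (hM : ∀ b : G → ℂ, (∀ g, ‖b g‖ ≤ 1) → Q e b ≤ M) :
    ∃ μ : G → ℝ, (∀ g, 0 ≤ μ g) ∧ ∑ g, μ g = 1 ∧ ∀ b : G → ℂ, Q e b ≤ 96 * M * ∑ g, μ g * ‖b g‖ ^ 2 := by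
  classical
  have hM0 : 0 ≤ M := (Q_nonneg e 0).trans (hM 0 fun g => by simp)
  set s : Set (G → ℝ) := {f | ∀ g, f g < 0} with hs
  set t : Set (G → ℝ) := {f | ∃ (ι : Type) (_ : Fintype ι) (b : ι → G → ℂ),
    f = fun g => ∑ j, (96 * M * ‖b j g‖ ^ 2 - Q e (b j))} with ht
  have hso : IsOpen s := by
    have : s = ⋂ g, {f : G → ℝ | f g < 0} := by
      ext f
      simp [hs]
    rw [this]
    exact isOpen_iInter_of_finite fun g => isOpen_lt (continuous_apply g) continuous_const
  have hsc : Convex ℝ s := by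
    intro f hf f' hf' a a' ha ha' haa
    intro g
    have h1 := hf g
    have h2 := hf' g
    show a * f g + a' * f' g < 0
    rcases ha.eq_or_lt with h | h
    · have : a' = 1 := by linarith
      rw [← h, this]
      linarith
    · nlinarith [mul_nonneg ha' (neg_nonneg.2 h2.le), mul_pos h (neg_pos.2 h1)]
  have htc : Convex ℝ t := by
    rintro f ⟨ι, _, b, rfl⟩ f' ⟨ι', _, b', rfl⟩ a a' ha ha' _
    refine ⟨ι ⊕ ι', inferInstance, Sum.elim (fun j g => (Real.sqrt a : ℂ) * b j g)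
      (fun j g => (Real.sqrt a' : ℂ) * b' j g), ?_⟩
    funext g
    rw [Fintype.sum_sum_type]
    simp only [Sum.elim_inl, Sum.elim_inr, Pi.add_apply, Pi.smul_apply, smul_eq_mul, Q_smul, norm_mul, mul_pow,
      Complex.norm_real, Real.norm_eq_abs, sq_abs, Real.sq_sqrt ha, Real.sq_sqrt ha']
    rw [mul_sum, mul_sum]
    congr 1
    · apply sum_congr rfl
      intro j _
      ring
    · apply sum_congr rfl
      intro j _
      ring
  have hdis : Disjoint s t := by
    rw [Set.disjoint_left]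
    rintro f hf ⟨ι, _, b, rfl⟩
    obtain ⟨g0, _, hg0⟩ := exists_max_image (univ : Finset G) (fun g => ∑ j, ‖b j g‖ ^ 2) univ_nonempty
    have h1 := lgS e M hM ι b (∑ j, ‖b j g0‖ ^ 2) (sum_nonneg fun _ _ => by positivity)
      (fun g => hg0 g (mem_univ g))
    have h2 : ∑ j, (96 * M * ‖b j g0‖ ^ 2 - Q e (b j)) < 0 := hf g0
    rw [sum_sub_distrib, ← mul_sum] at h2
    linarith
  obtain ⟨φ, u, hφs, hφt⟩ := geometric_hahn_banach_open hsc hso htc hdis
  -- the functional as a vector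
  set v : G → ℝ := fun g => φ (Pi.single g 1) with hv
  have hφ : ∀ f : G → ℝ, φ f = ∑ g, f g * v g := by
    intro f
    conv_lhs => rw [← univ_sum_single f]
    rw [map_sum]
    apply sum_congr rfl
    intro g _
    have : Pi.single g (f g) = f g • (Pi.single g (1 : ℝ) : G → ℝ) := by
      rw [← Pi.single_smul, smul_eq_mul, mul_one]
    rw [this, map_smul, smul_eq_mul]
  have hu0 : u ≤ 0 := by
    have h1 := hφt 0 ⟨PEmpty, inferInstance, fun j => j.elim, by funext g; simp⟩
    rwa [map_zero] at h1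
  have hu1 : 0 ≤ u := by
    by_contra hneg
    push Not at hneg
    -- take `f = -c`
    have h1 : ∀ c : ℝ, 0 < c → φ (fun _ => -c) < u := fun c hc => hφs _ (fun g => by
      show -c < 0
      linarith)
    have h2 : ∀ c : ℝ, φ (fun _ => -c) = -c * ∑ g, v g := by
      intro c
      rw [hφ, mul_sum]
    have h3 := h1 1 one_pos
    rw [h2] at h3
    have h4 : 0 < ∑ g, v g := by nlinarith
    have h5 := h1 (-u / 2 / ∑ g, v g) (by
      apply div_pos _ h4
      linarith)
    rw [h2] at h5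
    have h6 : -(-u / 2 / ∑ g, v g) * ∑ g, v g = u / 2 := by
      field_simp
    rw [h6] at h5
    linarith
  have hu : u = 0 := le_antisymm hu0 hu1
  rw [hu] at hφs hφt
  -- nonnegativity
  have hv0 : ∀ g, 0 ≤ v g := by
    intro g
    by_contra hneg
    push Not at hneg
    have h1 : ∀ c : ℝ, 0 < c → φ (fun g' => if g' = g then -1 else -c) < 0 := by
      intro c hc
      apply hφs
      intro g'
      show (if g' = g then (-1 : ℝ) else -c) < 0
      split_ifs <;> linarith
    set B : ℝ := ∑ g, |v g| with hB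
    have hB0 : 0 < B := lt_of_lt_of_le (abs_pos.2 hneg.ne) (single_le_sum (f := fun g => |v g|)
      (fun _ _ => abs_nonneg _) (mem_univ g))
    have h2 := h1 (-v g / (2 * B)) (div_pos (by linarith) (by linarith))
    rw [hφ, ← add_sum_erase _ _ (mem_univ g)] at h2
    have h3 : ∑ x ∈ univ.erase g, (if x = g then (-1 : ℝ) else -(-v g / (2 * B))) * v x =
        v g / (2 * B) * ∑ x ∈ univ.erase g, v x := by
      rw [mul_sum (univ.erase g) v (v g / (2 * B))]
      apply sum_congr rfl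
      intro x hx
      rw [if_neg (ne_of_mem_erase hx)]
      ring
    rw [h3, if_pos rfl] at h2
    have h4 : |∑ x ∈ univ.erase g, v x| ≤ B :=
      (abs_sum_le_sum_abs _ _).trans (sum_le_sum_of_subset_of_nonneg (erase_subset _ _)
        fun _ _ _ => abs_nonneg _)
    have h5 : |v g / (2 * B) * ∑ x ∈ univ.erase g, v x| ≤ -v g / 2 := by
      rw [abs_mul, abs_div, abs_of_neg hneg, abs_of_pos (by linarith : (0 : ℝ) < 2 * B)]
      calc -v g / (2 * B) * |∑ x ∈ univ.erase g, v x| ≤ -v g / (2 * B) * B := by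
            apply mul_le_mul_of_nonneg_left h4
            exact (div_pos (by linarith) (by linarith)).le
        _ = -v g / 2 := by field_simp
    have h6 := neg_le_of_abs_le h5
    linarith
  have hvs : 0 < ∑ g, v g := by
    have h1 := hφs (fun _ => -1) (fun g => by norm_num)
    rw [hφ] at h1
    simp only [neg_mul, one_mul, sum_neg_distrib] at h1
    linarith
  refine ⟨fun g => v g / ∑ g, v g, fun g => div_nonneg (hv0 g) hvs.le, ?_, ?_⟩
  · rw [← sum_div, div_self hvs.ne']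
  · intro b
    have h1 := hφt _ ⟨Unit, inferInstance, fun _ => b, rfl⟩
    rw [hφ] at h1
    simp only [univ_unique, sum_singleton, sub_mul] at h1
    rw [sum_sub_distrib, ← mul_sum] at h1
    have h2 : ∑ g, v g / (∑ g, v g) * ‖b g‖ ^ 2 = (∑ g, v g * ‖b g‖ ^ 2) / ∑ g, v g := by
      rw [sum_div]
      apply sum_congr rfl
      intro g _
      ring
    rw [h2, mul_div_assoc', le_div_iff₀ hvs]
    have h3 : ∑ g, 96 * M * ‖b g‖ ^ 2 * v g = 96 * M * ∑ g, v g * ‖b g‖ ^ 2 := by
      rw [mul_sum]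
      apply sum_congr rfl
      intro g _
      ring
    rw [h3] at h1
    linarith

end Pool.Agent.P8H16.LG
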