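import Pool.Agent.P8H16.LG1

/-!
# Large values of Dirichlet polynomials: equivalent forms
-/

set_option autoImplicit false

namespace Pool.Agent.P8H16.LG

open Finset

/-- `n^{it}` -/
noncomputable def ch (n : ℕ) (t : ℝ) : ℂ := Complex.exp (((t * Real.log n : ℝ) : ℂ) * Complex.I)

lemma norm_ch (n : ℕ) (t : ℝ) : ‖ch n t‖ = 1 := Complex.norm_exp_ofReal_mul_I _

/-- `∑_{n ∈ I} b_n n^{it}` -/
noncomputable def DI (I : Finset ℕ) (b : ℕ → ℂ) (t : ℝ) : ℂ := ∑ n ∈ I, b n * ch n t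

lemma DI_le (I : Finset ℕ) (b : ℕ → ℂ) (hb : ∀ n ∈ I, ‖b n‖ ≤ 1) (t : ℝ) : ‖DI I b t‖ ≤ I.card := by
  unfold DI
  calc ‖∑ n ∈ I, b n * ch n t‖ ≤ ∑ n ∈ I, ‖b n * ch n t‖ := norm_sum_le _ _
    _ ≤ ∑ n ∈ I, (1 : ℝ) := by
        apply sum_le_sum
        intro n hn
        rw [norm_mul, norm_ch, mul_one]
        exact hb n hn
    _ = I.card := by simp

/-- The Pietsch weight for Dirichlet polynomials. -/
theorem weight {ι : Type} (W : Finset ι) (x : ι → ℝ) (I : Finset ℕ) (hI : I.Nonempty) (M : ℝ)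
    (hM : ∀ b : ℕ → ℂ, (∀ n ∈ I, ‖b n‖ ≤ 1) → ∑ t ∈ W, ‖DI I b (x t)‖ ^ 2 ≤ M) :
    ∃ μ : ℕ → ℝ, (∀ n, 0 ≤ μ n) ∧ ∑ n ∈ I, μ n = 1 ∧
      ∀ b : ℕ → ℂ, ∑ t ∈ W, ‖DI I b (x t)‖ ^ 2 ≤ 96 * M * ∑ n ∈ I, μ n * ‖b n‖ ^ 2 := by
  classical
  have : Nonempty ↥I := hI.to_subtype
  have hQ : ∀ b : ℕ → ℂ, Q (fun (k : ↥W) (g : ↥I) => ch g.1 (x k.1)) (fun g : ↥I => b g.1) =
      ∑ t ∈ W, ‖DI I b (x t)‖ ^ 2 := by
    intro b
    unfold Q DI
    rw [← sum_coe_sort W]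
    apply sum_congr rfl
    intro k _
    rw [← sum_coe_sort I]
    congr 2
    apply sum_congr rfl
    intro g _
    ring
  obtain ⟨μ, h0, h1, h2⟩ := pietsch (fun (k : ↥W) (g : ↥I) => ch g.1 (x k.1)) M (by
    intro b hb
    have h := hM (fun n => if hn : n ∈ I then b ⟨n, hn⟩ else 0) (by
      intro n hn
      simp only [hn, dif_pos]
      exact hb _)
    rw [← hQ] at h
    convert h using 3 with g
    simp)
  refine ⟨fun n => if hn : n ∈ I then μ ⟨n, hn⟩ else 0, ?_, ?_, ?_⟩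
  · intro n
    show 0 ≤ if hn : n ∈ I then μ ⟨n, hn⟩ else 0
    split_ifs with hn
    · exact h0 _
    · exact le_rfl
  · rw [← h1, ← sum_coe_sort I]
    apply sum_congr rfl
    intro g _
    simp
  · intro b
    rw [← hQ]
    refine (h2 _).trans (le_of_eq ?_)
    congr 1
    rw [← sum_coe_sort I]
    apply sum_congr rfl
    intro g _
    simp

/-- pointwise decomposition by a grid of thresholds -/
lemma grid_pt (N η f : ℝ) (hN : 1 ≤ N) (hη : 0 < η) (hf0 : 0 ≤ f) (J : ℕ)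
    (hf : f ≤ N ^ (1 / 2 + ((J : ℝ) + 1) * η)) :
    f ^ 2 ≤ N ^ (1 + 2 * η) + ∑ j ∈ range J, if N ^ (1 / 2 + ((j : ℝ) + 1) * η) < f then
      N ^ (1 + 2 * ((j : ℝ) + 2) * η) else 0 := by
  have hN0 : 0 < N := by linarith
  induction J with
  | zero =>
    simp only [range_zero, sum_empty, add_zero]
    calc f ^ 2 ≤ (N ^ (1 / 2 + (((0 : ℕ) : ℝ) + 1) * η)) ^ 2 := pow_le_pow_left₀ hf0 hf 2
      _ = N ^ (1 + 2 * η) := by
          rw [← Real.rpow_natCast, ← Real.rpow_mul hN0.le]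
          congr 1
          push_cast
          ring
  | succ J ih =>
    rw [sum_range_succ, ← add_assoc]
    by_cases h : f ≤ N ^ (1 / 2 + ((J : ℝ) + 1) * η)
    · have h1 := ih h
      rw [if_neg (not_lt.2 h), add_zero]
      exact h1
    · rw [if_pos (not_le.1 h)]
      have h1 : f ^ 2 ≤ N ^ (1 + 2 * ((J : ℝ) + 2) * η) := by
        calc f ^ 2 ≤ (N ^ (1 / 2 + (((J + 1 : ℕ) : ℝ) + 1) * η)) ^ 2 := pow_le_pow_left₀ hf0 hf 2
          _ = N ^ (1 + 2 * ((J : ℝ) + 2) * η) := by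
              rw [← Real.rpow_natCast, ← Real.rpow_mul hN0.le]
              congr 1
              push_cast
              ring
      have h2 : 0 ≤ N ^ (1 + 2 * η) + ∑ j ∈ range J, if N ^ (1 / 2 + ((j : ℝ) + 1) * η) < f then
          N ^ (1 + 2 * ((j : ℝ) + 2) * η) else 0 := by
        apply add_nonneg (by positivity)
        apply sum_nonneg
        intro j _
        split_ifs <;> positivity
      linarith

lemma grid {ι : Type} (N η : ℝ) (hN : 1 ≤ N) (hη : 0 < η) (J : ℕ) (hJ : 1 / 2 ≤ (J : ℝ) * η) (C : ℕ → ℝ)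
    (W : Finset ι) (f : ι → ℝ) (hf0 : ∀ t, 0 ≤ f t) (hf : ∀ t ∈ W, f t ≤ 2 * N)
    (hC : ∀ j < J, ((W.filter (fun t => N ^ (1 / 2 + ((j : ℝ) + 1) * η) < f t)).card : ℝ) ≤
      C j * N ^ (2 - 2 * (1 / 2 + ((j : ℝ) + 1) * η) + η)) :
    ∑ t ∈ W, f t ^ 2 ≤ 4 * (1 + ∑ j ∈ range J, |C j|) * N ^ (3 * η) * ((N + W.card) * N) := by
  have hN0 : 0 < N := by linarith
  have hJ0 : 0 < J := by
    rcases Nat.eq_zero_or_pos J with h | h
    · rw [h] at hJ
      norm_num at hJ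
    · exact h
  have h1 : ∀ t ∈ W, f t ^ 2 ≤ 4 * (N ^ (1 + 2 * η) + ∑ j ∈ range J,
      if N ^ (1 / 2 + ((j : ℝ) + 1) * η) < f t then N ^ (1 + 2 * ((j : ℝ) + 2) * η) else 0) := by
    intro t ht
    have hh : f t / 2 ≤ N ^ (1 / 2 + ((J : ℝ) + 1) * η) := by
      calc f t / 2 ≤ N := by have := hf t ht; linarith
        _ = N ^ (1 : ℝ) := (Real.rpow_one N).symm
        _ ≤ _ := Real.rpow_le_rpow_of_exponent_le hN (by nlinarith)
    have h2 := grid_pt N η (f t / 2) hN hη (by have := hf0 t; linarith) J hh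
    have h3 : ∑ j ∈ range J, (if N ^ (1 / 2 + ((j : ℝ) + 1) * η) < f t / 2 then
        N ^ (1 + 2 * ((j : ℝ) + 2) * η) else 0) ≤ ∑ j ∈ range J,
        if N ^ (1 / 2 + ((j : ℝ) + 1) * η) < f t then N ^ (1 + 2 * ((j : ℝ) + 2) * η) else 0 := by
      apply sum_le_sum
      intro j _
      by_cases h : N ^ (1 / 2 + ((j : ℝ) + 1) * η) < f t / 2
      · rw [if_pos h, if_pos (h.trans_le (by have := hf0 t; linarith))]
      · rw [if_neg h]
        split_ifs <;> positivity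
    nlinarith
  calc ∑ t ∈ W, f t ^ 2 ≤ ∑ t ∈ W, 4 * (N ^ (1 + 2 * η) + ∑ j ∈ range J,
      if N ^ (1 / 2 + ((j : ℝ) + 1) * η) < f t then N ^ (1 + 2 * ((j : ℝ) + 2) * η) else 0) := sum_le_sum h1
    _ = 4 * (W.card * N ^ (1 + 2 * η) + ∑ j ∈ range J,
        ((W.filter (fun t => N ^ (1 / 2 + ((j : ℝ) + 1) * η) < f t)).card : ℝ) *
          N ^ (1 + 2 * ((j : ℝ) + 2) * η)) := by
        rw [← mul_sum, sum_add_distrib, sum_const, nsmul_eq_mul, sum_comm]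
        congr 2
        apply sum_congr rfl
        intro j _
        rw [← sum_filter, sum_const, nsmul_eq_mul]
    _ ≤ 4 * (N ^ (3 * η) * ((N + W.card) * N) + ∑ j ∈ range J, |C j| * (N ^ (3 * η) * ((N + W.card) * N))) := by
        have hw : (0 : ℝ) ≤ W.card := by positivity
        have e1 : (W.card : ℝ) * N ^ (1 + 2 * η) ≤ N ^ (3 * η) * ((N + W.card) * N) := by
          have e2 : N ^ (1 + 2 * η) ≤ N ^ (3 * η) * N := by
            calc N ^ (1 + 2 * η) = N ^ (2 * η) * N := by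
                  rw [add_comm, Real.rpow_add hN0, Real.rpow_one]
              _ ≤ N ^ (3 * η) * N := by
                  apply mul_le_mul_of_nonneg_right _ hN0.le
                  exact Real.rpow_le_rpow_of_exponent_le hN (by linarith)
          calc (W.card : ℝ) * N ^ (1 + 2 * η) ≤ W.card * (N ^ (3 * η) * N) :=
                mul_le_mul_of_nonneg_left e2 hw
            _ ≤ N ^ (3 * η) * ((N + W.card) * N) := by
                have : 0 ≤ N ^ (3 * η) * (N * N) := by positivity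
                nlinarith
        have e3 : ∀ j ∈ range J, ((W.filter (fun t => N ^ (1 / 2 + ((j : ℝ) + 1) * η) < f t)).card : ℝ) *
            N ^ (1 + 2 * ((j : ℝ) + 2) * η) ≤ |C j| * (N ^ (3 * η) * ((N + W.card) * N)) := by
          intro j hj
          calc ((W.filter (fun t => N ^ (1 / 2 + ((j : ℝ) + 1) * η) < f t)).card : ℝ) *
                N ^ (1 + 2 * ((j : ℝ) + 2) * η) ≤
                (C j * N ^ (2 - 2 * (1 / 2 + ((j : ℝ) + 1) * η) + η)) * N ^ (1 + 2 * ((j : ℝ) + 2) * η) :=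
                mul_le_mul_of_nonneg_right (hC j (mem_range.1 hj)) (by positivity)
            _ ≤ (|C j| * N ^ (2 - 2 * (1 / 2 + ((j : ℝ) + 1) * η) + η)) * N ^ (1 + 2 * ((j : ℝ) + 2) * η) := by
                gcongr
                exact le_abs_self _
            _ = |C j| * (N ^ (3 * η) * (N * N)) := by
                rw [mul_assoc, ← Real.rpow_add hN0]
                congr 1
                rw [show N * N = N ^ (2 : ℝ) by rw [Real.rpow_two]; ring, ← Real.rpow_add hN0]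
                congr 1
                ring
            _ ≤ _ := by
                gcongr
                linarith
        exact mul_le_mul_of_nonneg_left (add_le_add e1 (sum_le_sum e3)) (by norm_num)
    _ = _ := by
        rw [← sum_mul]
        ring

/-- the constant for bounded `N` -/
lemma small (A e N0 : ℝ) (hA : 0 ≤ A) (hN0 : 1 ≤ N0) (N : ℕ) (hN : 1 ≤ N) (hN1 : (N : ℝ) ≤ N0)
    (W : Finset ℤ) (hW : ∀ t ∈ W, 0 ≤ (t : ℝ) ∧ (t : ℝ) ≤ (N : ℝ) ^ A) :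
    (W.card : ℝ) ≤ 2 * N0 ^ A * N0 ^ |e| * (N : ℝ) ^ e := by
  have hNr : (1 : ℝ) ≤ N := by exact_mod_cast hN
  have h1 : (W.card : ℝ) ≤ 2 * (N : ℝ) ^ A := by
    have h2 : W ⊆ Icc (0 : ℤ) ⌊(N : ℝ) ^ A⌋ := by
      intro t ht
      obtain ⟨ha, hb⟩ := hW t ht
      rw [mem_Icc]
      exact ⟨by exact_mod_cast ha, Int.le_floor.2 hb⟩
    have h3 := card_le_card h2
    rw [Int.card_Icc] at h3
    have h4 : (1 : ℝ) ≤ (N : ℝ) ^ A := Real.one_le_rpow hNr hA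
    have h5 : (0 : ℤ) ≤ ⌊(N : ℝ) ^ A⌋ := Int.floor_nonneg.2 (by linarith)
    have h6 : ((⌊(N : ℝ) ^ A⌋ + 1 - 0).toNat : ℝ) = (⌊(N : ℝ) ^ A⌋ : ℝ) + 1 := by
      have : ((⌊(N : ℝ) ^ A⌋ + 1 - 0).toNat : ℤ) = ⌊(N : ℝ) ^ A⌋ + 1 - 0 := Int.toNat_of_nonneg (by omega)
      have h7 : (((⌊(N : ℝ) ^ A⌋ + 1 - 0).toNat : ℤ) : ℝ) = ((⌊(N : ℝ) ^ A⌋ + 1 - 0 : ℤ) : ℝ) := by rw [this]
      push_cast at h7
      simpa using h7
    have h8 : (W.card : ℝ) ≤ ((⌊(N : ℝ) ^ A⌋ + 1 - 0).toNat : ℝ) := by exact_mod_cast h3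
    rw [h6] at h8
    have h9 := Int.floor_le ((N : ℝ) ^ A)
    linarith
  have h2 : (N : ℝ) ^ A ≤ N0 ^ A := Real.rpow_le_rpow (by linarith) hN1 hA
  have h3 : 1 ≤ N0 ^ |e| * (N : ℝ) ^ e := by
    have h4 : (N : ℝ) ^ (-|e|) ≤ (N : ℝ) ^ e := Real.rpow_le_rpow_of_exponent_le hNr (neg_abs_le e)
    have h5 : (N : ℝ) ^ |e| ≤ N0 ^ |e| := Real.rpow_le_rpow (by linarith) hN1 (abs_nonneg e)
    have h6 : (N : ℝ) ^ |e| * (N : ℝ) ^ (-|e|) = 1 := by
      rw [← Real.rpow_add (by linarith), add_neg_cancel, Real.rpow_zero]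
    rw [← h6]
    apply mul_le_mul h5 h4 (by positivity) (by positivity)
  have h7 : 0 ≤ N0 ^ A := by positivity
  calc (W.card : ℝ) ≤ 2 * N0 ^ A * 1 := by linarith
    _ ≤ 2 * N0 ^ A * (N0 ^ |e| * (N : ℝ) ^ e) := mul_le_mul_of_nonneg_left h3 (by positivity)
    _ = _ := by ring

end Pool.Agent.P8H16.LG
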