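import Pool.Agent.P8H16.LG2
import Pool.Agent.Results.MP_ecd12e_nt.OneThreshold

/-!
# Large values of Dirichlet polynomials: equivalent forms, the implications
-/

set_option autoImplicit false

namespace Pool.Agent.P8H16.LG

open Finset

/-- integers in `[0, N^A]` -/
def Pts (A : ℝ) (N : ℕ) (W : Finset ℤ) : Prop := ∀ t ∈ W, 0 ≤ (t : ℝ) ∧ (t : ℝ) ≤ (N : ℝ) ^ A

def Q1 (A : ℝ) : Prop := ∀ σ : ℝ, 1 / 2 < σ → ∀ ε : ℝ, 0 < ε → ∃ C : ℝ,
  ∀ (N : ℕ) (T : ℝ) (b : ℕ → ℂ) (W : Finset ℤ), 1 ≤ N → (N : ℝ) ≤ T → T ≤ (N : ℝ) ^ A →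
    (∀ n ∈ Icc N (2 * N), ‖b n‖ ≤ 1) →
    (∀ t ∈ W, 0 ≤ (t : ℝ) ∧ (t : ℝ) ≤ T ∧ (N : ℝ) ^ σ < ‖DI (Icc N (2 * N)) b t‖) →
    (W.card : ℝ) ≤ C * (N : ℝ) ^ (2 - 2 * σ + ε)

def Q01 (A : ℝ) : Prop := ∀ σ : ℝ, 1 / 2 < σ → ∀ ε : ℝ, 0 < ε → ∃ C : ℝ,
  ∀ (N : ℕ) (T : ℝ) (I : Finset ℕ) (W : Finset ℤ), 1 ≤ N → (N : ℝ) ≤ T → T ≤ (N : ℝ) ^ A →
    I ⊆ Icc N (2 * N) →
    (∀ t ∈ W, 0 ≤ (t : ℝ) ∧ (t : ℝ) ≤ T ∧ (N : ℝ) ^ σ < ‖∑ n ∈ I, ch n t‖) →
    (W.card : ℝ) ≤ C * (N : ℝ) ^ (2 - 2 * σ + ε)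

/-- integers in `[0, N^A]`, exactly `N` of them -/
def Crit (A : ℝ) (N : ℕ) (W : Finset ℤ) : Prop := Pts A N W ∧ W.card = N

def Q2 (A : ℝ) (s₁ s₂ : ℂ) : Prop := ∀ σ : ℝ, 1 / 2 < σ → ∀ ε : ℝ, 0 < ε → ∃ C : ℝ,
  ∀ (N : ℕ) (T : ℝ) (b : ℕ → ℂ) (W : Finset ℤ), 1 ≤ N → (N : ℝ) ≤ T → T ≤ (N : ℝ) ^ A →
    (∀ n ∈ Icc N (2 * N), b n = s₁ ∨ b n = s₂) →
    (∀ t ∈ W, 0 ≤ (t : ℝ) ∧ (t : ℝ) ≤ T ∧ (N : ℝ) ^ σ < ‖DI (Icc N (2 * N)) b t‖) →
    (W.card : ℝ) ≤ C * (N : ℝ) ^ (2 - 2 * σ + ε)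

def Cut (P : ℕ → Finset ℤ → Prop) : Prop := ∀ ε : ℝ, 0 < ε → ∃ C : ℝ, ∀ (N : ℕ) (I : Finset ℕ) (W : Finset ℤ), 1 ≤ N →
  I ⊆ Icc N (2 * N) → P N W →
    ‖∑ n ∈ I, ∑ t ∈ W, ch n t‖ ≤ C * (N : ℝ) ^ ε * (N * Real.sqrt W.card + Real.sqrt N * W.card)

def L1 (P : ℕ → Finset ℤ → Prop) : Prop := ∀ ε : ℝ, 0 < ε → ∃ C : ℝ, ∀ (N : ℕ) (W : Finset ℤ), 1 ≤ N → P N W →
    ∑ n ∈ Icc N (2 * N), ‖∑ t ∈ W, ch n t‖ ≤
      C * (N : ℝ) ^ ε * (N * Real.sqrt W.card + Real.sqrt N * W.card)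

def MS (P : ℕ → Finset ℤ → Prop) : Prop := ∀ ε : ℝ, 0 < ε → ∃ C : ℝ, ∀ (N : ℕ) (b : ℕ → ℂ) (W : Finset ℤ), 1 ≤ N → P N W →
  (∀ n ∈ Icc N (2 * N), ‖b n‖ ≤ 1) →
    ∑ t ∈ W, ‖DI (Icc N (2 * N)) b t‖ ^ 2 ≤ C * (N : ℝ) ^ ε * ((N + W.card) * N)

def Wt (P : ℕ → Finset ℤ → Prop) : Prop := ∀ ε : ℝ, 0 < ε → ∃ C : ℝ, ∀ (N : ℕ) (W : Finset ℤ), 1 ≤ N → P N W →
  ∃ μ : ℕ → ℝ, (∀ n, 0 ≤ μ n) ∧ ∑ n ∈ Icc N (2 * N), μ n = 1 ∧
    ∀ b : ℕ → ℂ, ∑ t ∈ W, ‖DI (Icc N (2 * N)) b t‖ ^ 2 ≤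
      C * (N : ℝ) ^ ε * ((N + W.card) * N) * ∑ n ∈ Icc N (2 * N), μ n * ‖b n‖ ^ 2

def Maj (P : ℕ → Finset ℤ → Prop) : Prop := ∀ ε : ℝ, 0 < ε → ∃ C : ℝ, ∀ (N : ℕ) (W : Finset ℤ), 1 ≤ N → P N W →
  ∃ ν : ℕ → ℝ, (∀ n, 0 < ν n) ∧ ∑ n ∈ Icc N (2 * N), (ν n)⁻¹ ≤ N ∧
    ∀ a : ℤ → ℂ, ∑ n ∈ Icc N (2 * N), ν n * ‖∑ t ∈ W, a t * ch n t‖ ^ 2 ≤
      C * (N : ℝ) ^ ε * (N + W.card) * ∑ t ∈ W, ‖a t‖ ^ 2

def Off (P : ℕ → Finset ℤ → Prop) : Prop := ∀ ε : ℝ, 0 < ε → ∃ C : ℝ, ∀ (N : ℕ) (W : Finset ℤ) (δ : ℝ), 1 ≤ N → P N W →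
  0 < δ → δ ≤ 1 → ∃ E : Finset ℕ, E ⊆ Icc N (2 * N) ∧ (E.card : ℝ) ≤ δ * N ∧
    ∀ b : ℕ → ℂ, ∑ t ∈ W, ‖DI (Icc N (2 * N) \ E) b t‖ ^ 2 ≤
      C * (N : ℝ) ^ ε * δ⁻¹ * (N + W.card) * ∑ n ∈ Icc N (2 * N) \ E, ‖b n‖ ^ 2

lemma le_pow_A {A : ℝ} (hA : 1 ≤ A) {N : ℕ} (hN : 1 ≤ N) : (N : ℝ) ≤ (N : ℝ) ^ A := by
  have hNr : (1 : ℝ) ≤ N := by exact_mod_cast hN
  calc (N : ℝ) = (N : ℝ) ^ (1 : ℝ) := (Real.rpow_one _).symm
    _ ≤ _ := Real.rpow_le_rpow_of_exponent_le hNr hA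

lemma DI_ind {N : ℕ} {I : Finset ℕ} (hI : I ⊆ Icc N (2 * N)) (t : ℝ) :
    DI (Icc N (2 * N)) (fun n => if n ∈ I then 1 else 0) t = ∑ n ∈ I, ch n t := by
  unfold DI
  simp only [ite_mul, one_mul, zero_mul]
  rw [sum_ite_mem, inter_eq_right.2 hI]

theorem q1_q01 {A : ℝ} (h : Q1 A) : Q01 A := by
  intro σ hσ ε hε
  obtain ⟨C, hC⟩ := h σ hσ ε hε
  refine ⟨C, fun N T I W hN hT hTA hI hW => ?_⟩
  apply hC N T (fun n => if n ∈ I then 1 else 0) W hN hT hTA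
  · intro n _
    show ‖(if n ∈ I then (1 : ℂ) else 0)‖ ≤ 1
    split_ifs <;> simp
  · intro t ht
    obtain ⟨h1, h2, h3⟩ := hW t ht
    refine ⟨h1, h2, ?_⟩
    rw [DI_ind hI]
    exact h3

/-- the choice of the grid -/
lemma exists_J (η : ℝ) (hη : 0 < η) : ∃ J : ℕ, 1 / 2 ≤ (J : ℝ) * η := by
  obtain ⟨J, hJ⟩ := exists_nat_ge (1 / 2 / η)
  exact ⟨J, (div_le_iff₀ hη).1 hJ⟩

theorem q01_sq {A : ℝ} (hA : 1 ≤ A) (h : Q01 A) : ∀ η : ℝ, 0 < η → ∃ K : ℝ, 0 ≤ K ∧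
    ∀ (N : ℕ) (I : Finset ℕ) (W : Finset ℤ), 1 ≤ N →
    I ⊆ Icc N (2 * N) → Pts A N W → ∑ t ∈ W, ‖∑ n ∈ I, ch n t‖ ^ 2 ≤ K * (N : ℝ) ^ (3 * η) * ((N + W.card) * N) := by
  intro η hη
  obtain ⟨J, hJ⟩ := exists_J η hη
  choose C hC using fun j : ℕ => h (1 / 2 + ((j : ℝ) + 1) * η) (by
    have : 0 < ((j : ℝ) + 1) * η := by positivity
    linarith) η hη
  refine ⟨4 * (1 + ∑ j ∈ range J, |C j|), ?_, fun N I W hN hI hW => ?_⟩
  · have : 0 ≤ ∑ j ∈ range J, |C j| := sum_nonneg fun _ _ => abs_nonneg _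
    linarith
  · have hNr : (1 : ℝ) ≤ N := by exact_mod_cast hN
    apply grid (N : ℝ) η hNr hη J hJ C W (fun t => ‖∑ n ∈ I, ch n t‖) (fun t => norm_nonneg _)
    · intro t _
      show ‖∑ n ∈ I, ch n t‖ ≤ 2 * N
      calc ‖∑ n ∈ I, ch n t‖ ≤ ∑ n ∈ I, ‖ch n t‖ := norm_sum_le _ _
        _ = I.card := by simp [norm_ch]
        _ ≤ (Icc N (2 * N)).card := by exact_mod_cast card_le_card hI
        _ = N + 1 := by
            rw [Nat.card_Icc]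
            have : 2 * N + 1 - N = N + 1 := by omega
            rw [this]
            push_cast
            ring
        _ ≤ 2 * N := by linarith
    · intro j _
      apply hC j N ((N : ℝ) ^ A) I _ hN (le_pow_A hA hN) le_rfl hI
      intro t ht
      rw [mem_filter] at ht
      exact ⟨(hW t ht.1).1, (hW t ht.1).2, ht.2⟩

theorem q1_ms {A : ℝ} (hA : 1 ≤ A) (h : Q1 A) : MS (Pts A) := by
  intro ε hε
  set η := ε / 3 with hη'
  have hη : 0 < η := by positivity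
  obtain ⟨J, hJ⟩ := exists_J η hη
  choose C hC using fun j : ℕ => h (1 / 2 + ((j : ℝ) + 1) * η) (by
    have : 0 < ((j : ℝ) + 1) * η := by positivity
    linarith) η hη
  refine ⟨4 * (1 + ∑ j ∈ range J, |C j|), fun N b W hN hW hb => ?_⟩
  have hNr : (1 : ℝ) ≤ N := by exact_mod_cast hN
  have key := grid (N : ℝ) η hNr hη J hJ C W (fun t => ‖DI (Icc N (2 * N)) b t‖) (fun t => norm_nonneg _) (by
    intro t _
    show ‖DI (Icc N (2 * N)) b t‖ ≤ 2 * N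
    calc ‖DI (Icc N (2 * N)) b t‖ ≤ (Icc N (2 * N)).card := DI_le _ _ hb _
      _ = N + 1 := by
          rw [Nat.card_Icc]
          have : 2 * N + 1 - N = N + 1 := by omega
          rw [this]
          push_cast
          ring
      _ ≤ 2 * N := by linarith) (by
    intro j _
    apply hC j N ((N : ℝ) ^ A) b _ hN (le_pow_A hA hN) le_rfl hb
    intro t ht
    rw [mem_filter] at ht
    exact ⟨(hW t ht.1).1, (hW t ht.1).2, ht.2⟩)
  rw [show 3 * η = ε by rw [hη']; ring] at key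
  exact key

lemma sqrt_form {K Nε X N : ℝ} (hK : 0 ≤ K) (hNε : 0 ≤ Nε) (hX : 0 ≤ X) (hN : 0 ≤ N) :
    Real.sqrt (X * (K * Nε ^ 2 * ((N + X) * N))) ≤
      Real.sqrt K * Nε * (N * Real.sqrt X + Real.sqrt N * X) := by
  apply Real.sqrt_le_iff.2
  refine ⟨by positivity, ?_⟩
  have h1 : Real.sqrt K ^ 2 = K := Real.sq_sqrt hK
  have h2 : Real.sqrt X ^ 2 = X := Real.sq_sqrt hX
  have h3 : Real.sqrt N ^ 2 = N := Real.sq_sqrt hN
  have e : (Real.sqrt K * Nε * (N * Real.sqrt X + Real.sqrt N * X)) ^ 2 =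
      Real.sqrt K ^ 2 * Nε ^ 2 * (N ^ 2 * Real.sqrt X ^ 2 + Real.sqrt N ^ 2 * X ^ 2 +
        2 * (N * Real.sqrt X * Real.sqrt N * X)) := by ring
  rw [e, h1, h2, h3]
  have h4 : 0 ≤ N * Real.sqrt X * Real.sqrt N * X := by positivity
  have h5 : 0 ≤ K * Nε ^ 2 := by positivity
  nlinarith [mul_nonneg h5 h4]

theorem q01_cut {A : ℝ} (hA : 1 ≤ A) (h : Q01 A) : Cut (Pts A) := by
  intro ε hε
  obtain ⟨K, hK0, hK⟩ := q01_sq hA h (2 * ε / 3) (by positivity)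
  refine ⟨Real.sqrt K, fun N I W hN hI hW => ?_⟩
  have h1 := hK N I W hN hI hW
  have hNr : (1 : ℝ) ≤ N := by exact_mod_cast hN
  rw [show 3 * (2 * ε / 3) = ε * 2 by ring, Real.rpow_mul (by linarith), Real.rpow_two] at h1
  refine le_trans ?_ (sqrt_form hK0 (by positivity) (by positivity : (0 : ℝ) ≤ W.card) (by linarith))
  rw [sum_comm]
  calc ‖∑ t ∈ W, ∑ n ∈ I, ch n t‖ ≤ ∑ t ∈ W, ‖∑ n ∈ I, ch n t‖ := norm_sum_le _ _
    _ ≤ Real.sqrt (W.card * ∑ t ∈ W, ‖∑ n ∈ I, ch n t‖ ^ 2) := by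
        apply Real.le_sqrt_of_sq_le
        exact sq_sum_le_card_mul_sum_sq
    _ ≤ _ := by
        apply Real.sqrt_le_sqrt
        exact mul_le_mul_of_nonneg_left h1 (by positivity)

theorem cut_l1 {P : ℕ → Finset ℤ → Prop} (h : Cut P) : L1 P := by
  intro ε hε
  obtain ⟨C, hC⟩ := h ε hε
  refine ⟨4 * C, fun N W hN hW => ?_⟩
  set z : ℕ → ℂ := fun n => ∑ t ∈ W, ch n t with hz
  set B : ℝ := C * (N : ℝ) ^ ε * (N * Real.sqrt W.card + Real.sqrt N * W.card) with hB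
  have hI : ∀ I ⊆ Icc N (2 * N), ‖∑ n ∈ I, z n‖ ≤ B := fun I hI => hC N I W hN hI hW
  have key : ∀ φ : ℂ → ℝ, (∀ (I : Finset ℕ), ∑ n ∈ I, φ (z n) = φ (∑ n ∈ I, z n)) → (∀ w, |φ w| ≤ ‖w‖) →
      ∑ n ∈ Icc N (2 * N), |φ (z n)| ≤ 2 * B := by
    intro φ h1 h2
    rw [← sum_filter_add_sum_filter_not (Icc N (2 * N)) (fun n => 0 ≤ φ (z n))]
    have e1 : ∑ n ∈ (Icc N (2 * N)).filter (fun n => 0 ≤ φ (z n)), |φ (z n)| ≤ B := by
      calc ∑ n ∈ (Icc N (2 * N)).filter (fun n => 0 ≤ φ (z n)), |φ (z n)| =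
            ∑ n ∈ (Icc N (2 * N)).filter (fun n => 0 ≤ φ (z n)), φ (z n) := by
            apply sum_congr rfl
            intro n hn
            rw [mem_filter] at hn
            exact abs_of_nonneg hn.2
        _ = φ (∑ n ∈ (Icc N (2 * N)).filter (fun n => 0 ≤ φ (z n)), z n) := h1 _
        _ ≤ ‖∑ n ∈ (Icc N (2 * N)).filter (fun n => 0 ≤ φ (z n)), z n‖ := (le_abs_self _).trans (h2 _)
        _ ≤ B := hI _ (filter_subset _ _)
    have e2 : ∑ n ∈ (Icc N (2 * N)).filter (fun n => ¬ 0 ≤ φ (z n)), |φ (z n)| ≤ B := by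
      calc ∑ n ∈ (Icc N (2 * N)).filter (fun n => ¬ 0 ≤ φ (z n)), |φ (z n)| =
            -∑ n ∈ (Icc N (2 * N)).filter (fun n => ¬ 0 ≤ φ (z n)), φ (z n) := by
            rw [← sum_neg_distrib]
            apply sum_congr rfl
            intro n hn
            rw [mem_filter, not_le] at hn
            exact abs_of_neg hn.2
        _ = -φ (∑ n ∈ (Icc N (2 * N)).filter (fun n => ¬ 0 ≤ φ (z n)), z n) := by rw [h1]
        _ ≤ ‖∑ n ∈ (Icc N (2 * N)).filter (fun n => ¬ 0 ≤ φ (z n)), z n‖ := (neg_le_abs _).trans (h2 _)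
        _ ≤ B := hI _ (filter_subset _ _)
    linarith
  have k1 := key Complex.re (fun I => (Complex.re_sum _ _).symm) Complex.abs_re_le_norm
  have k2 := key Complex.im (fun I => (Complex.im_sum _ _).symm) Complex.abs_im_le_norm
  calc ∑ n ∈ Icc N (2 * N), ‖z n‖ ≤ ∑ n ∈ Icc N (2 * N), (|(z n).re| + |(z n).im|) :=
        sum_le_sum fun n _ => Complex.norm_le_abs_re_add_abs_im _
    _ ≤ 2 * B + 2 * B := by
        rw [sum_add_distrib]
        exact add_le_add k1 k2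
    _ = _ := by rw [hB]; ring

/-- large values with the same sign -/
lemma sector (N : ℕ) (b : ℕ → ℂ) (hb : ∀ n ∈ Icc N (2 * N), ‖b n‖ ≤ 1) (Y : ℝ) (u : ℂ) (hu : ‖u‖ = 1) (V : Finset ℤ)
    (hV : ∀ t ∈ V, Y ≤ ‖DI (Icc N (2 * N)) b t‖)
    (hVu : ∀ t ∈ V, ‖DI (Icc N (2 * N)) b t‖ ≤ 2 * (u * DI (Icc N (2 * N)) b t).re) :
    (V.card : ℝ) * Y ≤ 2 * ∑ n ∈ Icc N (2 * N), ‖∑ t ∈ V, ch n t‖ := by
  calc (V.card : ℝ) * Y = ∑ t ∈ V, Y := by rw [sum_const, nsmul_eq_mul]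
    _ ≤ ∑ t ∈ V, 2 * (u * DI (Icc N (2 * N)) b t).re :=
        sum_le_sum fun t ht => (hV t ht).trans (hVu t ht)
    _ = 2 * (u * ∑ t ∈ V, DI (Icc N (2 * N)) b t).re := by
        rw [← mul_sum, mul_sum V _ u, Complex.re_sum]
    _ ≤ 2 * ‖∑ t ∈ V, DI (Icc N (2 * N)) b t‖ := by
        apply mul_le_mul_of_nonneg_left _ (by norm_num)
        refine (Complex.re_le_norm _).trans ?_
        rw [norm_mul, hu, one_mul]
    _ = 2 * ‖∑ n ∈ Icc N (2 * N), b n * ∑ t ∈ V, ch n t‖ := by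
        unfold DI
        rw [sum_comm]
        congr 2
        apply sum_congr rfl
        intro n _
        rw [mul_sum]
    _ ≤ 2 * ∑ n ∈ Icc N (2 * N), ‖∑ t ∈ V, ch n t‖ := by
        apply mul_le_mul_of_nonneg_left _ (by norm_num)
        refine (norm_sum_le _ _).trans (sum_le_sum fun n hn => ?_)
        rw [norm_mul]
        exact mul_le_of_le_one_left (norm_nonneg _) (hb n hn)

/-- one of four sectors holds a quarter of the points -/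
lemma exists_sector (W : Finset ℤ) (g : ℤ → ℂ) :
    ∃ u : ℂ, ‖u‖ = 1 ∧ (W.card : ℝ) ≤ 4 * (W.filter fun t => ‖g t‖ ≤ 2 * (u * g t).re).card := by
  set S : ℂ → Finset ℤ := fun u => W.filter fun t => ‖g t‖ ≤ 2 * (u * g t).re with hS
  have hcov : W ⊆ (S 1 ∪ S (-1)) ∪ (S Complex.I ∪ S (-Complex.I)) := by
    intro t ht
    have h1 := Complex.norm_le_abs_re_add_abs_im (g t)
    have hmem : ∀ u : ℂ, ‖g t‖ ≤ 2 * (u * g t).re → t ∈ S u :=
      fun u hu => mem_filter.2 ⟨ht, hu⟩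
    rw [mem_union, mem_union, mem_union]
    rcases le_total |(g t).re| |(g t).im| with h2 | h2
    · right
      rcases le_total 0 (g t).im with h3 | h3
      · rw [abs_of_nonneg h3] at h1 h2
        right
        apply hmem
        simp only [Complex.mul_re, Complex.neg_re, Complex.neg_im, Complex.I_re, Complex.I_im]
        linarith
      · rw [abs_of_nonpos h3] at h1 h2
        left
        apply hmem
        simp only [Complex.mul_re, Complex.I_re, Complex.I_im]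
        linarith
    · left
      rcases le_total 0 (g t).re with h3 | h3
      · rw [abs_of_nonneg h3] at h1 h2
        left
        apply hmem
        simp only [Complex.mul_re, Complex.one_re, Complex.one_im]
        linarith
      · rw [abs_of_nonpos h3] at h1 h2
        right
        apply hmem
        simp only [Complex.mul_re, Complex.neg_re, Complex.neg_im, Complex.one_re, Complex.one_im]
        linarith
  have hcard : (W.card : ℝ) ≤ ((S 1).card + (S (-1)).card) + ((S Complex.I).card + (S (-Complex.I)).card) := by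
    have := (card_le_card hcov).trans ((card_union_le _ _).trans (add_le_add (card_union_le _ _) (card_union_le _ _)))
    exact_mod_cast this
  by_contra hne
  push Not at hne
  have g1 := hne 1 (by simp)
  have g2 := hne (-1) (by simp)
  have g3 := hne Complex.I (by simp)
  have g4 := hne (-Complex.I) (by simp)
  simp only [hS] at hcard
  linarith

/-- the final step: from the `ℓ¹` bound for sets of `N` points to the number of large values -/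
theorem crit_q1 {A : ℝ} (hA : 1 < A) (h : L1 (Crit A)) : Q1 A := by
  have hQ : (∀ σ : ℝ, 1 / 2 < σ → Pool.Agent.Results.MP_ecd12e_nt.OneThreshold.MontgomeryAt A σ) → Q1 A := by
    intro h1 σ hσ ε hε
    obtain ⟨C, hC⟩ := h1 σ hσ ε hε
    refine ⟨C, fun N T b W hN hT hTA hb hW => hC N T b W hN hT hTA hb fun t ht => ?_⟩
    obtain ⟨a1, a2, a3⟩ := hW t ht
    refine ⟨a1, a2, ?_⟩
    have e : Pool.Agent.Results.MP_ecd12e_nt.OneThreshold.D N b t = DI (Icc N (2 * N)) b t := by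
      unfold Pool.Agent.Results.MP_ecd12e_nt.OneThreshold.D DI ch
      apply sum_congr rfl
      intro n _
      congr 2
      push_cast
      ring
    rw [e]
    exact a3
  apply hQ
  rw [((Pool.Agent.Results.MP_ecd12e_nt.OneThreshold.result).2.2.2.1 A hA).1]
  intro σ hσ
  set ε' : ℝ := (σ - 1 / 2) / 2 with hε'
  have hε'0 : 0 < ε' := by
    rw [hε']
    linarith
  obtain ⟨C0, hC0⟩ := h ε' hε'0
  set C : ℝ := max C0 1 with hCdef
  have hC1 : 1 ≤ C := le_max_right _ _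
  set N0 : ℝ := (4 * C) ^ (1 / ε') with hN0
  have hN01 : 1 ≤ N0 := Real.one_le_rpow (by linarith) (by positivity)
  refine ⟨max 4 (2 * N0 ^ A * N0 ^ |(1 : ℝ)|), fun N T b W hN hT hTA hb hW => ?_⟩
  have hNr : (1 : ℝ) ≤ N := by exact_mod_cast hN
  have hNp : (0 : ℝ) < N := by linarith
  have hWP : Pts A N W := fun t ht => ⟨(hW t ht).1, (hW t ht).2.1.trans hTA⟩
  rcases le_or_gt (N : ℝ) N0 with hsm | hbig
  · refine (small A 1 N0 (by linarith) hN01 N hN hsm W hWP).trans ?_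
    rw [Real.rpow_one]
    exact mul_le_mul_of_nonneg_right (le_max_right _ _) hNp.le
  · by_contra hcon
    have h4 : 4 * (N : ℝ) < W.card := by
      refine lt_of_le_of_lt ?_ (not_le.1 hcon)
      exact mul_le_mul_of_nonneg_right (le_max_left _ _) hNp.le
    obtain ⟨u, hu, hS⟩ := exists_sector W (fun t : ℤ => DI (Icc N (2 * N)) b t)
    set S : Finset ℤ := W.filter fun t => ‖DI (Icc N (2 * N)) b t‖ ≤ 2 * (u * DI (Icc N (2 * N)) b t).re with hSd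
    have h5 : N ≤ S.card := by
      have : (N : ℝ) < S.card := by linarith
      exact_mod_cast this.le
    obtain ⟨V, hVS, hVc⟩ := exists_subset_card_eq h5
    have h6 := sector N b hb ((N : ℝ) ^ σ) u hu V (fun t ht => by
      have h7 := (hW t (filter_subset _ _ (hVS ht))).2.2.le
      have e : Pool.Agent.Results.MP_ecd12e_nt.OneThreshold.D N b t = DI (Icc N (2 * N)) b t := by
        unfold Pool.Agent.Results.MP_ecd12e_nt.OneThreshold.D DI ch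
        apply sum_congr rfl
        intro n _
        congr 2
        push_cast
        ring
      rw [e] at h7
      exact h7) (fun t ht => (mem_filter.1 (hVS ht)).2)
    have h8 := hC0 N V hN ⟨fun t ht => hWP t (filter_subset _ _ (hVS ht)), hVc⟩
    rw [hVc] at h6 h8
    have h9 : C0 * (N : ℝ) ^ ε' * (N * Real.sqrt N + Real.sqrt N * N) ≤
        C * (N : ℝ) ^ ε' * (N * Real.sqrt N + Real.sqrt N * N) := by
      gcongr
      exact le_max_left _ _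
    have h10 : (N : ℝ) * (N : ℝ) ^ σ ≤ N * (4 * C * ((N : ℝ) ^ ε' * Real.sqrt N)) := by
      calc (N : ℝ) * (N : ℝ) ^ σ ≤ 2 * (C * (N : ℝ) ^ ε' * (N * Real.sqrt N + Real.sqrt N * N)) := by linarith
        _ = _ := by ring
    have h11 : (N : ℝ) ^ σ ≤ 4 * C * ((N : ℝ) ^ ε' * Real.sqrt N) := le_of_mul_le_mul_left h10 hNp
    have h12 : (N : ℝ) ^ ε' * Real.sqrt N = (N : ℝ) ^ (ε' + 1 / 2) := by
      rw [Real.sqrt_eq_rpow, ← Real.rpow_add hNp]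
    rw [h12] at h11
    have h13 : (N : ℝ) ^ σ = (N : ℝ) ^ ε' * (N : ℝ) ^ (ε' + 1 / 2) := by
      rw [← Real.rpow_add hNp]
      congr 1
      rw [hε']
      ring
    rw [h13] at h11
    have h14 : (N : ℝ) ^ ε' ≤ 4 * C := le_of_mul_le_mul_right h11 (by positivity)
    have h15 : (N : ℝ) ≤ N0 := by
      have h16 := Real.rpow_le_rpow (by positivity) h14 (by positivity : 0 ≤ 1 / ε')
      rw [← Real.rpow_mul hNp.le, mul_one_div_cancel hε'0.ne', Real.rpow_one] at h16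
      exact h16
    linarith

lemma all_crit_cut {A : ℝ} (h : Cut (Pts A)) : Cut (Crit A) := by
  intro ε hε
  obtain ⟨C, hC⟩ := h ε hε
  exact ⟨C, fun N I W hN hI hW => hC N I W hN hI hW.1⟩

/-- the constant is the larger one -/
lemma small' (A e N0 : ℝ) (hA : 0 ≤ A) (hN0 : 1 ≤ N0) : ∃ C : ℝ, 0 ≤ C ∧ ∀ N : ℕ, 1 ≤ N → (N : ℝ) ≤ N0 →
    ∀ W : Finset ℤ, Pts A N W → (W.card : ℝ) ≤ C * (N : ℝ) ^ e :=
  ⟨2 * N0 ^ A * N0 ^ |e|, by positivity, fun N hN hN1 W hW => small A e N0 hA hN0 N hN hN1 W hW⟩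

/-- two values are enough -/
theorem q2_q01 {A : ℝ} (hA : 1 ≤ A) (s₁ s₂ : ℂ) (hs : s₁ ≠ s₂) (h : Q2 A s₁ s₂) : Q01 A := by
  classical
  intro σ hσ ε hε
  set η : ℝ := min (ε / 4) ((σ - 1 / 2) / 2) with hη
  have hη0 : 0 < η := lt_min (by positivity) (by linarith)
  have hη1 : η ≤ ε / 4 := min_le_left _ _
  have hη2 : η ≤ (σ - 1 / 2) / 2 := min_le_right _ _
  obtain ⟨C0, hC0⟩ := h (σ - η) (by linarith) (ε / 2) (by positivity)
  set C : ℝ := max C0 0 with hCd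
  have hCn : 0 ≤ C := le_max_right _ _
  set c : ℝ := ‖s₁ - s₂‖ / 2 with hc
  have hc0 : 0 < c := by
    have : 0 < ‖s₁ - s₂‖ := norm_pos_iff.2 (sub_ne_zero.2 hs)
    positivity
  set N0 : ℝ := max 1 ((1 / c) ^ (1 / η)) with hN0
  obtain ⟨C', hC'0, hC'⟩ := small' A (2 - 2 * σ + ε) N0 (by linarith) (le_max_left _ _)
  refine ⟨2 * C + C', fun N T I W hN hT hTA hI hW => ?_⟩
  have hNr : (1 : ℝ) ≤ N := by exact_mod_cast hN
  have hNp : (0 : ℝ) < N := by linarith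
  have hWP : Pts A N W := fun t ht => ⟨(hW t ht).1, (hW t ht).2.1.trans hTA⟩
  have hpos : 0 ≤ (N : ℝ) ^ (2 - 2 * σ + ε) := by positivity
  rcases le_or_gt (N : ℝ) N0 with hsm | hbig
  · refine (hC' N hN hsm W hWP).trans ?_
    nlinarith [mul_nonneg hCn hpos]
  · have h1 : (N : ℝ) ^ (σ - η) ≤ c * (N : ℝ) ^ σ := by
      have h2 : 1 / c ≤ (N : ℝ) ^ η := by
        have h3 : (1 / c) ^ (1 / η) ≤ (N : ℝ) := (le_max_right _ _).trans hbig.le
        have h4 := Real.rpow_le_rpow (by positivity) h3 hη0.le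
        rwa [← Real.rpow_mul (by positivity), one_div_mul_cancel hη0.ne', Real.rpow_one] at h4
      have h5 : 1 ≤ c * (N : ℝ) ^ η := by
        rw [div_le_iff₀ hc0] at h2
        linarith
      calc (N : ℝ) ^ (σ - η) = 1 * (N : ℝ) ^ (σ - η) := (one_mul _).symm
        _ ≤ (c * (N : ℝ) ^ η) * (N : ℝ) ^ (σ - η) := mul_le_mul_of_nonneg_right h5 (by positivity)
        _ = c * (N : ℝ) ^ σ := by
            rw [mul_assoc, ← Real.rpow_add hNp]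
            congr 2
            ring
    set b₁ : ℕ → ℂ := fun n => if n ∈ I then s₁ else s₂ with hb₁
    set b₂ : ℕ → ℂ := fun _ => s₂ with hb₂
    have h2 : ∀ t : ℝ, DI (Icc N (2 * N)) b₁ t - DI (Icc N (2 * N)) b₂ t = (s₁ - s₂) * ∑ n ∈ I, ch n t := by
      intro t
      unfold DI
      rw [← sum_sub_distrib, mul_sum]
      have h3 : ∀ n ∈ Icc N (2 * N), b₁ n * ch n t - b₂ n * ch n t = if n ∈ I then (s₁ - s₂) * ch n t else 0 := by
        intro n _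
        rw [hb₁, hb₂]
        simp only
        split_ifs <;> ring
      rw [sum_congr rfl h3, sum_ite_mem, inter_eq_right.2 hI]
    set W₁ : Finset ℤ := W.filter fun t => (N : ℝ) ^ (σ - η) < ‖DI (Icc N (2 * N)) b₁ t‖ with hW₁
    set W₂ : Finset ℤ := W.filter fun t => (N : ℝ) ^ (σ - η) < ‖DI (Icc N (2 * N)) b₂ t‖ with hW₂
    have hcov : W ⊆ W₁ ∪ W₂ := by
      intro t ht
      rw [mem_union]
      by_contra hno
      push Not at hno
      have g1 : ‖DI (Icc N (2 * N)) b₁ t‖ ≤ (N : ℝ) ^ (σ - η) := by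
        by_contra hlt
        exact hno.1 (mem_filter.2 ⟨ht, not_le.1 hlt⟩)
      have g2 : ‖DI (Icc N (2 * N)) b₂ t‖ ≤ (N : ℝ) ^ (σ - η) := by
        by_contra hlt
        exact hno.2 (mem_filter.2 ⟨ht, not_le.1 hlt⟩)
      have g3 := (hW t ht).2.2
      have g4 : 2 * c * ‖∑ n ∈ I, ch n t‖ ≤ 2 * (N : ℝ) ^ (σ - η) := by
        calc 2 * c * ‖∑ n ∈ I, ch n t‖ = ‖(s₁ - s₂) * ∑ n ∈ I, ch n t‖ := by
              rw [norm_mul, hc]
              ring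
          _ = ‖DI (Icc N (2 * N)) b₁ t - DI (Icc N (2 * N)) b₂ t‖ := by rw [h2]
          _ ≤ ‖DI (Icc N (2 * N)) b₁ t‖ + ‖DI (Icc N (2 * N)) b₂ t‖ := norm_sub_le _ _
          _ ≤ _ := by linarith
      have g5 : c * (N : ℝ) ^ σ < c * ‖∑ n ∈ I, ch n t‖ := mul_lt_mul_of_pos_left g3 hc0
      linarith
    have k1 : (W₁.card : ℝ) ≤ C0 * (N : ℝ) ^ (2 - 2 * (σ - η) + ε / 2) := by
      apply hC0 N T b₁ W₁ hN hT hTA
      · intro n _
        rw [hb₁]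
        simp only
        by_cases hn : n ∈ I
        · left
          rw [if_pos hn]
        · right
          rw [if_neg hn]
      · intro t ht
        have := mem_filter.1 ht
        exact ⟨(hW t this.1).1, (hW t this.1).2.1, this.2⟩
    have k2 : (W₂.card : ℝ) ≤ C0 * (N : ℝ) ^ (2 - 2 * (σ - η) + ε / 2) := by
      apply hC0 N T b₂ W₂ hN hT hTA
      · intro n _
        right
        rfl
      · intro t ht
        have := mem_filter.1 ht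
        exact ⟨(hW t this.1).1, (hW t this.1).2.1, this.2⟩
    have k3 : C0 * (N : ℝ) ^ (2 - 2 * (σ - η) + ε / 2) ≤ C * (N : ℝ) ^ (2 - 2 * σ + ε) := by
      calc C0 * (N : ℝ) ^ (2 - 2 * (σ - η) + ε / 2) ≤ C * (N : ℝ) ^ (2 - 2 * (σ - η) + ε / 2) :=
            mul_le_mul_of_nonneg_right (le_max_left _ _) (by positivity)
        _ ≤ _ := by
            apply mul_le_mul_of_nonneg_left _ hCn
            exact Real.rpow_le_rpow_of_exponent_le hNr (by linarith)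
    have k4 : (W.card : ℝ) ≤ W₁.card + W₂.card := by
      exact_mod_cast (card_le_card hcov).trans (card_union_le _ _)
    nlinarith [mul_nonneg hC'0 hpos]

theorem q1_q2 {A : ℝ} (s₁ s₂ : ℂ) (h₁ : ‖s₁‖ ≤ 1) (h₂ : ‖s₂‖ ≤ 1) (h : Q1 A) : Q2 A s₁ s₂ := by
  intro σ hσ ε hε
  obtain ⟨C, hC⟩ := h σ hσ ε hε
  refine ⟨C, fun N T b W hN hT hTA hb hW => hC N T b W hN hT hTA (fun n hn => ?_) hW⟩
  rcases hb n hn with h3 | h3
  · rw [h3]
    exact h₁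
  · rw [h3]
    exact h₂

end Pool.Agent.P8H16.LG
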