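import Pool.Agent.P8H16.LG3

/-!
# Large values of Dirichlet polynomials: weights, majorants, exceptional sets
-/

set_option autoImplicit false

namespace Pool.Agent.P8H16.LG

open Finset

lemma Icc_ne {N : ℕ} (_hN : 1 ≤ N) : (Icc N (2 * N)).Nonempty := ⟨N, by rw [mem_Icc]; omega⟩

theorem ms_wt {P : ℕ → Finset ℤ → Prop} (h : MS P) : Wt P := by
  intro ε hε
  obtain ⟨C, hC⟩ := h ε hε
  refine ⟨96 * C, fun N W hN hW => ?_⟩
  obtain ⟨μ, h0, h1, h2⟩ := weight W (fun t : ℤ => (t : ℝ)) (Icc N (2 * N)) (Icc_ne hN)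
    (C * (N : ℝ) ^ ε * ((N + W.card) * N)) (fun b hb => hC N b W hN hW hb)
  refine ⟨μ, h0, h1, fun b => (h2 b).trans (le_of_eq ?_)⟩
  ring

/-- duality -/
lemma dual {ι : Type} [DecidableEq ι] (I : Finset ℕ) (W : Finset ι) (x : ι → ℝ) (ν : ℕ → ℝ) (hν : ∀ n, 0 < ν n)
    (K : ℝ) (hK : 0 ≤ K)
    (h : ∀ b : ℕ → ℂ, ∑ t ∈ W, ‖DI I b (x t)‖ ^ 2 ≤ K * ∑ n ∈ I, (ν n)⁻¹ * ‖b n‖ ^ 2) (a : ι → ℂ) :
    ∑ n ∈ I, ν n * ‖∑ t ∈ W, a t * ch n (x t)‖ ^ 2 ≤ K * ∑ t ∈ W, ‖a t‖ ^ 2 := by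
  set z : ℕ → ℂ := fun n => ∑ t ∈ W, a t * ch n (x t) with hz
  set b : ℕ → ℂ := fun n => (ν n : ℂ) * (starRingEnd ℂ) (z n) with hb
  set S : ℝ := ∑ n ∈ I, ν n * ‖z n‖ ^ 2 with hS
  set X : ℝ := ∑ t ∈ W, ‖a t‖ ^ 2 with hX
  have hS0 : 0 ≤ S := sum_nonneg fun n _ => by have := hν n; positivity
  have hX0 : 0 ≤ X := sum_nonneg fun n _ => by positivity
  have h1 : (S : ℂ) = ∑ t ∈ W, a t * DI I b (x t) := by
    have e1 : ∀ t ∈ W, a t * DI I b (x t) = ∑ n ∈ I, b n * (a t * ch n (x t)) := by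
      intro t _
      unfold DI
      rw [mul_sum]
      apply sum_congr rfl
      intro n _
      ring
    rw [sum_congr rfl e1, sum_comm, hS]
    push_cast
    apply sum_congr rfl
    intro n _
    rw [← mul_sum]
    show _ = b n * z n
    rw [hb]
    simp only
    rw [mul_assoc, mul_comm ((starRingEnd ℂ) (z n)), Complex.mul_conj, Complex.normSq_eq_norm_sq]
    push_cast
    ring
  have h2 : S ≤ ∑ t ∈ W, ‖a t‖ * ‖DI I b (x t)‖ := by
    calc S = ‖(S : ℂ)‖ := by rw [Complex.norm_real, Real.norm_eq_abs, abs_of_nonneg hS0]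
      _ = ‖∑ t ∈ W, a t * DI I b (x t)‖ := by rw [h1]
      _ ≤ ∑ t ∈ W, ‖a t * DI I b (x t)‖ := norm_sum_le _ _
      _ = _ := by
          apply sum_congr rfl
          intro t _
          rw [norm_mul]
  have h3 : S ^ 2 ≤ X * ∑ t ∈ W, ‖DI I b (x t)‖ ^ 2 :=
    (pow_le_pow_left₀ hS0 h2 2).trans (sum_mul_sq_le_sq_mul_sq _ _ _)
  have h4 : ∑ n ∈ I, (ν n)⁻¹ * ‖b n‖ ^ 2 = S := by
    rw [hS]
    apply sum_congr rfl
    intro n _
    rw [hb]
    simp only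
    rw [norm_mul, Complex.norm_real, Real.norm_eq_abs, abs_of_pos (hν n), RCLike.norm_conj, mul_pow]
    have := (hν n).ne'
    field_simp
  have h5 := h b
  rw [h4] at h5
  have h6 : S ^ 2 ≤ X * (K * S) := h3.trans (mul_le_mul_of_nonneg_left h5 hX0)
  rcases hS0.eq_or_lt with h0 | h0
  · rw [← h0]
    positivity
  · have : S * S ≤ S * (K * X) := by nlinarith
    exact le_of_mul_le_mul_left this h0

theorem wt_maj {P : ℕ → Finset ℤ → Prop} (h : Wt P) : Maj P := by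
  classical
  intro ε hε
  obtain ⟨C0, hC0⟩ := h ε hε
  set C : ℝ := max C0 0 with hCd
  have hCn : 0 ≤ C := le_max_right _ _
  refine ⟨2 * C, fun N W hN hW => ?_⟩
  have hNr : (1 : ℝ) ≤ N := by exact_mod_cast hN
  have hNp : (0 : ℝ) < N := by linarith
  obtain ⟨μ, h0, h1, h2⟩ := hC0 N W hN hW
  set μ' : ℕ → ℝ := fun n => (μ n + ((N : ℝ) + 1)⁻¹) / 2 with hμ'
  have hμ'0 : ∀ n, 0 < μ' n := by
    intro n
    have := h0 n
    show 0 < (μ n + ((N : ℝ) + 1)⁻¹) / 2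
    positivity
  have hcard : ((Icc N (2 * N)).card : ℝ) = N + 1 := by
    rw [Nat.card_Icc]
    have : 2 * N + 1 - N = N + 1 := by omega
    rw [this]
    push_cast
    ring
  refine ⟨fun n => (N * μ' n)⁻¹, fun n => by have := hμ'0 n; positivity, ?_, ?_⟩
  · simp only [inv_inv]
    rw [← mul_sum]
    have : ∑ n ∈ Icc N (2 * N), μ' n = 1 := by
      show ∑ n ∈ Icc N (2 * N), (μ n + ((N : ℝ) + 1)⁻¹) / 2 = 1
      rw [← sum_div, sum_add_distrib, h1, sum_const, nsmul_eq_mul, hcard, mul_inv_cancel₀ (by positivity)]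
      norm_num
    rw [this, mul_one]
  · intro a
    refine dual (Icc N (2 * N)) W (fun t : ℤ => (t : ℝ)) (fun n => (N * μ' n)⁻¹)
      (fun n => by have := hμ'0 n; positivity) (2 * C * (N : ℝ) ^ ε * (N + W.card)) (by positivity) ?_ a
    intro b
    refine (h2 b).trans ?_
    simp only [inv_inv]
    have e1 : ∑ n ∈ Icc N (2 * N), μ n * ‖b n‖ ^ 2 ≤ 2 * ∑ n ∈ Icc N (2 * N), μ' n * ‖b n‖ ^ 2 := by
      rw [mul_sum]
      apply sum_le_sum
      intro n _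
      have h3 : μ n ≤ 2 * μ' n := by
        show μ n ≤ 2 * ((μ n + ((N : ℝ) + 1)⁻¹) / 2)
        have : 0 ≤ ((N : ℝ) + 1)⁻¹ := by positivity
        linarith
      have h4 : 0 ≤ ‖b n‖ ^ 2 := by positivity
      nlinarith
    have e2 : ∑ n ∈ Icc N (2 * N), (N * μ' n) * ‖b n‖ ^ 2 = N * ∑ n ∈ Icc N (2 * N), μ' n * ‖b n‖ ^ 2 := by
      rw [mul_sum]
      apply sum_congr rfl
      intro n _
      ring
    rw [e2]
    have e3 : 0 ≤ ∑ n ∈ Icc N (2 * N), μ n * ‖b n‖ ^ 2 := sum_nonneg fun n _ => by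
      have := h0 n
      positivity
    have e4 : C0 * (N : ℝ) ^ ε * ((N + W.card) * N) ≤ C * (N : ℝ) ^ ε * ((N + W.card) * N) := by
      gcongr
      exact le_max_left _ _
    calc C0 * (N : ℝ) ^ ε * ((N + W.card) * N) * ∑ n ∈ Icc N (2 * N), μ n * ‖b n‖ ^ 2 ≤
          C * (N : ℝ) ^ ε * ((N + W.card) * N) * ∑ n ∈ Icc N (2 * N), μ n * ‖b n‖ ^ 2 :=
          mul_le_mul_of_nonneg_right e4 e3
      _ ≤ C * (N : ℝ) ^ ε * ((N + W.card) * N) * (2 * ∑ n ∈ Icc N (2 * N), μ' n * ‖b n‖ ^ 2) :=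
          mul_le_mul_of_nonneg_left e1 (by positivity)
      _ = _ := by ring

theorem maj_l1 {P : ℕ → Finset ℤ → Prop} (h : Maj P) : L1 P := by
  intro ε hε
  obtain ⟨C0, hC0⟩ := h (ε * 2) (by positivity)
  set C : ℝ := max C0 0 with hCd
  have hCn : 0 ≤ C := le_max_right _ _
  refine ⟨Real.sqrt C, fun N W hN hW => ?_⟩
  have hNr : (1 : ℝ) ≤ N := by exact_mod_cast hN
  have hNp : (0 : ℝ) < N := by linarith
  obtain ⟨ν, h0, h1, h2⟩ := hC0 N W hN hW
  have h3 := h2 (fun _ => 1)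
  simp only [one_mul, norm_one, one_pow, sum_const, nsmul_eq_mul, mul_one] at h3
  refine le_trans ?_ (sqrt_form hCn (by positivity : (0 : ℝ) ≤ (N : ℝ) ^ ε) (by positivity : (0 : ℝ) ≤ W.card) hNp.le)
  apply Real.le_sqrt_of_sq_le
  have e1 : ∑ n ∈ Icc N (2 * N), ‖∑ t ∈ W, ch n t‖ =
      ∑ n ∈ Icc N (2 * N), Real.sqrt (ν n)⁻¹ * (Real.sqrt (ν n) * ‖∑ t ∈ W, ch n t‖) := by
    apply sum_congr rfl
    intro n _
    rw [← mul_assoc, ← Real.sqrt_mul (by have := h0 n; positivity), inv_mul_cancel₀ (h0 n).ne', Real.sqrt_one,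
      one_mul]
  rw [e1]
  refine (sum_mul_sq_le_sq_mul_sq _ _ _).trans ?_
  have e2 : ∑ n ∈ Icc N (2 * N), Real.sqrt (ν n)⁻¹ ^ 2 ≤ N := by
    refine le_trans (le_of_eq ?_) h1
    apply sum_congr rfl
    intro n _
    exact Real.sq_sqrt (by have := h0 n; positivity)
  have e3 : ∑ n ∈ Icc N (2 * N), (Real.sqrt (ν n) * ‖∑ t ∈ W, ch n t‖) ^ 2 ≤
      C * (N : ℝ) ^ (ε * 2) * (N + W.card) * W.card := by
    refine le_trans (le_of_eq ?_) (h3.trans ?_)
    · apply sum_congr rfl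
      intro n _
      rw [mul_pow, Real.sq_sqrt (h0 n).le]
    · gcongr
      exact le_max_left _ _
  calc (∑ n ∈ Icc N (2 * N), Real.sqrt (ν n)⁻¹ ^ 2) *
        ∑ n ∈ Icc N (2 * N), (Real.sqrt (ν n) * ‖∑ t ∈ W, ch n t‖) ^ 2 ≤
        N * (C * (N : ℝ) ^ (ε * 2) * (N + W.card) * W.card) :=
        mul_le_mul e2 e3 (sum_nonneg fun _ _ => by positivity) hNp.le
    _ = _ := by
        rw [Real.rpow_mul hNp.le, Real.rpow_two]
        ring

theorem wt_off {P : ℕ → Finset ℤ → Prop} (h : Wt P) : Off P := by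
  classical
  intro ε hε
  obtain ⟨C0, hC0⟩ := h ε hε
  set C : ℝ := max C0 0 with hCd
  have hCn : 0 ≤ C := le_max_right _ _
  refine ⟨C, fun N W δ hN hW hδ hδ1 => ?_⟩
  have hNr : (1 : ℝ) ≤ N := by exact_mod_cast hN
  have hNp : (0 : ℝ) < N := by linarith
  obtain ⟨μ, h0, h1, h2⟩ := hC0 N W hN hW
  set E : Finset ℕ := (Icc N (2 * N)).filter (fun n => (δ * N)⁻¹ < μ n) with hE
  refine ⟨E, filter_subset _ _, ?_, fun b => ?_⟩
  · have e1 : (E.card : ℝ) * (δ * N)⁻¹ ≤ 1 := by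
      calc (E.card : ℝ) * (δ * N)⁻¹ = ∑ n ∈ E, (δ * N)⁻¹ := by rw [sum_const, nsmul_eq_mul]
        _ ≤ ∑ n ∈ E, μ n := sum_le_sum fun n hn => (mem_filter.1 hn).2.le
        _ ≤ ∑ n ∈ Icc N (2 * N), μ n :=
            sum_le_sum_of_subset_of_nonneg (filter_subset _ _) fun n _ _ => h0 n
        _ = 1 := h1
    rwa [mul_inv_le_iff₀ (by positivity), one_mul] at e1
  · have h3 := h2 (fun n => if n ∈ Icc N (2 * N) \ E then b n else 0)
    have e1 : ∀ t : ℝ, DI (Icc N (2 * N)) (fun n => if n ∈ Icc N (2 * N) \ E then b n else 0) t =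
        DI (Icc N (2 * N) \ E) b t := by
      intro t
      unfold DI
      simp only [ite_mul, zero_mul]
      rw [sum_ite_mem, inter_eq_right.2 sdiff_subset]
    simp only [e1] at h3
    refine h3.trans ?_
    have e2 : ∑ n ∈ Icc N (2 * N), μ n * ‖(if n ∈ Icc N (2 * N) \ E then b n else 0)‖ ^ 2 ≤
        (δ * N)⁻¹ * ∑ n ∈ Icc N (2 * N) \ E, ‖b n‖ ^ 2 := by
      have e3 : ∑ n ∈ Icc N (2 * N), μ n * ‖(if n ∈ Icc N (2 * N) \ E then b n else 0)‖ ^ 2 =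
          ∑ n ∈ Icc N (2 * N) \ E, μ n * ‖b n‖ ^ 2 := by
        have e4 : ∀ n ∈ Icc N (2 * N), μ n * ‖(if n ∈ Icc N (2 * N) \ E then b n else 0)‖ ^ 2 =
            if n ∈ Icc N (2 * N) \ E then μ n * ‖b n‖ ^ 2 else 0 := by
          intro n _
          split_ifs <;> simp
        rw [sum_congr rfl e4, sum_ite_mem, inter_eq_right.2 sdiff_subset]
      rw [e3, mul_sum]
      apply sum_le_sum
      intro n hn
      rw [mem_sdiff] at hn
      apply mul_le_mul_of_nonneg_right _ (by positivity)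
      by_contra hlt
      exact hn.2 (mem_filter.2 ⟨hn.1, not_le.1 hlt⟩)
    have e4 : C0 * (N : ℝ) ^ ε * ((N + W.card) * N) ≤ C * (N : ℝ) ^ ε * ((N + W.card) * N) := by
      gcongr
      exact le_max_left _ _
    have e5 : 0 ≤ ∑ n ∈ Icc N (2 * N), μ n * ‖(if n ∈ Icc N (2 * N) \ E then b n else 0)‖ ^ 2 :=
      sum_nonneg fun n _ => by
        have := h0 n
        positivity
    refine (mul_le_mul_of_nonneg_right e4 e5).trans ((mul_le_mul_of_nonneg_left e2 (by positivity)).trans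
      (le_of_eq ?_))
    field_simp

/-- pieces -/
theorem off_ms {P' : ℕ → Finset ℤ → Prop} (h : Off P') : MS P' := by
  classical
  intro ε hε
  obtain ⟨C0, hC0⟩ := h (ε / 2) (by positivity)
  set C : ℝ := max C0 0 with hCd
  have hCn : 0 ≤ C := le_max_right _ _
  -- the number of pieces
  obtain ⟨K, hK0, hK⟩ : ∃ K : ℝ, 0 ≤ K ∧ ∀ N : ℕ, 1 ≤ N → ((Nat.log 2 N : ℝ) + 2) ^ 2 ≤ K * (N : ℝ) ^ (ε / 2) := by
    refine ⟨(1 / (ε / 4) / Real.log 2 + 2) ^ 2, by positivity, fun N hN => ?_⟩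
    have hNr : (1 : ℝ) ≤ N := by exact_mod_cast hN
    have hl2 : 0 < Real.log 2 := Real.log_pos (by norm_num)
    have h1 : (Nat.log 2 N : ℝ) ≤ Real.log N / Real.log 2 := by
      rw [le_div_iff₀ hl2, ← Real.log_pow]
      apply Real.log_le_log (by positivity)
      have := Nat.pow_log_le_self 2 (show N ≠ 0 by omega)
      exact_mod_cast this
    have h2 : Real.log N ≤ (N : ℝ) ^ (ε / 4) / (ε / 4) := Real.log_le_rpow_div (by linarith) (by positivity)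
    have h3 : 1 ≤ (N : ℝ) ^ (ε / 4) := Real.one_le_rpow hNr (by positivity)
    have h4 : (Nat.log 2 N : ℝ) + 2 ≤ (1 / (ε / 4) / Real.log 2 + 2) * (N : ℝ) ^ (ε / 4) := by
      calc (Nat.log 2 N : ℝ) + 2 ≤ (N : ℝ) ^ (ε / 4) / (ε / 4) / Real.log 2 + 2 * (N : ℝ) ^ (ε / 4) := by
            have h5 : Real.log N / Real.log 2 ≤ (N : ℝ) ^ (ε / 4) / (ε / 4) / Real.log 2 :=
              div_le_div_of_nonneg_right h2 hl2.le
            linarith
        _ = _ := by ring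
    calc ((Nat.log 2 N : ℝ) + 2) ^ 2 ≤ ((1 / (ε / 4) / Real.log 2 + 2) * (N : ℝ) ^ (ε / 4)) ^ 2 :=
          pow_le_pow_left₀ (by positivity) h4 2
      _ = (1 / (ε / 4) / Real.log 2 + 2) ^ 2 * (N : ℝ) ^ (ε / 2) := by
          rw [mul_pow, ← Real.rpow_natCast ((N : ℝ) ^ (ε / 4)) 2, ← Real.rpow_mul (by linarith)]
          congr 2
          push_cast
          ring
  refine ⟨2 * C * K, fun N b W hN hW hb => ?_⟩
  have hNr : (1 : ℝ) ≤ N := by exact_mod_cast hN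
  have hNp : (0 : ℝ) < N := by linarith
  set J : ℕ := Nat.log 2 N + 1 with hJ
  have hJN : (N : ℝ) < 2 ^ J := by
    have := Nat.lt_pow_succ_log_self (one_lt_two) N
    exact_mod_cast this
  choose! E hE1 hE2 hE3 using fun j : ℕ => hC0 N W ((1 / 2 : ℝ) ^ j) hN hW (by positivity)
    (pow_le_one₀ (by norm_num) (by norm_num))
  have hEJ : E J = ∅ := by
    rw [← card_eq_zero]
    by_contra hne
    have h1 : (1 : ℝ) ≤ (E J).card := by exact_mod_cast Nat.one_le_iff_ne_zero.2 hne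
    have h2 := hE2 J
    have h3 : (1 / 2 : ℝ) ^ J * N < 1 := by
      rw [one_div, inv_pow, inv_mul_lt_iff₀ (by positivity), mul_one]
      exact hJN
    linarith
  set φ : ℕ → ℕ := fun n => sInf {j : ℕ | n ∉ E j} with hφ
  have hφne : ∀ n, {j : ℕ | n ∉ E j}.Nonempty := fun n => ⟨J, by simp [hEJ]⟩
  have hφ1 : ∀ n, n ∉ E (φ n) := fun n => Nat.sInf_mem (hφne n)
  have hφ2 : ∀ n, φ n ≤ J := fun n => Nat.sInf_le (by simp [hEJ])
  have hφ3 : ∀ n j, j < φ n → n ∈ E j := by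
    intro n j hj
    by_contra hn
    exact absurd (Nat.sInf_le (show j ∈ {j : ℕ | n ∉ E j} from hn)) (not_le.2 hj)
  set P : ℕ → Finset ℕ := fun j => (Icc N (2 * N)).filter (fun n => φ n = j) with hP
  have hcardI : ((Icc N (2 * N)).card : ℝ) = N + 1 := by
    rw [Nat.card_Icc]
    have : 2 * N + 1 - N = N + 1 := by omega
    rw [this]
    push_cast
    ring
  have hPc : ∀ j, ((P j).card : ℝ) ≤ 2 * (1 / 2 : ℝ) ^ j * N := by
    intro j
    rcases Nat.eq_zero_or_pos j with h0 | h0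
    · rw [h0]
      have h1 : ((P 0).card : ℝ) ≤ ((Icc N (2 * N)).card : ℝ) := by
        exact_mod_cast card_le_card (filter_subset _ _)
      rw [hcardI] at h1
      linarith
    · obtain ⟨i, rfl⟩ : ∃ i, j = i + 1 := ⟨j - 1, by omega⟩
      have h1 : P (i + 1) ⊆ E i := by
        intro n hn
        apply hφ3
        rw [(mem_filter.1 hn).2]
        omega
      have h2 : ((P (i + 1)).card : ℝ) ≤ ((E i).card : ℝ) := by exact_mod_cast card_le_card h1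
      have h3 := hE2 i
      rw [pow_succ]
      linarith
  have hPE : ∀ j, P j ⊆ Icc N (2 * N) \ E j := by
    intro j n hn
    rw [mem_sdiff]
    have h1 := mem_filter.1 hn
    refine ⟨h1.1, ?_⟩
    rw [← h1.2]
    exact hφ1 n
  have hsplit : ∀ t : ℝ, DI (Icc N (2 * N)) b t = ∑ j ∈ range (J + 1), DI (P j) b t := by
    intro t
    unfold DI
    exact (sum_fiberwise_of_maps_to (fun n _ => mem_range.2 (Nat.lt_succ_of_le (hφ2 n))) _).symm
  have hpiece : ∀ j, ∑ t ∈ W, ‖DI (P j) b t‖ ^ 2 ≤ 2 * C * (N : ℝ) ^ (ε / 2) * ((N + W.card) * N) := by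
    intro j
    have h1 := hE3 j (fun n => if n ∈ P j then b n else 0)
    have e1 : ∀ t : ℝ, DI (Icc N (2 * N) \ E j) (fun n => if n ∈ P j then b n else 0) t = DI (P j) b t := by
      intro t
      unfold DI
      simp only [ite_mul, zero_mul]
      rw [sum_ite_mem, inter_eq_right.2 (hPE j)]
    simp only [e1] at h1
    have e2 : ∑ n ∈ Icc N (2 * N) \ E j, ‖(if n ∈ P j then b n else 0)‖ ^ 2 ≤ (P j).card := by
      calc ∑ n ∈ Icc N (2 * N) \ E j, ‖(if n ∈ P j then b n else 0)‖ ^ 2 ≤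
            ∑ n ∈ Icc N (2 * N) \ E j, (if n ∈ P j then (1 : ℝ) else 0) := by
            apply sum_le_sum
            intro n hn
            split_ifs with h2
            · exact pow_le_one₀ (norm_nonneg _) (hb n (mem_sdiff.1 hn).1)
            · simp
        _ = (P j).card := by
            rw [sum_ite_mem, inter_eq_right.2 (hPE j)]
            simp
    calc ∑ t ∈ W, ‖DI (P j) b t‖ ^ 2 ≤ C0 * (N : ℝ) ^ (ε / 2) * ((1 / 2 : ℝ) ^ j)⁻¹ * (N + W.card) *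
          ∑ n ∈ Icc N (2 * N) \ E j, ‖(if n ∈ P j then b n else 0)‖ ^ 2 := h1
      _ ≤ C * (N : ℝ) ^ (ε / 2) * ((1 / 2 : ℝ) ^ j)⁻¹ * (N + W.card) *
          ∑ n ∈ Icc N (2 * N) \ E j, ‖(if n ∈ P j then b n else 0)‖ ^ 2 := by
          apply mul_le_mul_of_nonneg_right _ (sum_nonneg fun _ _ => by positivity)
          gcongr
          exact le_max_left _ _
      _ ≤ C * (N : ℝ) ^ (ε / 2) * ((1 / 2 : ℝ) ^ j)⁻¹ * (N + W.card) * (2 * (1 / 2 : ℝ) ^ j * N) :=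
          mul_le_mul_of_nonneg_left (e2.trans (hPc j)) (by positivity)
      _ = _ := by
          have : ((1 / 2 : ℝ) ^ j) ≠ 0 := by positivity
          field_simp
  calc ∑ t ∈ W, ‖DI (Icc N (2 * N)) b t‖ ^ 2 ≤
        ∑ t ∈ W, ((J : ℝ) + 1) * ∑ j ∈ range (J + 1), ‖DI (P j) b t‖ ^ 2 := by
        apply sum_le_sum
        intro t _
        rw [hsplit]
        have h1 : ‖∑ j ∈ range (J + 1), DI (P j) b t‖ ^ 2 ≤ (∑ j ∈ range (J + 1), ‖DI (P j) b t‖) ^ 2 :=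
          pow_le_pow_left₀ (norm_nonneg _) (norm_sum_le _ _) 2
        refine h1.trans ?_
        have h2 := sq_sum_le_card_mul_sum_sq (s := range (J + 1)) (f := fun j => ‖DI (P j) b t‖)
        rw [card_range] at h2
        push_cast at h2
        exact h2
    _ = ((J : ℝ) + 1) * ∑ j ∈ range (J + 1), ∑ t ∈ W, ‖DI (P j) b t‖ ^ 2 := by
        rw [← mul_sum, sum_comm]
    _ ≤ ((J : ℝ) + 1) * ∑ j ∈ range (J + 1), 2 * C * (N : ℝ) ^ (ε / 2) * ((N + W.card) * N) := by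
        apply mul_le_mul_of_nonneg_left (sum_le_sum fun j _ => hpiece j) (by positivity)
    _ = ((Nat.log 2 N : ℝ) + 2) ^ 2 * (2 * C * (N : ℝ) ^ (ε / 2) * ((N + W.card) * N)) := by
        rw [sum_const, card_range, nsmul_eq_mul, hJ]
        push_cast
        ring
    _ ≤ (K * (N : ℝ) ^ (ε / 2)) * (2 * C * (N : ℝ) ^ (ε / 2) * ((N + W.card) * N)) :=
        mul_le_mul_of_nonneg_right (hK N hN) (by positivity)
    _ = 2 * C * K * ((N : ℝ) ^ (ε / 2) * (N : ℝ) ^ (ε / 2)) * ((N + W.card) * N) := by ring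
    _ = _ := by
        rw [← Real.rpow_add hNp, add_halves]

def Lev (P : ℕ → Finset ℤ → Prop) : Prop := ∀ ε : ℝ, 0 < ε → ∃ C : ℝ, ∀ (N : ℕ) (W : Finset ℤ) (x : ℝ), 1 ≤ N → P N W →
  0 < x → (((Icc N (2 * N)).filter fun n => x < ‖∑ t ∈ W, ch n t‖).card : ℝ) ≤
      C * (N : ℝ) ^ ε * (N * Real.sqrt W.card + Real.sqrt N * W.card) / x

theorem l1_lev {P : ℕ → Finset ℤ → Prop} (h : L1 P) : Lev P := by
  intro ε hε
  obtain ⟨C, hC⟩ := h ε hε
  refine ⟨C, fun N W x hN hW hx => ?_⟩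
  rw [le_div_iff₀ hx]
  refine le_trans ?_ (hC N W hN hW)
  calc (((Icc N (2 * N)).filter fun n => x < ‖∑ t ∈ W, ch n t‖).card : ℝ) * x =
        ∑ n ∈ (Icc N (2 * N)).filter fun n => x < ‖∑ t ∈ W, ch n t‖, x := by rw [sum_const, nsmul_eq_mul]
    _ ≤ ∑ n ∈ (Icc N (2 * N)).filter fun n => x < ‖∑ t ∈ W, ch n t‖, ‖∑ t ∈ W, ch n t‖ :=
        sum_le_sum fun n hn => (mem_filter.1 hn).2.le
    _ ≤ _ := sum_le_sum_of_subset_of_nonneg (filter_subset _ _) fun _ _ _ => norm_nonneg _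

lemma dy (J : ℕ) (y : ℝ) (_hy : 0 ≤ y) (hJ : y ≤ 2 ^ J) :
    y ≤ 1 + ∑ j ∈ range J, if (2 : ℝ) ^ j < y then (2 : ℝ) ^ (j + 1) else 0 := by
  induction J with
  | zero => simpa using hJ
  | succ J ih =>
    rw [sum_range_succ]
    by_cases h : y ≤ 2 ^ J
    · have h1 := ih h
      rw [if_neg (not_lt.2 h), add_zero]
      exact h1
    · rw [if_pos (not_le.1 h)]
      have h2 : 0 ≤ ∑ j ∈ range J, if (2 : ℝ) ^ j < y then (2 : ℝ) ^ (j + 1) else 0 := by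
        apply sum_nonneg
        intro j _
        split_ifs <;> positivity
      linarith

theorem lev_l1 {A : ℝ} (hA : 1 ≤ A) {P : ℕ → Finset ℤ → Prop} (hP : ∀ N W, P N W → Pts A N W) (h : Lev P) : L1 P := by
  intro ε hε
  obtain ⟨C0, hC0⟩ := h (ε / 2) (by positivity)
  set C : ℝ := max C0 0 with hCd
  have hCn : 0 ≤ C := le_max_right _ _
  have hl2 : 0 < Real.log 2 := Real.log_pos (by norm_num)
  -- the number of dyadic levels
  set K : ℝ := (Real.log 2 + A * (1 / (ε / 2))) / Real.log 2 + 1 with hK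
  have hK0 : 0 ≤ K := by
    rw [hK]
    positivity
  refine ⟨2 + 2 * C * K, fun N W hN hW => ?_⟩
  have hNr : (1 : ℝ) ≤ N := by exact_mod_cast hN
  have hNp : (0 : ℝ) < N := by linarith
  rcases W.eq_empty_or_nonempty with hWe | hWne
  · rw [hWe]
    simp
  have hW1 : 1 ≤ W.card := card_pos.2 hWne
  have hW1r : (1 : ℝ) ≤ W.card := by exact_mod_cast hW1
  set J : ℕ := Nat.log 2 W.card + 1 with hJ
  have hJ2 : (W.card : ℝ) ≤ 2 ^ J := by
    have := Nat.lt_pow_succ_log_self (one_lt_two) W.card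
    exact_mod_cast this.le
  have hJK : (J : ℝ) ≤ K * (N : ℝ) ^ (ε / 2) := by
    have h1 : (Nat.log 2 W.card : ℝ) ≤ Real.log W.card / Real.log 2 := by
      rw [le_div_iff₀ hl2, ← Real.log_pow]
      apply Real.log_le_log (by positivity)
      have := Nat.pow_log_le_self 2 (show W.card ≠ 0 by omega)
      exact_mod_cast this
    have h2 : (W.card : ℝ) ≤ 2 * (N : ℝ) ^ A := by
      have h3 := small A A 1 (by linarith) le_rfl 1 le_rfl (by simp)
      have h4 : W ⊆ Icc (0 : ℤ) ⌊(N : ℝ) ^ A⌋ := by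
        intro t ht
        obtain ⟨ha, hb⟩ := hP N W hW t ht
        rw [mem_Icc]
        exact ⟨by exact_mod_cast ha, Int.le_floor.2 hb⟩
      have h5 := card_le_card h4
      rw [Int.card_Icc] at h5
      have h6 : (1 : ℝ) ≤ (N : ℝ) ^ A := Real.one_le_rpow hNr (by linarith)
      have h7 : (0 : ℤ) ≤ ⌊(N : ℝ) ^ A⌋ := Int.floor_nonneg.2 (by linarith)
      have h8 : ((⌊(N : ℝ) ^ A⌋ + 1 - 0).toNat : ℝ) = (⌊(N : ℝ) ^ A⌋ : ℝ) + 1 := by
        have : ((⌊(N : ℝ) ^ A⌋ + 1 - 0).toNat : ℤ) = ⌊(N : ℝ) ^ A⌋ + 1 - 0 := Int.toNat_of_nonneg (by omega)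
        have h9 : (((⌊(N : ℝ) ^ A⌋ + 1 - 0).toNat : ℤ) : ℝ) = ((⌊(N : ℝ) ^ A⌋ + 1 - 0 : ℤ) : ℝ) := by rw [this]
        push_cast at h9
        simpa using h9
      have h10 : (W.card : ℝ) ≤ ((⌊(N : ℝ) ^ A⌋ + 1 - 0).toNat : ℝ) := by exact_mod_cast h5
      rw [h8] at h10
      have h11 := Int.floor_le ((N : ℝ) ^ A)
      linarith
    have h3 : Real.log W.card ≤ Real.log 2 + A * Real.log N := by
      calc Real.log W.card ≤ Real.log (2 * (N : ℝ) ^ A) := Real.log_le_log (by linarith) h2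
        _ = _ := by rw [Real.log_mul (by norm_num) (by positivity), Real.log_rpow hNp]
    have h4 : Real.log N ≤ (N : ℝ) ^ (ε / 2) / (ε / 2) := Real.log_le_rpow_div (by linarith) (by positivity)
    have h5 : 1 ≤ (N : ℝ) ^ (ε / 2) := Real.one_le_rpow hNr (by positivity)
    have h6 : Real.log W.card ≤ (Real.log 2 + A * (1 / (ε / 2))) * (N : ℝ) ^ (ε / 2) := by
      calc Real.log W.card ≤ Real.log 2 + A * Real.log N := h3
        _ ≤ Real.log 2 * (N : ℝ) ^ (ε / 2) + A * ((N : ℝ) ^ (ε / 2) / (ε / 2)) := by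
            apply add_le_add
            · nlinarith
            · exact mul_le_mul_of_nonneg_left h4 (by linarith)
        _ = _ := by ring
    rw [hJ, hK]
    push_cast
    calc (Nat.log 2 W.card : ℝ) + 1 ≤ Real.log W.card / Real.log 2 + 1 := by linarith
      _ ≤ (Real.log 2 + A * (1 / (ε / 2))) * (N : ℝ) ^ (ε / 2) / Real.log 2 + 1 * (N : ℝ) ^ (ε / 2) := by
          apply add_le_add
          · exact div_le_div_of_nonneg_right h6 hl2.le
          · linarith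
      _ = _ := by ring
  set z : ℕ → ℝ := fun n => ‖∑ t ∈ W, ch n t‖ with hz
  have hzW : ∀ n, z n ≤ W.card := by
    intro n
    calc z n ≤ ∑ t ∈ W, ‖ch n (t : ℝ)‖ := norm_sum_le _ _
      _ = W.card := by simp [norm_ch]
  set B : ℝ := N * Real.sqrt W.card + Real.sqrt N * W.card with hB
  have hB0 : 0 ≤ B := by
    rw [hB]
    positivity
  have hcardI : ((Icc N (2 * N)).card : ℝ) = N + 1 := by
    rw [Nat.card_Icc]
    have : 2 * N + 1 - N = N + 1 := by omega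
    rw [this]
    push_cast
    ring
  have hNB : (N : ℝ) + 1 ≤ 2 * B := by
    have h1 : 1 ≤ Real.sqrt W.card := Real.one_le_sqrt.2 hW1r
    have h2 : 0 ≤ Real.sqrt N * W.card := by positivity
    rw [hB]
    nlinarith
  calc ∑ n ∈ Icc N (2 * N), z n ≤ ∑ n ∈ Icc N (2 * N), (1 + ∑ j ∈ range J,
        if (2 : ℝ) ^ j < z n then (2 : ℝ) ^ (j + 1) else 0) :=
        sum_le_sum fun n _ => dy J (z n) (norm_nonneg _) ((hzW n).trans hJ2)
    _ = (N + 1) + ∑ j ∈ range J, (((Icc N (2 * N)).filter fun n => (2 : ℝ) ^ j < z n).card : ℝ) * 2 ^ (j + 1) := by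
        rw [sum_add_distrib, sum_const, nsmul_eq_mul, hcardI, mul_one, sum_comm]
        congr 1
        apply sum_congr rfl
        intro j _
        rw [← sum_filter, sum_const, nsmul_eq_mul]
    _ ≤ 2 * B + ∑ j ∈ range J, 2 * (C * (N : ℝ) ^ (ε / 2) * B) := by
        apply add_le_add hNB
        apply sum_le_sum
        intro j _
        have h1 := hC0 N W (2 ^ j) hN hW (by positivity)
        rw [le_div_iff₀ (by positivity)] at h1
        have h2 : C0 * (N : ℝ) ^ (ε / 2) * B ≤ C * (N : ℝ) ^ (ε / 2) * B := by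
          gcongr
          exact le_max_left _ _
        rw [pow_succ]
        linarith
    _ = 2 * B + 2 * C * J * (N : ℝ) ^ (ε / 2) * B := by
        rw [sum_const, card_range, nsmul_eq_mul]
        ring
    _ ≤ 2 * ((N : ℝ) ^ ε * B) + 2 * C * (K * (N : ℝ) ^ (ε / 2)) * (N : ℝ) ^ (ε / 2) * B := by
        apply add_le_add
        · have h1 : 1 ≤ (N : ℝ) ^ ε := Real.one_le_rpow hNr hε.le
          nlinarith
        · gcongr
    _ = 2 * ((N : ℝ) ^ ε * B) + 2 * C * K * ((N : ℝ) ^ (ε / 2) * (N : ℝ) ^ (ε / 2)) * B := by ring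
    _ = _ := by
        rw [← Real.rpow_add hNp, add_halves]
        ring

/-- all the statements are equivalent -/
theorem tfae (A : ℝ) (hA : 1 < A) :
    (∀ s₁ s₂ : ℂ, ‖s₁‖ ≤ 1 → ‖s₂‖ ≤ 1 → s₁ ≠ s₂ → (Q1 A ↔ Q2 A s₁ s₂)) ∧
    (∀ P : ℕ → Finset ℤ → Prop, (P = Pts A ∨ P = Crit A) →
      (Q1 A ↔ Cut P) ∧ (Q1 A ↔ L1 P) ∧ (Q1 A ↔ Lev P) ∧ (Q1 A ↔ MS P) ∧ (Q1 A ↔ Wt P) ∧ (Q1 A ↔ Maj P) ∧
      (Q1 A ↔ Off P)) := by
  have hsub : ∀ P : ℕ → Finset ℤ → Prop, (P = Pts A ∨ P = Crit A) →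
      (∀ N W, Crit A N W → P N W) ∧ (∀ N W, P N W → Pts A N W) := by
    rintro P (rfl | rfl)
    · exact ⟨fun N W h => h.1, fun N W h => h⟩
    · exact ⟨fun N W h => h, fun N W h => h.1⟩
  have a1 : ∀ P : ℕ → Finset ℤ → Prop, (∀ N W, Crit A N W → P N W) → L1 P → Q1 A := by
    intro P hP h
    apply crit_q1 hA
    intro ε hε
    obtain ⟨C, hC⟩ := h ε hε
    exact ⟨C, fun N W hN hW => hC N W hN (hP N W hW)⟩
  have a2 : ∀ P : ℕ → Finset ℤ → Prop, (∀ N W, P N W → Pts A N W) → Q1 A → MS P := by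
    intro P hP h ε hε
    obtain ⟨C, hC⟩ := q1_ms hA.le h ε hε
    exact ⟨C, fun N b W hN hW => hC N b W hN (hP N W hW)⟩
  have a3 : ∀ P : ℕ → Finset ℤ → Prop, (∀ N W, P N W → Pts A N W) → Q1 A → Cut P := by
    intro P hP h ε hε
    obtain ⟨C, hC⟩ := q01_cut hA.le (q1_q01 h) ε hε
    exact ⟨C, fun N I W hN hI hW => hC N I W hN hI (hP N W hW)⟩
  refine ⟨fun s₁ s₂ h₁ h₂ hs => ⟨q1_q2 s₁ s₂ h₁ h₂, fun h => a1 (Pts A) (fun N W h => h.1)
    (cut_l1 (q01_cut hA.le (q2_q01 hA.le s₁ s₂ hs h)))⟩, fun P hP => ?_⟩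
  obtain ⟨h1, h2⟩ := hsub P hP
  exact ⟨⟨a3 P h2, fun h => a1 P h1 (cut_l1 h)⟩, ⟨fun h => cut_l1 (a3 P h2 h), a1 P h1⟩,
    ⟨fun h => l1_lev (cut_l1 (a3 P h2 h)), fun h => a1 P h1 (lev_l1 hA.le h2 h)⟩,
    ⟨a2 P h2, fun h => a1 P h1 (maj_l1 (wt_maj (ms_wt h)))⟩,
    ⟨fun h => ms_wt (a2 P h2 h), fun h => a1 P h1 (maj_l1 (wt_maj h))⟩,
    ⟨fun h => wt_maj (ms_wt (a2 P h2 h)), fun h => a1 P h1 (maj_l1 h)⟩,
    ⟨fun h => wt_off (ms_wt (a2 P h2 h)), fun h => a1 P h1 (maj_l1 (wt_maj (ms_wt (off_ms h))))⟩⟩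

end Pool.Agent.P8H16.LG
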