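import Pool.Agent.P8H16.LG4

/-!
# The exceptional set from the weight, for one set of points
-/

set_option autoImplicit false

namespace Pool.Agent.P8H16.LG

open Finset

lemma off_of_weight {ι : Type} (W : Finset ι) (x : ι → ℝ) (N : ℕ) (hN : 1 ≤ N) (μ : ℕ → ℝ) (K : ℝ) (hK : 0 ≤ K)
    (h0 : ∀ n, 0 ≤ μ n) (h1 : ∑ n ∈ Icc N (2 * N), μ n = 1)
    (h2 : ∀ b : ℕ → ℂ, ∑ t ∈ W, ‖DI (Icc N (2 * N)) b (x t)‖ ^ 2 ≤ K * ∑ n ∈ Icc N (2 * N), μ n * ‖b n‖ ^ 2)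
    (δ : ℝ) (hδ : 0 < δ) :
    ∃ E : Finset ℕ, E ⊆ Icc N (2 * N) ∧ (E.card : ℝ) ≤ δ * N ∧
      ∀ b : ℕ → ℂ, ∑ t ∈ W, ‖DI (Icc N (2 * N) \ E) b (x t)‖ ^ 2 ≤
        K / (δ * N) * ∑ n ∈ Icc N (2 * N) \ E, ‖b n‖ ^ 2 := by
  classical
  have hNr : (1 : ℝ) ≤ N := by exact_mod_cast hN
  have hNp : (0 : ℝ) < N := by linarith
  set E : Finset ℕ := (Icc N (2 * N)).filter (fun n => (δ * N)⁻¹ < μ n) with hE
  refine ⟨E, filter_subset _ _, ?_, fun b => ?_⟩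
  · have e1 : (E.card : ℝ) * (δ * N)⁻¹ ≤ 1 := by
      calc (E.card : ℝ) * (δ * N)⁻¹ = ∑ n ∈ E, (δ * N)⁻¹ := by rw [sum_const, nsmul_eq_mul]
        _ ≤ ∑ n ∈ E, μ n := sum_le_sum fun n hn => (mem_filter.1 hn).2.le
        _ ≤ ∑ n ∈ Icc N (2 * N), μ n :=
            sum_le_sum_of_subset_of_nonneg (filter_subset _ _) fun n _ _ => h0 n
        _ = 1 := h1
    rwa [mul_inv_le_iff₀ (by positivity), one_mul] at e1
  · have h3 := h2 (fun n => if n ∈ Icc N (2 * N) \ E then b n else 0)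
    have e1 : ∀ t : ℝ, DI (Icc N (2 * N)) (fun n => if n ∈ Icc N (2 * N) \ E then b n else 0) t =
        DI (Icc N (2 * N) \ E) b t := by
      intro t
      unfold DI
      simp only [ite_mul, zero_mul]
      rw [sum_ite_mem, inter_eq_right.2 sdiff_subset]
    simp only [e1] at h3
    refine h3.trans ?_
    have e3 : ∑ n ∈ Icc N (2 * N), μ n * ‖(if n ∈ Icc N (2 * N) \ E then b n else 0)‖ ^ 2 =
        ∑ n ∈ Icc N (2 * N) \ E, μ n * ‖b n‖ ^ 2 := by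
      have e4 : ∀ n ∈ Icc N (2 * N), μ n * ‖(if n ∈ Icc N (2 * N) \ E then b n else 0)‖ ^ 2 =
          if n ∈ Icc N (2 * N) \ E then μ n * ‖b n‖ ^ 2 else 0 := by
        intro n _
        split_ifs <;> simp
      rw [sum_congr rfl e4, sum_ite_mem, inter_eq_right.2 sdiff_subset]
    rw [e3, div_eq_mul_inv, mul_assoc]
    apply mul_le_mul_of_nonneg_left _ hK
    rw [mul_sum]
    apply sum_le_sum
    intro n hn
    rw [mem_sdiff] at hn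
    apply mul_le_mul_of_nonneg_right _ (by positivity)
    by_contra hlt
    exact hn.2 (mem_filter.2 ⟨hn.1, not_le.1 hlt⟩)

theorem local_form (N : ℕ) (hN : 1 ≤ N) (W : Finset ℝ) (M : ℝ)
    (hM : ∀ b : ℕ → ℂ, (∀ n ∈ Icc N (2 * N), ‖b n‖ ≤ 1) → ∑ t ∈ W, ‖DI (Icc N (2 * N)) b t‖ ^ 2 ≤ M) :
    ∃ μ : ℕ → ℝ, (∀ n, 0 ≤ μ n) ∧ ∑ n ∈ Icc N (2 * N), μ n = 1 ∧
      (∀ b : ℕ → ℂ, ∑ t ∈ W, ‖DI (Icc N (2 * N)) b t‖ ^ 2 ≤ 96 * M * ∑ n ∈ Icc N (2 * N), μ n * ‖b n‖ ^ 2) ∧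
      ∀ δ : ℝ, 0 < δ → ∃ E : Finset ℕ, E ⊆ Icc N (2 * N) ∧ (E.card : ℝ) ≤ δ * N ∧
        ∀ b : ℕ → ℂ, ∑ t ∈ W, ‖DI (Icc N (2 * N) \ E) b t‖ ^ 2 ≤
          96 * M / (δ * N) * ∑ n ∈ Icc N (2 * N) \ E, ‖b n‖ ^ 2 := by
  have hM0 : 0 ≤ M := by
    refine le_trans ?_ (hM (fun _ => 0) fun n _ => by simp)
    exact sum_nonneg fun _ _ => by positivity
  obtain ⟨μ, h0, h1, h2⟩ := weight W (fun t : ℝ => t) (Icc N (2 * N)) (Icc_ne hN) M hM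
  exact ⟨μ, h0, h1, h2, off_of_weight W (fun t : ℝ => t) N hN μ (96 * M) (by linarith) h0 h1 h2⟩

theorem all_iff : (∀ A : ℝ, 1 ≤ A → Q1 A) ↔ ∀ A : ℝ, 1 < A → Q1 A := by
  refine ⟨fun h A hA => h A hA.le, fun h A hA => ?_⟩
  intro σ hσ ε hε
  obtain ⟨C, hC⟩ := h (A + 1) (by linarith) σ hσ ε hε
  refine ⟨C, fun N T b W hN hT hTA hb hW => hC N T b W hN hT (hTA.trans ?_) hb hW⟩
  have hNr : (1 : ℝ) ≤ N := by exact_mod_cast hN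
  exact Real.rpow_le_rpow_of_exponent_le hNr (by linarith)

end Pool.Agent.P8H16.LG
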