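import Pool.Agent.P8H16.Tri

set_option autoImplicit false

/-! # The mean over translates, seen from almost every point: the Cauchy–Schwarz inequality -/

namespace Pool.Agent.P8H16.MD

open MeasureTheory Set

/-- weighted smoothed number of pairs with difference near `c` -/
noncomputable def PW {ι : Type*} (S : Finset ι) (m x : ι → ℝ) (c h : ℝ) : ℝ :=
  ∑ s ∈ S, ∑ s' ∈ S, m s * m s' * hat h (x s - x s' - c)

/-- smoothed number of points near `t` -/
noncomputable def Kn {ι : Type*} (S : Finset ι) (m x : ι → ℝ) (t h : ℝ) : ℝ :=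
  ∑ s' ∈ S, m s' * hat h (x s' - t)

/-- the deviation of the mean over the translates -/
noncomputable def Gd {ι : Type*} (S : Finset ι) (m x : ι → ℝ) (N : ℕ) (c : Fin N → ℝ) (h t : ℝ) :
    ℝ := (∑ n, Kn S m x (t + c n) h) / N - h

lemma quad {α β γ : ℝ} (h : ∀ l : ℝ, 0 ≤ α * l ^ 2 + 2 * β * l + γ) : β ^ 2 ≤ α * γ := by
  have h1 : discrim α (2 * β) γ ≤ 0 := discrim_le_zero fun x => by
    have := h x
    nlinarith
  unfold discrim at h1
  nlinarith

/-- the Cauchy–Schwarz inequality with signs -/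
theorem cs_signs {ι : Type*} (S : Finset ι) (m x σ : ι → ℝ) (hm : ∀ s ∈ S, 0 ≤ m s)
    (hσ : ∀ s ∈ S, |σ s| ≤ 1) {X B h : ℝ} (hX : 0 < X) (hh : 0 < h) (hB : 0 ≤ B)
    (hx : ∀ s ∈ S, 0 ≤ x s ∧ x s ≤ X) {N : ℕ} (hN : 0 < N) (c : Fin N → ℝ)
    (hc : ∀ n, |c n| ≤ B) (ℓ : ℝ) (hℓ : ℓ = X + 2 * B + h) :
    (∑ s ∈ S, σ s * m s * Gd S m x N c h (x s)) ^ 2 ≤
      2 * (PW S m x 0 h * ((∑ n, ∑ k, PW S m x (c n - c k) h) / N ^ 2 -
        h * (∑ s ∈ S, m s) ^ 2 / ℓ)) +
      2 * (h * ((∑ s ∈ S, m s) / ℓ) * (ℓ - ∑ s ∈ S, m s)) ^ 2 := by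
  classical
  have hℓ0 : 0 < ℓ := by rw [hℓ]; positivity
  have hN0 : (0 : ℝ) < N := by exact_mod_cast hN
  set M : ℝ := ∑ s ∈ S, m s with hM
  set P : ℝ := ∑ s ∈ S, σ s * m s with hP
  set Q : ℝ := (∑ n, ∑ k, PW S m x (c n - c k) h) / N ^ 2 with hQ
  set A : ℝ := ∑ s ∈ S, ∑ s' ∈ S, (σ s * m s) * (σ s' * m s') * hat h (x s - x s') with hA
  set R : ℝ := (∑ n, ∑ s ∈ S, ∑ s' ∈ S, (σ s * m s) * m s' * hat h (x s' - (x s + c n))) / N
    with hR
  have hM0 : 0 ≤ M := Finset.sum_nonneg hm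
  -- the left side
  have eL : ∑ s ∈ S, σ s * m s * Gd S m x N c h (x s) = R - h * P := by
    have : ∀ s, σ s * m s * Gd S m x N c h (x s) =
        (∑ n, ∑ s' ∈ S, (σ s * m s) * m s' * hat h (x s' - (x s + c n))) / N - h * (σ s * m s) := by
      intro s
      unfold Gd Kn
      rw [mul_sub, mul_div_assoc', Finset.mul_sum]
      congr 1
      · congr 1
        refine Finset.sum_congr rfl fun n _ => ?_
        rw [Finset.mul_sum]
        exact Finset.sum_congr rfl fun s' _ => by ring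
      · ring
    rw [Finset.sum_congr rfl fun s _ => this s, Finset.sum_sub_distrib, ← Finset.mul_sum,
      ← Finset.sum_div, Finset.sum_comm]
  -- the quadratic inequality
  have hq : ∀ l : ℝ, 0 ≤ (ℓ * A - h * P ^ 2) * l ^ 2 + 2 * (ℓ * R - h * P * M) * l +
      (ℓ * Q - h * M ^ 2) := by
    intro l
    set K : Finset (Option (Fin N) × ι) := Finset.univ ×ˢ S with hK
    set v : Option (Fin N) × ι → ℝ := fun k => match k.1 with
      | none => l * (σ k.2 * m k.2)
      | some _ => m k.2 / N with hv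
    set y : Option (Fin N) × ι → ℝ := fun k => match k.1 with
      | none => x k.2
      | some n => x k.2 - c n with hy
    have h1 := tri_ineq K v y (u := -B) (ℓ := ℓ) hh hℓ0 (by
      rintro ⟨o, s⟩ hk
      rw [hK, Finset.mem_product] at hk
      obtain ⟨a1, a2⟩ := hx s hk.2
      cases o with
      | none =>
        simp only [hy]
        constructor
        · linarith
        · rw [hℓ]; linarith
      | some n =>
        have a3 := abs_le.1 (hc n)
        simp only [hy]
        constructor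
        · linarith
        · rw [hℓ]; linarith)
    have e1 : ∑ k ∈ K, v k = l * P + M := by
      rw [hK, Finset.sum_product, Fintype.sum_option]
      simp only [hv]
      rw [← Finset.mul_sum]
      congr 1
      simp only [Finset.sum_const, Finset.card_univ, Fintype.card_fin, nsmul_eq_mul]
      rw [← Finset.sum_div]
      field_simp
      exact hM.symm
    have e2 : ∑ k ∈ K, ∑ k' ∈ K, v k * v k' * hat h (y k - y k') =
        l ^ 2 * A + 2 * l * R + Q := by
      rw [hK]
      simp_rw [Finset.sum_product]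
      rw [Fintype.sum_option]
      simp_rw [Fintype.sum_option]
      simp only [hv, hy]
      simp_rw [Finset.sum_add_distrib]
      have a1 : ∑ s ∈ S, ∑ s' ∈ S, l * (σ s * m s) * (l * (σ s' * m s')) * hat h (x s - x s') =
          l ^ 2 * A := by
        rw [hA, Finset.mul_sum]
        refine Finset.sum_congr rfl fun s _ => ?_
        rw [Finset.mul_sum]
        exact Finset.sum_congr rfl fun s' _ => by ring
      have a2 : ∑ s ∈ S, ∑ n, ∑ s' ∈ S, l * (σ s * m s) * (m s' / N) *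
          hat h (x s - (x s' - c n)) = l * R := by
        rw [hR, Finset.sum_comm, mul_div_assoc', Finset.mul_sum, Finset.sum_div]
        refine Finset.sum_congr rfl fun n _ => ?_
        rw [Finset.mul_sum, Finset.sum_div]
        refine Finset.sum_congr rfl fun s _ => ?_
        rw [Finset.mul_sum, Finset.sum_div]
        refine Finset.sum_congr rfl fun s' _ => ?_
        rw [← hat_neg h (x s - (x s' - c n))]
        have : -(x s - (x s' - c n)) = x s' - (x s + c n) := by ring
        rw [this]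
        ring
      have a3 : ∑ n, ∑ s ∈ S, ∑ s' ∈ S, m s / N * (l * (σ s' * m s')) *
          hat h (x s - c n - x s') = l * R := by
        rw [hR, mul_div_assoc', Finset.mul_sum, Finset.sum_div]
        refine Finset.sum_congr rfl fun n _ => ?_
        rw [Finset.sum_comm, Finset.mul_sum, Finset.sum_div]
        refine Finset.sum_congr rfl fun s _ => ?_
        rw [Finset.mul_sum, Finset.sum_div]
        refine Finset.sum_congr rfl fun s' _ => ?_
        have : x s' - c n - x s = x s' - (x s + c n) := by ring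
        rw [this]
        ring
      have a4 : ∑ n, ∑ s ∈ S, ∑ k, ∑ s' ∈ S, m s / N * (m s' / N) *
          hat h (x s - c n - (x s' - c k)) = Q := by
        rw [hQ, Finset.sum_div]
        refine Finset.sum_congr rfl fun n _ => ?_
        rw [Finset.sum_comm, Finset.sum_div]
        refine Finset.sum_congr rfl fun k _ => ?_
        unfold PW
        rw [Finset.sum_div]
        refine Finset.sum_congr rfl fun s _ => ?_
        rw [Finset.sum_div]
        refine Finset.sum_congr rfl fun s' _ => ?_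
        have : x s - c n - (x s' - c k) = x s - x s' - (c n - c k) := by ring
        rw [this]
        ring
      rw [a1, a2, a3, a4]
      ring
    rw [e1, e2] at h1
    nlinarith [h1]
  have h2 := quad hq
  -- the self term
  have hAle : A ≤ PW S m x 0 h := by
    unfold PW
    refine Finset.sum_le_sum fun s hs => Finset.sum_le_sum fun s' hs' => ?_
    rw [sub_zero]
    refine mul_le_mul_of_nonneg_right ?_ (hat_nonneg _ _)
    have b1 := hσ s hs
    have b2 := hσ s' hs'
    have b3 : σ s * σ s' ≤ 1 := by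
      calc σ s * σ s' ≤ |σ s * σ s'| := le_abs_self _
        _ = |σ s| * |σ s'| := abs_mul _ _
        _ ≤ 1 * 1 := mul_le_mul b1 b2 (abs_nonneg _) zero_le_one
        _ = 1 := one_mul 1
    calc σ s * m s * (σ s' * m s') = (σ s * σ s') * (m s * m s') := by ring
      _ ≤ 1 * (m s * m s') := mul_le_mul_of_nonneg_right b3 (mul_nonneg (hm s hs) (hm s' hs'))
      _ = _ := one_mul _
  have hP : |P| ≤ M := by
    rw [hP, hM]
    refine (Finset.abs_sum_le_sum_abs _ _).trans (Finset.sum_le_sum fun s hs => ?_)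
    rw [abs_mul, abs_of_nonneg (hm s hs)]
    calc |σ s| * m s ≤ 1 * m s := mul_le_mul_of_nonneg_right (hσ s hs) (hm s hs)
      _ = m s := one_mul _
  -- the variance of the translates
  have hV : 0 ≤ ℓ * Q - h * M ^ 2 := by
    have := hq 0
    simpa using this
  have h3 : (ℓ * R - h * P * M) ^ 2 ≤ (ℓ * PW S m x 0 h) * (ℓ * Q - h * M ^ 2) := by
    refine h2.trans (mul_le_mul_of_nonneg_right ?_ hV)
    have : 0 ≤ h * P ^ 2 := by positivity
    have h4 := mul_le_mul_of_nonneg_left hAle hℓ0.le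
    linarith
  -- conclusion
  rw [eL]
  have e3 : R - h * P = (ℓ * R - h * P * M) / ℓ - h * P * (ℓ - M) / ℓ := by
    field_simp
    ring
  have e4 : (ℓ * PW S m x 0 h) * (ℓ * Q - h * M ^ 2) / ℓ ^ 2 =
      PW S m x 0 h * (Q - h * M ^ 2 / ℓ) := by
    field_simp
  have h5 : ((ℓ * R - h * P * M) / ℓ) ^ 2 ≤ PW S m x 0 h * (Q - h * M ^ 2 / ℓ) := by
    rw [div_pow, ← e4]
    exact div_le_div_of_nonneg_right h3 (by positivity)
  have h6 : (h * P * (ℓ - M) / ℓ) ^ 2 ≤ (h * (M / ℓ) * (ℓ - M)) ^ 2 := by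
    rw [← sq_abs (h * P * (ℓ - M) / ℓ), ← sq_abs (h * (M / ℓ) * (ℓ - M))]
    refine pow_le_pow_left₀ (abs_nonneg _) ?_ 2
    rw [abs_div, abs_mul, abs_mul, abs_mul, abs_mul, abs_of_pos hh, abs_of_pos hℓ0,
      abs_of_nonneg (div_nonneg hM0 hℓ0.le)]
    calc h * |P| * |ℓ - M| / ℓ ≤ h * M * |ℓ - M| / ℓ := by gcongr
      _ = h * (M / ℓ) * |ℓ - M| := by ring
  rw [e3]
  have h7 : ∀ a b : ℝ, (a - b) ^ 2 ≤ 2 * a ^ 2 + 2 * b ^ 2 := fun a b => by
    nlinarith [sq_nonneg (a + b)]
  refine (h7 _ _).trans ?_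
  linarith

/-- the sum of the absolute values of the deviations -/
theorem cs_abs {ι : Type*} (S : Finset ι) (m x : ι → ℝ) (hm : ∀ s ∈ S, 0 ≤ m s)
    {X B h : ℝ} (hX : 0 < X) (hh : 0 < h) (hB : 0 ≤ B)
    (hx : ∀ s ∈ S, 0 ≤ x s ∧ x s ≤ X) {N : ℕ} (hN : 0 < N) (c : Fin N → ℝ)
    (hc : ∀ n, |c n| ≤ B) (ℓ : ℝ) (hℓ : ℓ = X + 2 * B + h) :
    (∑ s ∈ S, m s * |Gd S m x N c h (x s)|) ^ 2 ≤
      2 * (PW S m x 0 h * ((∑ n, ∑ k, PW S m x (c n - c k) h) / N ^ 2 -
        h * (∑ s ∈ S, m s) ^ 2 / ℓ)) +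
      2 * (h * ((∑ s ∈ S, m s) / ℓ) * (ℓ - ∑ s ∈ S, m s)) ^ 2 := by
  have h1 := cs_signs S m x (fun s => SignType.sign (Gd S m x N c h (x s)) : ι → ℝ) hm (by
    intro s _
    rcases lt_trichotomy (Gd S m x N c h (x s)) 0 with h | h | h <;> simp [h]) hX hh hB hx hN c hc ℓ hℓ
  refine le_trans (le_of_eq ?_) h1
  congr 1
  refine Finset.sum_congr rfl fun s _ => ?_
  rw [mul_comm (SignType.sign (Gd S m x N c h (x s)) : ℝ) (m s), mul_assoc]
  congr 1
  exact (sign_mul_self _).symm

end Pool.Agent.P8H16.MD
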