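import Pool.Agent.P8H16.MD1

set_option autoImplicit false

/-! # The mean over translates: the average over the dilation -/

namespace Pool.Agent.P8H16.MD

open MeasureTheory Set

lemma hat_cont (h : ℝ) : Continuous (hat h) := by
  unfold hat
  fun_prop

lemma hat_int_half {h : ℝ} (hh : 0 < h) : ∫ x in Ioi (0 : ℝ), max 0 (1 - x / h) = h / 2 := by
  have h1 : ∫ x in Ioi (0 : ℝ), max 0 (1 - x / h) = ∫ x in Ioc (0 : ℝ) h, max 0 (1 - x / h) := by
    refine setIntegral_eq_of_subset_of_forall_sdiff_eq_zero measurableSet_Ioi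
      (fun x hx => hx.1) ?_
    intro x hx
    have h2 : h < x := by
      by_contra hcon
      exact hx.2 ⟨hx.1, not_lt.1 hcon⟩
    refine max_eq_left ?_
    have : 1 ≤ x / h := by rw [le_div_iff₀ hh]; linarith
    linarith
  have h2 : ∫ x in Ioc (0 : ℝ) h, max 0 (1 - x / h) = ∫ x in Ioc (0 : ℝ) h, (1 - x / h) := by
    refine setIntegral_congr_fun measurableSet_Ioc fun x hx => ?_
    refine max_eq_right ?_
    have : x / h ≤ 1 := by rw [div_le_iff₀ hh]; linarith [hx.2]
    linarith
  rw [h1, h2, ← intervalIntegral.integral_of_le hh.le, intervalIntegral.integral_sub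
    intervalIntegrable_const (by
      apply Continuous.intervalIntegrable
      fun_prop)]
  rw [intervalIntegral.integral_div, integral_id, intervalIntegral.integral_const]
  field_simp
  simp
  ring

lemma hat_integral {h : ℝ} (hh : 0 < h) : ∫ x, hat h x = h := by
  have h1 := integral_comp_abs (f := fun t : ℝ => max 0 (1 - t / h))
  have h2 : ∫ x : ℝ, hat h x = 2 * ∫ x in Ioi (0 : ℝ), max 0 (1 - x / h) := h1
  rw [h2, hat_int_half hh]
  ring

lemma hat_integrable {h : ℝ} (hh : 0 < h) : Integrable (hat h) := by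
  refine (hat_cont h).integrable_of_hasCompactSupport ?_
  refine HasCompactSupport.intro (isCompact_Icc (a := -h) (b := h)) fun x hx => ?_
  refine hat_eq_zero hh ?_
  by_contra hcon
  push Not at hcon
  have := abs_lt.1 hcon
  exact hx ⟨this.1.le, this.2.le⟩

lemma hat_int_le {h : ℝ} (hh : 0 < h) (u : ℝ) {v₁ v₂ : ℝ} (hv : v₁ ≤ v₂) :
    ∫ v in v₁..v₂, hat h (u - v) ≤ h := by
  rw [intervalIntegral.integral_of_le hv]
  have hi : Integrable (fun v => hat h (u - v)) := (hat_integrable hh).comp_sub_left u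
  refine (setIntegral_le_integral hi (Filter.Eventually.of_forall fun v => hat_nonneg _ _)).trans ?_
  rw [integral_sub_left_eq_self (fun v => hat h v) volume u, hat_integral hh]

/-- the average of a hat function over dilates -/
lemma hat_dil {h k B : ℝ} (hh : 0 < h) (hk : 0 < k) (hB : 0 ≤ B) (θ u : ℝ) :
    ∫ b in (0 : ℝ)..B, hat h (u - (k * b + θ)) ≤ h / k := by
  rw [intervalIntegral.integral_comp_mul_add (fun v => hat h (u - v)) hk.ne' θ, smul_eq_mul,
    div_eq_inv_mul]
  refine mul_le_mul_of_nonneg_left (hat_int_le hh u ?_) (by positivity)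
  have := mul_nonneg hk.le hB
  linarith

lemma hat_dil_zero {h k B : ℝ} (hh : 0 < h) (hk : 0 < k) (θ u : ℝ)
    (hu : u ≤ θ - h ∨ θ + k * B + h ≤ u) (hB : 0 ≤ B) :
    ∫ b in (0 : ℝ)..B, hat h (u - (k * b + θ)) = 0 := by
  rw [intervalIntegral.integral_congr (g := fun _ => (0 : ℝ))]
  · simp
  intro b hb
  rw [uIcc_of_le hB] at hb
  have h1 : 0 ≤ k * b := mul_nonneg hk.le hb.1
  have h2 : k * b ≤ k * B := mul_le_mul_of_nonneg_left hb.2 hk.le
  refine hat_eq_zero hh ?_
  rcases hu with h3 | h3
  · rw [abs_of_nonpos (by linarith)]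
    linarith
  · rw [abs_of_nonneg (by linarith)]
    linarith

open Classical in
/-- the weighted number of pairs with difference in `[α, β]` -/
noncomputable def Cnt {ι : Type*} (S : Finset ι) (m x : ι → ℝ) (α β : ℝ) : ℝ :=
  ∑ s ∈ S, ∑ s' ∈ S, if α ≤ x s - x s' ∧ x s - x s' ≤ β then m s * m s' else 0

lemma PW_cont {ι : Type*} (S : Finset ι) (m x : ι → ℝ) (h : ℝ) :
    Continuous (fun c => PW S m x c h) := by
  unfold PW
  refine continuous_finsetSum _ fun s _ => continuous_finsetSum _ fun s' _ => ?_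
  exact continuous_const.mul ((hat_cont h).comp (continuous_const.sub continuous_id))

lemma PW_neg {ι : Type*} (S : Finset ι) (m x : ι → ℝ) (c h : ℝ) :
    PW S m x (-c) h = PW S m x c h := by
  unfold PW
  rw [Finset.sum_comm]
  refine Finset.sum_congr rfl fun s _ => Finset.sum_congr rfl fun s' _ => ?_
  rw [mul_comm (m s'), ← hat_neg h (x s' - x s - -c)]
  congr 2
  ring

/-- the average of the number of pairs over dilates -/
lemma PW_dil {ι : Type*} (S : Finset ι) (m x : ι → ℝ) (hm : ∀ s ∈ S, 0 ≤ m s) {h k B : ℝ}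
    (hh : 0 < h) (hh1 : h ≤ 1) (hk : 0 < k) (hB : 0 ≤ B) (θ : ℝ) :
    ∫ b in (0 : ℝ)..B, PW S m x (k * b + θ) h ≤
      h / k * Cnt S m x (θ - 1) (θ + k * B + 1) := by
  classical
  unfold PW Cnt
  have hI : ∀ s s', IntervalIntegrable (fun b => m s * m s' * hat h (x s - x s' - (k * b + θ)))
      volume 0 B := fun s s' => by
    apply Continuous.intervalIntegrable
    exact continuous_const.mul ((hat_cont h).comp (by fun_prop))
  rw [intervalIntegral.integral_finsetSum fun s _ => by
    apply Continuous.intervalIntegrable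
    exact continuous_finsetSum _ fun s' _ => continuous_const.mul ((hat_cont h).comp (by fun_prop))]
  rw [Finset.mul_sum]
  refine Finset.sum_le_sum fun s hs => ?_
  rw [intervalIntegral.integral_finsetSum fun s' _ => hI s s', Finset.mul_sum]
  refine Finset.sum_le_sum fun s' hs' => ?_
  rw [intervalIntegral.integral_const_mul]
  have hmm := mul_nonneg (hm s hs) (hm s' hs')
  split_ifs with h1
  · rw [mul_comm (h / k)]
    exact mul_le_mul_of_nonneg_left (hat_dil hh hk hB θ _) hmm
  · rw [hat_dil_zero hh hk θ _ ?_ hB]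
    · simp
    · by_contra hcon
      push Not at hcon
      exact h1 ⟨by linarith, by linarith⟩

lemma sum_inv_dist (N : ℕ) :
    ∑ n : Fin N, ∑ j ∈ Finset.univ.erase n, (1 : ℝ) / |(n : ℝ) - j| ≤
      N * (2 * (1 + Real.log N)) := by
  classical
  rcases Nat.eq_zero_or_pos N with h0 | hN
  · subst h0
    simp
  have hharm : ∑ d ∈ Finset.Icc 1 N, (1 : ℝ) / d ≤ 1 + Real.log N := by
    have h1 := harmonic_le_one_add_log N
    rw [harmonic_eq_sum_Icc] at h1
    push_cast at h1
    refine le_trans (le_of_eq ?_) h1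
    exact Finset.sum_congr rfl fun d _ => by rw [one_div]
  have hrow : ∀ n : Fin N, ∑ j ∈ Finset.univ.erase n, (1 : ℝ) / |(n : ℝ) - j| ≤
      2 * (1 + Real.log N) := by
    intro n
    have hsplit := Finset.sum_filter_add_sum_filter_not (Finset.univ.erase n)
      (fun j : Fin N => (j : ℕ) < n) (fun j : Fin N => (1 : ℝ) / |(n : ℝ) - j|)
    rw [← hsplit]
    have b1 : ∑ j ∈ (Finset.univ.erase n).filter (fun j : Fin N => (j : ℕ) < n),
        (1 : ℝ) / |(n : ℝ) - j| ≤ ∑ d ∈ Finset.Icc 1 N, (1 : ℝ) / d := by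
      have e : ∀ j ∈ (Finset.univ.erase n).filter (fun j : Fin N => (j : ℕ) < n),
          (1 : ℝ) / |(n : ℝ) - j| = (fun d : ℕ => (1 : ℝ) / d) ((n : ℕ) - (j : ℕ)) := by
        intro j hj
        rw [Finset.mem_filter] at hj
        have h1 : ((j : ℕ) : ℝ) ≤ ((n : ℕ) : ℝ) := by exact_mod_cast hj.2.le
        simp only
        rw [Nat.cast_sub hj.2.le, abs_of_nonneg (by linarith)]
      rw [Finset.sum_congr rfl e, ← Finset.sum_image
        (s := (Finset.univ.erase n).filter (fun j : Fin N => (j : ℕ) < n))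
        (g := fun j : Fin N => (n : ℕ) - (j : ℕ)) (f := fun d : ℕ => (1 : ℝ) / d)]
      · refine Finset.sum_le_sum_of_subset_of_nonneg ?_ fun k _ _ => by positivity
        intro k hk
        rw [Finset.mem_image] at hk
        obtain ⟨j, hj, rfl⟩ := hk
        rw [Finset.mem_filter] at hj
        rw [Finset.mem_Icc]
        have := n.2
        omega
      · intro j hj j' hj' hjj
        rw [Finset.mem_coe, Finset.mem_filter] at hj hj'
        simp only at hjj
        apply Fin.ext
        omega
    have b2 : ∑ j ∈ (Finset.univ.erase n).filter (fun j : Fin N => ¬ (j : ℕ) < n),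
        (1 : ℝ) / |(n : ℝ) - j| ≤ ∑ d ∈ Finset.Icc 1 N, (1 : ℝ) / d := by
      have e : ∀ j ∈ (Finset.univ.erase n).filter (fun j : Fin N => ¬ (j : ℕ) < n),
          (1 : ℝ) / |(n : ℝ) - j| = (fun d : ℕ => (1 : ℝ) / d) ((j : ℕ) - (n : ℕ)) := by
        intro j hj
        rw [Finset.mem_filter] at hj
        have h0 : (n : ℕ) ≤ j := not_lt.1 hj.2
        have h1 : ((n : ℕ) : ℝ) ≤ ((j : ℕ) : ℝ) := by exact_mod_cast h0
        simp only
        rw [Nat.cast_sub h0, abs_of_nonpos (by linarith)]
        ring_nf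
      rw [Finset.sum_congr rfl e, ← Finset.sum_image
        (s := (Finset.univ.erase n).filter (fun j : Fin N => ¬ (j : ℕ) < n))
        (g := fun j : Fin N => (j : ℕ) - (n : ℕ)) (f := fun d : ℕ => (1 : ℝ) / d)]
      · refine Finset.sum_le_sum_of_subset_of_nonneg ?_ fun k _ _ => by positivity
        intro k hk
        rw [Finset.mem_image] at hk
        obtain ⟨j, hj, rfl⟩ := hk
        rw [Finset.mem_filter, Finset.mem_erase] at hj
        have h3 : (j : ℕ) ≠ n := fun h => hj.1.1 (Fin.ext h)
        rw [Finset.mem_Icc]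
        have := j.2
        omega
      · intro j hj j' hj' hjj
        rw [Finset.mem_coe, Finset.mem_filter] at hj hj'
        simp only at hjj
        apply Fin.ext
        omega
    linarith
  calc _ ≤ ∑ _n : Fin N, 2 * (1 + Real.log N) := Finset.sum_le_sum fun n _ => hrow n
    _ = _ := by simp

end Pool.Agent.P8H16.MD
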