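import Pool.Agent.P8H16.MD2

set_option autoImplicit false

/-! # The mean over translates: the second moment -/

namespace Pool.Agent.P8H16.MD

open MeasureTheory Set

/-- the positions -/
noncomputable def pos {N : ℕ} (a θ : Fin N → ℝ) (b : ℝ) : Fin N → ℝ := fun n => a n * b + θ n

/-- the sum of the deviations -/
noncomputable def Dev {ι : Type*} (S : Finset ι) (m x : ι → ℝ) (N : ℕ) (c : Fin N → ℝ) (h : ℝ) :
    ℝ := ∑ s ∈ S, m s * |Gd S m x N c h (x s)|

lemma Dev_cont {ι : Type*} (S : Finset ι) (m x : ι → ℝ) {N : ℕ} (a θ : Fin N → ℝ) (h : ℝ) :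
    Continuous (fun b => Dev S m x N (pos a θ b) h) := by
  unfold Dev Gd Kn pos
  refine continuous_finsetSum _ fun s _ => continuous_const.mul (Continuous.abs ?_)
  refine Continuous.sub ?_ continuous_const
  refine Continuous.div_const ?_ _
  refine continuous_finsetSum _ fun n _ => continuous_finsetSum _ fun s' _ => ?_
  exact continuous_const.mul ((hat_cont h).comp (by fun_prop))

lemma pair_avg {ι : Type*} (S : Finset ι) (m x : ι → ℝ) (hm : ∀ s ∈ S, 0 ≤ m s)
    {X B h C : ℝ} (hX : 0 < X) (hh : 0 < h) (hh1 : h ≤ 1) (hB : 0 ≤ B) (hC : 0 ≤ C)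
    {N : ℕ} (a θ : Fin N → ℝ) (ha : ∀ i j : Fin N, i < j → (j : ℝ) - i ≤ a j - a i)
    (hCnt : ∀ n j : Fin N, a j < a n → Cnt S m x (θ n - θ j - 1)
      (θ n - θ j + (a n - a j) * B + 1) ≤ X * ((a n - a j) * B + C))
    (n j : Fin N) (hnj : n ≠ j) :
    ∫ b in (0 : ℝ)..B, PW S m x (pos a θ b n - pos a θ b j) h ≤
      h * X * (B + C / |(n : ℝ) - j|) := by
  have main : ∀ n j : Fin N, j < n → ∫ b in (0 : ℝ)..B, PW S m x (pos a θ b n - pos a θ b j) h ≤
      h * X * (B + C / |(n : ℝ) - j|) := by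
    intro n j hjn
    have h1 := ha j n hjn
    have h2 : (j : ℝ) < n := by exact_mod_cast hjn
    have hk : 0 < a n - a j := by linarith
    have e : ∀ b, pos a θ b n - pos a θ b j = (a n - a j) * b + (θ n - θ j) := by
      intro b
      unfold pos
      ring
    simp_rw [e]
    refine (PW_dil S m x hm hh hh1 hk hB (θ n - θ j)).trans ?_
    have h3 := hCnt n j (by linarith)
    calc h / (a n - a j) * Cnt S m x (θ n - θ j - 1) (θ n - θ j + (a n - a j) * B + 1) ≤
        h / (a n - a j) * (X * ((a n - a j) * B + C)) :=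
          mul_le_mul_of_nonneg_left h3 (by positivity)
      _ = h * X * (B + C / (a n - a j)) := by field_simp
      _ ≤ h * X * (B + C / |(n : ℝ) - j|) := by
          rw [abs_of_pos (by linarith)]
          gcongr
  rcases lt_or_gt_of_ne hnj with h1 | h1
  · have h2 := main j n h1
    rw [abs_sub_comm]
    refine le_trans (le_of_eq ?_) h2
    refine intervalIntegral.integral_congr fun b _ => ?_
    rw [← PW_neg]
    congr 1
    ring
  · exact main n j h1

/-- **the second moment of the sum of the deviations** -/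
theorem second_moment {ι : Type*} (S : Finset ι) (m x : ι → ℝ) (hm : ∀ s ∈ S, 0 ≤ m s)
    {X B B' h C ε : ℝ} (hX : 0 < X) (hh : 0 < h) (hh1 : h ≤ 1) (hB : 1 ≤ B) (hC : 0 ≤ C)
    (hB' : 0 ≤ B') (hx : ∀ s ∈ S, 0 ≤ x s ∧ x s ≤ X) {N : ℕ} (hN : 0 < N) (a θ : Fin N → ℝ)
    (ha : ∀ i j : Fin N, i < j → (j : ℝ) - i ≤ a j - a i)
    (hPW : PW S m x 0 h ≤ C * X)
    (hCnt : ∀ n j : Fin N, a j < a n → Cnt S m x (θ n - θ j - 1)
      (θ n - θ j + (a n - a j) * B + 1) ≤ X * ((a n - a j) * B + C))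
    (hε : 0 ≤ ε) (hεN : ε ≤ 1 / N) (hM1 : (1 - ε) * X ≤ ∑ s ∈ S, m s)
    (hM2 : ∑ s ∈ S, m s ≤ (1 + ε) * X)
    (hpos : ∀ n, ∀ b ∈ Icc (0 : ℝ) B, |pos a θ b n| ≤ B') (hℓ : X + 2 * B' + h ≤ (1 + ε) * X) :
    ∫ b in (0 : ℝ)..B, Dev S m x N (pos a θ b) h ^ 2 ≤
      (6 * C ^ 2 + 6 * C + 32) * (B * X ^ 2 * ((1 + Real.log N) / N)) := by
  classical
  have hN0 : (0 : ℝ) < N := by exact_mod_cast hN
  have hN1 : (1 : ℝ) ≤ N := by exact_mod_cast hN
  have hlog : 0 ≤ Real.log N := Real.log_nonneg hN1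
  have hB0 : 0 < B := by linarith
  set ℓ : ℝ := X + 2 * B' + h with hℓd
  have hℓ0 : 0 < ℓ := by rw [hℓd]; positivity
  have hℓX : X ≤ ℓ := by rw [hℓd]; linarith
  set M : ℝ := ∑ s ∈ S, m s with hM
  have hM0 : 0 ≤ M := Finset.sum_nonneg hm
  have hε1 : ε ≤ 1 := hεN.trans (by rw [div_le_one hN0]; exact hN1)
  have hPW0 : 0 ≤ PW S m x 0 h := Finset.sum_nonneg fun s hs => Finset.sum_nonneg fun s' hs' =>
    mul_nonneg (mul_nonneg (hm s hs) (hm s' hs')) (hat_nonneg _ _)
  set Q : ℝ → ℝ := fun b => (∑ n, ∑ j, PW S m x (pos a θ b n - pos a θ b j) h) / N ^ 2 with hQ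
  have hpc : ∀ n j : Fin N, Continuous (fun b => PW S m x (pos a θ b n - pos a θ b j) h) := by
    intro n j
    refine (PW_cont S m x h).comp ?_
    unfold pos
    fun_prop
  have hQc : Continuous Q :=
    (continuous_finsetSum _ fun n _ => continuous_finsetSum _ fun j _ => hpc n j).div_const _
  -- pointwise
  have hpt : ∀ b ∈ Icc (0 : ℝ) B, Dev S m x N (pos a θ b) h ^ 2 ≤
      2 * (PW S m x 0 h * (Q b - h * M ^ 2 / ℓ)) + 2 * (h * (M / ℓ) * (ℓ - M)) ^ 2 := by
    intro b hb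
    exact cs_abs S m x hm hX hh hB' hx hN (pos a θ b) (fun n => hpos n b hb) ℓ hℓd
  have h1 : ∫ b in (0 : ℝ)..B, Dev S m x N (pos a θ b) h ^ 2 ≤
      ∫ b in (0 : ℝ)..B, (2 * (PW S m x 0 h * (Q b - h * M ^ 2 / ℓ)) +
        2 * (h * (M / ℓ) * (ℓ - M)) ^ 2) := by
    refine intervalIntegral.integral_mono_on hB0.le ?_ ?_ hpt
    · exact ((Dev_cont S m x a θ h).pow 2).intervalIntegrable _ _
    · apply Continuous.intervalIntegrable
      exact (continuous_const.mul (continuous_const.mul (hQc.sub continuous_const))).add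
        continuous_const
  have h2 : ∫ b in (0 : ℝ)..B, (2 * (PW S m x 0 h * (Q b - h * M ^ 2 / ℓ)) +
        2 * (h * (M / ℓ) * (ℓ - M)) ^ 2) =
      2 * (PW S m x 0 h * ((∫ b in (0 : ℝ)..B, Q b) - B * (h * M ^ 2 / ℓ))) +
        B * (2 * (h * (M / ℓ) * (ℓ - M)) ^ 2) := by
    rw [intervalIntegral.integral_add, intervalIntegral.integral_const_mul,
      intervalIntegral.integral_const_mul, intervalIntegral.integral_sub,
      intervalIntegral.integral_const, intervalIntegral.integral_const, smul_eq_mul, smul_eq_mul,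
      sub_zero]
    · exact hQc.intervalIntegrable _ _
    · exact intervalIntegrable_const
    · apply Continuous.intervalIntegrable
      exact continuous_const.mul (continuous_const.mul (hQc.sub continuous_const))
    · exact intervalIntegrable_const
  -- the integral of `Q`
  have h3 : ∫ b in (0 : ℝ)..B, Q b ≤
      B * (C * X) / N + h * X * (B + 2 * C * (1 + Real.log N) / N) := by
    have e1 : ∫ b in (0 : ℝ)..B, Q b =
        (∑ n, ∑ j, ∫ b in (0 : ℝ)..B, PW S m x (pos a θ b n - pos a θ b j) h) / N ^ 2 := by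
      simp only [hQ]
      rw [intervalIntegral.integral_div, intervalIntegral.integral_finsetSum fun n _ =>
        (continuous_finsetSum _ fun j _ => hpc n j).intervalIntegrable _ _]
      congr 1
      exact Finset.sum_congr rfl fun n _ =>
        intervalIntegral.integral_finsetSum fun j _ => (hpc n j).intervalIntegrable _ _
    have e2 : ∀ n : Fin N, ∑ j, ∫ b in (0 : ℝ)..B, PW S m x (pos a θ b n - pos a θ b j) h ≤
        B * (C * X) + ∑ j ∈ Finset.univ.erase n, h * X * (B + C / |(n : ℝ) - j|) := by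
      intro n
      rw [← Finset.add_sum_erase _ _ (Finset.mem_univ n)]
      refine add_le_add ?_ ?_
      · simp only [sub_self]
        rw [intervalIntegral.integral_const, smul_eq_mul, sub_zero]
        exact mul_le_mul_of_nonneg_left hPW hB0.le
      · exact Finset.sum_le_sum fun j hj =>
          pair_avg S m x hm hX hh hh1 hB0.le hC a θ ha hCnt n j (Finset.ne_of_mem_erase hj).symm
    have e3 : ∑ n : Fin N, ∑ j ∈ Finset.univ.erase n, h * X * (B + C / |(n : ℝ) - j|) ≤
        h * X * (N ^ 2 * B + C * (N * (2 * (1 + Real.log N)))) := by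
      have e4 : ∑ n : Fin N, ∑ j ∈ Finset.univ.erase n, h * X * (B + C / |(n : ℝ) - j|) =
          h * X * ((∑ n : Fin N, ∑ j ∈ Finset.univ.erase n, B) +
            C * ∑ n : Fin N, ∑ j ∈ Finset.univ.erase n, (1 : ℝ) / |(n : ℝ) - j|) := by
        rw [Finset.mul_sum, ← Finset.sum_add_distrib, Finset.mul_sum]
        refine Finset.sum_congr rfl fun n _ => ?_
        rw [Finset.mul_sum, ← Finset.sum_add_distrib, Finset.mul_sum]
        exact Finset.sum_congr rfl fun j _ => by ring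
      rw [e4]
      have e5 : ∑ n : Fin N, ∑ j ∈ Finset.univ.erase n, B ≤ (N : ℝ) ^ 2 * B := by
        calc ∑ n : Fin N, ∑ j ∈ Finset.univ.erase n, B ≤ ∑ n : Fin N, ∑ j : Fin N, B :=
              Finset.sum_le_sum fun n _ => Finset.sum_le_sum_of_subset_of_nonneg
                (Finset.erase_subset _ _) fun _ _ _ => hB0.le
          _ = _ := by simp; ring
      have e6 := sum_inv_dist N
      have e7 := mul_le_mul_of_nonneg_left e6 hC
      exact mul_le_mul_of_nonneg_left (add_le_add e5 e7) (by positivity)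
    rw [e1, div_le_iff₀ (by positivity)]
    refine (Finset.sum_le_sum fun n _ => e2 n).trans ?_
    rw [Finset.sum_add_distrib]
    refine (add_le_add le_rfl e3).trans (le_of_eq ?_)
    simp only [Finset.sum_const, Finset.card_univ, Fintype.card_fin, nsmul_eq_mul]
    field_simp
  -- the main term
  have h4 : h * X * (1 - 3 * ε) ≤ h * M ^ 2 / ℓ := by
    rw [le_div_iff₀ hℓ0]
    have a1 : ((1 - ε) * X) ^ 2 ≤ M ^ 2 := pow_le_pow_left₀ (mul_nonneg (by linarith) hX.le) hM1 2
    have a2 : (1 - 3 * ε) * ℓ ≤ (1 - ε) ^ 2 * X := by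
      rcases le_or_gt (1 - 3 * ε) 0 with a3 | a3
      · have : (1 - 3 * ε) * ℓ ≤ 0 := mul_nonpos_of_nonpos_of_nonneg a3 hℓ0.le
        have : 0 ≤ (1 - ε) ^ 2 * X := by positivity
        linarith
      · calc (1 - 3 * ε) * ℓ ≤ (1 - 3 * ε) * ((1 + ε) * X) := mul_le_mul_of_nonneg_left hℓ a3.le
          _ = (1 - 2 * ε - 3 * ε ^ 2) * X := by ring
          _ ≤ (1 - ε) ^ 2 * X := by
              refine mul_le_mul_of_nonneg_right ?_ hX.le
              nlinarith
    calc h * X * (1 - 3 * ε) * ℓ = h * X * ((1 - 3 * ε) * ℓ) := by ring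
      _ ≤ h * X * ((1 - ε) ^ 2 * X) := by gcongr
      _ = h * ((1 - ε) * X) ^ 2 := by ring
      _ ≤ h * M ^ 2 := by gcongr
  have h5 : (h * (M / ℓ) * (ℓ - M)) ^ 2 ≤ (4 * X / N) ^ 2 := by
    rw [← sq_abs (h * (M / ℓ) * (ℓ - M))]
    refine pow_le_pow_left₀ (abs_nonneg _) ?_ 2
    rw [abs_mul, abs_mul, abs_of_pos hh, abs_of_nonneg (div_nonneg hM0 hℓ0.le)]
    have a1 : M / ℓ ≤ 2 := by
      rw [div_le_iff₀ hℓ0]
      have : (1 + ε) * X ≤ 2 * X := by nlinarith
      linarith
    have a2 : |ℓ - M| ≤ 2 * ε * X := by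
      rw [abs_le]
      constructor
      · nlinarith
      · nlinarith
    have a3 : 0 ≤ M / ℓ := div_nonneg hM0 hℓ0.le
    calc h * (M / ℓ) * |ℓ - M| ≤ 1 * 2 * (2 * ε * X) := by gcongr
      _ = 4 * X * ε := by ring
      _ ≤ 4 * X * (1 / N) := by gcongr
      _ = 4 * X / N := by ring
  -- conclusion
  have h6 : (∫ b in (0 : ℝ)..B, Q b) - B * (h * M ^ 2 / ℓ) ≤
      B * X * ((3 * C + 3) * ((1 + Real.log N) / N)) := by
    have a1 : B * (h * X * (1 - 3 * ε)) ≤ B * (h * M ^ 2 / ℓ) :=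
      mul_le_mul_of_nonneg_left h4 hB0.le
    have a2 : B * (C * X) / N + h * X * (B + 2 * C * (1 + Real.log N) / N) -
        B * (h * X * (1 - 3 * ε)) = B * X * (C * (1 / N)) + h * X * (2 * C * ((1 + Real.log N) / N)) +
          B * X * h * (3 * ε) := by ring
    have hE : 1 / (N : ℝ) ≤ (1 + Real.log N) / N := by
      gcongr
      linarith
    have hE0 : 0 ≤ (1 + Real.log N) / (N : ℝ) := by positivity
    have a3 : B * X * (C * (1 / N)) ≤ B * X * (C * ((1 + Real.log N) / N)) := by gcongr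
    have a4 : h * X * (2 * C * ((1 + Real.log N) / N)) ≤
        B * X * (2 * C * ((1 + Real.log N) / N)) := by
      have : h ≤ B := hh1.trans hB
      gcongr
    have a5 : B * X * h * (3 * ε) ≤ B * X * 1 * (3 * ((1 + Real.log N) / N)) := by
      have : ε ≤ (1 + Real.log N) / N := hεN.trans hE
      gcongr
    have a6 : (∫ b in (0 : ℝ)..B, Q b) - B * (h * M ^ 2 / ℓ) ≤
        B * (C * X) / N + h * X * (B + 2 * C * (1 + Real.log N) / N) -
        B * (h * X * (1 - 3 * ε)) := by linarith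
    rw [a2] at a6
    refine a6.trans ?_
    have a7 : B * X * ((3 * C + 3) * ((1 + Real.log N) / N)) =
        B * X * (C * ((1 + Real.log N) / N)) + B * X * (2 * C * ((1 + Real.log N) / N)) +
        B * X * 1 * (3 * ((1 + Real.log N) / N)) := by ring
    rw [a7]
    linarith
  have hE : 1 / (N : ℝ) ≤ (1 + Real.log N) / N := by
    gcongr
    linarith
  have hE0 : 0 ≤ (1 + Real.log N) / (N : ℝ) := by positivity
  have h7 : PW S m x 0 h * ((∫ b in (0 : ℝ)..B, Q b) - B * (h * M ^ 2 / ℓ)) ≤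
      (C * X) * (B * X * ((3 * C + 3) * ((1 + Real.log N) / N))) := by
    calc _ ≤ PW S m x 0 h * (B * X * ((3 * C + 3) * ((1 + Real.log N) / N))) :=
          mul_le_mul_of_nonneg_left h6 hPW0
      _ ≤ _ := mul_le_mul_of_nonneg_right hPW (by positivity)
  have h8 : B * (2 * (h * (M / ℓ) * (ℓ - M)) ^ 2) ≤ B * (32 * X ^ 2 * ((1 + Real.log N) / N)) := by
    refine mul_le_mul_of_nonneg_left ?_ hB0.le
    calc 2 * (h * (M / ℓ) * (ℓ - M)) ^ 2 ≤ 2 * (4 * X / N) ^ 2 := by gcongr
      _ = 32 * X ^ 2 * (1 / N * (1 / N)) := by ring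
      _ ≤ 32 * X ^ 2 * (1 / N * 1) := by
          have : 1 / (N : ℝ) ≤ 1 := by rw [div_le_one hN0]; exact hN1
          gcongr
      _ ≤ 32 * X ^ 2 * ((1 + Real.log N) / N) := by
          rw [mul_one]
          gcongr
  rw [h2] at h1
  refine h1.trans ?_
  have h9 : (6 * C ^ 2 + 6 * C + 32) * (B * X ^ 2 * ((1 + Real.log N) / N)) =
      2 * ((C * X) * (B * X * ((3 * C + 3) * ((1 + Real.log N) / N)))) +
      B * (32 * X ^ 2 * ((1 + Real.log N) / N)) := by ring
  rw [h9]
  linarith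

end Pool.Agent.P8H16.MD
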