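import Pool.Agent.P8H16.MD3

set_option autoImplicit false

/-! # The mean over translates: all intervals simultaneously -/

namespace Pool.Agent.P8H16.MD

open MeasureTheory Set

lemma hat_q {q : ℕ} (hq : 0 < q) (v : ℝ) (k : ℤ) :
    hat (1 / q) (v - k / q) = max 0 (1 - |q * v - k|) := by
  have hq0 : (0 : ℝ) < q := by exact_mod_cast hq
  unfold hat
  congr 2
  have : (q : ℝ) * v - k = q * (v - k / q) := by field_simp
  rw [this, abs_mul, abs_of_pos hq0]
  field_simp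

lemma supp_two {q : ℕ} (hq : 0 < q) (v : ℝ) (k : ℤ) (h : hat (1 / q) (v - k / q) ≠ 0) :
    k ∈ ({⌊(q : ℝ) * v⌋, ⌊(q : ℝ) * v⌋ + 1} : Finset ℤ) := by
  rw [hat_q hq] at h
  have h1 : |(q : ℝ) * v - k| < 1 := by
    by_contra hcon
    push Not at hcon
    exact h (max_eq_left (by linarith))
  obtain ⟨h2, h3⟩ := abs_lt.1 h1
  have h4 := Int.floor_le ((q : ℝ) * v)
  have h5 := Int.lt_floor_add_one ((q : ℝ) * v)
  have h6 : (⌊(q : ℝ) * v⌋ : ℝ) - 1 < k := by linarith
  have h7 : (k : ℝ) < ⌊(q : ℝ) * v⌋ + 2 := by linarith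
  have h8 : ⌊(q : ℝ) * v⌋ - 1 < k := by exact_mod_cast h6
  have h9 : k < ⌊(q : ℝ) * v⌋ + 2 := by exact_mod_cast h7
  rw [Finset.mem_insert, Finset.mem_singleton]
  omega

lemma sum_two {q : ℕ} (hq : 0 < q) (v : ℝ) :
    ∑ k ∈ ({⌊(q : ℝ) * v⌋, ⌊(q : ℝ) * v⌋ + 1} : Finset ℤ), hat (1 / q) (v - k / q) = 1 := by
  rw [Finset.sum_pair (by omega), hat_q hq, hat_q hq]
  have h4 := Int.floor_le ((q : ℝ) * v)
  have h5 := Int.lt_floor_add_one ((q : ℝ) * v)
  push_cast
  rw [abs_of_nonneg (by linarith), abs_of_nonpos (by linarith), max_eq_right (by linarith),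
    max_eq_right (by linarith)]
  ring

lemma pou_le {q : ℕ} (hq : 0 < q) (v : ℝ) (U : Finset ℤ) :
    ∑ k ∈ U, hat (1 / q) (v - k / q) ≤ 1 := by
  classical
  refine le_trans ?_ (sum_two hq v).le
  rw [← Finset.sum_filter_ne_zero U]
  refine Finset.sum_le_sum_of_subset_of_nonneg ?_ fun _ _ _ => hat_nonneg _ _
  intro k hk
  exact supp_two hq v k (Finset.mem_filter.1 hk).2

lemma pou_ge {q : ℕ} (hq : 0 < q) (v : ℝ) (U : Finset ℤ)
    (hU : ∀ k : ℤ, |v - k / q| < 1 / q → k ∈ U) :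
    1 ≤ ∑ k ∈ U, hat (1 / q) (v - k / q) := by
  classical
  have hq0 : (0 : ℝ) < q := by exact_mod_cast hq
  refine le_trans (sum_two hq v).ge ?_
  rw [← Finset.sum_filter_ne_zero ({⌊(q : ℝ) * v⌋, ⌊(q : ℝ) * v⌋ + 1} : Finset ℤ)]
  refine Finset.sum_le_sum_of_subset_of_nonneg ?_ fun _ _ _ => hat_nonneg _ _
  intro k hk
  refine hU k (abs_lt_of_hat (by positivity) ?_)
  exact lt_of_le_of_ne (hat_nonneg _ _) (Finset.mem_filter.1 hk).2.symm

/-- the index set of the grid -/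
noncomputable def Ix (q : ℕ) : Finset ℤ := Finset.Icc (-((q : ℤ) + 1)) ((q : ℤ) + 1)

lemma Ix_card (q : ℕ) : ((Ix q).card : ℝ) = 2 * q + 3 := by
  unfold Ix
  rw [Int.card_Icc]
  have : ((q : ℤ) + 1 + 1 - -((q : ℤ) + 1)).toNat = 2 * q + 3 := by omega
  rw [this]
  push_cast
  ring

open Classical in
/-- the number of points seen from `t` in `[α, β]` -/
noncomputable def At {ι : Type*} (S : Finset ι) (m x : ι → ℝ) (t α β : ℝ) : ℝ :=
  ∑ s' ∈ S, if α ≤ x s' - t ∧ x s' - t ≤ β then m s' else 0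

open Classical in
/-- the upper index set -/
noncomputable def Up (q : ℕ) (u v : ℝ) : Finset ℤ :=
  (Ix q).filter (fun k : ℤ => u - 1 / q < k / q ∧ (k : ℝ) / q < v + 1 / q)

open Classical in
/-- the lower index set -/
noncomputable def Lo (q : ℕ) (u v : ℝ) : Finset ℤ :=
  (Ix q).filter (fun k : ℤ => u + 1 / q ≤ k / q ∧ (k : ℝ) / q ≤ v - 1 / q)

lemma Up_card {q : ℕ} (hq : 0 < q) {u v : ℝ} (huv : u ≤ v) :
    ((Up q u v).card : ℝ) * (1 / q) ≤ v - u + 3 / q := by
  classical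
  have hq0 : (0 : ℝ) < q := by exact_mod_cast hq
  have h1 : Up q u v ⊆ Finset.Icc ⌈(q : ℝ) * u - 1⌉ ⌊(q : ℝ) * v + 1⌋ := by
    intro k hk
    obtain ⟨-, h2, h3⟩ := Finset.mem_filter.1 hk
    rw [Finset.mem_Icc]
    constructor
    · rw [Int.ceil_le]
      have h4 := mul_lt_mul_of_pos_left h2 hq0
      have e1 : (q : ℝ) * (u - 1 / q) = q * u - 1 := by field_simp
      have e2 : (q : ℝ) * (k / q) = k := by field_simp
      rw [e1, e2] at h4
      exact h4.le
    · rw [Int.le_floor]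
      have h4 := mul_lt_mul_of_pos_left h3 hq0
      have e1 : (q : ℝ) * (v + 1 / q) = q * v + 1 := by field_simp
      have e2 : (q : ℝ) * (k / q) = k := by field_simp
      rw [e1, e2] at h4
      exact h4.le
  have h2 : ((Up q u v).card : ℝ) ≤ q * (v - u) + 3 := by
    have h3 : ((Up q u v).card : ℝ) ≤
        ((Finset.Icc ⌈(q : ℝ) * u - 1⌉ ⌊(q : ℝ) * v + 1⌋).card : ℝ) := by
      exact_mod_cast Finset.card_le_card h1
    refine h3.trans ?_
    rw [Int.card_Icc]
    have h4 : 0 ≤ (q : ℝ) * (v - u) + 3 := by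
      have : 0 ≤ (q : ℝ) * (v - u) := mul_nonneg hq0.le (by linarith)
      linarith
    have h5 : ((⌊(q : ℝ) * v + 1⌋ + 1 - ⌈(q : ℝ) * u - 1⌉ : ℤ) : ℝ) ≤ q * (v - u) + 3 := by
      push_cast
      have a1 := Int.floor_le ((q : ℝ) * v + 1)
      have a2 := Int.le_ceil ((q : ℝ) * u - 1)
      linarith
    rcases le_total 0 (⌊(q : ℝ) * v + 1⌋ + 1 - ⌈(q : ℝ) * u - 1⌉) with h6 | h6
    · have h7 : (((⌊(q : ℝ) * v + 1⌋ + 1 - ⌈(q : ℝ) * u - 1⌉).toNat : ℤ) : ℝ) =
          ((⌊(q : ℝ) * v + 1⌋ + 1 - ⌈(q : ℝ) * u - 1⌉ : ℤ) : ℝ) := by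
        rw [Int.toNat_of_nonneg h6]
      rw [Int.cast_natCast] at h7
      rw [h7]
      exact h5
    · rw [Int.toNat_of_nonpos h6]
      simpa using h4
  have e : v - u + 3 / q = (q * (v - u) + 3) * (1 / q) := by field_simp
  rw [e]
  exact mul_le_mul_of_nonneg_right h2 (by positivity)

lemma Lo_card {q : ℕ} (hq : 0 < q) {u v : ℝ} (hu : -1 ≤ u) (hv : v ≤ 1) :
    v - u - 3 / q ≤ ((Lo q u v).card : ℝ) * (1 / q) := by
  classical
  have hq0 : (0 : ℝ) < q := by exact_mod_cast hq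
  have h1 : Finset.Icc ⌈(q : ℝ) * u + 1⌉ ⌊(q : ℝ) * v - 1⌋ ⊆ Lo q u v := by
    intro k hk
    rw [Finset.mem_Icc, Int.ceil_le, Int.le_floor] at hk
    obtain ⟨h2, h3⟩ := hk
    unfold Lo Ix
    rw [Finset.mem_filter, Finset.mem_Icc]
    have b1 : (q : ℝ) * (-1) ≤ q * u := mul_le_mul_of_nonneg_left hu hq0.le
    have b2 : (q : ℝ) * v ≤ q * 1 := mul_le_mul_of_nonneg_left hv hq0.le
    refine ⟨⟨?_, ?_⟩, ?_, ?_⟩
    · have : (-((q : ℝ) + 1)) ≤ k := by linarith
      exact_mod_cast this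
    · have : (k : ℝ) ≤ (q : ℝ) + 1 := by linarith
      exact_mod_cast this
    · rw [le_div_iff₀ hq0, add_mul, one_div, inv_mul_cancel₀ hq0.ne']
      linarith
    · rw [div_le_iff₀ hq0, sub_mul, one_div, inv_mul_cancel₀ hq0.ne']
      linarith
  have h2 : (q : ℝ) * (v - u) - 3 ≤ ((Lo q u v).card : ℝ) := by
    have h3 : ((Finset.Icc ⌈(q : ℝ) * u + 1⌉ ⌊(q : ℝ) * v - 1⌋).card : ℝ) ≤
        ((Lo q u v).card : ℝ) := by
      exact_mod_cast Finset.card_le_card h1
    refine le_trans ?_ h3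
    rw [Int.card_Icc]
    have h4 := Int.self_le_toNat (⌊(q : ℝ) * v - 1⌋ + 1 - ⌈(q : ℝ) * u + 1⌉)
    have h5 : ((⌊(q : ℝ) * v - 1⌋ + 1 - ⌈(q : ℝ) * u + 1⌉ : ℤ) : ℝ) ≤
        ((⌊(q : ℝ) * v - 1⌋ + 1 - ⌈(q : ℝ) * u + 1⌉).toNat : ℝ) := by exact_mod_cast h4
    refine le_trans ?_ h5
    push_cast
    have a1 := Int.lt_floor_add_one ((q : ℝ) * v - 1)
    have a2 := Int.ceil_lt_add_one ((q : ℝ) * u + 1)
    linarith
  have e : v - u - 3 / q = (q * (v - u) - 3) * (1 / q) := by field_simp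
  rw [e]
  exact mul_le_mul_of_nonneg_right h2 (by positivity)

/-- **all intervals**: the deviation for an interval is at most the sum of the deviations of the
hat functions of the grid -/
theorem dev_le {ι : Type*} (S : Finset ι) (m x : ι → ℝ) (hm : ∀ s ∈ S, 0 ≤ m s) {N : ℕ}
    (hN : 0 < N) (c : Fin N → ℝ) {q : ℕ} (hq : 0 < q) {u v : ℝ} (hu : -1 ≤ u) (huv : u ≤ v)
    (hv : v ≤ 1) (t : ℝ) :
    |(∑ n, At S m x t (c n + u) (c n + v)) / N - (v - u)| ≤
      ∑ k ∈ Ix q, |Gd S m x N (fun n => c n + k / q) (1 / q) t| + 3 / q := by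
  classical
  have hq0 : (0 : ℝ) < q := by exact_mod_cast hq
  have hN0 : (0 : ℝ) < N := by exact_mod_cast hN
  -- the sum over a set of indices
  have hsum : ∀ U : Finset ℤ, (∑ n, ∑ s' ∈ S, m s' *
      ∑ k ∈ U, hat (1 / q) (x s' - t - c n - k / q)) / N =
      ∑ k ∈ U, (Gd S m x N (fun n => c n + k / q) (1 / q) t + 1 / q) := by
    intro U
    have e1 : ∀ k : ℤ, Gd S m x N (fun n => c n + k / q) (1 / q) t + 1 / q =
        (∑ n, ∑ s' ∈ S, m s' * hat (1 / q) (x s' - t - c n - k / q)) / N := by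
      intro k
      unfold Gd Kn
      rw [sub_add_cancel]
      congr 1
      refine Finset.sum_congr rfl fun n _ => Finset.sum_congr rfl fun s' _ => ?_
      congr 2
      ring
    rw [Finset.sum_congr rfl fun k _ => e1 k, ← Finset.sum_div]
    congr 1
    symm
    rw [Finset.sum_comm]
    refine Finset.sum_congr rfl fun n _ => ?_
    rw [Finset.sum_comm]
    refine Finset.sum_congr rfl fun s' _ => ?_
    rw [Finset.mul_sum]
  -- upper bound
  have hup : (∑ n, At S m x t (c n + u) (c n + v)) / N ≤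
      ∑ k ∈ Up q u v, (Gd S m x N (fun n => c n + k / q) (1 / q) t + 1 / q) := by
    rw [← hsum]
    refine div_le_div_of_nonneg_right ?_ hN0.le
    refine Finset.sum_le_sum fun n _ => ?_
    unfold At
    refine Finset.sum_le_sum fun s' hs' => ?_
    have hms := hm s' hs'
    split_ifs with h1
    · have h2 := pou_ge hq (x s' - t - c n) (Up q u v) (by
        intro k hk
        obtain ⟨h3, h4⟩ := abs_lt.1 hk
        have h5 : u - 1 / q < k / q := by linarith [h1.1]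
        have h6 : (k : ℝ) / q < v + 1 / q := by linarith [h1.2]
        unfold Up Ix
        rw [Finset.mem_filter, Finset.mem_Icc]
        refine ⟨⟨?_, ?_⟩, h5, h6⟩
        · have h7 : (-1 : ℝ) - 1 / q < k / q := by linarith
          rw [lt_div_iff₀ hq0, sub_mul, one_div, inv_mul_cancel₀ hq0.ne'] at h7
          have h8 : (-((q : ℝ) + 1)) < k := by linarith
          have h9 : (-((q : ℤ) + 1)) < k := by exact_mod_cast h8
          exact h9.le
        · have h7 : (k : ℝ) / q < 1 + 1 / q := by linarith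
          rw [div_lt_iff₀ hq0, add_mul, one_div, inv_mul_cancel₀ hq0.ne'] at h7
          have h8 : (k : ℝ) < (q : ℝ) + 1 := by linarith
          have h9 : k < (q : ℤ) + 1 := by exact_mod_cast h8
          exact h9.le)
      calc m s' = m s' * 1 := (mul_one _).symm
        _ ≤ _ := mul_le_mul_of_nonneg_left h2 hms
    · exact mul_nonneg hms (Finset.sum_nonneg fun k _ => hat_nonneg _ _)
  -- lower bound
  have hlo : ∑ k ∈ Lo q u v, (Gd S m x N (fun n => c n + k / q) (1 / q) t + 1 / q) ≤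
      (∑ n, At S m x t (c n + u) (c n + v)) / N := by
    rw [← hsum]
    refine div_le_div_of_nonneg_right ?_ hN0.le
    refine Finset.sum_le_sum fun n _ => ?_
    unfold At
    refine Finset.sum_le_sum fun s' hs' => ?_
    have hms := hm s' hs'
    split_ifs with h1
    · calc _ ≤ m s' * 1 := mul_le_mul_of_nonneg_left (pou_le hq _ _) hms
        _ = m s' := mul_one _
    · refine le_of_eq ?_
      have hz : ∑ k ∈ Lo q u v, hat (1 / q) (x s' - t - c n - k / q) = 0 := by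
        refine Finset.sum_eq_zero fun k hk => ?_
        obtain ⟨-, h3, h4⟩ := Finset.mem_filter.1 hk
        refine hat_eq_zero (by positivity) ?_
        by_contra hcon
        push Not at hcon
        obtain ⟨h5, h6⟩ := abs_lt.1 hcon
        exact h1 ⟨by linarith, by linarith⟩
      rw [hz, mul_zero]
  have hsub : ∀ U ⊆ Ix q, ∑ k ∈ U, |Gd S m x N (fun n => c n + k / q) (1 / q) t| ≤
      ∑ k ∈ Ix q, |Gd S m x N (fun n => c n + k / q) (1 / q) t| := fun U hU =>
    Finset.sum_le_sum_of_subset_of_nonneg hU fun _ _ _ => abs_nonneg _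
  have habs : ∀ U : Finset ℤ, |∑ k ∈ U, Gd S m x N (fun n => c n + k / q) (1 / q) t| ≤
      ∑ k ∈ U, |Gd S m x N (fun n => c n + k / q) (1 / q) t| := fun U =>
    Finset.abs_sum_le_sum_abs _ _
  rw [Finset.sum_add_distrib, Finset.sum_const, nsmul_eq_mul] at hup hlo
  have h1 := Up_card hq huv
  have h2 := Lo_card hq hu hv
  have h3 := hsub (Up q u v) (Finset.filter_subset _ _)
  have h4 := hsub (Lo q u v) (Finset.filter_subset _ _)
  have h5 := (abs_le.1 (habs (Up q u v))).2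
  have h6 := (abs_le.1 (habs (Lo q u v))).1
  rw [abs_le]
  constructor
  · linarith
  · linarith

end Pool.Agent.P8H16.MD
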