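import Pool.Agent.P8H16.MD4

set_option autoImplicit false

/-! # The mean over translates: the exceptional set of dilations -/

namespace Pool.Agent.P8H16.MD

open MeasureTheory Set

/-- the sum of all deviations of the grid -/
noncomputable def Tot {ι : Type*} (S : Finset ι) (m x : ι → ℝ) {N : ℕ} (a θ : Fin N → ℝ) (q : ℕ)
    (b : ℝ) : ℝ :=
  ∑ k ∈ Ix q, Dev S m x N (pos a (fun n => θ n + k / q) b) (1 / q)

lemma Tot_cont {ι : Type*} (S : Finset ι) (m x : ι → ℝ) {N : ℕ} (a θ : Fin N → ℝ) (q : ℕ) :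
    Continuous (Tot S m x a θ q) :=
  continuous_finsetSum _ fun k _ => Dev_cont S m x a (fun n => θ n + k / q) (1 / q)

/-- the second moment of the total deviation -/
theorem tot_moment {ι : Type*} (S : Finset ι) (m x : ι → ℝ) (hm : ∀ s ∈ S, 0 ≤ m s)
    {X B B' C ε : ℝ} (hX : 0 < X) (hB : 1 ≤ B) (hC : 0 ≤ C)
    (hB' : 0 ≤ B') (hx : ∀ s ∈ S, 0 ≤ x s ∧ x s ≤ X) {N : ℕ} (hN : 0 < N) (a θ : Fin N → ℝ)
    (ha : ∀ i j : Fin N, i < j → (j : ℝ) - i ≤ a j - a i) {q : ℕ} (hq : 0 < q)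
    (hPW : PW S m x 0 (1 / q) ≤ C * X)
    (hCnt : ∀ n j : Fin N, a j < a n → Cnt S m x (θ n - θ j - 1)
      (θ n - θ j + (a n - a j) * B + 1) ≤ X * ((a n - a j) * B + C))
    (hε : 0 ≤ ε) (hεN : ε ≤ 1 / N) (hM1 : (1 - ε) * X ≤ ∑ s ∈ S, m s)
    (hM2 : ∑ s ∈ S, m s ≤ (1 + ε) * X)
    (hpos : ∀ n, ∀ b ∈ Icc (0 : ℝ) B, |pos a θ b n| + 2 ≤ B')
    (hℓ : X + 2 * B' + 1 ≤ (1 + ε) * X) :
    ∫ b in (0 : ℝ)..B, Tot S m x a θ q b ^ 2 ≤
      (2 * q + 3) ^ 2 * ((6 * C ^ 2 + 6 * C + 32) * (B * X ^ 2 * ((1 + Real.log N) / N))) := by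
  classical
  have hq0 : (0 : ℝ) < q := by exact_mod_cast hq
  have hq1 : (1 : ℝ) ≤ q := by exact_mod_cast hq
  have h1q : 1 / (q : ℝ) ≤ 1 := by rw [div_le_one hq0]; exact hq1
  have hB0 : 0 ≤ B := by linarith
  have h1 : ∀ k ∈ Ix q, ∫ b in (0 : ℝ)..B,
      Dev S m x N (pos a (fun n => θ n + k / q) b) (1 / q) ^ 2 ≤
      (6 * C ^ 2 + 6 * C + 32) * (B * X ^ 2 * ((1 + Real.log N) / N)) := by
    intro k hk
    have hk2 : |(k : ℝ) / q| ≤ 2 := by
      unfold Ix at hk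
      rw [Finset.mem_Icc] at hk
      have a1 : (-((q : ℝ) + 1)) ≤ k := by exact_mod_cast hk.1
      have a2 : (k : ℝ) ≤ (q : ℝ) + 1 := by exact_mod_cast hk.2
      rw [abs_div, abs_of_pos hq0, div_le_iff₀ hq0, abs_le]
      constructor <;> linarith
    refine second_moment S m x hm hX (by positivity) h1q hB hC hB' hx hN a _ ha hPW ?_ hε hεN
      hM1 hM2 ?_ ?_
    · intro n j hnj
      have := hCnt n j hnj
      have e : θ n + (k : ℝ) / q - (θ j + k / q) = θ n - θ j := by ring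
      simp only [e]
      exact this
    · intro n b hb
      have h2 := hpos n b hb
      have e : pos a (fun n => θ n + (k : ℝ) / q) b n = pos a θ b n + k / q := by
        unfold pos
        ring
      rw [e]
      exact (abs_add_le _ _).trans (by linarith)
    · linarith
  have h2 : ∀ b, Tot S m x a θ q b ^ 2 ≤ (2 * q + 3) *
      ∑ k ∈ Ix q, Dev S m x N (pos a (fun n => θ n + k / q) b) (1 / q) ^ 2 := by
    intro b
    rw [← Ix_card]
    exact sq_sum_le_card_mul_sum_sq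
  have hc : ∀ k : ℤ, Continuous (fun b => Dev S m x N (pos a (fun n => θ n + k / q) b) (1 / q)) :=
    fun k => Dev_cont S m x a (fun n => θ n + k / q) (1 / q)
  calc ∫ b in (0 : ℝ)..B, Tot S m x a θ q b ^ 2 ≤ ∫ b in (0 : ℝ)..B, (2 * q + 3) *
      ∑ k ∈ Ix q, Dev S m x N (pos a (fun n => θ n + k / q) b) (1 / q) ^ 2 := by
        refine intervalIntegral.integral_mono_on hB0 ?_ ?_ fun b _ => h2 b
        · exact ((Tot_cont S m x a θ q).pow 2).intervalIntegrable _ _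
        · apply Continuous.intervalIntegrable
          exact continuous_const.mul (continuous_finsetSum _ fun k _ => (hc k).pow 2)
    _ = (2 * q + 3) * ∑ k ∈ Ix q, ∫ b in (0 : ℝ)..B,
        Dev S m x N (pos a (fun n => θ n + k / q) b) (1 / q) ^ 2 := by
        rw [intervalIntegral.integral_const_mul]
        congr 1
        refine intervalIntegral.integral_finsetSum fun k _ => ?_
        exact ((hc k).pow 2).intervalIntegrable _ _
    _ ≤ (2 * q + 3) * ∑ _k ∈ Ix q,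
        (6 * C ^ 2 + 6 * C + 32) * (B * X ^ 2 * ((1 + Real.log N) / N)) :=
        mul_le_mul_of_nonneg_left (Finset.sum_le_sum h1) (by positivity)
    _ = _ := by
        rw [Finset.sum_const, nsmul_eq_mul, Ix_card]
        ring

/-- Markov's inequality -/
theorem markov {f : ℝ → ℝ} (hf : Continuous f) {B L D : ℝ} (hB : 0 ≤ B)
    (hL : 0 < L) (h : ∫ b in (0 : ℝ)..B, f b ^ 2 ≤ D) :
    ∃ E : Set ℝ, MeasurableSet E ∧ E ⊆ Icc 0 B ∧ volume.real E ≤ D / L ^ 2 ∧
      ∀ b ∈ Icc 0 B, b ∉ E → f b ≤ L := by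
  have hm : MeasurableSet {b : ℝ | L < f b} := measurableSet_lt measurable_const hf.measurable
  refine ⟨{b : ℝ | L < f b} ∩ Icc 0 B, hm.inter measurableSet_Icc, inter_subset_right, ?_, ?_⟩
  · have hi : Integrable (fun b => f b ^ 2) (volume.restrict (Icc 0 B)) :=
      ((hf.pow 2).continuousOn.integrableOn_Icc)
    have h1 := mul_meas_ge_le_integral_of_nonneg (μ := volume.restrict (Icc 0 B))
      (f := fun b => f b ^ 2) (Filter.Eventually.of_forall fun b => sq_nonneg (f b)) hi (L ^ 2)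
    have h2 : ∫ b in Icc 0 B, f b ^ 2 = ∫ b in (0 : ℝ)..B, f b ^ 2 := by
      rw [intervalIntegral.integral_of_le hB, integral_Icc_eq_integral_Ioc]
    rw [h2] at h1
    have hm2 : MeasurableSet {b : ℝ | L ^ 2 ≤ f b ^ 2} :=
      measurableSet_le measurable_const (hf.pow 2).measurable
    rw [measureReal_restrict_apply hm2] at h1
    have h3 : volume.real ({b : ℝ | L < f b} ∩ Icc 0 B) ≤
        volume.real ({b : ℝ | L ^ 2 ≤ f b ^ 2} ∩ Icc 0 B) := by
      refine measureReal_mono ?_ ?_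
      · intro b hb
        exact ⟨pow_le_pow_left₀ hL.le hb.1.le 2, hb.2⟩
      · refine (lt_of_le_of_lt (measure_mono inter_subset_right) ?_).ne
        simp
    rw [le_div_iff₀ (by positivity)]
    calc _ ≤ volume.real ({b : ℝ | L ^ 2 ≤ f b ^ 2} ∩ Icc 0 B) * L ^ 2 := by gcongr
      _ = L ^ 2 * volume.real ({b : ℝ | L ^ 2 ≤ f b ^ 2} ∩ Icc 0 B) := mul_comm _ _
      _ ≤ D := h1.trans h
  · intro b hb hbE
    by_contra hcon
    exact hbE ⟨not_le.1 hcon, hb⟩

open Classical in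
/-- the points from which the mean is wrong for some interval -/
noncomputable def Bad {ι : Type*} (S : Finset ι) (m x : ι → ℝ) {N : ℕ} (c : Fin N → ℝ) (η : ℝ) :
    Finset ι :=
  S.filter (fun s => ∃ u v : ℝ, -1 ≤ u ∧ u ≤ v ∧ v ≤ 1 ∧
    η < |(∑ n, At S m x (x s) (c n + u) (c n + v)) / N - (v - u)|)

lemma Tot_eq {ι : Type*} (S : Finset ι) (m x : ι → ℝ) {N : ℕ} (a θ : Fin N → ℝ) (q : ℕ) (b : ℝ) :
    Tot S m x a θ q b = ∑ s ∈ S, m s *
      ∑ k ∈ Ix q, |Gd S m x N (fun n => pos a θ b n + k / q) (1 / q) (x s)| := by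
  unfold Tot Dev
  rw [Finset.sum_comm]
  refine Finset.sum_congr rfl fun s _ => ?_
  rw [Finset.mul_sum]
  refine Finset.sum_congr rfl fun k _ => ?_
  have e : pos a (fun n => θ n + (k : ℝ) / q) b = fun n => pos a θ b n + k / q := by
    funext n
    unfold pos
    ring
  rw [e]

/-- the mass of the bad points -/
theorem bad_mass {ι : Type*} (S : Finset ι) (m x : ι → ℝ) (hm : ∀ s ∈ S, 0 ≤ m s) {N : ℕ}
    (hN : 0 < N) (a θ : Fin N → ℝ) {q : ℕ} (hq : 0 < q) {η L : ℝ} (hη : 0 < η)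
    (hqη : 3 / (q : ℝ) ≤ η / 2) {b : ℝ} (hb : Tot S m x a θ q b ≤ L) :
    ∑ s ∈ Bad S m x (pos a θ b) η, m s ≤ 2 * L / η := by
  classical
  rw [le_div_iff₀ hη, Finset.sum_mul]
  have h1 : ∑ s ∈ Bad S m x (pos a θ b) η, m s * η ≤ ∑ s ∈ Bad S m x (pos a θ b) η, 2 * (m s *
      ∑ k ∈ Ix q, |Gd S m x N (fun n => pos a θ b n + k / q) (1 / q) (x s)|) := by
    refine Finset.sum_le_sum fun s hs => ?_
    unfold Bad at hs
    rw [Finset.mem_filter] at hs
    obtain ⟨hs, u, v, hu, huv, hv, hη2⟩ := hs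
    have h2 := dev_le S m x hm hN (pos a θ b) hq hu huv hv (x s)
    have hms := hm s hs
    have h3 : η ≤ 2 * ∑ k ∈ Ix q, |Gd S m x N (fun n => pos a θ b n + k / q) (1 / q) (x s)| := by
      linarith
    calc m s * η ≤ m s * (2 * ∑ k ∈ Ix q,
        |Gd S m x N (fun n => pos a θ b n + k / q) (1 / q) (x s)|) :=
          mul_le_mul_of_nonneg_left h3 hms
      _ = _ := by ring
  refine h1.trans ?_
  calc _ ≤ ∑ s ∈ S, 2 * (m s *
      ∑ k ∈ Ix q, |Gd S m x N (fun n => pos a θ b n + k / q) (1 / q) (x s)|) := by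
        refine Finset.sum_le_sum_of_subset_of_nonneg (Finset.filter_subset _ _) fun s hs _ => ?_
        exact mul_nonneg (by norm_num) (mul_nonneg (hm s hs) (Finset.sum_nonneg fun _ _ => abs_nonneg _))
    _ = 2 * Tot S m x a θ q b := by rw [Tot_eq, Finset.mul_sum]
    _ ≤ 2 * L := by linarith

/-- the number of pairs is the sum of the numbers of points seen from the points -/
lemma Cnt_eq {ι : Type*} (S : Finset ι) (m x : ι → ℝ) (α β : ℝ) :
    Cnt S m x α β = ∑ s ∈ S, m s * At S m x (x s) α β := by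
  classical
  unfold Cnt At
  rw [Finset.sum_comm]
  refine Finset.sum_congr rfl fun s _ => ?_
  rw [Finset.mul_sum]
  refine Finset.sum_congr rfl fun s' _ => ?_
  split_ifs with h
  · ring
  · ring

/-- the mean of the pair counts -/
theorem pairs_mean {ι : Type*} (S : Finset ι) (m x : ι → ℝ) (hm : ∀ s ∈ S, 0 ≤ m s) {N : ℕ}
    (hN : 0 < N) (a θ : Fin N → ℝ) {q : ℕ} (hq : 0 < q) {L X ε : ℝ} (hX : 0 < X)
    (hM1 : (1 - ε) * X ≤ ∑ s ∈ S, m s) (hM2 : ∑ s ∈ S, m s ≤ (1 + ε) * X)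
    (hε1 : ε ≤ 1) {b : ℝ} (hb : Tot S m x a θ q b ≤ L) {u v : ℝ} (hu : -1 ≤ u) (huv : u ≤ v)
    (hv : v ≤ 1) :
    |(∑ n, Cnt S m x (pos a θ b n + u) (pos a θ b n + v)) / (N * X) - (v - u)| ≤
      L / X + 6 / q + 2 * ε := by
  classical
  have hq0 : (0 : ℝ) < q := by exact_mod_cast hq
  have hN0 : (0 : ℝ) < N := by exact_mod_cast hN
  set M : ℝ := ∑ s ∈ S, m s with hM
  set A : ℝ := (∑ n, Cnt S m x (pos a θ b n + u) (pos a θ b n + v)) / N with hA
  have e1 : A - (v - u) * M = ∑ s ∈ S, m s *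
      ((∑ n, At S m x (x s) (pos a θ b n + u) (pos a θ b n + v)) / N - (v - u)) := by
    rw [hA, hM]
    simp_rw [Cnt_eq]
    rw [Finset.sum_comm, Finset.sum_div, Finset.mul_sum, ← Finset.sum_sub_distrib]
    refine Finset.sum_congr rfl fun s _ => ?_
    rw [← Finset.mul_sum]
    ring
  have h1 : |A - (v - u) * M| ≤ L + 3 / q * M := by
    rw [e1]
    refine (Finset.abs_sum_le_sum_abs _ _).trans ?_
    have h2 : ∀ s ∈ S, |m s * ((∑ n, At S m x (x s) (pos a θ b n + u) (pos a θ b n + v)) / N -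
        (v - u))| ≤ m s * (∑ k ∈ Ix q,
          |Gd S m x N (fun n => pos a θ b n + k / q) (1 / q) (x s)|) + 3 / q * m s := by
      intro s hs
      rw [abs_mul, abs_of_nonneg (hm s hs)]
      have h3 := dev_le S m x hm hN (pos a θ b) hq hu huv hv (x s)
      calc _ ≤ m s * (∑ k ∈ Ix q,
          |Gd S m x N (fun n => pos a θ b n + k / q) (1 / q) (x s)| + 3 / q) :=
            mul_le_mul_of_nonneg_left h3 (hm s hs)
        _ = _ := by ring
    refine (Finset.sum_le_sum h2).trans ?_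
    rw [Finset.sum_add_distrib, ← Finset.mul_sum, ← Tot_eq]
    linarith
  have hMX : |M - X| ≤ ε * X := by
    rw [abs_le]
    constructor <;> linarith
  have hM0 : 0 ≤ M := Finset.sum_nonneg hm
  have e2 : (∑ n, Cnt S m x (pos a θ b n + u) (pos a θ b n + v)) / (N * X) - (v - u) =
      ((A - (v - u) * M) + (v - u) * (M - X)) / X := by
    rw [hA]
    field_simp
    ring
  rw [e2, abs_div, abs_of_pos hX, div_le_iff₀ hX]
  have h4 : |(v - u) * (M - X)| ≤ 2 * (ε * X) := by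
    rw [abs_mul, abs_of_nonneg (by linarith : 0 ≤ v - u)]
    exact mul_le_mul (by linarith) hMX (abs_nonneg _) (by norm_num)
  have h5 : 3 / q * M ≤ 6 / q * X := by
    have : M ≤ 2 * X := by nlinarith
    calc 3 / q * M ≤ 3 / q * (2 * X) := by gcongr
      _ = 6 / q * X := by ring
  have h6 := abs_add_le (A - (v - u) * M) ((v - u) * (M - X))
  have h7 : (L / X + 6 / q + 2 * ε) * X = L + 6 / q * X + 2 * (ε * X) := by field_simp
  rw [h7]
  linarith

end Pool.Agent.P8H16.MD
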