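import Pool.Agent.P8H16.Short

set_option autoImplicit false

/-! # Short windows at the differences of a set of reals: the theorems -/

namespace Pool.Agent.P8H16

open MeasureTheory Set Filter Topology
open H370 (Zf mult NN good_zeta zset)
open Pool.Agent.N804 (XX XX_pos)

lemma TW_neg (T : ℝ) (w : ℂ → ℝ) (c δ : ℝ) : TW T w (-c) δ = TW T w c δ := by
  unfold TW
  rw [Finset.sum_comm]
  refine Finset.sum_congr rfl fun s _ => Finset.sum_congr rfl fun s' _ => ?_
  rw [mul_comm (w s'), ← hat_neg δ (xs T s' - xs T s - -c)]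
  congr 2
  ring

lemma XX_large (A : ℝ) : ∃ T₀ : ℝ, ∀ T : ℝ, T₀ ≤ T → A ≤ XX T := by
  have h : Tendsto XX atTop atTop := by
    unfold XX
    have h1 : Tendsto (fun T : ℝ => T * Real.log T) atTop atTop :=
      tendsto_id.atTop_mul_atTop₀ Real.tendsto_log_atTop
    exact h1.atTop_div_const (by positivity)
  exact eventually_atTop.1 (h.eventually_ge_atTop A)

lemma split_diag {m : ℕ} (f : Fin m → Fin m → ℝ) (D : ℝ) (hD : ∀ i, f i i ≤ D) :
    (∑ i, ∑ j, f i j) - m * D ≤ ∑ i, ∑ j ∈ Finset.univ.erase i, f i j := by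
  have h : ∀ i, ∑ j, f i j = f i i + ∑ j ∈ Finset.univ.erase i, f i j := fun i =>
    (Finset.add_sum_erase _ _ (Finset.mem_univ i)).symm
  simp_rw [h]
  rw [Finset.sum_add_distrib]
  have h2 : ∑ i : Fin m, f i i ≤ m * D := by
    calc ∑ i : Fin m, f i i ≤ ∑ _i : Fin m, D := Finset.sum_le_sum fun i _ => hD i
      _ = m * D := by simp
  linarith

/-- **the sum over the differences** -/
theorem main_sum : ∃ C : ℝ, 0 < C ∧ ∀ ε : ℝ, 0 < ε → ε ≤ 1 → ∃ κ T₀ : ℝ, 0 < κ ∧ 10 ≤ T₀ ∧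
    ∀ T : ℝ, T₀ ≤ T → ∀ w : ℂ → ℝ, Adm T w → ∀ (m : ℕ) (a : Fin m → ℝ) (δ : ℝ), 0 < δ → δ ≤ 1 →
      (∀ i j, |a i - a j| ≤ κ * XX T) →
      (((den T w) ^ 2 - ε) * δ * m ^ 2 - C * m) * XX T ≤
        ∑ i, ∑ j ∈ Finset.univ.erase i, TW T w (a i - a j) δ := by
  obtain ⟨C, T₁, hC, h10, hd⟩ := diag
  refine ⟨C, hC, fun ε hε hε1 => ?_⟩
  obtain ⟨T₂, -, hW⟩ := all_count (ε := 1 / 4) (by positivity)
  obtain ⟨T₃, hX3⟩ := XX_large (8 / ε)
  refine ⟨ε / 16, max T₁ (max T₂ T₃), by positivity, h10.trans (le_max_left _ _),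
    fun T hT w hw m a δ hδ hδ1 ha => ?_⟩
  have g1 : T₁ ≤ T := (le_max_left _ _).trans hT
  have g2 : T₂ ≤ T := (le_max_left _ _).trans ((le_max_right _ _).trans hT)
  have g3 : T₃ ≤ T := (le_max_right _ _).trans ((le_max_right _ _).trans hT)
  have hT1 : 1 < T := by linarith
  have hX := XX_pos hT1
  have hXl := hX3 T g3
  have h1X : 1 / XX T ≤ ε / 8 := by
    rw [div_le_div_iff₀ hX (by norm_num)]
    rw [div_le_iff₀ hε] at hXl
    linarith
  have h := core (w := w) (κ := ε / 16) (e := ε / 4) hT1 hw (by positivity) hδ hδ1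
    (by positivity) (by linarith) a ha
  have h2 := split_diag (fun i j => TW T w (a i - a j) δ) (C * XX T) (fun i => by
    simp only [sub_self]
    exact hd T g1 δ hδ hδ1 w hw)
  refine le_trans ?_ h2
  have hρ0 := den_nonneg hT1 hw
  have hρ1 : den T w ≤ 5 / 4 := by
    have := (den_le hT1 hw).trans (hW T g2).2
    linarith
  have h3 : (den T w) ^ 2 - ε ≤ (den T w) ^ 2 / (1 + ε / 4) := by
    rw [le_div_iff₀ (by positivity)]
    have q1 : (den T w) ^ 2 ≤ 2 := by nlinarith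
    have q2 : 0 ≤ ε * (2 - (den T w) ^ 2) := mul_nonneg hε.le (by linarith)
    nlinarith [mul_pos hε hε]
  have h4 : ((den T w) ^ 2 - ε) * δ * m ^ 2 * XX T ≤
      (m : ℝ) ^ 2 * δ * ((den T w) ^ 2 / (1 + ε / 4)) * XX T := by
    have : (m : ℝ) ^ 2 * δ * ((den T w) ^ 2 - ε) ≤
        (m : ℝ) ^ 2 * δ * ((den T w) ^ 2 / (1 + ε / 4)) :=
      mul_le_mul_of_nonneg_left h3 (by positivity)
    calc ((den T w) ^ 2 - ε) * δ * m ^ 2 * XX T = (m : ℝ) ^ 2 * δ * ((den T w) ^ 2 - ε) * XX T := by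
          ring
      _ ≤ _ := mul_le_mul_of_nonneg_right this hX.le
  have h5 := h4.trans h
  linarith

/-- a Ramsey argument: if in every coordinate, among any `m` values two have a good difference, then
among `M` points two have a good difference in all coordinates -/
theorem two_points (Q : Type) [Fintype Q] (m : ℕ) (hm : 2 ≤ m) : ∃ M : ℕ,
    ∀ (P : Q → ℝ → Prop) (t : Fin M → Q → ℝ), (∀ q x, P q x → P q (-x)) →
      (∀ (q : Q) (e : Fin m → Fin M), Function.Injective e →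
        ∃ i j : Fin m, i ≠ j ∧ P q (t (e i) q - t (e j) q)) →
      ∃ i i' : Fin M, i < i' ∧ ∀ q, P q (t i' q - t i q) := by
  classical
  obtain ⟨M, -, hM⟩ := Pool.Agent.Y47.BU.ramsey (Option Q) m
  refine ⟨M, fun P t hP h => ?_⟩
  by_contra hcon
  push Not at hcon
  have hex : ∀ i i' : Fin M, ∃ j : Option Q, i < i' → ∃ q : Q, j = some q ∧
      ¬ P q (t i' q - t i q) := by
    intro i i'
    by_cases hii : i < i'
    · obtain ⟨q, hq⟩ := hcon i i' hii
      exact ⟨some q, fun _ => ⟨q, rfl, hq⟩⟩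
    · exact ⟨none, fun h => absurd h hii⟩
  choose col hcol using hex
  obtain ⟨B, c, -, hBm, hBc⟩ := hM (Fin M) Finset.univ (by simp) col
  obtain ⟨e⟩ : Nonempty (Fin m ≃o B) := ⟨B.orderIsoOfFin hBm⟩
  have hbad : ∀ i j : Fin m, i < j → ∃ q : Q, c = some q ∧ ¬ P q (t (e j) q - t (e i) q) := by
    intro i j hij
    have h1 : (e i : Fin M) < e j := e.strictMono hij
    obtain ⟨q, h2, h3⟩ := hcol _ _ h1
    exact ⟨q, (hBc _ (e i).2 _ (e j).2 h1).symm.trans h2, h3⟩
  obtain ⟨q₀, hq₀, -⟩ := hbad ⟨0, by omega⟩ ⟨1, by omega⟩ (by simp)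
  have hbad' : ∀ i j : Fin m, i < j → ¬ P q₀ (t (e j) q₀ - t (e i) q₀) := by
    intro i j hij
    obtain ⟨q, h2, h3⟩ := hbad i j hij
    have : q = q₀ := Option.some_injective _ (h2.symm.trans hq₀)
    rwa [this] at h3
  obtain ⟨i, j, hij, h4⟩ := h q₀ (fun i => (e i : Fin M)) (fun i j hij => by
    have := Subtype.ext hij
    exact e.injective this)
  rcases lt_or_gt_of_ne hij with h5 | h5
  · refine hbad' i j h5 ?_
    have := hP _ _ h4
    rwa [neg_sub] at this
  · exact hbad' j i h5 h4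

/-- from the sum over the differences to one difference -/
lemma exists_large {m : ℕ} {F : ℝ → ℝ} {a : Fin m → ℝ} {A B C X : ℝ} (hX : 0 < X)
    (hm : 0 < m) (hAB : C < (A - B) * m) (hB : 0 ≤ B)
    (h : (A * m ^ 2 - C * m) * X ≤ ∑ i, ∑ j ∈ Finset.univ.erase i, F (a i - a j)) :
    ∃ i j : Fin m, i ≠ j ∧ B * X ≤ F (a i - a j) := by
  classical
  by_contra hcon
  push Not at hcon
  have hm0 : (0 : ℝ) < m := by exact_mod_cast hm
  have h7 : ∑ i : Fin m, ∑ j ∈ Finset.univ.erase i, F (a i - a j) ≤ (m : ℝ) * (m * (B * X)) := by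
    calc ∑ i : Fin m, ∑ j ∈ Finset.univ.erase i, F (a i - a j) ≤
        ∑ i : Fin m, ∑ j ∈ Finset.univ.erase i, B * X :=
          Finset.sum_le_sum fun i _ => Finset.sum_le_sum fun j hj =>
            (hcon i j (Finset.ne_of_mem_erase hj).symm).le
      _ ≤ ∑ i : Fin m, ∑ j : Fin m, B * X := Finset.sum_le_sum fun i _ =>
            Finset.sum_le_sum_of_subset_of_nonneg (Finset.erase_subset _ _)
              fun _ _ _ => by positivity
      _ = _ := by simp
  have h9 : (A * m ^ 2 - C * m) * X ≤ (m ^ 2 * B) * X := by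
    refine (h.trans h7).trans (le_of_eq ?_)
    ring
  have h10 := le_of_mul_le_mul_right h9 hX
  have h11 : C * m < ((A - B) * m) * m := mul_lt_mul_of_pos_right hAB hm0
  nlinarith

/-- **Khintchine recurrence**: among many points of `ℝ ^ r` there are two all the coordinates of
whose difference are near the right number of normalised differences -/
theorem main_points (r : ℕ) (δ ε : ℝ) (hδ : 0 < δ) (hδ1 : δ ≤ 1) (hε : 0 < ε) (hε1 : ε ≤ 1) :
    ∃ (M : ℕ) (κ T₀ : ℝ), 0 < κ ∧ 10 ≤ T₀ ∧ ∀ T : ℝ, T₀ ≤ T → ∀ w : Fin r → ℂ → ℝ,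
      (∀ j, Adm T (w j)) → ∀ t : Fin M → Fin r → ℝ,
      (∀ i i' j, |t i j - t i' j| ≤ κ * XX T) →
      ∃ i i' : Fin M, i < i' ∧ ∀ j,
        ((den T (w j)) ^ 2 - ε) * δ * XX T ≤ TW T (w j) (t i' j - t i j) δ := by
  classical
  obtain ⟨C, hC, hA⟩ := main_sum
  obtain ⟨κ, T₁, hκ, h101, hA⟩ := hA (ε / 2) (by positivity) (by linarith)
  obtain ⟨m', hm'⟩ := exists_nat_gt (C / (ε / 2 * δ))
  obtain ⟨m, hm2, hm⟩ : ∃ m : ℕ, 2 ≤ m ∧ C / (ε / 2 * δ) < m :=
    ⟨max m' 2, le_max_right _ _, hm'.trans_le (by exact_mod_cast le_max_left _ _)⟩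
  have hm1 : C < ε / 2 * δ * m := by
    rw [div_lt_iff₀ (by positivity)] at hm
    linarith
  obtain ⟨M, hM⟩ := two_points (Fin r) m hm2
  refine ⟨M, κ, T₁, hκ, h101, fun T hT w hw t ht => ?_⟩
  have hT1 : 1 < T := by linarith
  have hX := XX_pos hT1
  refine hM (fun j x => ((den T (w j)) ^ 2 - ε) * δ * XX T ≤ TW T (w j) x δ) t
    (fun j x hx => by rw [TW_neg]; exact hx) fun j e _ => ?_
  rcases le_or_gt ((den T (w j)) ^ 2 - ε) 0 with h0 | h0
  · refine ⟨⟨0, by omega⟩, ⟨1, by omega⟩, by simp, ?_⟩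
    refine le_trans ?_ (TW_nonneg (hw j) _ _)
    exact mul_nonpos_of_nonpos_of_nonneg (mul_nonpos_of_nonpos_of_nonneg h0 hδ.le) hX.le
  · refine exists_large (F := fun x => TW T (w j) x δ) (a := fun i => t (e i) j)
      (A := ((den T (w j)) ^ 2 - ε / 2) * δ) (C := C) hX (by omega) ?_ (by positivity)
      (hA T hT (w j) (hw j) m (fun i => t (e i) j) δ hδ hδ1 (fun i j => ht _ _ _))
    have e1 : (((den T (w j)) ^ 2 - ε / 2) * δ - ((den T (w j)) ^ 2 - ε) * δ) * m =
        ε / 2 * δ * m := by ring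
    rw [e1]
    linarith

/-- positive definiteness -/
lemma TW_le_zero {T : ℝ} {w : ℂ → ℝ} {c δ : ℝ} (hδ : 0 < δ) : TW T w c δ ≤ TW T w 0 δ := by
  classical
  -- two copies of the points with opposite signs
  set S := Zf riemannZeta 0 T with hS
  set y : Bool × ℂ → ℝ := fun k => xs T k.2 - (if k.1 then c else 0) with hy
  set v : Bool × ℂ → ℝ := fun k => if k.1 then -w k.2 else w k.2 with hv
  set K : Finset (Bool × ℂ) := Finset.univ ×ˢ S with hK
  obtain ⟨A, hA⟩ : ∃ A : ℝ, ∀ k ∈ K, |y k| ≤ A := by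
    refine ⟨∑ k ∈ K, |y k|, fun k hk => ?_⟩
    exact Finset.single_le_sum (f := fun k => |y k|) (fun _ _ => abs_nonneg _) hk
  have h := tri_ineq K v y (u := -|A|) (ℓ := 2 * |A| + δ) hδ (by positivity) (by
    intro k hk
    have h1 := abs_le.1 (hA k hk)
    have h2 := le_abs_self A
    constructor
    · linarith
    · linarith)
  have e1 : ∑ k ∈ K, v k = 0 := by
    rw [hK, Finset.sum_product]
    simp [hv]
  have e2 : ∑ k ∈ K, ∑ k' ∈ K, v k * v k' * hat δ (y k - y k') =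
      2 * TW T w 0 δ - 2 * TW T w c δ := by
    rw [hK]
    simp_rw [Finset.sum_product]
    rw [Fintype.sum_bool]
    simp_rw [Fintype.sum_bool]
    simp only [hv, hy, if_true, Bool.false_eq_true, if_false]
    simp_rw [Finset.sum_add_distrib]
    have a1 : ∑ s ∈ S, ∑ s' ∈ S, -w s * -w s' * hat δ (xs T s - c - (xs T s' - c)) =
        TW T w 0 δ := by
      unfold TW
      refine Finset.sum_congr rfl fun s _ => Finset.sum_congr rfl fun s' _ => ?_
      rw [neg_mul_neg]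
      congr 2
      ring
    have a2 : ∑ s ∈ S, ∑ s' ∈ S, -w s * w s' * hat δ (xs T s - c - (xs T s' - 0)) =
        -TW T w c δ := by
      unfold TW
      rw [← Finset.sum_neg_distrib]
      refine Finset.sum_congr rfl fun s _ => ?_
      rw [← Finset.sum_neg_distrib]
      refine Finset.sum_congr rfl fun s' _ => ?_
      rw [neg_mul, neg_mul]
      congr 3
      ring
    have a3 : ∑ s ∈ S, ∑ s' ∈ S, w s * -w s' * hat δ (xs T s - 0 - (xs T s' - c)) =
        -TW T w c δ := by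
      rw [← TW_neg]
      unfold TW
      rw [← Finset.sum_neg_distrib]
      refine Finset.sum_congr rfl fun s _ => ?_
      rw [← Finset.sum_neg_distrib]
      refine Finset.sum_congr rfl fun s' _ => ?_
      rw [mul_neg, neg_mul]
      congr 3
      ring
    have a4 : ∑ s ∈ S, ∑ s' ∈ S, w s * w s' * hat δ (xs T s - 0 - (xs T s' - 0)) =
        TW T w 0 δ := by
      unfold TW
      refine Finset.sum_congr rfl fun s _ => Finset.sum_congr rfl fun s' _ => ?_
      congr 2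
      ring
    rw [a1, a2, a3, a4]
    ring
  rw [e1, e2] at h
  have h3 : 0 ≤ (2 * |A| + δ) * (2 * TW T w 0 δ - 2 * TW T w c δ) := by
    refine le_trans (le_of_eq ?_) h
    ring
  have h4 : 0 ≤ 2 * TW T w 0 δ - 2 * TW T w c δ := nonneg_of_mul_nonneg_right h3 (by positivity)
  linarith

/-- in every arithmetic progression a positive proportion of the windows contain a positive
proportion of pairs -/
theorem main_prog (ρ : ℝ) (hρ : 0 < ρ) : ∃ c C κ T₀ : ℝ, 0 < c ∧ 0 < C ∧ 0 < κ ∧ 10 ≤ T₀ ∧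
    ∀ T : ℝ, T₀ ≤ T → ∀ w : ℂ → ℝ, Adm T w → ρ ≤ den T w → ∀ (K : ℕ) (b δ : ℝ), 0 < δ → δ ≤ 1 →
      C ≤ δ * K → K * |b| ≤ κ * XX T →
      c * δ * K ≤
        (((Finset.Icc 1 K).filter (fun k : ℕ => c * δ * XX T ≤ TW T w (k * b) δ)).card : ℝ) := by
  classical
  obtain ⟨C₀, hC, h⟩ := main_sum
  obtain ⟨κ, T₀, hκ, h10, h⟩ := h (min (ρ ^ 2 / 4) 1) (by positivity) (min_le_right _ _)
  obtain ⟨C₁, T₁, hC1, -, hd⟩ := diag
  refine ⟨min (ρ ^ 2 / 8) (ρ ^ 2 / (8 * C₁)), 4 * C₀ / ρ ^ 2, κ, max T₀ T₁, by positivity,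
    by positivity, hκ, h10.trans (le_max_left _ _), fun T hT w hw hρw K b δ hδ hδ1 hK hb => ?_⟩
  have g1 : T₀ ≤ T := (le_max_left _ _).trans hT
  have g2 : T₁ ≤ T := (le_max_right _ _).trans hT
  have hT1 : 1 < T := by linarith
  have hX := XX_pos hT1
  set c : ℝ := min (ρ ^ 2 / 8) (ρ ^ 2 / (8 * C₁)) with hc
  have hc1 : c ≤ ρ ^ 2 / 8 := min_le_left _ _
  have hc2 : c ≤ ρ ^ 2 / (8 * C₁) := min_le_right _ _
  have hK' : 4 * C₀ ≤ ρ ^ 2 * δ * K := by
    rw [div_le_iff₀ (by positivity)] at hK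
    linarith
  have hK0 : (0 : ℝ) < K := by
    by_contra hcon
    push Not at hcon
    have : ρ ^ 2 * δ * K ≤ 0 := mul_nonpos_of_nonneg_of_nonpos (by positivity) hcon
    linarith
  have h1 := h T g1 w hw K (fun i : Fin K => (i : ℝ) * b) δ hδ hδ1 (by
    intro i j
    rw [← sub_mul, abs_mul]
    refine le_trans ?_ hb
    refine mul_le_mul_of_nonneg_right ?_ (abs_nonneg _)
    have hi : ((i : ℕ) : ℝ) < K := by exact_mod_cast i.2
    have hj : ((j : ℕ) : ℝ) < K := by exact_mod_cast j.2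
    have hi0 : (0 : ℝ) ≤ ((i : ℕ) : ℝ) := Nat.cast_nonneg _
    have hj0 : (0 : ℝ) ≤ ((j : ℕ) : ℝ) := Nat.cast_nonneg _
    rw [abs_le]
    constructor <;> linarith)
  -- each difference `k` occurs at most `K` times with each sign
  set g : ℕ → ℝ := fun k => TW T w (k * b) δ with hg
  have hg0 : ∀ k, 0 ≤ g k := fun k => TW_nonneg hw _ _
  have hrow : ∀ i : Fin K, ∑ j ∈ Finset.univ.erase i, TW T w ((i : ℝ) * b - (j : ℝ) * b) δ ≤
      2 * ∑ k ∈ Finset.Icc 1 K, g k := by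
    intro i
    have e : ∀ j : Fin K, TW T w ((i : ℝ) * b - (j : ℝ) * b) δ =
        g (if (j : ℕ) < i then (i : ℕ) - j else (j : ℕ) - i) := by
      intro j
      simp only [hg]
      split_ifs with hij
      · rw [Nat.cast_sub hij.le]
        congr 1
        ring
      · rw [Nat.cast_sub (not_lt.1 hij), ← TW_neg]
        congr 1
        ring
    simp_rw [e]
    have hsplit : ∑ j ∈ Finset.univ.erase i, g (if (j : ℕ) < i then (i : ℕ) - j else (j : ℕ) - i) =
        (∑ j ∈ (Finset.univ.erase i).filter (fun j : Fin K => (j : ℕ) < i), g ((i : ℕ) - j)) +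
        ∑ j ∈ (Finset.univ.erase i).filter (fun j : Fin K => ¬ (j : ℕ) < i), g ((j : ℕ) - i) := by
      rw [← Finset.sum_filter_add_sum_filter_not (Finset.univ.erase i) (fun j : Fin K => (j : ℕ) < i)]
      congr 1
      · refine Finset.sum_congr rfl fun j hj => ?_
        rw [if_pos (Finset.mem_filter.1 hj).2]
      · refine Finset.sum_congr rfl fun j hj => ?_
        rw [if_neg (Finset.mem_filter.1 hj).2]
    rw [hsplit]
    have b1 : ∑ j ∈ (Finset.univ.erase i).filter (fun j : Fin K => (j : ℕ) < i), g ((i : ℕ) - j) ≤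
        ∑ k ∈ Finset.Icc 1 K, g k := by
      rw [← Finset.sum_image (s := (Finset.univ.erase i).filter (fun j : Fin K => (j : ℕ) < i))
        (g := fun j : Fin K => (i : ℕ) - (j : ℕ)) (f := g)]
      · refine Finset.sum_le_sum_of_subset_of_nonneg ?_ fun k _ _ => hg0 k
        intro k hk
        rw [Finset.mem_image] at hk
        obtain ⟨j, hj, rfl⟩ := hk
        rw [Finset.mem_filter] at hj
        rw [Finset.mem_Icc]
        have := i.2
        omega
      · intro j hj j' hj' hjj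
        rw [Finset.mem_coe, Finset.mem_filter] at hj hj'
        simp only at hjj
        apply Fin.ext
        omega
    have b2 : ∑ j ∈ (Finset.univ.erase i).filter (fun j : Fin K => ¬ (j : ℕ) < i), g ((j : ℕ) - i) ≤
        ∑ k ∈ Finset.Icc 1 K, g k := by
      rw [← Finset.sum_image (s := (Finset.univ.erase i).filter (fun j : Fin K => ¬ (j : ℕ) < i))
        (g := fun j : Fin K => (j : ℕ) - (i : ℕ)) (f := g)]
      · refine Finset.sum_le_sum_of_subset_of_nonneg ?_ fun k _ _ => hg0 k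
        intro k hk
        rw [Finset.mem_image] at hk
        obtain ⟨j, hj, rfl⟩ := hk
        rw [Finset.mem_filter, Finset.mem_erase] at hj
        have h3 : (j : ℕ) ≠ i := fun h => hj.1.1 (Fin.ext h)
        rw [Finset.mem_Icc]
        have := j.2
        omega
      · intro j hj j' hj' hjj
        rw [Finset.mem_coe, Finset.mem_filter] at hj hj'
        simp only at hjj
        apply Fin.ext
        omega
    linarith
  have h2 : (((den T w) ^ 2 - min (ρ ^ 2 / 4) 1) * δ * K ^ 2 - C₀ * K) * XX T ≤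
      K * (2 * ∑ k ∈ Finset.Icc 1 K, g k) := by
    refine h1.trans ?_
    calc _ ≤ ∑ _i : Fin K, 2 * ∑ k ∈ Finset.Icc 1 K, g k := Finset.sum_le_sum fun i _ => hrow i
      _ = _ := by simp
  have h3 : ρ ^ 2 / 4 * δ * K * XX T ≤ ∑ k ∈ Finset.Icc 1 K, g k := by
    have h4 : C₀ * K ≤ ρ ^ 2 / 4 * δ * K ^ 2 := by
      have : (4 * C₀) * K ≤ (ρ ^ 2 * δ * K) * K := by gcongr
      nlinarith
    have h41 : ρ ^ 2 * (3 / 4) ≤ (den T w) ^ 2 - min (ρ ^ 2 / 4) 1 := by
      have a1 : ρ ^ 2 ≤ (den T w) ^ 2 := pow_le_pow_left₀ hρ.le hρw 2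
      have a2 := min_le_left (ρ ^ 2 / 4) 1
      linarith
    have h42 : ρ ^ 2 * (3 / 4) * (δ * K ^ 2) ≤
        ((den T w) ^ 2 - min (ρ ^ 2 / 4) 1) * (δ * K ^ 2) :=
      mul_le_mul_of_nonneg_right h41 (by positivity)
    have h5 : (ρ ^ 2 / 2 * δ * K ^ 2) * XX T ≤ K * (2 * ∑ k ∈ Finset.Icc 1 K, g k) :=
      le_trans (mul_le_mul_of_nonneg_right (by linarith) hX.le) h2
    have h6 : (K : ℝ) * (2 * (ρ ^ 2 / 4 * δ * K * XX T)) ≤
        K * (2 * ∑ k ∈ Finset.Icc 1 K, g k) := by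
      refine le_trans (le_of_eq ?_) h5
      ring
    have h7 := le_of_mul_le_mul_left h6 hK0
    linarith
  -- upper bound for the sum
  have hup : ∀ k, g k ≤ C₁ * XX T := fun k => (TW_le_zero hδ).trans (hd T g2 δ hδ hδ1 w hw)
  set G := (Finset.Icc 1 K).filter (fun k : ℕ => c * δ * XX T ≤ TW T w (k * b) δ) with hG
  have h8 : ∑ k ∈ Finset.Icc 1 K, g k ≤ G.card * (C₁ * XX T) + K * (c * δ * XX T) := by
    rw [← Finset.sum_filter_add_sum_filter_not (Finset.Icc 1 K)
      (fun k : ℕ => c * δ * XX T ≤ TW T w (k * b) δ)]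
    refine add_le_add ?_ ?_
    · calc ∑ k ∈ G, g k ≤ ∑ _k ∈ G, C₁ * XX T := Finset.sum_le_sum fun k _ => hup k
        _ = _ := by simp
    · calc ∑ k ∈ (Finset.Icc 1 K).filter (fun k : ℕ => ¬ c * δ * XX T ≤ TW T w (k * b) δ), g k ≤
          ∑ _k ∈ (Finset.Icc 1 K).filter (fun k : ℕ => ¬ c * δ * XX T ≤ TW T w (k * b) δ),
            c * δ * XX T := Finset.sum_le_sum fun k hk =>
              (not_le.1 (Finset.mem_filter.1 hk).2).le
        _ ≤ ∑ _k ∈ Finset.Icc 1 K, c * δ * XX T :=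
            Finset.sum_le_sum_of_subset_of_nonneg (Finset.filter_subset _ _)
              fun _ _ _ => by positivity
        _ = _ := by simp
  have h9 : ρ ^ 2 / 8 * δ * K * XX T ≤ G.card * (C₁ * XX T) := by
    have h10 : K * (c * δ * XX T) ≤ K * (ρ ^ 2 / 8 * δ * XX T) := by gcongr
    linarith
  have h11 : (ρ ^ 2 / 8 * δ * K) * XX T ≤ (G.card * C₁) * XX T := by
    refine le_trans h9 (le_of_eq ?_)
    ring
  have h12 := le_of_mul_le_mul_right h11 hX
  calc c * δ * K ≤ ρ ^ 2 / (8 * C₁) * δ * K := by gcongr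
    _ = (ρ ^ 2 / 8 * δ * K) / C₁ := by field_simp
    _ ≤ G.card := by
        rw [div_le_iff₀ hC1]
        exact h12

end Pool.Agent.P8H16
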