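import Pool.Agent.P8H16.MD5
import Pool.Agent.P8H16.Short2

set_option autoImplicit false

/-! # The mean over dilates for the zeros of zeta -/

namespace Pool.Agent.P8H16.MD

open MeasureTheory Set Filter Topology
open H370 (Zf mult NN good_zeta zset)
open Pool.Agent.N804 (XX XX_pos NW PP)

/-- the multiplicity -/
noncomputable def mu (s : ℂ) : ℝ := (mult riemannZeta s : ℝ)

lemma mu_nonneg (s : ℂ) : 0 ≤ mu s := Nat.cast_nonneg _

lemma NW_eq (T α β : ℝ) : NW T α β = Cnt (Zf riemannZeta 0 T) mu (xs T) α β := by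
  classical
  unfold NW Cnt xs mu
  refine Finset.sum_congr rfl fun s _ => Finset.sum_congr rfl fun s' _ => ?_
  rw [← sub_div, ← sub_mul]

lemma PW_eq (T c δ : ℝ) : PW (Zf riemannZeta 0 T) mu (xs T) c δ =
    TW T (fun s => (mult riemannZeta s : ℝ)) c δ := rfl

lemma Cnt_symm {ι : Type*} (S : Finset ι) (m x : ι → ℝ) (α β : ℝ) :
    Cnt S m x (-β) (-α) = Cnt S m x α β := by
  classical
  unfold Cnt
  rw [Finset.sum_comm]
  refine Finset.sum_congr rfl fun s _ => Finset.sum_congr rfl fun s' _ => ?_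
  rw [mul_comm (m s')]
  refine if_congr ?_ rfl rfl
  constructor
  · rintro ⟨h1, h2⟩
    exact ⟨by linarith, by linarith⟩
  · rintro ⟨h1, h2⟩
    exact ⟨by linarith, by linarith⟩

/-- the number of pairs in an arbitrary window -/
theorem cnt_zeta : ∃ C : ℝ, 1 ≤ C ∧ ∀ v₀ L : ℝ, 0 ≤ L → ∀ᶠ T : ℝ in atTop,
    Cnt (Zf riemannZeta 0 T) mu (xs T) v₀ (v₀ + L) ≤ XX T * (L + C) := by
  classical
  obtain ⟨K, hK, hw⟩ := Pool.Agent.N804.win_pt
  obtain ⟨D, T₁, hD, h10, hd⟩ := diag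
  refine ⟨2 * D + 2 * K + 3, by linarith, fun v₀ L hL => ?_⟩
  set α₁ : ℝ := max v₀ (1 / 2) with hα₁
  set β₁ : ℝ := max (v₀ + L) (1 / 2) + 1 with hβ₁
  set α₃ : ℝ := max (-(v₀ + L)) (1 / 2) with hα₃
  set β₃ : ℝ := max (-v₀) (1 / 2) + 1 with hβ₃
  have a1 : 0 < α₁ := lt_of_lt_of_le (by norm_num) (le_max_right _ _)
  have a3 : 0 < α₃ := lt_of_lt_of_le (by norm_num) (le_max_right _ _)
  have b1 : α₁ < β₁ := by
    have : max v₀ (1 / 2) ≤ max (v₀ + L) (1 / 2) := max_le_max (by linarith) le_rfl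
    linarith
  have b3 : α₃ < β₃ := by
    have : max (-(v₀ + L)) (1 / 2) ≤ max (-v₀) (1 / 2) := max_le_max (by linarith) le_rfl
    linarith
  have hlen : (β₁ - α₁) + (β₃ - α₃) ≤ L + 2 := by
    rw [hβ₁, hα₁, hβ₃, hα₃]
    rcases le_total v₀ (1 / 2) with c1 | c1 <;> rcases le_total (v₀ + L) (1 / 2) with c2 | c2 <;>
      rcases le_total (-v₀) (1 / 2) with c3 | c3 <;>
      rcases le_total (-(v₀ + L)) (1 / 2) with c4 | c4 <;>
      simp only [c1, c2, c3, c4, max_eq_left, max_eq_right] <;> linarith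
  filter_upwards [hw α₁ β₁ a1 b1, hw α₃ β₃ a3 b3, eventually_ge_atTop T₁] with T g1 g3 gT
  have hT1 : 1 < T := by linarith
  have hX := XX_pos hT1
  have gd := hd T gT 1 one_pos le_rfl (fun s => (mult riemannZeta s : ℝ))
    (fun s _ => ⟨Nat.cast_nonneg _, le_rfl⟩)
  rw [← PW_eq] at gd
  have hwin : ∀ α β : ℝ, α < β → |NW T α β / XX T - (PP β - PP α)| ≤ K →
      Cnt (Zf riemannZeta 0 T) mu (xs T) α β ≤ (β - α + K) * XX T := by
    intro α β hαβ h
    rw [NW_eq] at h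
    have h1 := (abs_le.1 h).2
    have h2 := Pool.Agent.N804.PP_lip hαβ.le
    have h3 : Cnt (Zf riemannZeta 0 T) mu (xs T) α β / XX T ≤ β - α + K := by linarith
    rwa [div_le_iff₀ hX] at h3
  have w1 := hwin α₁ β₁ b1 g1
  have w3 := hwin α₃ β₃ b3 g3
  rw [← Cnt_symm] at w3
  have hsplit : Cnt (Zf riemannZeta 0 T) mu (xs T) v₀ (v₀ + L) ≤
      2 * PW (Zf riemannZeta 0 T) mu (xs T) 0 1 + Cnt (Zf riemannZeta 0 T) mu (xs T) α₁ β₁ +
        Cnt (Zf riemannZeta 0 T) mu (xs T) (-β₃) (-α₃) := by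
    unfold Cnt PW
    rw [Finset.mul_sum, ← Finset.sum_add_distrib, ← Finset.sum_add_distrib]
    refine Finset.sum_le_sum fun s _ => ?_
    rw [Finset.mul_sum, ← Finset.sum_add_distrib, ← Finset.sum_add_distrib]
    refine Finset.sum_le_sum fun s' _ => ?_
    have hmm : 0 ≤ mu s * mu s' := mul_nonneg (mu_nonneg _) (mu_nonneg _)
    set u : ℝ := xs T s - xs T s' with hu
    have hh : 0 ≤ hat 1 (u - 0) := hat_nonneg _ _
    have hp : ∀ p : Prop, [Decidable p] → 0 ≤ (if p then mu s * mu s' else 0) := by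
      intro p _
      split_ifs
      · exact hmm
      · exact le_rfl
    have h2h : 0 ≤ 2 * (mu s * mu s' * hat 1 (u - 0)) := by positivity
    by_cases hin : v₀ ≤ u ∧ u ≤ v₀ + L
    · rw [if_pos hin]
      rcases lt_or_ge (1 / 2) u with c1 | c1
      · have : α₁ ≤ u ∧ u ≤ β₁ := by
          refine ⟨max_le hin.1 c1.le, ?_⟩
          have := le_max_left (v₀ + L) (1 / 2)
          linarith [hin.2]
        rw [if_pos this]
        have := hp (-β₃ ≤ u ∧ u ≤ -α₃)
        linarith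
      · rcases lt_or_ge u (-(1 / 2)) with c2 | c2
        · have : -β₃ ≤ u ∧ u ≤ -α₃ := by
            constructor
            · have := le_max_left (-v₀) (1 / 2)
              linarith [hin.1]
            · have : max (-(v₀ + L)) (1 / 2) ≤ -u := max_le (by linarith [hin.2]) (by linarith)
              linarith
          rw [if_pos this]
          have := hp (α₁ ≤ u ∧ u ≤ β₁)
          linarith
        · have h1 : 1 / 2 ≤ hat 1 (u - 0) := by
            unfold hat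
            refine le_max_of_le_right ?_
            have : |u - 0| ≤ 1 / 2 := by
              rw [sub_zero, abs_le]
              exact ⟨c2, c1⟩
            linarith
          have h3 : mu s * mu s' ≤ 2 * (mu s * mu s' * hat 1 (u - 0)) := by nlinarith
          have h4 := hp (α₁ ≤ u ∧ u ≤ β₁)
          have h5 := hp (-β₃ ≤ u ∧ u ≤ -α₃)
          linarith
    · rw [if_neg hin]
      have h4 := hp (α₁ ≤ u ∧ u ≤ β₁)
      have h5 := hp (-β₃ ≤ u ∧ u ≤ -α₃)
      linarith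
  have h6 : ((β₁ - α₁) + (β₃ - α₃)) * XX T ≤ (L + 2) * XX T :=
    mul_le_mul_of_nonneg_right hlen hX.le
  nlinarith

/-- **The mean over dilates for the zeros of zeta.** -/
theorem zeta_main : ∃ C : ℝ, 0 < C ∧ ∀ (N : ℕ), 0 < N → ∀ a θ : Fin N → ℝ,
    (∀ i j : Fin N, i < j → (j : ℝ) - i ≤ a j - a i) → ∀ η B : ℝ, 0 < η → η ≤ 1 → 1 ≤ B →
    C * (1 + Real.log N) ≤ η ^ 7 * N → ∀ᶠ T : ℝ in atTop,
    ∃ E : Set ℝ, MeasurableSet E ∧ E ⊆ Icc 0 B ∧ volume.real E ≤ η * B ∧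
      ∀ b ∈ Icc 0 B, b ∉ E →
        (∑ s ∈ Bad (Zf riemannZeta 0 T) mu (xs T) (pos a θ b) η, mu s ≤ η * XX T) ∧
        ∀ u v : ℝ, -1 ≤ u → u ≤ v → v ≤ 1 →
          |(∑ n, Cnt (Zf riemannZeta 0 T) mu (xs T) (pos a θ b n + u) (pos a θ b n + v)) /
            (N * XX T) - (v - u)| ≤ η := by
  classical
  obtain ⟨C₁, hC₁, hcnt⟩ := cnt_zeta
  obtain ⟨C₂, T₂, hC₂, h10, hdiag⟩ := diag
  set C₀ : ℝ := C₁ + C₂ + 2 with hC₀
  have hC₀0 : 0 ≤ C₀ := by rw [hC₀]; linarith
  set C' : ℝ := 6 * C₀ ^ 2 + 6 * C₀ + 32 with hC'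
  have hC'0 : 0 < C' := by rw [hC']; positivity
  refine ⟨44944 * C', by positivity, fun N hN a θ ha η B hη hη1 hB hCN => ?_⟩
  have hN0 : (0 : ℝ) < N := by exact_mod_cast hN
  have hN1 : (1 : ℝ) ≤ N := by exact_mod_cast hN
  have hlog : 0 ≤ Real.log N := Real.log_nonneg hN1
  set ε : ℝ := min (1 / N) (η / 8) with hε
  have hε0 : 0 < ε := lt_min (by positivity) (by positivity)
  have hεN : ε ≤ 1 / N := min_le_left _ _
  have hεη : ε ≤ η / 8 := min_le_right _ _
  set B' : ℝ := (∑ n, |a n|) * B + (∑ n, |θ n|) + 2 with hB'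
  have hB'0 : 0 ≤ B' := by
    have h1 : 0 ≤ ∑ n, |a n| := Finset.sum_nonneg fun _ _ => abs_nonneg _
    have h2 : 0 ≤ ∑ n, |θ n| := Finset.sum_nonneg fun _ _ => abs_nonneg _
    rw [hB']
    positivity
  have hpos : ∀ n, ∀ b ∈ Icc (0 : ℝ) B, |pos a θ b n| + 2 ≤ B' := by
    intro n b hb
    have h1 : |a n| ≤ ∑ n, |a n| :=
      Finset.single_le_sum (f := fun n => |a n|) (fun _ _ => abs_nonneg _) (Finset.mem_univ n)
    have h2 : |θ n| ≤ ∑ n, |θ n| :=
      Finset.single_le_sum (f := fun n => |θ n|) (fun _ _ => abs_nonneg _) (Finset.mem_univ n)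
    have h3 : |pos a θ b n| ≤ |a n| * |b| + |θ n| := by
      unfold pos
      exact (abs_add_le _ _).trans (by rw [abs_mul])
    have h4 : |a n| * |b| ≤ (∑ n, |a n|) * B := by
      rw [abs_of_nonneg hb.1]
      exact mul_le_mul h1 hb.2 hb.1 ((abs_nonneg _).trans h1)
    rw [hB']
    linarith
  obtain ⟨q, hq1, hq2⟩ : ∃ q : ℕ, 24 / η ≤ q ∧ (q : ℝ) < 24 / η + 1 :=
    ⟨⌈24 / η⌉₊, Nat.le_ceil _, Nat.ceil_lt_add_one (by positivity)⟩
  have hq0 : (0 : ℝ) < q := lt_of_lt_of_le (by positivity) hq1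
  have hq : 0 < q := by exact_mod_cast hq0
  have h1η : 1 ≤ 1 / η := by rw [le_div_iff₀ hη]; linarith
  have hq3 : 2 * (q : ℝ) + 3 ≤ 53 / η := by
    have e : 53 / η = 48 / η + 5 * (1 / η) := by ring
    have e2 : 2 * (24 / η) = 48 / η := by ring
    rw [e]
    linarith
  have h24q : 24 / (q : ℝ) ≤ η := by
    rw [div_le_iff₀ hq0]
    rw [div_le_iff₀ hη] at hq1
    linarith
  obtain ⟨T₃, h310, hden⟩ := all_count hε0
  obtain ⟨T₄, hXl⟩ := XX_large ((2 * B' + 1) / ε)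
  have hcnt' : ∀ n j : Fin N, ∀ᶠ T : ℝ in atTop, a j < a n →
      Cnt (Zf riemannZeta 0 T) mu (xs T) (θ n - θ j - 1) (θ n - θ j + (a n - a j) * B + 1) ≤
        XX T * ((a n - a j) * B + C₀) := by
    intro n j
    rcases lt_or_ge (a j) (a n) with h1 | h1
    · have h2 : 0 ≤ (a n - a j) * B + 2 := by
        have : 0 ≤ (a n - a j) * B := mul_nonneg (by linarith) (by linarith)
        linarith
      filter_upwards [hcnt (θ n - θ j - 1) ((a n - a j) * B + 2) h2, eventually_gt_atTop 1]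
        with T hT hT1 _
      have e : θ n - θ j - 1 + ((a n - a j) * B + 2) = θ n - θ j + (a n - a j) * B + 1 := by ring
      rw [e] at hT
      refine hT.trans (mul_le_mul_of_nonneg_left ?_ (XX_pos hT1).le)
      rw [hC₀]
      linarith
    · exact Filter.Eventually.of_forall fun T hT => absurd hT (not_lt.2 h1)
  have hcnt2 : ∀ᶠ T : ℝ in atTop, ∀ n j : Fin N, a j < a n →
      Cnt (Zf riemannZeta 0 T) mu (xs T) (θ n - θ j - 1) (θ n - θ j + (a n - a j) * B + 1) ≤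
        XX T * ((a n - a j) * B + C₀) :=
    eventually_all.2 fun n => eventually_all.2 fun j => hcnt' n j
  filter_upwards [hcnt2, eventually_ge_atTop T₂, eventually_ge_atTop T₃, eventually_ge_atTop T₄]
    with T gc g2 g3 g4
  have hT1 : 1 < T := by linarith
  have hX := XX_pos hT1
  have hXl' := hXl T g4
  have hℓ : XX T + 2 * B' + 1 ≤ (1 + ε) * XX T := by
    rw [div_le_iff₀ hε0] at hXl'
    linarith
  obtain ⟨d1, d2⟩ := hden T g3
  have eM : ∑ s ∈ Zf riemannZeta 0 T, mu s = den T (fun s => (mult riemannZeta s : ℝ)) * XX T := by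
    unfold den mu
    field_simp
  have hM1 : (1 - ε) * XX T ≤ ∑ s ∈ Zf riemannZeta 0 T, mu s := by
    rw [eM]
    exact mul_le_mul_of_nonneg_right d1 hX.le
  have hM2 : ∑ s ∈ Zf riemannZeta 0 T, mu s ≤ (1 + ε) * XX T := by
    rw [eM]
    exact mul_le_mul_of_nonneg_right d2 hX.le
  have hq1' : (1 : ℝ) ≤ q := by exact_mod_cast hq
  have hPW : PW (Zf riemannZeta 0 T) mu (xs T) 0 (1 / q) ≤ C₀ * XX T := by
    rw [PW_eq]
    refine (hdiag T g2 (1 / q) (by positivity) (by rw [div_le_one hq0]; exact hq1')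
      (fun s => (mult riemannZeta s : ℝ)) (fun s _ => ⟨Nat.cast_nonneg _, le_rfl⟩)).trans ?_
    refine mul_le_mul_of_nonneg_right ?_ hX.le
    rw [hC₀]
    linarith
  have hmom := tot_moment (Zf riemannZeta 0 T) mu (xs T) (fun s _ => mu_nonneg s) hX hB hC₀0 hB'0
    (fun s hs => xs_mem hT1 hs) hN a θ ha hq hPW gc hε0.le hεN hM1 hM2 hpos hℓ
  set L : ℝ := η ^ 2 / 4 * XX T with hL
  have hL0 : 0 < L := by rw [hL]; positivity
  obtain ⟨E, hE1, hE2, hE3, hE4⟩ := markov (Tot_cont (Zf riemannZeta 0 T) mu (xs T) a θ q)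
    (by linarith) hL0 hmom
  refine ⟨E, hE1, hE2, ?_, ?_⟩
  · refine hE3.trans ?_
    rw [← hC', div_le_iff₀ (by positivity), hL]
    have h1 : (2 * (q : ℝ) + 3) ^ 2 ≤ (53 / η) ^ 2 := pow_le_pow_left₀ (by positivity) hq3 2
    have h2 : C' * ((1 + Real.log N) / N) ≤ η ^ 7 / 44944 := by
      rw [mul_div_assoc', div_le_iff₀ hN0, div_mul_eq_mul_div, le_div_iff₀ (by norm_num)]
      linarith
    calc (2 * (q : ℝ) + 3) ^ 2 * (C' * (B * XX T ^ 2 * ((1 + Real.log N) / N))) =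
        (2 * (q : ℝ) + 3) ^ 2 * (C' * ((1 + Real.log N) / N)) * (B * XX T ^ 2) := by ring
      _ ≤ (53 / η) ^ 2 * (η ^ 7 / 44944) * (B * XX T ^ 2) := by gcongr
      _ = η * B * (η ^ 2 / 4 * XX T) ^ 2 := by
          field_simp
          ring
  · intro b hb hbE
    have hTot := hE4 b hb hbE
    constructor
    · refine (bad_mass (Zf riemannZeta 0 T) mu (xs T) (fun s _ => mu_nonneg s) hN a θ hq hη ?_
        hTot).trans ?_
      · have e : 3 / (q : ℝ) = 24 / q * (1 / 8) := by ring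
        rw [e]
        linarith
      · rw [hL]
        have e : 2 * (η ^ 2 / 4 * XX T) / η = η * XX T / 2 := by field_simp; ring
        rw [e]
        have : 0 < η * XX T := by positivity
        linarith
    · intro u v hu huv hv
      refine (pairs_mean (Zf riemannZeta 0 T) mu (xs T) (fun s _ => mu_nonneg s) hN a θ hq hX hM1
        hM2 (hεη.trans (by linarith)) hTot hu huv hv).trans ?_
      have e1 : L / XX T = η ^ 2 / 4 := by rw [hL]; field_simp
      have e2 : 6 / (q : ℝ) = 24 / q * (1 / 4) := by ring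
      rw [e1, e2]
      have h1 : η ^ 2 ≤ η := by nlinarith
      linarith

end Pool.Agent.P8H16.MD
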