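import Pool.Agent.Y254.NR.Dual

set_option autoImplicit false

/-! # Sequences that are positive definite on a finite range -/

namespace Pool.Agent.P8H16

open Finset Pool.Agent.H514R3 Pool.Agent.Y254.NR

/-- `r - c` is positive semidefinite on the finite sets of diameter less than `N` -/
def PF (N : ℕ) (r : ℕ → ℝ) (c : ℝ) : Prop :=
  ∀ (s : Finset ℕ) (z : ℕ → ℝ), (∀ i ∈ s, ∀ j ∈ s, lag i j < N) →
    c * (∑ i ∈ s, z i) ^ 2 ≤ ∑ i ∈ s, ∑ j ∈ s, z i * z j * r (lag i j)

lemma sum_sq (s : Finset ℕ) (z : ℕ → ℝ) (c : ℝ) :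
    c * (∑ i ∈ s, z i) ^ 2 = ∑ i ∈ s, ∑ j ∈ s, z i * z j * c := by
  rw [sq, Finset.sum_mul_sum, Finset.mul_sum]
  refine Finset.sum_congr rfl fun i _ => ?_
  rw [Finset.mul_sum]
  exact Finset.sum_congr rfl fun j _ => by ring

/-- the matrix of a sequence -/
noncomputable def mat (s : Finset ℕ) (r : ℕ → ℝ) (c : ℝ) : Matrix s s ℝ :=
  Matrix.of fun i j => r (lag i j) - c

lemma mat_psd {N : ℕ} {r : ℕ → ℝ} {c : ℝ} (h : PF N r c) {s : Finset ℕ}
    (hs : ∀ i ∈ s, ∀ j ∈ s, lag i j < N) : (mat s r c).PosSemidef := by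
  classical
  rw [Matrix.posSemidef_iff_dotProduct_mulVec]
  refine ⟨?_, fun x => ?_⟩
  · ext i j
    simp only [mat, Matrix.conjTranspose_apply, Matrix.of_apply, star_trivial]
    rw [lag_comm]
  · set z : ℕ → ℝ := fun n => if hn : n ∈ s then x ⟨n, hn⟩ else 0 with hz
    have h1 := h s z hs
    rw [sum_sq] at h1
    have e : star x ⬝ᵥ Matrix.mulVec (mat s r c) x =
        (∑ i ∈ s, ∑ j ∈ s, z i * z j * r (lag i j)) - ∑ i ∈ s, ∑ j ∈ s, z i * z j * c := by
      rw [← Finset.sum_sub_distrib]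
      unfold dotProduct
      rw [← Finset.sum_coe_sort s]
      refine Finset.sum_congr rfl fun i _ => ?_
      rw [← Finset.sum_sub_distrib, ← Finset.sum_coe_sort s]
      unfold Matrix.mulVec dotProduct
      rw [Finset.mul_sum]
      refine Finset.sum_congr rfl fun j _ => ?_
      have hi : z i = x i := by simp [hz]
      have hj : z j = x j := by simp [hz]
      rw [hi, hj]
      simp only [mat, Matrix.of_apply, Pi.star_apply, star_trivial]
      ring
    rw [e]
    linarith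

lemma of_mat {N : ℕ} {r : ℕ → ℝ} {c : ℝ}
    (h : ∀ s : Finset ℕ, (∀ i ∈ s, ∀ j ∈ s, lag i j < N) → (mat s r c).PosSemidef) : PF N r c := by
  classical
  intro s z hs
  have h1 := (h s hs).dotProduct_mulVec_nonneg (fun i => z i)
  have e : star (fun i : s => z i) ⬝ᵥ Matrix.mulVec (mat s r c) (fun i : s => z i) =
      (∑ i ∈ s, ∑ j ∈ s, z i * z j * r (lag i j)) - ∑ i ∈ s, ∑ j ∈ s, z i * z j * c := by
    rw [← Finset.sum_sub_distrib]
    unfold dotProduct
    rw [← Finset.sum_coe_sort s]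
    refine Finset.sum_congr rfl fun i _ => ?_
    rw [← Finset.sum_sub_distrib, ← Finset.sum_coe_sort s]
    unfold Matrix.mulVec dotProduct
    rw [Finset.mul_sum]
    refine Finset.sum_congr rfl fun j _ => ?_
    simp only [mat, Matrix.of_apply, Pi.star_apply, star_trivial]
    ring
  rw [e] at h1
  rw [sum_sq]
  linarith

lemma PF.mono {N : ℕ} {r : ℕ → ℝ} {c d : ℝ} (h : PF N r c) (hd : d ≤ c) : PF N r d := fun s z hs =>
  (mul_le_mul_of_nonneg_right hd (sq_nonneg _)).trans (h s z hs)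

/-- products -/
theorem PF.mul {N : ℕ} {r t : ℕ → ℝ} {c d : ℝ} (hr : PF N r c) (ht : PF N t d) (hc : 0 ≤ c)
    (hd : 0 ≤ d) : PF N (fun n => r n * t n) (c * d) := by
  refine of_mat fun s hs => ?_
  have h1 := mat_psd hr hs
  have h2 := mat_psd (ht.mono hd) hs
  have h3 := mat_psd ht hs
  have e : mat s (fun n => r n * t n) (c * d) =
      (Matrix.hadamard (mat s r c) (mat s t 0)) + c • mat s t d := by
    ext i j
    simp only [mat, Matrix.of_apply, Matrix.hadamard_apply, Matrix.add_apply, Matrix.smul_apply,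
      smul_eq_mul]
    ring
  rw [e]
  exact (h1.hadamard h2).add (h3.smul hc)

theorem PF.prod {N : ℕ} {ι : Type*} (K : Finset ι) (r : ι → ℕ → ℝ) (c : ι → ℝ)
    (h : ∀ k ∈ K, PF N (r k) (c k)) (hc : ∀ k ∈ K, 0 ≤ c k) :
    PF N (fun n => ∏ k ∈ K, r k n) (∏ k ∈ K, c k) := by
  classical
  induction K using Finset.induction_on with
  | empty =>
    intro s z _
    simp only [Finset.prod_empty]
    rw [sum_sq]
  | insert a K ha ih =>
    simp only [Finset.prod_insert ha]
    exact (h a (Finset.mem_insert_self _ _)).mul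
      (ih (fun k hk => h k (Finset.mem_insert_of_mem hk)) fun k hk => hc k (Finset.mem_insert_of_mem hk))
      (hc a (Finset.mem_insert_self _ _))
      (Finset.prod_nonneg fun k hk => hc k (Finset.mem_insert_of_mem hk))

/-- the number of windows containing two points -/
lemma win_count {M N j k : ℕ} (hj : j < M) (hk : k < M) :
    (((range (M + N)).filter (fun l => (j < l ∧ l ≤ j + N) ∧ (k < l ∧ l ≤ k + N))).card : ℝ) =
      ((N - lag j k : ℕ) : ℝ) := by
  have e : (range (M + N)).filter (fun l => (j < l ∧ l ≤ j + N) ∧ (k < l ∧ l ≤ k + N)) =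
      Ioc (max j k) (min j k + N) := by
    ext l
    simp only [mem_filter, mem_range, mem_Ioc]
    omega
  rw [e, Nat.card_Ioc]
  congr 1
  unfold lag
  omega

/-- truncation -/
theorem PF.trunc {N : ℕ} {r : ℕ → ℝ} {c : ℝ} (h : PF N r c) :
    PD (fun n => ((N - n : ℕ) : ℝ) * (r n - c)) := by
  classical
  intro M a
  set W : ℕ → Finset ℕ := fun l => (range M).filter (fun j => j < l ∧ l ≤ j + N) with hW
  have e : ∑ j ∈ range M, ∑ k ∈ range M, a j * a k * (((N - lag j k : ℕ) : ℝ) * (r (lag j k) - c)) =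
      ∑ l ∈ range (M + N), ∑ j ∈ W l, ∑ k ∈ W l, a j * a k * (r (lag j k) - c) := by
    have e1 : ∀ l, ∑ j ∈ W l, ∑ k ∈ W l, a j * a k * (r (lag j k) - c) =
        ∑ j ∈ range M, ∑ k ∈ range M, if (j < l ∧ l ≤ j + N) ∧ (k < l ∧ l ≤ k + N) then
          a j * a k * (r (lag j k) - c) else 0 := by
      intro l
      simp only [hW]
      rw [Finset.sum_filter]
      refine Finset.sum_congr rfl fun j _ => ?_
      by_cases hjl : j < l ∧ l ≤ j + N
      · rw [if_pos hjl, Finset.sum_filter]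
        refine Finset.sum_congr rfl fun k _ => ?_
        by_cases hkl : k < l ∧ l ≤ k + N
        · rw [if_pos hkl, if_pos ⟨hjl, hkl⟩]
        · rw [if_neg hkl, if_neg fun h => hkl h.2]
      · rw [if_neg hjl]
        refine (Finset.sum_eq_zero fun k _ => if_neg fun h => hjl h.1).symm
    have e3 : ∀ G : ℕ → ℕ → ℕ → ℝ, ∑ l ∈ range (M + N), ∑ j ∈ range M, ∑ k ∈ range M, G l j k =
        ∑ j ∈ range M, ∑ k ∈ range M, ∑ l ∈ range (M + N), G l j k := by
      intro G
      rw [Finset.sum_comm]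
      refine Finset.sum_congr rfl fun j _ => ?_
      rw [Finset.sum_comm]
    simp_rw [e1]
    rw [e3]
    refine Finset.sum_congr rfl fun j hj => Finset.sum_congr rfl fun k hk => ?_
    rw [← Finset.sum_filter, Finset.sum_const, nsmul_eq_mul,
      win_count (mem_range.1 hj) (mem_range.1 hk)]
    ring
  show 0 ≤ ∑ j ∈ range M, ∑ k ∈ range M, a j * a k * (((N - lag j k : ℕ) : ℝ) * (r (lag j k) - c))
  rw [e]
  refine Finset.sum_nonneg fun l _ => ?_
  have h1 := h (W l) a (by
    intro i hi j hj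
    simp only [hW, mem_filter] at hi hj
    unfold lag
    omega)
  rw [sum_sq] at h1
  have e2 : ∑ j ∈ W l, ∑ k ∈ W l, a j * a k * (r (lag j k) - c) =
      (∑ j ∈ W l, ∑ k ∈ W l, a j * a k * r (lag j k)) - ∑ j ∈ W l, ∑ k ∈ W l, a j * a k * c := by
    rw [← Finset.sum_sub_distrib]
    refine Finset.sum_congr rfl fun j _ => ?_
    rw [← Finset.sum_sub_distrib]
    exact Finset.sum_congr rfl fun k _ => by ring
  rw [e2]
  linarith

/-- a cosine polynomial that is at least `-ε` and a sequence which is positive definite on a long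
range -/
theorem PF.exists {N : ℕ} {r : ℕ → ℝ} {c : ℝ} (h : PF N r c) (hc : 0 ≤ c) {ε : ℝ} {F : Finset ℕ}
    {a : ℕ → ℝ} (ha : ∀ n, 0 ≤ a n) (hε : 0 ≤ ε)
    (hsum : ∑ n ∈ F, a n = 1) (hx : ∀ x : ℝ, -ε ≤ ∑ n ∈ F, a n * Real.cos (n * x))
    (hN : ∀ n ∈ F, 2 * n ≤ N) (hN0 : 0 < N) : ∃ n ∈ F, c - 2 * ε * r 0 ≤ r n := by
  obtain ⟨n, hn, hle⟩ := exists_of_cos h.trunc ha hsum hx
  refine ⟨n, hn, ?_⟩
  simp only [Nat.sub_zero] at hle
  have h1 : 0 ≤ r 0 - c := by
    have h2 := h {0} (fun _ => 1) (by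
      intro i hi j hj
      rw [mem_singleton] at hi hj
      subst hi; subst hj
      unfold lag
      simpa using hN0)
    have e : lag 0 0 = 0 := by unfold lag; simp
    simp only [Finset.sum_singleton, e] at h2
    linarith
  have hNn : (N : ℝ) ≤ 2 * ((N - n : ℕ) : ℝ) := by
    have := hN n hn
    have h3 : N ≤ 2 * (N - n) := by omega
    exact_mod_cast h3
  have hNR : (0 : ℝ) < N := by exact_mod_cast hN0
  by_contra hcon
  push Not at hcon
  set D : ℝ := ((N - n : ℕ) : ℝ) with hD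
  have hD0 : 0 < D := by linarith
  have h4 : D * (r n - c) < D * (-(2 * ε * r 0)) := by
    apply mul_lt_mul_of_pos_left _ hD0
    linarith
  have h5 : D * (2 * ε * r 0) < ε * (N * (r 0 - c)) := by linarith
  have hr0 : 0 ≤ r 0 := by linarith
  have h6 : ε * (N * (r 0 - c)) ≤ ε * (2 * D * r 0) := by
    apply mul_le_mul_of_nonneg_left _ hε
    calc (N : ℝ) * (r 0 - c) ≤ 2 * D * (r 0 - c) := mul_le_mul_of_nonneg_right hNn h1
      _ ≤ 2 * D * r 0 := by
        apply mul_le_mul_of_nonneg_left _ (by positivity)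
        linarith
  linarith

end Pool.Agent.P8H16
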