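import Pool.Agent.Y254.NR.Dual
import Pool.Agent.R509.PP.Poly

set_option autoImplicit false

/-! # The values of a polynomial and positive definite sequences -/

namespace Pool.Agent.P8H16

open Finset Polynomial Filter Topology MeasureTheory
open Pool.Agent.H514R3 Pool.Agent.Y254.NR

lemma weyl_tendsto (d : ℕ) (hd : 1 ≤ d) (φ : ℝ[X]) (hφ : φ.natDegree ≤ d)
    (hirr : Irrational (φ.coeff d)) :
    Tendsto (fun K : ℕ => (1 / (K : ℝ)) * ∑ n ∈ range K,
      Real.cos (2 * Real.pi * φ.eval (n : ℝ))) atTop (𝓝 0) := by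
  rw [Metric.tendsto_atTop]
  intro δ hδ
  obtain ⟨W, hW1, hW⟩ := Pool.Agent.R509.PP.weyl_inv d hd (δ / 2) (by positivity)
  set y : ℝ := (d.factorial : ℝ) * φ.coeff d with hy
  have h1 : ∀ q ∈ Icc 1 ⌊W⌋₊, ∀ᶠ K : ℕ in atTop, W / (K : ℝ) ^ d < |q * y - round (q * y)| := by
    intro q hq
    have hq1 : 1 ≤ q := (mem_Icc.1 hq).1
    have hpos : 0 < |q * y - round (q * y)| := by
      rw [abs_pos]
      intro h0
      have h2 : Irrational (q * y) := by
        rw [hy, ← mul_assoc]
        have h3 : ((q : ℝ) * (d.factorial : ℝ)) = ((q * d.factorial : ℕ) : ℝ) := by push_cast; ring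
        rw [h3]
        exact hirr.natCast_mul (by positivity)
      exact h2 ⟨(round (q * y) : ℤ), by push_cast; linarith⟩
    have h2 : Tendsto (fun K : ℕ => W / (K : ℝ) ^ d) atTop (𝓝 0) := by
      apply Tendsto.const_div_atTop
      exact (tendsto_pow_atTop (by omega)).comp tendsto_natCast_atTop_atTop
    exact h2.eventually_lt_const hpos
  have h2 := (Filter.eventually_all_finset (Icc 1 ⌊W⌋₊)).2 h1
  obtain ⟨K₀, hK₀⟩ := eventually_atTop.1 h2
  refine ⟨max K₀ 1, fun K hK => ?_⟩
  have hK1 : 1 ≤ K := (le_max_right _ _).trans hK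
  have hK2 := hK₀ K ((le_max_left _ _).trans hK)
  have hKR : (0 : ℝ) < K := by exact_mod_cast hK1
  have h3 : ‖∑ n ∈ range K, Pool.Agent.R509.CD.E (φ.eval (n : ℝ))‖ ≤ δ / 2 * K := by
    by_contra hcon
    push Not at hcon
    obtain ⟨q, hq1, hqW, a, ha⟩ := hW K φ hK1 hφ hcon
    have h4 := hK2 q (mem_Icc.2 ⟨hq1, Nat.le_floor hqW⟩)
    have h5 := round_le (q * y) a
    linarith
  have h4 : |∑ n ∈ range K, Real.cos (2 * Real.pi * φ.eval (n : ℝ))| ≤ δ / 2 * K := by
    refine le_trans ?_ h3
    have e : ∑ n ∈ range K, Real.cos (2 * Real.pi * φ.eval (n : ℝ)) =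
        (∑ n ∈ range K, Pool.Agent.R509.CD.E (φ.eval (n : ℝ))).re := by
      rw [Complex.re_sum]
      refine Finset.sum_congr rfl fun n _ => ?_
      unfold Pool.Agent.R509.CD.E
      rw [Complex.exp_re]
      simp
    rw [e]
    exact Complex.abs_re_le_norm _
  rw [Real.dist_eq, sub_zero, abs_mul, abs_of_pos (by positivity : 0 < 1 / (K : ℝ))]
  calc 1 / (K : ℝ) * |∑ n ∈ range K, Real.cos (2 * Real.pi * φ.eval (n : ℝ))| ≤
      1 / (K : ℝ) * (δ / 2 * K) := by gcongr
    _ = δ / 2 := by field_simp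
    _ < δ := by linarith

/-- the absolute values of the nonzero values of a polynomial at the positive integers -/
def vals (P : ℤ[X]) : Set ℕ :=
  {n | ∃ m : ℕ, 1 ≤ m ∧ P.eval (m : ℤ) ≠ 0 ∧ (P.eval (m : ℤ)).natAbs = n}

lemma no_root (P : ℤ[X]) (hP : P ≠ 0) : ∃ B : ℕ, ∀ m : ℕ, B ≤ m → P.eval (m : ℤ) ≠ 0 := by
  classical
  refine ⟨P.roots.toFinset.sup Int.natAbs + 1, fun m hm h0 => ?_⟩
  have h1 : (m : ℤ) ∈ P.roots.toFinset := by
    rw [Multiset.mem_toFinset, mem_roots hP]
    exact h0
  have h2 := Finset.le_sup (f := Int.natAbs) h1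
  simp only [Int.natAbs_natCast] at h2
  omega

/-- the rational multiples of `2π` with denominator dividing `q!` -/
def EE (q : ℕ) : Set ℝ := {x | ∃ a : ℤ, (q.factorial : ℝ) * x = 2 * Real.pi * a}

/-- the rational multiples of `2π` -/
def RR : Set ℝ := ⋃ q, EE q

lemma EE_countable (q : ℕ) : (EE q).Countable := by
  have h : EE q ⊆ Set.range (fun a : ℤ => 2 * Real.pi * a / (q.factorial : ℝ)) := by
    rintro x ⟨a, ha⟩
    refine ⟨a, ?_⟩
    have : (0 : ℝ) < (q.factorial : ℝ) := by exact_mod_cast q.factorial_pos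
    simp only
    rw [← ha]
    field_simp
  exact (Set.countable_range _).mono h

lemma RR_countable : RR.Countable := Set.countable_iUnion EE_countable

lemma EE_mono {q q' : ℕ} (h : q ≤ q') : EE q ⊆ EE q' := by
  rintro x ⟨a, ha⟩
  obtain ⟨k, hk⟩ := Nat.factorial_dvd_factorial h
  refine ⟨k * a, ?_⟩
  rw [hk]
  push_cast
  calc (q.factorial : ℝ) * k * x = k * ((q.factorial : ℝ) * x) := by ring
    _ = _ := by rw [ha]; ring

lemma mem_RR {x : ℝ} (h : ¬ Irrational (x / (2 * Real.pi))) : x ∈ RR := by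
  unfold Irrational at h
  push Not at h
  obtain ⟨r, hr⟩ := h
  have hpi := Real.pi_pos
  have hx : x = 2 * Real.pi * r := by
    rw [hr]; field_simp
  refine Set.mem_iUnion.2 ⟨r.den, ?_⟩
  obtain ⟨k, hk⟩ := Nat.dvd_factorial r.pos le_rfl
  refine ⟨k * r.num, ?_⟩
  rw [hx, hk]
  have h1 : (r.den : ℝ) * (r : ℝ) = r.num := by
    have := Rat.den_mul_eq_num r
    exact_mod_cast this
  push_cast
  calc (r.den : ℝ) * k * (2 * Real.pi * r) = 2 * Real.pi * (k * ((r.den : ℝ) * r)) := by ring
    _ = _ := by rw [h1]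

/-- **the values of an intersective polynomial** -/
theorem pdN_poly (P : ℤ[X]) (hdeg : 1 ≤ P.natDegree)
    (hint : ∀ q : ℕ, 1 ≤ q → ∃ m : ℕ, (q : ℤ) ∣ P.eval (m : ℤ)) : PDN (vals P) := by
  classical
  intro r hr ε hε
  obtain ⟨σ, hσf, -, hσ⟩ := herglotz r hr
  by_contra hcon
  push Not at hcon
  have hpi := Real.pi_pos
  -- the remaining rational points have small measure
  have hEm : ∀ q, MeasurableSet (EE q) := fun q => (EE_countable q).measurableSet
  have hRm : MeasurableSet RR := RR_countable.measurableSet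
  have h1 : Tendsto (fun q => σ (RR \ EE q)) atTop (𝓝 0) := by
    have h2 := tendsto_measure_iInter_atTop (μ := σ) (s := fun q : ℕ => RR \ EE q)
      (fun q => (hRm.diff (hEm q)).nullMeasurableSet)
      (fun q q' h => Set.sdiff_subset_sdiff_right (EE_mono h)) ⟨0, measure_ne_top _ _⟩
    have h3 : ⋂ q, RR \ EE q = ∅ := by
      ext x
      simp only [Set.mem_iInter, Set.mem_sdiff, Set.mem_empty_iff_false, iff_false, not_forall]
      by_cases hx : x ∈ RR
      · obtain ⟨q, hq⟩ := Set.mem_iUnion.1 hx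
        exact ⟨q, fun h => h.2 hq⟩
      · exact ⟨0, fun h => hx h.1⟩
    rw [h3, measure_empty] at h2
    exact h2
  obtain ⟨Q, hQ⟩ := (h1.eventually_lt_const
    (show (0 : ENNReal) < ENNReal.ofReal (ε / 4) from ENNReal.ofReal_pos.2 (by positivity))).exists
  set q : ℕ := Q.factorial with hq
  have hq0 : 0 < q := Nat.factorial_pos _
  obtain ⟨m₀, hm₀⟩ := hint q hq0
  obtain ⟨B₀, hB₀⟩ := no_root P (by
    intro h0
    rw [h0, natDegree_zero] at hdeg
    omega)
  obtain ⟨m, hm1, hmB, hm⟩ : ∃ m : ℕ, 1 ≤ m ∧ B₀ ≤ m ∧ (q : ℤ) ∣ P.eval (m : ℤ) := by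
    refine ⟨m₀ + q * (B₀ + 1), ?_, ?_, ?_⟩
    · have : 1 ≤ q * (B₀ + 1) := Nat.mul_pos hq0 (Nat.succ_pos _)
      omega
    · have : B₀ + 1 ≤ q * (B₀ + 1) := Nat.le_mul_of_pos_left _ hq0
      omega
    · have h2 := P.sub_dvd_eval_sub ((m₀ + q * (B₀ + 1) : ℕ) : ℤ) (m₀ : ℤ)
      have h3 : (((m₀ + q * (B₀ + 1) : ℕ) : ℤ) - (m₀ : ℤ)) = q * (B₀ + 1) := by push_cast; ring
      rw [h3] at h2
      have h4 := dvd_add ((Dvd.intro _ rfl).trans h2) hm₀
      rwa [sub_add_cancel] at h4
  set u : ℕ → ℤ := fun j => P.eval (((m + q * j : ℕ)) : ℤ) with hu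
  have hud : ∀ j, (q : ℤ) ∣ u j := by
    intro j
    have h2 := P.sub_dvd_eval_sub ((m + q * j : ℕ) : ℤ) (m : ℤ)
    have h3 : (((m + q * j : ℕ) : ℤ) - (m : ℤ)) = q * j := by push_cast; ring
    rw [h3] at h2
    have h4 := dvd_add ((Dvd.intro _ rfl).trans h2) hm
    rwa [sub_add_cancel] at h4
  have hcos : ∀ (j : ℕ) (x : ℝ), Real.cos (((u j).natAbs : ℝ) * x) = Real.cos ((u j : ℝ) * x) := by
    intro j x
    rw [Nat.cast_natAbs]
    push_cast
    rw [← Real.cos_abs, abs_mul, abs_abs, ← abs_mul, Real.cos_abs]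
  set f : ℕ → ℝ → ℝ := fun J x => (1 / (J : ℝ)) * ∑ j ∈ range J, Real.cos ((u j : ℝ) * x) with hf
  have hfb : ∀ J x, |f J x| ≤ 1 := by
    intro J x
    simp only [hf]
    rcases Nat.eq_zero_or_pos J with hJ | hJ
    · subst hJ; simp
    have hJR : (0 : ℝ) < J := by exact_mod_cast hJ
    rw [abs_mul, abs_of_pos (by positivity : 0 < 1 / (J : ℝ))]
    calc 1 / (J : ℝ) * |∑ j ∈ range J, Real.cos ((u j : ℝ) * x)| ≤ 1 / (J : ℝ) * J := by
          gcongr
          refine (Finset.abs_sum_le_sum_abs _ _).trans ?_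
          refine (Finset.sum_le_sum fun j _ => Real.abs_cos_le_one _).trans ?_
          simp
      _ = 1 := by field_simp
  have hfc : ∀ J, Continuous (f J) := by
    intro J
    simp only [hf]
    fun_prop
  have hfi : ∀ J, Integrable (f J) σ := fun J =>
    Integrable.mono' (g := fun _ => (1 : ℝ)) (integrable_const _) (hfc J).aestronglyMeasurable
      (Filter.Eventually.of_forall fun x => by rw [Real.norm_eq_abs]; exact hfb J x)
  -- the averages of the sequence
  have hint2 : ∀ J : ℕ, 1 ≤ J → ∫ x, f J x ∂σ ≤ -ε := by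
    intro J hJ
    have hJR : (0 : ℝ) < J := by exact_mod_cast hJ
    have e : ∫ x, f J x ∂σ = (1 / (J : ℝ)) * ∑ j ∈ range J, r (u j).natAbs := by
      simp only [hf]
      rw [integral_const_mul, integral_finsetSum]
      · congr 1
        refine Finset.sum_congr rfl fun j _ => ?_
        rw [hσ (u j).natAbs]
        simp_rw [hcos]
      · intro j _
        exact Integrable.mono' (g := fun _ => (1 : ℝ)) (integrable_const _)
          (by fun_prop : Continuous fun x : ℝ => Real.cos ((u j : ℝ) * x)).aestronglyMeasurable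
          (Filter.Eventually.of_forall fun x => by
            rw [Real.norm_eq_abs]; exact Real.abs_cos_le_one _)
    rw [e]
    calc 1 / (J : ℝ) * ∑ j ∈ range J, r (u j).natAbs ≤ 1 / (J : ℝ) * ∑ _j ∈ range J, -ε := by
          gcongr with j _
          exact hcon _ ⟨m + q * j, by omega, hB₀ _ (by omega), rfl⟩
      _ = -ε := by
          rw [Finset.sum_const, card_range, nsmul_eq_mul]
          field_simp
  -- pointwise limits
  set B : Set ℝ := RR \ EE Q with hB
  have hBm : MeasurableSet B := hRm.diff (hEm Q)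
  have hlim : ∀ x, Tendsto (fun J => Bᶜ.indicator (f J) x) atTop (𝓝 ((EE Q).indicator (fun _ => (1 : ℝ)) x)) := by
    intro x
    by_cases hxB : x ∈ B
    · have h2 : x ∉ Bᶜ := fun h => h hxB
      have h3 : x ∉ EE Q := hxB.2
      simp only [Set.indicator_of_notMem h2, Set.indicator_of_notMem h3]
      exact tendsto_const_nhds
    · have h2 : x ∈ Bᶜ := hxB
      simp only [Set.indicator_of_mem h2]
      by_cases hxE : x ∈ EE Q
      · rw [Set.indicator_of_mem hxE]
        obtain ⟨a, ha⟩ := hxE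
        have h3 : ∀ j, Real.cos ((u j : ℝ) * x) = 1 := by
          intro j
          obtain ⟨v, hv⟩ := hud j
          rw [hv]
          have h4 : (((q : ℤ) * v : ℤ) : ℝ) * x = ((v * a : ℤ) : ℝ) * (2 * Real.pi) := by
            push_cast
            calc (q : ℝ) * v * x = v * ((q : ℝ) * x) := by ring
              _ = _ := by rw [ha]; ring
          rw [h4, Real.cos_int_mul_two_pi]
        refine tendsto_const_nhds.congr' ?_
        filter_upwards [eventually_ge_atTop 1] with J hJ
        have hJR : (0 : ℝ) < J := by exact_mod_cast hJ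
        simp only [hf, h3]
        simp
        field_simp
      · rw [Set.indicator_of_notMem hxE]
        have hxR : x ∉ RR := fun h => hxB ⟨h, hxE⟩
        have hirr : Irrational (x / (2 * Real.pi)) := by
          by_contra hcon2
          exact hxR (mem_RR hcon2)
        set d := P.natDegree with hd
        set φ : ℝ[X] := C (x / (2 * Real.pi)) *
          (P.map (Int.castRingHom ℝ)).comp (C (q : ℝ) * X + C (m : ℝ)) with hφ
        have hlin : (C (q : ℝ) * X + C (m : ℝ)).natDegree = 1 :=
          natDegree_linear (by exact_mod_cast hq0.ne')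
        have hPd : (P.map (Int.castRingHom ℝ)).natDegree = d :=
          natDegree_map_eq_of_injective (RingHom.injective_int _) _
        have hdeg2 : ((P.map (Int.castRingHom ℝ)).comp (C (q : ℝ) * X + C (m : ℝ))).natDegree = d := by
          rw [natDegree_comp, hPd, hlin, mul_one]
        have hφd : φ.natDegree ≤ d := (natDegree_C_mul_le _ _).trans hdeg2.le
        have hcoef : φ.coeff d = (x / (2 * Real.pi)) * ((P.leadingCoeff * (q : ℤ) ^ d : ℤ) : ℝ) := by
          rw [hφ, coeff_C_mul]
          congr 1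
          have h4 : ((P.map (Int.castRingHom ℝ)).comp (C (q : ℝ) * X + C (m : ℝ))).coeff d =
              ((P.map (Int.castRingHom ℝ)).comp (C (q : ℝ) * X + C (m : ℝ))).leadingCoeff := by
            unfold leadingCoeff
            rw [hdeg2]
          rw [h4, leadingCoeff_comp (by rw [hlin]; norm_num), hPd,
            leadingCoeff_linear (by exact_mod_cast hq0.ne'),
            leadingCoeff_map_of_injective (RingHom.injective_int _)]
          push_cast
          simp
        have hlead : P.leadingCoeff * (q : ℤ) ^ d ≠ 0 := by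
          refine mul_ne_zero ?_ (pow_ne_zero _ (by exact_mod_cast hq0.ne'))
          rw [Ne, leadingCoeff_eq_zero]
          intro h0
          rw [hd, h0, natDegree_zero] at hdeg
          omega
        have h5 := weyl_tendsto d hdeg φ hφd (by
          rw [hcoef]
          exact hirr.mul_intCast hlead)
        refine h5.congr fun J => ?_
        simp only [hf]
        congr 1
        refine Finset.sum_congr rfl fun j _ => ?_
        congr 1
        rw [hφ, eval_mul, eval_C, eval_comp, eval_add, eval_mul, eval_C, eval_X, eval_C]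
        have h6 : (P.map (Int.castRingHom ℝ)).eval ((q : ℝ) * (j : ℝ) + (m : ℝ)) = (u j : ℝ) := by
          simp only [hu]
          have h7 : ((q : ℝ) * (j : ℝ) + (m : ℝ)) = ((((m + q * j : ℕ)) : ℤ) : ℝ) := by
            push_cast; ring
          rw [h7, eval_intCast_map]
          rfl
        rw [h6]
        field_simp
  have hdom := tendsto_integral_of_dominated_convergence (μ := σ)
    (F := fun J x => Bᶜ.indicator (f J) x) (f := (EE Q).indicator (fun _ => (1 : ℝ)))
    (fun _ => (1 : ℝ))
    (fun J => ((hfc J).measurable.indicator hBm.compl).aestronglyMeasurable) (integrable_const _)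
    (fun J => Filter.Eventually.of_forall fun x => by
      by_cases hx : x ∈ Bᶜ
      · simp only [Set.indicator_of_mem hx]
        rw [Real.norm_eq_abs]
        exact hfb J x
      · simp only [Set.indicator_of_notMem hx, norm_zero]
        exact zero_le_one)
    (Filter.Eventually.of_forall hlim)
  have hE0 : 0 ≤ ∫ x, (EE Q).indicator (fun _ => (1 : ℝ)) x ∂σ :=
    integral_nonneg fun x => Set.indicator_nonneg (fun _ _ => zero_le_one) x
  obtain ⟨J, hJ1, hJ2⟩ := ((hdom.eventually_const_lt
    (show -(ε / 4) < ∫ x, (EE Q).indicator (fun _ => (1 : ℝ)) x ∂σ by linarith)).and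
    (eventually_ge_atTop 1)).exists
  have hsplit : ∫ x, f J x ∂σ = (∫ x, Bᶜ.indicator (f J) x ∂σ) + ∫ x, B.indicator (f J) x ∂σ := by
    rw [← integral_add ((hfi J).indicator hBm.compl) ((hfi J).indicator hBm)]
    congr 1
    ext x
    by_cases hx : x ∈ B
    · have h2 : x ∉ Bᶜ := fun h => h hx
      rw [Set.indicator_of_notMem h2, Set.indicator_of_mem hx, zero_add]
    · have h2 : x ∈ Bᶜ := hx
      rw [Set.indicator_of_mem h2, Set.indicator_of_notMem hx, add_zero]
  have hBs : -(ε / 4) ≤ ∫ x, B.indicator (f J) x ∂σ := by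
    have h2 : ∫ x, B.indicator (fun _ => (-1 : ℝ)) x ∂σ ≤ ∫ x, B.indicator (f J) x ∂σ := by
      refine integral_mono ((integrable_const _).indicator hBm) ((hfi J).indicator hBm) fun x => ?_
      by_cases hx : x ∈ B
      · rw [Set.indicator_of_mem hx, Set.indicator_of_mem hx]
        have := abs_le.1 (hfb J x)
        linarith
      · rw [Set.indicator_of_notMem hx, Set.indicator_of_notMem hx]
    have h3 : ∫ x, B.indicator (fun _ => (-1 : ℝ)) x ∂σ = -σ.real B := by
      rw [integral_indicator_const _ hBm]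
      simp
    have h4 : σ.real B ≤ ε / 4 := by
      rw [measureReal_def]
      exact ENNReal.toReal_le_of_le_ofReal (by positivity) hQ.le
    linarith
  have := hint2 J hJ2
  linarith

end Pool.Agent.P8H16
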