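import Pool.Agent.P8H16.Short2
import Pool.Agent.P8H16.Rec1

set_option autoImplicit false

/-! # Short windows at the multiples `n b`, `n` in a set of recurrence -/

namespace Pool.Agent.P8H16

open MeasureTheory Set Filter Topology
open H370 (Zf mult NN good_zeta zset)
open Pool.Agent.N804 (XX XX_pos)
open Pool.Agent.H514R3 Pool.Agent.Y254.NR

lemma lag_cast (i j : ℕ) (b : ℝ) (T : ℝ) (w : ℂ → ℝ) (δ : ℝ) :
    TW T w (((i : ℝ) - j) * b) δ = TW T w ((lag i j : ℕ) * b) δ := by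
  have h : ((lag i j : ℕ) : ℝ) = |(i : ℝ) - j| := by
    unfold lag
    rw [Nat.cast_natAbs]
    push_cast
    rfl
  rw [h]
  rcases abs_choice ((i : ℝ) - j) with h1 | h1
  · rw [h1]
  · rw [h1, neg_mul, TW_neg]

/-- the windows minus the mean part are positive definite on a long range -/
lemma TW_PF {w : ℂ → ℝ} {T κ e δ : ℝ} (hT : 1 < T) (hκ : 0 ≤ κ) (hw : Adm T w) (hδ : 0 < δ)
    (hδ1 : δ ≤ 1) (he : 0 < e) (hκe : 2 * κ + 1 / XX T ≤ e) {N : ℕ} {b : ℝ}
    (hb : N * |b| ≤ κ * XX T) :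
    PF N (fun n => TW T w (n * b) δ) ((den T w) ^ 2 / (1 + e) * (δ * XX T)) := by
  classical
  intro s z hs
  have hX := XX_pos hT
  rcases s.eq_empty_or_nonempty with h0 | ⟨i₀, hi₀⟩
  · subst h0
    simp
  set S := Zf riemannZeta 0 T with hS
  have h := tri_ineq (s ×ˢ S) (fun k : ℕ × ℂ => z k.1 * w k.2)
    (fun k => xs T k.2 - k.1 * b) (u := -(i₀ * b) - κ * XX T) (ℓ := XX T + 2 * (κ * XX T) + δ) hδ
    (by positivity) (by
      rintro ⟨i, x⟩ hk
      rw [Finset.mem_product] at hk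
      obtain ⟨h1, h2⟩ := xs_mem hT hk.2
      have h3 : |(i₀ : ℝ) * b - i * b| ≤ κ * XX T := by
        refine le_trans ?_ hb
        rw [← sub_mul, abs_mul]
        refine mul_le_mul_of_nonneg_right ?_ (abs_nonneg _)
        have h4 := hs i₀ hi₀ i hk.1
        have h5 : ((lag i₀ i : ℕ) : ℝ) = |(i₀ : ℝ) - i| := by
          unfold lag
          rw [Nat.cast_natAbs]
          push_cast
          rfl
        rw [← h5]
        exact_mod_cast h4.le
      have h6 := abs_le.1 h3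
      constructor
      · simp only; linarith
      · simp only; linarith)
  have e1 : ∑ k ∈ s ×ˢ S, z (k : ℕ × ℂ).1 * w (k : ℕ × ℂ).2 = (∑ i ∈ s, z i) * ∑ x ∈ S, w x := by
    rw [Finset.sum_product, Finset.sum_mul_sum]
  have e2 : ∑ k ∈ s ×ˢ S, ∑ k' ∈ s ×ˢ S,
      z (k : ℕ × ℂ).1 * w (k : ℕ × ℂ).2 * (z (k' : ℕ × ℂ).1 * w (k' : ℕ × ℂ).2) *
        hat δ (xs T k.2 - k.1 * b - (xs T k'.2 - k'.1 * b)) =
      ∑ i ∈ s, ∑ j ∈ s, z i * z j * TW T w ((lag i j : ℕ) * b) δ := by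
    rw [Finset.sum_product]
    refine Finset.sum_congr rfl fun i _ => ?_
    have : ∀ x ∈ S, ∑ k' ∈ s ×ˢ S, z i * w x * (z (k' : ℕ × ℂ).1 * w (k' : ℕ × ℂ).2) *
        hat δ (xs T x - i * b - (xs T k'.2 - k'.1 * b)) =
        ∑ j ∈ s, ∑ x' ∈ S, z i * z j * (w x * w x' * hat δ (xs T x - xs T x' - ((i : ℝ) - j) * b)) := by
      intro x _
      rw [Finset.sum_product]
      refine Finset.sum_congr rfl fun j _ => Finset.sum_congr rfl fun x' _ => ?_
      have e3 : xs T x - i * b - (xs T x' - j * b) = xs T x - xs T x' - ((i : ℝ) - j) * b := by ring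
      rw [e3]
      ring
    simp only
    rw [Finset.sum_congr rfl this, Finset.sum_comm]
    refine Finset.sum_congr rfl fun j _ => ?_
    rw [← lag_cast]
    unfold TW
    rw [Finset.mul_sum]
    refine Finset.sum_congr rfl fun x _ => ?_
    rw [Finset.mul_sum]
  rw [e1, e2] at h
  set Q : ℝ := ∑ i ∈ s, ∑ j ∈ s, z i * z j * TW T w ((lag i j : ℕ) * b) δ with hQ
  have hden : ∑ x ∈ S, w x = den T w * XX T := by
    unfold den
    rw [div_mul_cancel₀ _ hX.ne']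
  rw [hden] at h
  have h3 : XX T + 2 * (κ * XX T) + δ ≤ (1 + e) * XX T := by
    have h4 : (2 * κ + 1 / XX T) * XX T ≤ e * XX T := by gcongr
    have h5 : (2 * κ + 1 / XX T) * XX T = 2 * κ * XX T + 1 := by field_simp
    linarith
  have hℓ : 0 < XX T + 2 * (κ * XX T) + δ := by positivity
  have hQ0 : 0 ≤ Q := by
    have h5 : 0 ≤ (XX T + 2 * (κ * XX T) + δ) * Q := le_trans (by positivity) h
    exact nonneg_of_mul_nonneg_right h5 hℓ
  have h8 : δ * ((∑ i ∈ s, z i) * (den T w * XX T)) ^ 2 ≤ (1 + e) * XX T * Q :=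
    h.trans (mul_le_mul_of_nonneg_right h3 hQ0)
  show (den T w) ^ 2 / (1 + e) * (δ * XX T) * (∑ i ∈ s, z i) ^ 2 ≤ Q
  have h9 : (den T w) ^ 2 / (1 + e) * (δ * XX T) * (∑ i ∈ s, z i) ^ 2 * ((1 + e) * XX T) ≤
      Q * ((1 + e) * XX T) := by
    have e4 : (den T w) ^ 2 / (1 + e) * (δ * XX T) * (∑ i ∈ s, z i) ^ 2 * ((1 + e) * XX T) =
        δ * ((∑ i ∈ s, z i) * (den T w * XX T)) ^ 2 := by
      field_simp
    rw [e4]
    linarith
  exact le_of_mul_le_mul_right h9 (by positivity)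

lemma bern {e : ℝ} (he : 0 < e) (he1 : e ≤ 1) (k : ℕ) : 1 - k * e ≤ (1 / (1 + e)) ^ k := by
  have h1 : 1 - e ≤ 1 / (1 + e) := by
    rw [le_div_iff₀ (by linarith)]
    nlinarith
  have h2 : (1 - e) ^ k ≤ (1 / (1 + e)) ^ k := pow_le_pow_left₀ (by linarith) h1 k
  have h3 := one_add_mul_le_pow (a := -e) (by linarith) k
  calc 1 - k * e = 1 + k * -e := by ring
    _ ≤ (1 + -e) ^ k := h3
    _ = (1 - e) ^ k := by ring
    _ ≤ _ := h2

/-- **windows at `n b_1, …, n b_k` for some `n` in a set of recurrence** -/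
theorem main_rec {R : Set ℕ} (hR : PDN R) (k : ℕ) (δ₀ ε : ℝ) (hδ₀ : 0 < δ₀) (hε : 0 < ε) :
    ∃ (F : Finset ℕ) (κ T₀ : ℝ), (∀ n ∈ F, n ∈ R) ∧ 0 < κ ∧ 10 ≤ T₀ ∧ ∀ T : ℝ, T₀ ≤ T →
      ∀ w : Fin k → ℂ → ℝ, (∀ j, Adm T (w j)) → ∀ b δ : Fin k → ℝ,
        (∀ j, δ₀ ≤ δ j ∧ δ j ≤ 1) → (∀ j, |b j| ≤ κ * XX T) →
        ∃ n ∈ F, ((∏ j, (den T (w j)) ^ 2) - ε) * ∏ j, (δ j * XX T) ≤
          ∏ j, TW T (w j) (n * b j) (δ j) := by
  classical
  obtain ⟨C, T₁, hC, h10, hd⟩ := diag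
  obtain ⟨T₂, -, hW⟩ := all_count (ε := 1 / 4) (by positivity)
  set A : ℝ := ((5 / 4 : ℝ) ^ 2) ^ k with hA
  have hA0 : 0 < A := by positivity
  set e : ℝ := min 1 (ε / (2 * (k + 1) * A)) with he
  have he0 : 0 < e := lt_min one_pos (by positivity)
  have he1 : e ≤ 1 := min_le_left _ _
  have he2 : A * (k * e) ≤ ε / 2 := by
    have h1 : e ≤ ε / (2 * (k + 1) * A) := min_le_right _ _
    calc A * (k * e) ≤ A * (k * (ε / (2 * (k + 1) * A))) := by gcongr
      _ = ε / 2 * (k / (k + 1)) := by field_simp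
      _ ≤ ε / 2 * 1 := by
          gcongr
          rw [div_le_one (by positivity)]
          linarith
      _ = _ := mul_one _
  obtain ⟨F, a, hFR, ha, hsum, hx⟩ := cos_of_pdN hR (ε * δ₀ ^ k / (4 * C ^ k)) (by positivity)
  set N : ℕ := 2 * F.sup id + 1 with hN
  have hNF : ∀ n ∈ F, 2 * n ≤ N := by
    intro n hn
    have := Finset.le_sup (f := id) hn
    simp only [id] at this
    omega
  have hNR : (0 : ℝ) < N := by
    have : 0 < N := by omega
    exact_mod_cast this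
  obtain ⟨T₃, hX3⟩ := XX_large (2 / e)
  refine ⟨F, e / 4 / N, max T₁ (max T₂ T₃), hFR, by positivity, h10.trans (le_max_left _ _),
    fun T hT w hw b δ hδ hb => ?_⟩
  have g1 : T₁ ≤ T := (le_max_left _ _).trans hT
  have g2 : T₂ ≤ T := (le_max_left _ _).trans ((le_max_right _ _).trans hT)
  have g3 : T₃ ≤ T := (le_max_right _ _).trans ((le_max_right _ _).trans hT)
  have hT1 : 1 < T := by linarith
  have hX := XX_pos hT1
  have hXl := hX3 T g3
  have h1X : 1 / XX T ≤ e / 2 := by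
    rw [div_le_div_iff₀ hX (by norm_num)]
    rw [div_le_iff₀ he0] at hXl
    linarith
  have hδ0 : ∀ j, 0 < δ j := fun j => hδ₀.trans_le (hδ j).1
  have hPF := PF.prod (N := N) Finset.univ (fun (j : Fin k) n => TW T (w j) (n * b j) (δ j))
    (fun j => (den T (w j)) ^ 2 / (1 + e) * (δ j * XX T)) (fun j _ =>
      TW_PF (κ := e / 4) hT1 (by positivity) (hw j) (hδ0 j) (hδ j).2 he0 (by linarith) (by
        have h1 := hb j
        calc (N : ℝ) * |b j| ≤ N * (e / 4 / N * XX T) := by gcongr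
          _ = e / 4 * XX T := by field_simp))
    (fun j _ => by
      have := hδ0 j
      positivity)
  obtain ⟨n, hn, hle⟩ := hPF.exists (Finset.prod_nonneg fun j _ => by
      have := hδ0 j
      positivity) ha (by positivity) hsum hx hNF (by omega)
  refine ⟨n, hn, le_trans ?_ hle⟩
  set Pr : ℝ := ∏ j, (δ j * XX T) with hPr
  have hP0 : 0 ≤ Pr := Finset.prod_nonneg fun j _ => by
    have := hδ0 j
    positivity
  set D : ℝ := ∏ j, (den T (w j)) ^ 2 with hD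
  have hD0 : 0 ≤ D := Finset.prod_nonneg fun j _ => sq_nonneg _
  have hDA : D ≤ A := by
    have h1 : D ≤ ∏ _j : Fin k, ((5 / 4 : ℝ)) ^ 2 := by
      refine Finset.prod_le_prod (fun j _ => sq_nonneg _) fun j _ => ?_
      have h2 := den_nonneg hT1 (hw j)
      have h3 : den T (w j) ≤ 5 / 4 := by
        have := (den_le hT1 (hw j)).trans (hW T g2).2
        linarith
      exact pow_le_pow_left₀ h2 h3 2
    simpa using h1
  have e1 : ∏ j : Fin k, ((den T (w j)) ^ 2 / (1 + e) * (δ j * XX T)) =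
      D * (1 / (1 + e)) ^ k * Pr := by
    rw [hD, hPr]
    have h1 : (1 / (1 + e)) ^ k = ∏ _j : Fin k, (1 / (1 + e)) := by simp
    rw [h1, ← Finset.prod_mul_distrib, ← Finset.prod_mul_distrib]
    exact Finset.prod_congr rfl fun j _ => by ring
  have h1 : (D - ε / 2) * Pr ≤ D * (1 / (1 + e)) ^ k * Pr := by
    refine mul_le_mul_of_nonneg_right ?_ hP0
    have h2 := bern he0 he1 k
    have h3 : D * (1 - k * e) ≤ D * (1 / (1 + e)) ^ k := mul_le_mul_of_nonneg_left h2 hD0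
    have h4 : D * (k * e) ≤ A * (k * e) := mul_le_mul_of_nonneg_right hDA (by positivity)
    linarith
  have h2 : 2 * (ε * δ₀ ^ k / (4 * C ^ k)) * ∏ j, TW T (w j) (((0 : ℕ) : ℝ) * b j) (δ j) ≤
      ε / 2 * Pr := by
    have h3 : ∏ j, TW T (w j) (((0 : ℕ) : ℝ) * b j) (δ j) ≤ (C * XX T) ^ k := by
      have h4 : ∏ j, TW T (w j) (((0 : ℕ) : ℝ) * b j) (δ j) ≤ ∏ _j : Fin k, (C * XX T) := by
        refine Finset.prod_le_prod (fun j _ => TW_nonneg (hw j) _ _) fun j _ => ?_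
        rw [Nat.cast_zero, zero_mul]
        exact hd T g1 (δ j) (hδ0 j) (hδ j).2 (w j) (hw j)
      simpa using h4
    have h5 : δ₀ ^ k * (XX T) ^ k ≤ Pr := by
      rw [← mul_pow]
      have h6 : ∏ _j : Fin k, (δ₀ * XX T) ≤ Pr := by
        refine Finset.prod_le_prod (fun j _ => by positivity) fun j _ => ?_
        exact mul_le_mul_of_nonneg_right (hδ j).1 hX.le
      simpa using h6
    calc 2 * (ε * δ₀ ^ k / (4 * C ^ k)) * ∏ j, TW T (w j) (((0 : ℕ) : ℝ) * b j) (δ j) ≤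
        2 * (ε * δ₀ ^ k / (4 * C ^ k)) * (C * XX T) ^ k := by gcongr
      _ = ε / 2 * (δ₀ ^ k * (XX T) ^ k) := by
          rw [mul_pow]
          field_simp
          ring
      _ ≤ ε / 2 * Pr := by gcongr
  rw [e1]
  have h3 : (D - ε) * Pr = (D - ε / 2) * Pr - ε / 2 * Pr := by ring
  rw [h3]
  linarith

end Pool.Agent.P8H16
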