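import Pool.Agent.P8H16.Tri
import Pool.Agent.N804.WinT
import Pool.Agent.H370R2.Expl1
import Pool.Agent.H370R2.Expl3
import Pool.Agent.W54.TCF.NT
import Pool.Agent.Y47.BU.Ram

set_option autoImplicit false

/-! # Short windows at the differences of a set of reals -/

namespace Pool.Agent.P8H16

open MeasureTheory Set Filter Topology
open H370 (Zf mult NN good_zeta zset)
open Pool.Agent.N804 (XX XX_pos Pc Pe Pc_nonneg Pe_nonneg mean_T pt_T CF MF PP ms ms_eq mem_Z)

/-- normalised ordinate -/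
noncomputable def xs (T : ℝ) (s : ℂ) : ℝ := s.im * Real.log T / (2 * Real.pi)

/-- the simple zeros on the critical line -/
noncomputable def SS (T : ℝ) : Finset ℂ := by
  classical
  exact (Zf riemannZeta 0 T).filter (fun s => s.re = 1 / 2 ∧ mult riemannZeta s = 1)

/-- admissible weights -/
def Adm (T : ℝ) (w : ℂ → ℝ) : Prop :=
  ∀ s ∈ Zf riemannZeta 0 T, 0 ≤ w s ∧ w s ≤ mult riemannZeta s

/-- smoothed window, weighted zeros -/
noncomputable def TW (T : ℝ) (w : ℂ → ℝ) (c δ : ℝ) : ℝ :=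
  ∑ s ∈ Zf riemannZeta 0 T, ∑ s' ∈ Zf riemannZeta 0 T,
    w s * w s' * hat δ (xs T s - xs T s' - c)

/-- the relative mass of the weights -/
noncomputable def den (T : ℝ) (w : ℂ → ℝ) : ℝ := (∑ s ∈ Zf riemannZeta 0 T, w s) / XX T

lemma xs_mem {T : ℝ} (hT : 1 < T) {s : ℂ} (hs : s ∈ Zf riemannZeta 0 T) :
    0 ≤ xs T s ∧ xs T s ≤ XX T := by
  rw [mem_Z le_rfl] at hs
  obtain ⟨-, -, h1, h2, -⟩ := hs
  have hL : 0 < Real.log T := Real.log_pos hT
  have hpi := Real.pi_pos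
  unfold xs XX
  constructor
  · positivity
  · gcongr

lemma TW_nonneg {T : ℝ} {w : ℂ → ℝ} (hw : Adm T w) (c δ : ℝ) : 0 ≤ TW T w c δ :=
  Finset.sum_nonneg fun s hs => Finset.sum_nonneg fun s' hs' =>
    mul_nonneg (mul_nonneg (hw s hs).1 (hw s' hs').1) (hat_nonneg _ _)

lemma TW_le {T : ℝ} {w : ℂ → ℝ} (hw : Adm T w) (c δ : ℝ) :
    TW T w c δ ≤ TW T (fun s => (mult riemannZeta s : ℝ)) c δ := by
  unfold TW
  refine Finset.sum_le_sum fun s hs => Finset.sum_le_sum fun s' hs' => ?_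
  obtain ⟨a1, a2⟩ := hw s hs
  obtain ⟨b1, b2⟩ := hw s' hs'
  have := hat_nonneg δ (xs T s - xs T s' - c)
  gcongr

/-- the diagonal -/
lemma diag : ∃ C T₀ : ℝ, 0 < C ∧ 10 ≤ T₀ ∧ ∀ T : ℝ, T₀ ≤ T → ∀ δ : ℝ, 0 < δ → δ ≤ 1 →
    ∀ w : ℂ → ℝ, Adm T w → TW T w 0 δ ≤ C * XX T := by
  classical
  obtain ⟨K₁, hK₁, h1⟩ := mean_T
  obtain ⟨K₂, hK₂, h2⟩ := pt_T
  obtain ⟨T₁, hT₁⟩ := eventually_atTop.1 ((h1 1 one_pos).and (h2 1 one_pos))
  set I : ℝ := |∫ x in (0 : ℝ)..1, PP x| with hI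
  have hI0 : 0 ≤ I := abs_nonneg _
  refine ⟨2 * (K₁ + I) + 1 + 2 * (|PP 1| + K₂), max T₁ 10, by positivity, le_max_right _ _,
    fun T hT δ hδ hδ1 w hw => (TW_le hw 0 δ).trans ?_⟩
  obtain ⟨g1, g2⟩ := hT₁ T ((le_max_left _ _).trans hT)
  have hT10 : 10 ≤ T := (le_max_right _ _).trans hT
  have hT1 : 1 < T := by linarith
  have hX := XX_pos hT1
  have hL : 0 < Real.log T := Real.log_pos hT1
  have hpi := Real.pi_pos
  -- `MF T` is bounded
  have h3 : MF T ≤ 2 * (K₁ + I) + 1 := by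
    have a1 := (abs_le.1 g1).2
    have hCI : IntervalIntegrable (CF T) volume 0 1 := Pool.Agent.N804.CF_ii hT1 0 1
    have hPI : IntervalIntegrable PP volume 0 1 :=
      Pool.Agent.N804.PP_cont.intervalIntegrable _ _
    rw [intervalIntegral.integral_sub hCI hPI] at a1
    have a2 : 0 ≤ ∫ x in (0 : ℝ)..1, CF T x := by
      refine intervalIntegral.integral_nonneg zero_le_one fun x _ => ?_
      unfold CF
      exact div_nonneg (Pc_nonneg _ _) hX.le
    have a3 := le_abs_self (∫ x in (0 : ℝ)..1, PP x)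
    linarith
  have h4 : CF T 1 ≤ |PP 1| + K₂ := by
    have a1 := (abs_le.1 g2).2
    have a2 := le_abs_self (PP 1)
    linarith
  have h5 : TW T (fun s => (mult riemannZeta s : ℝ)) 0 δ ≤ Pe (Zf riemannZeta 0 T) +
      2 * Pc (Zf riemannZeta 0 T) (2 * Real.pi * 1 / Real.log T) := by
    have e : ∀ S : Finset ℂ, Pc S (2 * Real.pi * 1 / Real.log T) = ∑ s ∈ S, ∑ s' ∈ S,
        if 0 < s'.im - s.im ∧ s'.im - s.im ≤ 2 * Real.pi * 1 / Real.log T then
          (mult riemannZeta s : ℝ) * (mult riemannZeta s' : ℝ) else 0 := by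
      intro S
      unfold Pc
      rw [Finset.sum_comm]
      refine Finset.sum_congr rfl fun s _ => Finset.sum_congr rfl fun s' _ => ?_
      rw [mul_comm (mult riemannZeta s' : ℝ)]
    have e2 : Pe (Zf riemannZeta 0 T) +
      2 * Pc (Zf riemannZeta 0 T) (2 * Real.pi * 1 / Real.log T) = Pe (Zf riemannZeta 0 T) +
      (Pc (Zf riemannZeta 0 T) (2 * Real.pi * 1 / Real.log T) +
      Pc (Zf riemannZeta 0 T) (2 * Real.pi * 1 / Real.log T)) := by ring
    rw [e2]
    nth_rewrite 2 [e]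
    unfold TW Pc Pe
    rw [← Finset.sum_add_distrib, ← Finset.sum_add_distrib]
    refine Finset.sum_le_sum fun s _ => ?_
    rw [← Finset.sum_add_distrib, ← Finset.sum_add_distrib]
    refine Finset.sum_le_sum fun s' _ => ?_
    have hm : 0 ≤ (mult riemannZeta s : ℝ) * (mult riemannZeta s' : ℝ) := by positivity
    have hh1 := hat_le_one hδ (xs T s - xs T s' - 0)
    have hmh : (mult riemannZeta s : ℝ) * (mult riemannZeta s' : ℝ) *
        hat δ (xs T s - xs T s' - 0) ≤ (mult riemannZeta s : ℝ) * (mult riemannZeta s' : ℝ) := by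
      calc _ ≤ (mult riemannZeta s : ℝ) * (mult riemannZeta s' : ℝ) * 1 := by gcongr
        _ = _ := mul_one _
    have hb : ∀ p : Prop, [Decidable p] → 0 ≤ (if p then (mult riemannZeta s : ℝ) *
        (mult riemannZeta s' : ℝ) else 0) := by
      intro p _
      split_ifs
      · exact hm
      · exact le_rfl
    rcases le_or_gt δ |xs T s - xs T s' - 0| with h6 | h6
    · rw [hat_eq_zero hδ h6, mul_zero]
      exact add_nonneg (hb _) (add_nonneg (hb _) (hb _))
    · have h7 : |(s.im - s'.im) * Real.log T| < 2 * Real.pi := by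
        have e3 : (s.im - s'.im) * Real.log T = (xs T s - xs T s' - 0) * (2 * Real.pi) := by
          unfold xs
          field_simp
          ring
        rw [e3, abs_mul, abs_of_pos (show 0 < 2 * Real.pi by positivity)]
        calc |xs T s - xs T s' - 0| * (2 * Real.pi) < 1 * (2 * Real.pi) := by
              gcongr
              linarith
          _ = _ := one_mul _
      obtain ⟨h8, h9⟩ := abs_lt.1 h7
      rcases lt_trichotomy s.im s'.im with h10 | h10 | h10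
      · have c1 : 0 < s'.im - s.im ∧ s'.im - s.im ≤ 2 * Real.pi * 1 / Real.log T := by
          refine ⟨by linarith, ?_⟩
          rw [le_div_iff₀ hL]
          linarith
        rw [if_pos c1]
        linarith [hb (s.im = s'.im), hb (0 < s.im - s'.im ∧ s.im - s'.im ≤ 2 * Real.pi * 1 / Real.log T)]
      · rw [if_pos h10]
        linarith [hb (0 < s'.im - s.im ∧ s'.im - s.im ≤ 2 * Real.pi * 1 / Real.log T), hb (0 < s.im - s'.im ∧ s.im - s'.im ≤ 2 * Real.pi * 1 / Real.log T)]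
      · have c1 : 0 < s.im - s'.im ∧ s.im - s'.im ≤ 2 * Real.pi * 1 / Real.log T := by
          refine ⟨by linarith, ?_⟩
          rw [le_div_iff₀ hL]
          linarith
        rw [if_pos c1]
        linarith [hb (s.im = s'.im), hb (0 < s'.im - s.im ∧ s'.im - s.im ≤ 2 * Real.pi * 1 / Real.log T)]
  have h6 : Pe (Zf riemannZeta 0 T) = MF T * XX T := by
    unfold MF
    field_simp
  have h7 : Pc (Zf riemannZeta 0 T) (2 * Real.pi * 1 / Real.log T) = CF T 1 * XX T := by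
    unfold CF
    field_simp
  rw [h6, h7] at h5
  nlinarith

/-- from the count of points to the windows -/
lemma core {w : ℂ → ℝ} {T κ e δ : ℝ} (hT : 1 < T) (hw : Adm T w) (hκ : 0 ≤ κ) (hδ : 0 < δ)
    (hδ1 : δ ≤ 1) (he : 0 < e) (hκe : 2 * κ + 1 / XX T ≤ e) {m : ℕ} (a : Fin m → ℝ)
    (ha : ∀ i j, |a i - a j| ≤ κ * XX T) :
    (m : ℝ) ^ 2 * δ * ((den T w) ^ 2 / (1 + e)) * XX T ≤ ∑ i, ∑ j, TW T w (a i - a j) δ := by
  have hX := XX_pos hT
  have h := shifts_ineq (Zf riemannZeta 0 T) w (xs T) (X := XX T) (B := κ * XX T) hX hδ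
    (fun s hs => xs_mem hT hs) a (by positivity) ha
  have hQe : ∑ i, ∑ j, ∑ s ∈ Zf riemannZeta 0 T, ∑ s' ∈ Zf riemannZeta 0 T,
      w s * w s' * hat δ (xs T s - xs T s' - (a i - a j)) = ∑ i, ∑ j, TW T w (a i - a j) δ := rfl
  rw [hQe] at h
  set Q : ℝ := ∑ i, ∑ j, TW T w (a i - a j) δ
  have hden : ∑ s ∈ Zf riemannZeta 0 T, w s = den T w * XX T := by
    unfold den
    field_simp
  rw [hden] at h
  have h3 : XX T + 2 * (κ * XX T) + δ ≤ (1 + e) * XX T := by
    have h4 : (2 * κ + 1 / XX T) * XX T ≤ e * XX T := by gcongr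
    have h5 : (2 * κ + 1 / XX T) * XX T = 2 * κ * XX T + 1 := by field_simp
    linarith
  have hQ : 0 ≤ Q := Finset.sum_nonneg fun i _ => Finset.sum_nonneg fun j _ => TW_nonneg hw _ _
  have h8 : (m : ℝ) ^ 2 * δ * (den T w * XX T) ^ 2 ≤ (1 + e) * XX T * Q :=
    h.trans (mul_le_mul_of_nonneg_right h3 hQ)
  have h9 : (m : ℝ) ^ 2 * δ * ((den T w) ^ 2 / (1 + e)) * XX T * ((1 + e) * XX T) ≤
      Q * ((1 + e) * XX T) := by
    have e1 : (m : ℝ) ^ 2 * δ * ((den T w) ^ 2 / (1 + e)) * XX T * ((1 + e) * XX T) =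
        (m : ℝ) ^ 2 * δ * (den T w * XX T) ^ 2 := by
      field_simp
    rw [e1]
    linarith
  exact le_of_mul_le_mul_right h9 (by positivity)

/-- the number of all zeros -/
lemma all_count {ε : ℝ} (hε : 0 < ε) : ∃ T₀ : ℝ, 10 ≤ T₀ ∧ ∀ T : ℝ, T₀ ≤ T →
    1 - ε ≤ den T (fun s => (mult riemannZeta s : ℝ)) ∧
    den T (fun s => (mult riemannZeta s : ℝ)) ≤ 1 + ε := by
  obtain ⟨T₀, h10, h⟩ := Pool.Agent.W54.TCF.NT_asymp' ε hε
  refine ⟨T₀, h10, fun T hT => ?_⟩
  obtain ⟨h1, h3⟩ := h T hT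
  have hX : 0 < XX T := XX_pos (by linarith)
  have h2 := ms_eq (A := 0) (B := T) le_rfl
  unfold ms at h2
  have h4 : T / (2 * Real.pi) * Real.log T = XX T := by
    unfold XX
    ring
  rw [h4] at h1 h3
  unfold den
  rw [h2]
  constructor
  · rw [le_div_iff₀ hX]
    exact h1
  · rw [div_le_iff₀ hX]
    exact h3

lemma den_le {T : ℝ} (hT : 1 < T) {w : ℂ → ℝ} (hw : Adm T w) :
    den T w ≤ den T (fun s => (mult riemannZeta s : ℝ)) := by
  unfold den
  exact div_le_div_of_nonneg_right (Finset.sum_le_sum fun s hs => (hw s hs).2) (XX_pos hT).le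

lemma den_nonneg {T : ℝ} (hT : 1 < T) {w : ℂ → ℝ} (hw : Adm T w) : 0 ≤ den T w :=
  div_nonneg (Finset.sum_nonneg fun s hs => (hw s hs).1) (XX_pos hT).le

/-- the number of simple zeros on the critical line -/
lemma simple_count : ∃ T₀ : ℝ, 10 ≤ T₀ ∧ ∀ T : ℝ, T₀ ≤ T →
    0.6725 * XX T ≤ ((SS T).card : ℝ) := by
  classical
  obtain ⟨T0, hT0⟩ := H370.Expl.main_numeric riemannZeta H370.good_zeta
  obtain ⟨X0, hX0⟩ := H370.dyadic_zero H370.good_zeta H370.zeta_zeros_finite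
    (fun a b => H370.Ns riemannZeta a b)
    (fun a b c h1 h2 h3 => H370.Ns_add H370.good_zeta h1 h2 h3)
    (fun a X ha => Set.ncard_le_ncard (fun s hs => ⟨H370.zset_mono _ ha le_rfl hs.1, hs.2⟩)
      ((H370.zeta_zeros_finite X).subset fun s hs => hs.1))
    0.672605 0.6726 T0 (by norm_num) (by norm_num) (fun T hT => (hT0 T hT).1)
  obtain ⟨T₁, h10, h⟩ := Pool.Agent.W54.TCF.NT_asymp' 0.0001 (by norm_num)
  refine ⟨max X0 T₁, h10.trans (le_max_right _ _), fun T hT => ?_⟩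
  have h1 := hX0 T ((le_max_left _ _).trans hT)
  have h2 := (h T ((le_max_right _ _).trans hT)).1
  have hT1 : 1 < T := by linarith [(le_max_right X0 T₁).trans hT]
  have hX := XX_pos hT1
  have h3 : (H370.Ns riemannZeta 0 T : ℝ) = ((SS T).card : ℝ) := by
    unfold H370.Ns
    rw [← Set.ncard_coe_finset]
    congr 2
    ext s
    unfold SS
    rw [Finset.coe_filter, Set.mem_ofPred_eq, Set.mem_ofPred_eq, mem_Z le_rfl]
  rw [← h3]
  refine le_trans ?_ h1
  have h4 : T / (2 * Real.pi) * Real.log T = XX T := by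
    unfold XX
    ring
  rw [h4] at h2
  nlinarith

end Pool.Agent.P8H16
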