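import Mathlib

set_option autoImplicit false

/-! # The Cauchy–Schwarz inequality for hat functions -/

namespace Pool.Agent.P8H16

open MeasureTheory Set

/-- the hat function of width `δ` -/
noncomputable def hat (δ x : ℝ) : ℝ := max 0 (1 - |x| / δ)

lemma hat_nonneg (δ x : ℝ) : 0 ≤ hat δ x := le_max_left _ _

lemma hat_neg (δ x : ℝ) : hat δ (-x) = hat δ x := by
  unfold hat
  rw [abs_neg]

lemma hat_le_one {δ : ℝ} (hδ : 0 < δ) (x : ℝ) : hat δ x ≤ 1 := by
  unfold hat
  refine max_le zero_le_one ?_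
  have : 0 ≤ |x| / δ := by positivity
  linarith

lemma hat_eq_zero {δ : ℝ} (hδ : 0 < δ) {x : ℝ} (h : δ ≤ |x|) : hat δ x = 0 := by
  unfold hat
  refine max_eq_left ?_
  have : 1 ≤ |x| / δ := by rwa [le_div_iff₀ hδ, one_mul]
  linarith

lemma abs_lt_of_hat {δ : ℝ} (hδ : 0 < δ) {x : ℝ} (h : 0 < hat δ x) : |x| < δ := by
  by_contra hcon
  rw [hat_eq_zero hδ (not_lt.1 hcon)] at h
  exact lt_irrefl _ h

/-- overlap of two intervals of length `δ` -/
lemma overlap {δ : ℝ} (hδ : 0 < δ) (y z : ℝ) :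
    volume.real (Ico y (y + δ) ∩ Ico z (z + δ)) = δ * hat δ (y - z) := by
  rw [Ico_inter_Ico, Measure.real, Real.volume_Ico, ENNReal.toReal_ofReal', max_comm _ (0 : ℝ)]
  unfold hat
  rcases le_total y z with h | h
  · rw [max_eq_right h, min_eq_left (by linarith), abs_of_nonpos (by linarith)]
    rcases le_total (y + δ - z) 0 with h1 | h1
    · rw [max_eq_left h1, max_eq_left, mul_zero]
      have : 1 ≤ -(y - z) / δ := by rw [le_div_iff₀ hδ]; linarith
      linarith
    · rw [max_eq_right h1, max_eq_right]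
      · field_simp
        ring
      · have : -(y - z) / δ ≤ 1 := by rw [div_le_iff₀ hδ]; linarith
        linarith
  · rw [max_eq_left h, min_eq_right (by linarith), abs_of_nonneg (by linarith)]
    rcases le_total (z + δ - y) 0 with h1 | h1
    · rw [max_eq_left h1, max_eq_left, mul_zero]
      have : 1 ≤ (y - z) / δ := by rw [le_div_iff₀ hδ]; linarith
      linarith
    · rw [max_eq_right h1, max_eq_right]
      · field_simp
        ring
      · have : (y - z) / δ ≤ 1 := by rw [div_le_iff₀ hδ]; linarith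
        linarith

/-- **Cauchy–Schwarz for hat functions** -/
theorem tri_ineq {ι : Type*} (K : Finset ι) (v y : ι → ℝ) {u ℓ δ : ℝ} (hδ : 0 < δ) (hℓ : 0 < ℓ)
    (hy : ∀ k ∈ K, u ≤ y k ∧ y k + δ ≤ u + ℓ) :
    δ * (∑ k ∈ K, v k) ^ 2 ≤ ℓ * ∑ k ∈ K, ∑ k' ∈ K, v k * v k' * hat δ (y k - y k') := by
  classical
  set J : Set ℝ := Ico u (u + ℓ) with hJ
  have hJm : volume.real J = ℓ := by
    rw [hJ, Measure.real, Real.volume_Ico, ENNReal.toReal_ofReal (by linarith)]
    ring
  set g : ι → ℝ → ℝ := fun k => (Ico (y k) (y k + δ)).indicator (fun _ => (1 : ℝ)) with hg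
  have hgI : ∀ k, Integrable (g k) (volume.restrict J) := by
    intro k
    refine (integrable_indicator_iff measurableSet_Ico).2 ?_
    refine (integrableOn_const_iff (by simp)).2 (Or.inr ?_)
    exact lt_of_le_of_lt (Measure.restrict_apply_le _ _) (by simp)
  have hgg : ∀ k k' t, g k t * g k' t =
      (Ico (y k) (y k + δ) ∩ Ico (y k') (y k' + δ)).indicator (fun _ => (1 : ℝ)) t := by
    intro k k' t
    simp only [hg, Set.indicator_apply, mem_inter_iff]
    by_cases h1 : t ∈ Ico (y k) (y k + δ) <;> by_cases h2 : t ∈ Ico (y k') (y k' + δ) <;>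
      simp [h1, h2]
  have hggI : ∀ k k', Integrable (fun t => g k t * g k' t) (volume.restrict J) := by
    intro k k'
    simp_rw [hgg]
    refine (integrable_indicator_iff (measurableSet_Ico.inter measurableSet_Ico)).2 ?_
    refine (integrableOn_const_iff (by simp)).2 (Or.inr ?_)
    refine lt_of_le_of_lt (Measure.restrict_apply_le _ _) ?_
    exact lt_of_le_of_lt (measure_mono inter_subset_left) (by simp)
  have h1 : ∀ k ∈ K, ∫ t in J, g k t = δ := by
    intro k hk
    obtain ⟨a, b⟩ := hy k hk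
    simp only [hg]
    rw [integral_indicator_const _ measurableSet_Ico, measureReal_restrict_apply measurableSet_Ico,
      inter_eq_self_of_subset_left (Ico_subset_Ico a b), Measure.real, Real.volume_Ico,
      ENNReal.toReal_ofReal (by linarith)]
    simp
  have h2 : ∀ k ∈ K, ∀ k' ∈ K, ∫ t in J, g k t * g k' t = δ * hat δ (y k - y k') := by
    intro k hk k' _
    obtain ⟨a, b⟩ := hy k hk
    simp_rw [hgg]
    rw [integral_indicator_const _ (measurableSet_Ico.inter measurableSet_Ico),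
      measureReal_restrict_apply (measurableSet_Ico.inter measurableSet_Ico),
      inter_eq_self_of_subset_left (inter_subset_left.trans (Ico_subset_Ico a b)), overlap hδ]
    simp
  set f : ℝ → ℝ := fun t => ∑ k ∈ K, v k * g k t with hf
  have hfI : Integrable f (volume.restrict J) :=
    integrable_finsetSum _ fun k _ => (hgI k).const_mul _
  have hff : ∀ t, f t ^ 2 = ∑ k ∈ K, ∑ k' ∈ K, v k * v k' * (g k t * g k' t) := by
    intro t
    rw [hf, sq, Finset.sum_mul_sum]
    exact Finset.sum_congr rfl fun k _ => Finset.sum_congr rfl fun k' _ => by ring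
  have hffI : Integrable (fun t => f t ^ 2) (volume.restrict J) := by
    simp_rw [hff]
    exact integrable_finsetSum _ fun k _ => integrable_finsetSum _ fun k' _ =>
      (hggI k k').const_mul _
  have e1 : ∫ t in J, f t = δ * ∑ k ∈ K, v k := by
    rw [hf, integral_finsetSum _ fun k _ => (hgI k).const_mul _, Finset.mul_sum]
    refine Finset.sum_congr rfl fun k hk => ?_
    rw [integral_const_mul, h1 k hk]
    ring
  have e2 : ∫ t in J, f t ^ 2 = δ * ∑ k ∈ K, ∑ k' ∈ K, v k * v k' * hat δ (y k - y k') := by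
    simp_rw [hff]
    rw [integral_finsetSum _ fun k _ => integrable_finsetSum _ fun k' _ =>
      (hggI k k').const_mul _, Finset.mul_sum]
    refine Finset.sum_congr rfl fun k hk => ?_
    rw [integral_finsetSum _ fun k' _ => (hggI k k').const_mul _, Finset.mul_sum]
    refine Finset.sum_congr rfl fun k' hk' => ?_
    rw [integral_const_mul, h2 k hk k' hk']
    ring
  set c : ℝ := (∫ t in J, f t) / ℓ with hc
  have h3 : 0 ≤ ∫ t in J, (f t - c) ^ 2 := integral_nonneg fun t => sq_nonneg _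
  have e3 : ∫ t in J, (f t - c) ^ 2 = (∫ t in J, f t ^ 2) - 2 * c * (∫ t in J, f t) +
      c ^ 2 * ℓ := by
    have : ∀ t, (f t - c) ^ 2 = f t ^ 2 - 2 * c * f t + c ^ 2 := fun t => by ring
    simp_rw [this]
    have i1 : Integrable (fun t => f t ^ 2 - 2 * c * f t) (volume.restrict J) :=
      hffI.sub (hfI.const_mul _)
    have i2 : Integrable (fun _ : ℝ => c ^ 2) (volume.restrict J) := by
      refine (integrableOn_const_iff (by simp)).2 (Or.inr ?_)
      rw [hJ]; simp
    rw [integral_add i1 i2, integral_sub hffI (hfI.const_mul _), integral_const_mul,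
      setIntegral_const, hJm, smul_eq_mul]
    ring
  rw [e3] at h3
  have h4 : (∫ t in J, f t) ^ 2 ≤ ℓ * ∫ t in J, f t ^ 2 := by
    have h5 : c * ℓ = ∫ t in J, f t := by rw [hc]; field_simp
    have h6 : (∫ t in J, f t) ^ 2 = ℓ * (2 * c * (∫ t in J, f t) - c ^ 2 * ℓ) := by
      rw [← h5]; ring
    rw [h6]
    exact mul_le_mul_of_nonneg_left (by linarith) hℓ.le
  rw [e1, e2] at h4
  have h7 : δ * (δ * (∑ k ∈ K, v k) ^ 2) ≤
      δ * (ℓ * ∑ k ∈ K, ∑ k' ∈ K, v k * v k' * hat δ (y k - y k')) := by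
    nlinarith
  exact le_of_mul_le_mul_left h7 hδ

/-- the inequality for the translates of a finite set of points -/
theorem shifts_ineq {ι : Type*} (S : Finset ι) (w x : ι → ℝ) {X B δ : ℝ} (hX : 0 < X)
    (hδ : 0 < δ) (hx : ∀ s ∈ S, 0 ≤ x s ∧ x s ≤ X) {m : ℕ} (a : Fin m → ℝ) (hB : 0 ≤ B)
    (ha : ∀ i j, |a i - a j| ≤ B) :
    (m : ℝ) ^ 2 * δ * (∑ s ∈ S, w s) ^ 2 ≤ (X + 2 * B + δ) *
      ∑ i, ∑ j, ∑ s ∈ S, ∑ s' ∈ S, w s * w s' * hat δ (x s - x s' - (a i - a j)) := by
  classical
  rcases Nat.eq_zero_or_pos m with hm | hm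
  · subst hm
    simp
  set i₀ : Fin m := ⟨0, hm⟩
  have h := tri_ineq (Finset.univ ×ˢ S) (fun k : Fin m × ι => w k.2)
    (fun k => x k.2 - a k.1) (u := -a i₀ - B) (ℓ := X + 2 * B + δ) hδ (by linarith) (by
      rintro ⟨i, s⟩ hk
      rw [Finset.mem_product] at hk
      obtain ⟨h1, h2⟩ := hx s hk.2
      have h3 := abs_le.1 (ha i i₀)
      constructor
      · simp only; linarith
      · simp only; linarith)
  have e1 : ∑ k ∈ Finset.univ ×ˢ S, w (k : Fin m × ι).2 = m * ∑ s ∈ S, w s := by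
    rw [Finset.sum_product]
    simp
  have e2 : ∑ k ∈ Finset.univ ×ˢ S, ∑ k' ∈ Finset.univ ×ˢ S,
      w (k : Fin m × ι).2 * w (k' : Fin m × ι).2 * hat δ (x k.2 - a k.1 - (x k'.2 - a k'.1)) =
      ∑ i : Fin m, ∑ j : Fin m, ∑ s ∈ S, ∑ s' ∈ S, w s * w s' * hat δ (x s - x s' - (a i - a j)) := by
    rw [Finset.sum_product]
    refine Finset.sum_congr rfl fun i _ => ?_
    have : ∀ s ∈ S, ∑ k' ∈ Finset.univ ×ˢ S, w s * w (k' : Fin m × ι).2 *
        hat δ (x s - a i - (x k'.2 - a k'.1)) =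
        ∑ j : Fin m, ∑ s' ∈ S, w s * w s' * hat δ (x s - x s' - (a i - a j)) := by
      intro s _
      rw [Finset.sum_product]
      refine Finset.sum_congr rfl fun j _ => Finset.sum_congr rfl fun s' _ => ?_
      congr 2
      simp only
      ring
    simp only
    rw [Finset.sum_congr rfl this, Finset.sum_comm]
  rw [e1, e2] at h
  refine le_trans (le_of_eq ?_) h
  ring

end Pool.Agent.P8H16
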